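import Pool.Agent.VdCSquares.Core

set_option linter.unusedVariables false

namespace Pool.Agent.VdCSquares.L

open Real Finset

/-- primes `≡ 3 mod 4` up to `x` -/
def P3 (x : ℕ) : Finset ℕ := (Finset.range (x + 1)).filter (fun p => p.Prime ∧ p % 4 = 3)

noncomputable def chi705 (n : ℕ) : ℝ := if n % 4 = 1 then 1 else if n % 4 = 3 then -1 else 0

noncomputable def AA705 (t : ℕ) : ℝ := ∑ k ∈ Finset.Icc 1 t, chi705 k

theorem AA_eq705 (t : ℕ) : AA705 t = if t % 4 = 1 ∨ t % 4 = 2 then 1 else 0 := by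
  induction t with
  | zero => simp [AA705]
  | succ t ih =>
    have h : AA705 (t+1) = AA705 t + chi705 (t+1) := by
      unfold AA705
      rw [Finset.sum_Icc_succ_top (by omega)]
    rw [h, ih]
    unfold chi705
    have h4 : t % 4 = 0 ∨ t % 4 = 1 ∨ t % 4 = 2 ∨ t % 4 = 3 := by omega
    rcases h4 with h4 | h4 | h4 | h4
    · have h5 : (t + 1) % 4 = 1 := by omega
      simp [h4, h5]
    · have h5 : (t + 1) % 4 = 2 := by omega
      simp [h4, h5]
    · have h5 : (t + 1) % 4 = 3 := by omega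
      simp [h4, h5]
    · have h5 : (t + 1) % 4 = 0 := by omega
      simp [h4, h5]

theorem chi_mul705 (m k : ℕ) : chi705 (m * k) = chi705 m * chi705 k := by
  unfold chi705
  have hm : m % 4 = 0 ∨ m % 4 = 1 ∨ m % 4 = 2 ∨ m % 4 = 3 := by omega
  have hk : k % 4 = 0 ∨ k % 4 = 1 ∨ k % 4 = 2 ∨ k % 4 = 3 := by omega
  rw [Nat.mul_mod]
  rcases hm with hm | hm | hm | hm <;> rcases hk with hk | hk | hk | hk <;> simp [hm, hk]

theorem DD705 (x : ℕ) (hx : 1 ≤ x) :
    ((x % 4 = 3 ∨ x % 4 = 0) → -Real.log x ≤ ∑ n ∈ Finset.Icc 1 x, chi705 n * Real.log n ∧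
      ∑ n ∈ Finset.Icc 1 x, chi705 n * Real.log n ≤ 0) ∧
    ((x % 4 = 1 ∨ x % 4 = 2) → 0 ≤ ∑ n ∈ Finset.Icc 1 x, chi705 n * Real.log n ∧
      ∑ n ∈ Finset.Icc 1 x, chi705 n * Real.log n ≤ Real.log x) := by
  induction x, hx using Nat.le_induction with
  | base =>
    refine ⟨fun h => by omega, fun _ => ?_⟩
    simp
  | succ x hx ih =>
    obtain ⟨ih1, ih2⟩ := ih
    rw [Finset.sum_Icc_succ_top (by omega)]
    have hx0 : (0:ℝ) < x := by exact_mod_cast hx
    have hlog : Real.log (x:ℝ) ≤ Real.log ((x + 1 : ℕ) : ℝ) := by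
      apply Real.log_le_log hx0
      push_cast
      linarith
    have h4 : x % 4 = 0 ∨ x % 4 = 1 ∨ x % 4 = 2 ∨ x % 4 = 3 := by omega
    rcases h4 with h4 | h4 | h4 | h4
    · have h5 : (x + 1) % 4 = 1 := by omega
      have hc : chi705 (x+1) = 1 := by unfold chi705; simp [h5]
      obtain ⟨j1, j2⟩ := ih1 (Or.inr h4)
      rw [hc]
      refine ⟨fun h => by omega, fun _ => ⟨by linarith, by linarith⟩⟩
    · have h5 : (x + 1) % 4 = 2 := by omega
      have hc : chi705 (x+1) = 0 := by unfold chi705; simp [h5]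
      obtain ⟨j1, j2⟩ := ih2 (Or.inl h4)
      rw [hc]
      refine ⟨fun h => by omega, fun _ => ⟨by linarith, by linarith⟩⟩
    · have h5 : (x + 1) % 4 = 3 := by omega
      have hc : chi705 (x+1) = -1 := by unfold chi705; simp [h5]
      obtain ⟨j1, j2⟩ := ih2 (Or.inr h4)
      rw [hc]
      refine ⟨fun _ => ⟨by linarith, by linarith⟩, fun h => by omega⟩
    · have h5 : (x + 1) % 4 = 0 := by omega
      have hc : chi705 (x+1) = 0 := by unfold chi705; simp [h5]
      obtain ⟨j1, j2⟩ := ih1 (Or.inl h4)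
      rw [hc]
      refine ⟨fun _ => ⟨by linarith, by linarith⟩, fun h => by omega⟩

theorem swap705 (x : ℕ) (f : ℕ → ℕ → ℝ) :
    ∑ n ∈ Finset.Icc 1 x, ∑ m ∈ n.divisors, f m n =
      ∑ m ∈ Finset.Icc 1 x, ∑ k ∈ Finset.Icc 1 (x / m), f m (m * k) := by
  rw [Finset.sum_sigma', Finset.sum_sigma']
  refine Finset.sum_nbij' (fun q => ⟨q.2, q.1 / q.2⟩) (fun q => ⟨q.1 * q.2, q.1⟩) ?_ ?_ ?_ ?_ ?_
  · rintro ⟨n, m⟩ h
    simp only [Finset.mem_sigma, Finset.mem_Icc, Nat.mem_divisors] at h ⊢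
    obtain ⟨⟨h1, h2⟩, h3, h4⟩ := h
    have hm : 0 < m := Nat.pos_of_dvd_of_pos h3 (by omega)
    refine ⟨⟨hm, (Nat.le_of_dvd (by omega) h3).trans h2⟩, ?_, ?_⟩
    · exact Nat.div_pos (Nat.le_of_dvd (by omega) h3) hm
    · exact Nat.div_le_div_right h2
  · rintro ⟨m, k⟩ h
    simp only [Finset.mem_sigma, Finset.mem_Icc, Nat.mem_divisors] at h ⊢
    obtain ⟨⟨h1, h2⟩, h3, h4⟩ := h
    have hmk : 0 < m * k := Nat.mul_pos h1 h3
    refine ⟨⟨hmk, ?_⟩, Dvd.intro _ rfl, hmk.ne'⟩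
    calc m * k ≤ m * (x / m) := Nat.mul_le_mul_left _ h4
      _ ≤ x := Nat.mul_div_le x m
  · rintro ⟨n, m⟩ h
    simp only [Finset.mem_sigma, Finset.mem_Icc, Nat.mem_divisors] at h
    obtain ⟨⟨h1, h2⟩, h3, h4⟩ := h
    simp only [Nat.mul_div_cancel' h3]
  · rintro ⟨m, k⟩ h
    simp only [Finset.mem_sigma, Finset.mem_Icc] at h
    obtain ⟨⟨h1, h2⟩, h3, h4⟩ := h
    simp only [Nat.mul_div_cancel_left k h1]
  · rintro ⟨n, m⟩ h
    simp only [Finset.mem_sigma, Finset.mem_Icc, Nat.mem_divisors] at h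
    obtain ⟨⟨h1, h2⟩, h3, h4⟩ := h
    simp only [Nat.mul_div_cancel' h3]

theorem even705 (x : ℕ) (hx : 1 ≤ x) :
    ∑ m ∈ (Finset.Ioc (x/3) x).filter (fun m => m % 2 = 0), ArithmeticFunction.vonMangoldt m ≤
      2 * Real.log 2 := by
  have hb : ∀ j : ℕ, ArithmeticFunction.vonMangoldt (2 ^ j) ≤ Real.log 2 := by
    intro j
    rcases Nat.eq_zero_or_pos j with h | h
    · rw [h, pow_zero, ArithmeticFunction.vonMangoldt_apply_one]
      exact Real.log_nonneg (by norm_num)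
    · rw [ArithmeticFunction.vonMangoldt_apply_pow h.ne',
        ArithmeticFunction.vonMangoldt_apply_prime Nat.prime_two]
      norm_num
  rw [← Finset.sum_filter_ne_zero]
  have hsub : ((Finset.Ioc (x/3) x).filter (fun m => m % 2 = 0)).filter
      (fun m => ArithmeticFunction.vonMangoldt m ≠ 0) ⊆
      (({Nat.log 2 x - 1, Nat.log 2 x} : Finset ℕ).image (fun j => 2 ^ j)) := by
    intro m hm
    rw [Finset.mem_filter, Finset.mem_filter, Finset.mem_Ioc] at hm
    obtain ⟨⟨⟨h1, h2⟩, h3⟩, h4⟩ := hm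
    rw [ArithmeticFunction.vonMangoldt_ne_zero_iff, isPrimePow_nat_iff] at h4
    obtain ⟨q, k, hq, hk, hqk⟩ := h4
    have h2q : 2 ∣ q := by
      apply Nat.prime_two.dvd_of_dvd_pow (n := k)
      rw [hqk]
      omega
    have hq2 : q = 2 := ((Nat.prime_dvd_prime_iff_eq Nat.prime_two hq).mp h2q).symm
    subst hq2
    rw [Finset.mem_image]
    refine ⟨k, ?_, hqk⟩
    have hkL : k ≤ Nat.log 2 x := by
      apply Nat.le_log_of_pow_le (by norm_num)
      omega
    have hLk : Nat.log 2 x < k + 2 := by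
      apply (Nat.pow_lt_pow_iff_right (by norm_num : 1 < 2)).mp
      have h5 : 2 ^ Nat.log 2 x ≤ x := Nat.pow_log_le_self 2 (by omega)
      have h6 : x < 3 * 2 ^ k := by omega
      calc 2 ^ Nat.log 2 x ≤ x := h5
        _ < 3 * 2 ^ k := h6
        _ ≤ 2 ^ (k + 2) := by rw [pow_add]; omega
    rw [Finset.mem_insert, Finset.mem_singleton]
    omega
  refine (Finset.sum_le_sum_of_subset_of_nonneg hsub
    (fun _ _ _ => ArithmeticFunction.vonMangoldt_nonneg)).trans ?_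
  have hcard : (({Nat.log 2 x - 1, Nat.log 2 x} : Finset ℕ).image (fun j => 2 ^ j)).card ≤ 2 :=
    Finset.card_image_le.trans Finset.card_le_two
  have hlog2 : 0 ≤ Real.log 2 := Real.log_nonneg (by norm_num)
  calc ∑ m ∈ (({Nat.log 2 x - 1, Nat.log 2 x} : Finset ℕ).image (fun j => 2 ^ j)),
        ArithmeticFunction.vonMangoldt m
      ≤ ∑ m ∈ (({Nat.log 2 x - 1, Nat.log 2 x} : Finset ℕ).image (fun j => 2 ^ j)), Real.log 2 := by
        apply Finset.sum_le_sum
        intro m hm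
        obtain ⟨j, _, rfl⟩ := Finset.mem_image.mp hm
        exact hb j
    _ = ((({Nat.log 2 x - 1, Nat.log 2 x} : Finset ℕ).image (fun j => 2 ^ j)).card : ℝ) *
        Real.log 2 := by rw [Finset.sum_const, nsmul_eq_mul]
    _ ≤ 2 * Real.log 2 := by
        apply mul_le_mul_of_nonneg_right _ hlog2
        exact_mod_cast hcard

/-- lower bound for the von Mangoldt sum over `m ≡ 3 mod 4` -/
theorem lam3 (x : ℕ) (hx : 3 ≤ x) :
    (Chebyshev.psi x - Chebyshev.psi ((x : ℝ) / 3) - 2 * Real.log 2 - Real.log x) / 2 ≤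
      ∑ m ∈ (Finset.Icc 1 x).filter (fun m => m % 4 = 3), ArithmeticFunction.vonMangoldt m := by
  have hA0 : ∀ t, 0 ≤ AA705 t := by
    intro t; rw [AA_eq705]; split_ifs <;> norm_num
  have hA1 : ∀ t, AA705 t ≤ 1 := by
    intro t; rw [AA_eq705]; split_ifs <;> norm_num
  have hL0 : ∀ m, 0 ≤ ArithmeticFunction.vonMangoldt m := fun m =>
    ArithmeticFunction.vonMangoldt_nonneg
  -- the identity
  have hD : ∑ n ∈ Finset.Icc 1 x, chi705 n * Real.log n =
      ∑ m ∈ Finset.Icc 1 x, chi705 m * ArithmeticFunction.vonMangoldt m * AA705 (x / m) := by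
    have h1 : ∀ n ∈ Finset.Icc 1 x, chi705 n * Real.log n =
        ∑ m ∈ n.divisors, chi705 n * ArithmeticFunction.vonMangoldt m := by
      intro n _
      rw [← Finset.mul_sum, ArithmeticFunction.vonMangoldt_sum]
    rw [Finset.sum_congr rfl h1, swap705 x (fun m n => chi705 n * ArithmeticFunction.vonMangoldt m)]
    apply Finset.sum_congr rfl
    intro m _
    unfold AA705
    rw [Finset.mul_sum]
    apply Finset.sum_congr rfl
    intro k _
    rw [chi_mul705]
    ring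
  have hDle : ∑ n ∈ Finset.Icc 1 x, chi705 n * Real.log n ≤ Real.log x := by
    obtain ⟨h1, h2⟩ := DD705 x (by omega)
    have hlog : 0 ≤ Real.log x := Real.log_nonneg (by exact_mod_cast (by omega : 1 ≤ x))
    by_cases h : x % 4 = 3 ∨ x % 4 = 0
    · exact (h1 h).2.trans hlog
    · exact (h2 (by omega)).2
  -- odd terms
  have hodd : ∑ m ∈ (Finset.Ioc (x/3) x).filter (fun m => ¬ m % 2 = 0),
      ArithmeticFunction.vonMangoldt m ≤
      ∑ m ∈ Finset.Icc 1 x, |chi705 m| * ArithmeticFunction.vonMangoldt m * AA705 (x / m) := by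
    have hsub : (Finset.Ioc (x/3) x).filter (fun m => ¬ m % 2 = 0) ⊆ Finset.Icc 1 x := by
      intro m hm
      rw [Finset.mem_filter, Finset.mem_Ioc] at hm
      rw [Finset.mem_Icc]
      omega
    refine le_trans ?_ (Finset.sum_le_sum_of_subset_of_nonneg hsub (fun m _ _ =>
      mul_nonneg (mul_nonneg (abs_nonneg _) (hL0 m)) (hA0 _)))
    apply Finset.sum_le_sum
    intro m hm
    rw [Finset.mem_filter, Finset.mem_Ioc] at hm
    obtain ⟨⟨h1, h2⟩, h3⟩ := hm
    have hc : |chi705 m| = 1 := by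
      unfold chi705
      have : m % 4 = 1 ∨ m % 4 = 3 := by omega
      rcases this with h | h <;> simp [h]
    have hAm : AA705 (x / m) = 1 := by
      rw [AA_eq705]
      have hm0 : 0 < m := by omega
      have e1 : 1 ≤ x / m := Nat.div_pos h2 hm0
      have e2 : x / m < 3 := by
        rw [Nat.div_lt_iff_lt_mul hm0]
        omega
      have e3 : x / m = 1 ∨ x / m = 2 := by omega
      rcases e3 with h | h <;> simp [h]
    rw [hc, hAm]
    linarith
  -- difference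
  have hdiff : ∑ m ∈ Finset.Icc 1 x, |chi705 m| * ArithmeticFunction.vonMangoldt m * AA705 (x / m) -
      ∑ m ∈ Finset.Icc 1 x, chi705 m * ArithmeticFunction.vonMangoldt m * AA705 (x / m) ≤
      2 * ∑ m ∈ (Finset.Icc 1 x).filter (fun m => m % 4 = 3), ArithmeticFunction.vonMangoldt m := by
    rw [← Finset.sum_sub_distrib, Finset.mul_sum, Finset.sum_filter]
    apply Finset.sum_le_sum
    intro m _
    have h4 : m % 4 = 0 ∨ m % 4 = 1 ∨ m % 4 = 2 ∨ m % 4 = 3 := by omega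
    rcases h4 with h4 | h4 | h4 | h4
    · have hc : chi705 m = 0 := by unfold chi705; simp [h4]
      rw [hc, if_neg (by omega)]
      simp
    · have hc : chi705 m = 1 := by unfold chi705; simp [h4]
      rw [hc, if_neg (by omega)]
      simp
    · have hc : chi705 m = 0 := by unfold chi705; simp [h4]
      rw [hc, if_neg (by omega)]
      simp
    · have hc : chi705 m = -1 := by unfold chi705; simp [h4]
      rw [hc, if_pos h4]
      have h5 := mul_le_mul_of_nonneg_left (hA1 (x / m)) (hL0 m)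
      rw [abs_neg, abs_one]
      nlinarith
  -- psi
  have hpsi : Chebyshev.psi x - Chebyshev.psi ((x : ℝ) / 3) =
      ∑ m ∈ Finset.Ioc (x/3) x, ArithmeticFunction.vonMangoldt m := by
    unfold Chebyshev.psi
    have hf1 : ⌊(x:ℝ)⌋₊ = x := Nat.floor_natCast x
    have hf2 : ⌊(x:ℝ)/3⌋₊ = x / 3 := by
      have := Nat.floor_div_natCast (x:ℝ) 3
      rw [Nat.floor_natCast] at this
      exact_mod_cast this
    rw [hf1, hf2]
    have hu : Finset.Ioc 0 x = Finset.Ioc 0 (x/3) ∪ Finset.Ioc (x/3) x := by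
      rw [Finset.Ioc_union_Ioc_eq_Ioc (by omega) (Nat.div_le_self _ _)]
    rw [hu, Finset.sum_union]
    · ring
    · rw [Finset.disjoint_left]
      intro m h1 h2
      rw [Finset.mem_Ioc] at h1 h2
      omega
  have hsplit := Finset.sum_filter_add_sum_filter_not (Finset.Ioc (x/3) x) (fun m => m % 2 = 0)
    (fun m => ArithmeticFunction.vonMangoldt m)
  have heven := even705 x (by omega)
  rw [hpsi, ← hsplit]
  rw [hD] at hDle
  linarith

theorem lam3_aux (p k : ℕ) (hk : k ≠ 0) (h : p ^ k % 4 = 3) : p % 4 = 3 := by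
  have h2 : ¬ 2 ∣ p := by
    intro hd
    have : 2 ∣ p ^ k := dvd_pow hd hk
    omega
  have h1 : p % 4 ≠ 1 := by
    intro h1
    have : p ^ k % 4 = 1 := by
      rw [Nat.pow_mod, h1, one_pow]; rfl
    omega
  omega

theorem lam3_le (x : ℕ) (hx : 3 ≤ x) :
    ∑ m ∈ (Finset.Icc 1 x).filter (fun m => m % 4 = 3), ArithmeticFunction.vonMangoldt m ≤
      (P3 x).card * Real.log x := by
  classical
  set S := (Finset.Icc 1 x).filter (fun m => m % 4 = 3) with hS
  set S' := S.filter (fun m => ArithmeticFunction.vonMangoldt m ≠ 0) with hS'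
  have hfact : ∀ m ∈ S', ∃ p k : ℕ, p.Prime ∧ k ≠ 0 ∧ m = p ^ k ∧ p ∈ P3 x ∧ k ≤ Nat.log p x := by
    intro m hm
    rw [hS', Finset.mem_filter, hS, Finset.mem_filter, Finset.mem_Icc] at hm
    obtain ⟨⟨⟨hm1, hmx⟩, hm4⟩, hmΛ⟩ := hm
    rw [ArithmeticFunction.vonMangoldt_ne_zero_iff, isPrimePow_nat_iff] at hmΛ
    obtain ⟨p, k, hp, hk, rfl⟩ := hmΛ
    refine ⟨p, k, hp, hk.ne', rfl, ?_, ?_⟩
    · rw [P3, Finset.mem_filter, Finset.mem_range]
      refine ⟨?_, hp, lam3_aux p k hk.ne' hm4⟩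
      have : p ≤ p ^ k := Nat.le_self_pow hk.ne' p
      omega
    · exact Nat.le_log_of_pow_le hp.one_lt hmx
  have h1 : ∑ m ∈ S, ArithmeticFunction.vonMangoldt m = ∑ m ∈ S', ArithmeticFunction.vonMangoldt m := by
    rw [hS', Finset.sum_filter_ne_zero]
  have h2 : ∑ m ∈ S', ArithmeticFunction.vonMangoldt m =
      ∑ p ∈ P3 x, ∑ m ∈ S' with m.minFac = p, ArithmeticFunction.vonMangoldt m := by
    rw [Finset.sum_fiberwise_of_maps_to]
    intro m hm
    obtain ⟨p, k, hp, hk, rfl, hpP, -⟩ := hfact m hm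
    rw [hp.pow_minFac hk]
    exact hpP
  rw [h1, h2, ← nsmul_eq_mul]
  refine Finset.sum_le_card_nsmul _ _ _ fun p hp => ?_
  have hpp : p.Prime := by
    rw [P3, Finset.mem_filter] at hp
    exact hp.2.1
  have hlogp : 0 ≤ Real.log p := Real.log_nonneg (by exact_mod_cast hpp.one_le)
  have h3 : ∀ m ∈ S'.filter (fun m => m.minFac = p), ArithmeticFunction.vonMangoldt m = Real.log p ∧
      m ∈ (Finset.Icc 1 (Nat.log p x)).image (fun j => p ^ j) := by
    intro m hm
    rw [Finset.mem_filter] at hm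
    obtain ⟨q, k, hq, hk, rfl, hqP, hkl⟩ := hfact m hm.1
    have e : q = p := by rw [← hm.2, hq.pow_minFac hk]
    subst e
    refine ⟨?_, ?_⟩
    · rw [ArithmeticFunction.vonMangoldt_apply_pow hk, ArithmeticFunction.vonMangoldt_apply_prime hq]
    · rw [Finset.mem_image]
      exact ⟨k, Finset.mem_Icc.mpr ⟨Nat.one_le_iff_ne_zero.mpr hk, hkl⟩, rfl⟩
  rw [Finset.sum_congr rfl fun m hm => (h3 m hm).1, Finset.sum_const, nsmul_eq_mul]
  have hcard : (S'.filter (fun m => m.minFac = p)).card ≤ Nat.log p x := by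
    refine (Finset.card_le_card fun m hm => (h3 m hm).2).trans ?_
    refine Finset.card_image_le.trans ?_
    simp
  calc ((S'.filter (fun m => m.minFac = p)).card : ℝ) * Real.log p
      ≤ (Nat.log p x : ℝ) * Real.log p := by
        refine mul_le_mul_of_nonneg_right (by exact_mod_cast hcard) hlogp
    _ = Real.log ((p : ℝ) ^ (Nat.log p x)) := by rw [Real.log_pow]
    _ ≤ Real.log x := by
        apply Real.log_le_log
        · have : (0:ℝ) < p := by exact_mod_cast hpp.pos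
          positivity
        · have := Nat.pow_log_le_self p (x := x) (by omega)
          exact_mod_cast this

theorem P3_card (x : ℕ) (hx : 10 ^ 6 ≤ x)
    (h : (Chebyshev.psi x - Chebyshev.psi ((x : ℝ) / 3) - 2 * Real.log 2 - Real.log x) / 2 ≤
      (P3 x).card * Real.log x) :
    (x : ℝ) / (10 * Real.log x) ≤ (P3 x).card := by
  have hX : (10 : ℝ) ^ 6 ≤ (x : ℝ) := by exact_mod_cast hx
  obtain ⟨X, hXd⟩ : ∃ X : ℝ, X = (x : ℝ) := ⟨_, rfl⟩
  have hge := Chebyshev.psi_ge x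
  rw [← hXd] at h hX hge ⊢
  have hX0 : 0 < X := by linarith
  have hle := Chebyshev.psi_le (x := X / 3) (by linarith)
  obtain ⟨s, hs⟩ : ∃ s : ℝ, s = √X := ⟨_, rfl⟩
  have hss : s ^ 2 = X := by rw [hs]; exact Real.sq_sqrt hX0.le
  have hs0 : 0 ≤ s := by rw [hs]; exact Real.sqrt_nonneg _
  have hs1 : 1000 ≤ s := by
    rw [hs]
    apply Real.le_sqrt_of_sq_le
    linarith
  have hL2a := Real.log_two_gt_d9
  have hL2b := Real.log_two_lt_d9
  have hlog : Real.log X ≤ 0.0139 * s := by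
    have e1 : Real.log X = 2 * Real.log s := by
      rw [← hss, Real.log_pow]; norm_num
    have e2 : Real.log s = Real.log (s / 1024) + Real.log 1024 := by
      rw [← Real.log_mul (by positivity) (by norm_num)]
      congr 1
      field_simp
    have e3 : Real.log (s / 1024) ≤ s / 1024 - 1 := Real.log_le_sub_one_of_pos (by positivity)
    have e4 : Real.log 1024 = 10 * Real.log 2 := by
      rw [show (1024 : ℝ) = 2 ^ 10 by norm_num, Real.log_pow]; norm_num
    rw [e1, e2, e4]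
    linarith
  have hlog1 : 1 ≤ Real.log X := by
    rw [Real.le_log_iff_exp_le hX0]
    have := Real.exp_one_lt_d9
    linarith
  have hlog0 : 0 ≤ Real.log (X / 3) := Real.log_nonneg (by linarith)
  have hlog3 : Real.log (X / 3) ≤ Real.log X := Real.log_le_log (by positivity) (by linarith)
  have hsq3 : √(X / 3) ≤ s := by
    rw [hs]
    exact Real.sqrt_le_sqrt (by linarith)
  have hprod : √(X / 3) * Real.log (X / 3) ≤ s * (0.0139 * s) :=
    mul_le_mul hsq3 (hlog3.trans hlog) hlog0 hs0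
  have hl1 : Real.log (X + 1) ≤ Real.log 2 + Real.log X := by
    rw [← Real.log_mul (by norm_num) hX0.ne']
    exact Real.log_le_log (by linarith) (by linarith)
  have hl4 : Real.log 4 = 2 * Real.log 2 := by
    rw [show (4 : ℝ) = 2 ^ 2 by norm_num, Real.log_pow]; norm_num
  rw [hl4] at hle
  have hsX : s ≤ X / 1000 := by
    rw [← hss]
    nlinarith
  have hprod' : √(X / 3) * Real.log (X / 3) ≤ 0.0139 * X := by
    calc _ ≤ s * (0.0139 * s) := hprod
      _ = 0.0139 * X := by rw [← hss]; ring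
  have hXL : 0.6931471803 * X ≤ X * Real.log 2 := by nlinarith
  have hmain : X / 10 ≤ (P3 x).card * Real.log X := by
    refine le_trans ?_ h
    have e5 : 2 * √(X / 3) * Real.log (X / 3) = 2 * (√(X / 3) * Real.log (X / 3)) := by ring
    rw [e5] at hle
    have e6 : 2 * Real.log 2 * (X / 3) = 2 / 3 * (X * Real.log 2) := by ring
    rw [e6] at hle
    linarith
  rw [div_le_iff₀ (by positivity)]
  linarith

theorem P3_card_m (m : ℕ) (hm : 2 ≤ m)
    (h : ∀ x : ℕ, 10 ^ 6 ≤ x → (x : ℝ) / (10 * Real.log x) ≤ (P3 x).card) :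
    m ≤ (P3 (10 ^ 6 * m * (Nat.log 2 m + 1))).card := by
  set L := Nat.log 2 m with hL
  have hm0 : 0 < m := by omega
  have hx6 : 10 ^ 6 ≤ 10 ^ 6 * m * (L + 1) := by
    have h1 : 1 ≤ m * (L + 1) := Nat.mul_pos hm0 (Nat.succ_pos L)
    calc 10 ^ 6 = 10 ^ 6 * 1 := by ring
      _ ≤ 10 ^ 6 * (m * (L + 1)) := Nat.mul_le_mul_left _ h1
      _ = 10 ^ 6 * m * (L + 1) := by ring
  have h2 := h _ hx6
  have hmR : (0 : ℝ) < m := by exact_mod_cast hm0
  have hL1 : (0 : ℝ) < (L : ℝ) + 1 := by positivity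
  have hmlt : (m : ℝ) ≤ 2 ^ (L + 1) := by
    have := Nat.lt_pow_succ_log_self (b := 2) (by norm_num) m
    exact_mod_cast this.le
  have hlog2 : Real.log 2 ≤ 1 := by
    have := Real.log_le_sub_one_of_pos (show (0 : ℝ) < 2 by norm_num)
    linarith
  have hlogm : Real.log m ≤ (L + 1) := by
    calc Real.log m ≤ Real.log (2 ^ (L + 1)) := Real.log_le_log hmR hmlt
      _ = (L + 1 : ℕ) * Real.log 2 := Real.log_pow _ _
      _ ≤ (L + 1 : ℕ) * 1 := mul_le_mul_of_nonneg_left hlog2 (Nat.cast_nonneg _)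
      _ = L + 1 := by push_cast; ring
  have hlogL : Real.log ((L : ℝ) + 1) ≤ L := by
    have := Real.log_le_sub_one_of_pos hL1
    linarith
  have hlog10 : Real.log ((10 : ℝ) ^ 6) ≤ 54 := by
    rw [Real.log_pow]
    have := Real.log_le_sub_one_of_pos (show (0 : ℝ) < 10 by norm_num)
    push_cast
    linarith
  have hcast : ((10 ^ 6 * m * (L + 1) : ℕ) : ℝ) = 10 ^ 6 * m * (L + 1) := by push_cast; ring
  rw [hcast] at h2
  have hlogx : Real.log (10 ^ 6 * m * (L + 1)) ≤ 10 ^ 5 * (L + 1) := by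
    rw [Real.log_mul (by positivity) hL1.ne', Real.log_mul (by positivity) hmR.ne']
    have hL0 : (0 : ℝ) ≤ L := Nat.cast_nonneg L
    nlinarith
  have hlogpos : 0 < Real.log (10 ^ 6 * m * (L + 1)) := by
    apply Real.log_pos
    rw [← hcast]
    exact_mod_cast lt_of_lt_of_le (by norm_num) hx6
  have h3 : (m : ℝ) ≤ (10 ^ 6 * m * (L + 1)) / (10 * Real.log (10 ^ 6 * m * (L + 1))) := by
    rw [le_div_iff₀ (by positivity)]
    calc (m : ℝ) * (10 * Real.log (10 ^ 6 * m * (L + 1)))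
        ≤ m * (10 * (10 ^ 5 * (L + 1))) := by gcongr
      _ = 10 ^ 6 * m * (L + 1) := by ring
  exact_mod_cast h3.trans h2

theorem sum_range_zmod {M : Type*} [AddCommMonoid M] (p : ℕ) [NeZero p] (f : ZMod p → M) :
    ∑ a ∈ range p, f (a : ZMod p) = ∑ a : ZMod p, f a := by
  refine Finset.sum_nbij' (fun a => (a : ZMod p)) ZMod.val ?_ ?_ ?_ ?_ ?_
  · simp
  · intro a _; simp [ZMod.val_lt]
  · intro a ha; simp [ZMod.val_cast_of_lt (Finset.mem_range.1 ha)]
  · intro a _; simp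
  · intro a _; rfl

theorem e_eq (p : ℕ) [NeZero p] (k a : ℕ) :
    e ((k : ℝ) ^ 2 * (a / p)) = (ZMod.stdAddChar : AddChar (ZMod p) ℂ) ((a : ZMod p) * (k : ZMod p) ^ 2) := by
  have h : ((a : ZMod p) * (k : ZMod p) ^ 2) = (((a * k ^ 2 : ℕ) : ℤ) : ZMod p) := by push_cast; ring
  rw [h, ZMod.stdAddChar_coe, e]
  congr 1
  push_cast
  ring

theorem gauss_sq (p : ℕ) [Fact p.Prime] (hp3 : p % 4 = 3) :
    gaussSum ((quadraticChar (ZMod p)).ringHomComp (Int.castRingHom ℂ)) (ZMod.stdAddChar : AddChar (ZMod p) ℂ) ^ 2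
      = -(p : ℂ) := by
  have hp2 : ringChar (ZMod p) ≠ 2 := by
    rw [ZMod.ringChar_zmod_n]
    intro h; rw [h] at hp3; norm_num at hp3
  rw [gaussSum_sq]
  · have h1 : quadraticChar (ZMod p) (-1) = -1 := by
      rw [quadraticChar_neg_one hp2, ZMod.card, ZMod.χ₄_nat_three_mod_four hp3]
    simp [MulChar.ringHomComp_apply, h1]
  · exact (MulChar.ringHomComp_ne_one_iff (RingHom.injective_int _)).2 (quadraticChar_ne_one hp2)
  · exact (quadraticChar_isQuadratic (ZMod p)).comp _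
  · exact ZMod.isPrimitive_stdAddChar p

theorem gauss_val (p : ℕ) [Fact p.Prime] (hp3 : p % 4 = 3) :
    ∃ ε : ℝ, (ε = 1 ∨ ε = -1) ∧ gaussSum ((quadraticChar (ZMod p)).ringHomComp (Int.castRingHom ℂ)) (ZMod.stdAddChar : AddChar (ZMod p) ℂ)
      = Complex.I * ((ε * √p : ℝ) : ℂ) := by
  have h := gauss_sq p hp3
  have h2 : -(p : ℂ) = (Complex.I * ((√p : ℝ) : ℂ)) ^ 2 := by
    rw [mul_pow, Complex.I_sq, ← Complex.ofReal_pow, Real.sq_sqrt (by positivity)]
    simp
  rw [h2] at h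
  rcases sq_eq_sq_iff_eq_or_eq_neg.1 h with h | h
  · exact ⟨1, Or.inl rfl, by rw [h]; simp⟩
  · exact ⟨-1, Or.inr rfl, by rw [h]; simp⟩

/-- local weights at a prime `p ≡ 3 mod 4` -/
theorem local_weights (p : ℕ) (hp : p.Prime) (hp3 : p % 4 = 3) (y : ℝ) (hy : (p : ℝ) ≤ y) (x : ℂ)
    (h0 : 0 ≤ x.re) (him : |x.im| ≤ (1 - x.re) / √y) :
    ∃ w : ℕ → ℝ, (∀ a, 0 ≤ w a) ∧ ∑ a ∈ range p, w a = 1 ∧
      (∀ k : ℕ, ¬ p ∣ k → ∑ a ∈ range p, (w a : ℂ) * e ((k : ℝ) ^ 2 * (a / p)) = x) ∧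
      (x.im = 0 → x.re ≤ w 0) := by
  haveI : Fact p.Prime := ⟨hp⟩
  obtain ⟨ε, hε, hg⟩ := gauss_val p hp3
  have hp2 : ringChar (ZMod p) ≠ 2 := by
    rw [ZMod.ringChar_zmod_n]
    intro h; rw [h] at hp3; norm_num at hp3
  have hε2 : ε ^ 2 = 1 := by rcases hε with h | h <;> rw [h] <;> norm_num
  have hεa : |ε| = 1 := by rcases hε with h | h <;> rw [h] <;> norm_num
  have hp1 : (3 : ℝ) ≤ p := by
    have : 3 ≤ p := by omega
    exact_mod_cast this
  have hppos : (0 : ℝ) < p := by linarith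
  have hsp : 0 < √(p : ℝ) := Real.sqrt_pos.2 hppos
  have hsy : √(p : ℝ) ≤ √y := Real.sqrt_le_sqrt hy
  have hsyp : 0 < √y := lt_of_lt_of_le hsp hsy
  have hss : √(p : ℝ) * √(p : ℝ) = p := Real.mul_self_sqrt hppos.le
  have hre : 0 ≤ 1 - x.re := by
    have h1 : 0 ≤ (1 - x.re) / √y := le_trans (abs_nonneg _) him
    by_contra hc
    push_neg at hc
    exact absurd h1 (not_le.2 (div_neg_of_neg_of_pos hc hsyp))
  have him2 : |x.im| ≤ (1 - x.re) / √(p : ℝ) :=
    le_trans him (div_le_div_of_nonneg_left hre hsp hsy)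
  obtain ⟨θ, hθ⟩ : ∃ θ : ℝ, θ = (1 - x.re) * (p - 1) / p := ⟨_, rfl⟩
  obtain ⟨η, hη⟩ : ∃ η : ℝ, η = ε * x.im * (p - 1) / √(p : ℝ) := ⟨_, rfl⟩
  have hθ0 : 0 ≤ θ := by
    rw [hθ]
    apply div_nonneg (mul_nonneg hre (by linarith)) hppos.le
  have hθ1 : θ ≤ 1 := by
    rw [hθ, div_le_one hppos]
    nlinarith
  have hηθ : |η| ≤ θ := by
    rw [hη, abs_div, abs_mul, abs_mul, hεa, one_mul, abs_of_pos hsp, abs_of_nonneg (by linarith : (0:ℝ) ≤ (p:ℝ) - 1), hθ]
    rw [div_le_div_iff₀ hsp hppos]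
    have h3 : |x.im| * √(p : ℝ) ≤ 1 - x.re := by rwa [le_div_iff₀ hsp] at him2
    calc |x.im| * (p - 1) * p = (|x.im| * √(p : ℝ)) * ((p - 1) * √(p : ℝ)) := by
          nth_rewrite 2 [← hss]; ring
      _ ≤ (1 - x.re) * ((p - 1) * √(p : ℝ)) := by
          apply mul_le_mul_of_nonneg_right h3
          apply mul_nonneg (by linarith) hsp.le
      _ = _ := by ring
  set χ := quadraticChar (ZMod p) with hχ
  set W : ZMod p → ℝ := fun b => (θ + (χ b : ℝ) * η) / (p - 1) + (if b = 0 then 1 - θ - θ / (p - 1) else 0) with hW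
  have hp10 : (p : ℝ) - 1 ≠ 0 := by linarith
  have hp1p : (0 : ℝ) < (p : ℝ) - 1 := by linarith
  have hW0 : W 0 = 1 - θ := by
    simp only [hW, if_true]
    have : χ 0 = 0 := by simp [hχ]
    rw [this]
    push_cast
    ring
  refine ⟨fun a => W (a : ZMod p), ?_, ?_, ?_, ?_⟩
  · intro a
    by_cases h : (a : ZMod p) = 0
    · simp only [h, hW0]; linarith
    · simp only [hW, h, if_false, add_zero]
      apply div_nonneg _ hp1p.le
      have hd := quadraticChar_dichotomy h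
      have hab := abs_le.1 hηθ
      rcases hd with hd | hd
      · rw [hχ, hd]; push_cast; linarith [hab.1]
      · rw [hχ, hd]; push_cast; linarith [hab.2]
  · rw [sum_range_zmod p W]
    simp only [hW]
    rw [Finset.sum_add_distrib, Finset.sum_ite_eq' , ← Finset.sum_div, Finset.sum_add_distrib, ← Finset.sum_mul]
    have hs : ∑ b : ZMod p, (χ b : ℝ) = 0 := by
      have := quadraticChar_sum_zero hp2
      exact_mod_cast this
    rw [hs]
    simp [ZMod.card]
    field_simp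
    ring
  · intro k hk
    have hk0 : (k : ZMod p) ≠ 0 := by
      rwa [Ne, ZMod.natCast_eq_zero_iff]
    have e1 : ∑ a ∈ range p, ((W (a : ZMod p) : ℝ) : ℂ) * e ((k : ℝ) ^ 2 * (a / p))
        = ∑ a ∈ range p, ((fun b : ZMod p => ((W b : ℝ) : ℂ) * (ZMod.stdAddChar : AddChar (ZMod p) ℂ) (b * (k : ZMod p) ^ 2)) (a : ZMod p)) := by
      apply Finset.sum_congr rfl
      intro a _
      rw [e_eq]
    rw [e1, sum_range_zmod p (fun b : ZMod p => ((W b : ℝ) : ℂ) * (ZMod.stdAddChar : AddChar (ZMod p) ℂ) (b * (k : ZMod p) ^ 2))]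
    have s1 : ∑ b : ZMod p, (ZMod.stdAddChar : AddChar (ZMod p) ℂ) (b * (k : ZMod p) ^ 2) = 0 := by
      rw [AddChar.sum_mulShift _ (ZMod.isPrimitive_stdAddChar p)]
      simp [hk0]
    have s2 : ∑ b : ZMod p, ((χ b : ℤ) : ℂ) * (ZMod.stdAddChar : AddChar (ZMod p) ℂ) (b * (k : ZMod p) ^ 2)
        = Complex.I * ((ε * √p : ℝ) : ℂ) := by
      rw [← hg]
      have hu := gaussSum_mulShift (χ.ringHomComp (Int.castRingHom ℂ)) (ZMod.stdAddChar : AddChar (ZMod p) ℂ) (Units.mk0 ((k : ZMod p) ^ 2) (pow_ne_zero 2 hk0))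
      rw [← hu]
      simp only [Units.val_mk0]
      have h1 : χ.ringHomComp (Int.castRingHom ℂ) ((k : ZMod p) ^ 2) = 1 := by
        simp [MulChar.ringHomComp_apply, hχ, quadraticChar_sq_one' hk0]
      rw [h1, one_mul, gaussSum]
      apply Finset.sum_congr rfl
      intro b _
      rw [AddChar.mulShift_apply, mul_comm ((k : ZMod p)^2) b]
      simp [MulChar.ringHomComp_apply]
    have e2 : ∀ b : ZMod p, ((W b : ℝ) : ℂ) * (ZMod.stdAddChar : AddChar (ZMod p) ℂ) (b * (k : ZMod p) ^ 2)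
        = (θ / (p - 1) : ℝ) * (ZMod.stdAddChar : AddChar (ZMod p) ℂ) (b * (k : ZMod p) ^ 2)
          + (η / (p - 1) : ℝ) * (((χ b : ℤ) : ℂ) * (ZMod.stdAddChar : AddChar (ZMod p) ℂ) (b * (k : ZMod p) ^ 2))
          + (if b = 0 then ((1 - θ - θ / (p - 1) : ℝ) : ℂ) else 0) := by
      intro b
      simp only [hW]
      by_cases hb : b = 0
      · simp [hb]
        ring
      · simp [hb]
        ring
    rw [Finset.sum_congr rfl (fun b _ => e2 b), Finset.sum_add_distrib, Finset.sum_add_distrib, ← Finset.mul_sum,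
      ← Finset.mul_sum, s1, s2, Finset.sum_ite_eq']
    simp only [Finset.mem_univ, if_true, mul_zero, zero_add]
    have e3 : η / (p - 1) * (ε * √(p : ℝ)) = x.im := by
      rw [hη]
      field_simp
      rw [hε2, one_mul]
    have e4 : 1 - θ - θ / (p - 1) = x.re := by
      rw [hθ]
      field_simp
      ring
    have e5 : ((η / (p - 1) : ℝ) : ℂ) * (Complex.I * ((ε * √p : ℝ) : ℂ)) = ((η / (p - 1) * (ε * √p) : ℝ) : ℂ) * Complex.I := by
      push_cast; ring
    rw [e4, e5, e3, add_comm]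
    exact Complex.re_add_im x
  · intro hx
    simp only [Nat.cast_zero, hW0]
    rw [hθ, le_sub_iff_add_le, ← le_sub_iff_add_le', div_le_iff₀ hppos]
    nlinarith

theorem e_add (a b : ℝ) : e (a + b) = e a * e b := by
  unfold e
  rw [← Complex.exp_add]
  congr 1
  push_cast
  ring

theorem e_zero : e 0 = 1 := by
  unfold e
  simp

theorem e_nat (n : ℕ) : e (n : ℝ) = 1 := by
  unfold e
  have : ((2 * π * (n : ℝ) : ℝ) : ℂ) * Complex.I = n * (2 * π * Complex.I) := by
    push_cast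
    ring
  rw [this]
  exact Complex.exp_nat_mul_two_pi_mul_I n

theorem e_re (θ : ℝ) : (e θ).re = cos (2 * π * θ) := by
  unfold e
  rw [Complex.exp_ofReal_mul_I_re]

/-- averaging over the product of the local weights -/
theorem averaged (H : ℕ) (c0 : ℝ) (c : ℕ → ℝ) (hT : ∀ t : ℝ, 0 ≤ T H c0 c t) (hT0 : T H c0 c 0 = 1)
    (S : Finset ℕ) (x : ℂ) (hx0 : 0 ≤ x.re)
    (hw : ∀ p ∈ S, 0 < p ∧ ∃ w : ℕ → ℝ, (∀ a, 0 ≤ w a) ∧ ∑ a ∈ range p, w a = 1 ∧
      (∀ k : ℕ, ¬ p ∣ k → ∑ a ∈ range p, (w a : ℂ) * e ((k : ℝ) ^ 2 * (a / p)) = x) ∧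
      (x.im = 0 → x.re ≤ w 0)) :
    (∀ t : ℝ, 0 ≤ c0 + ∑ k ∈ Finset.Icc 1 H,
      c k * (x ^ (S.filter (fun p => ¬ p ∣ k)).card * e ((k : ℝ) ^ 2 * t)).re) ∧
    (x.im = 0 → x.re ^ S.card ≤ c0 + ∑ k ∈ Finset.Icc 1 H,
      c k * (x ^ (S.filter (fun p => ¬ p ∣ k)).card).re) := by
  induction S using Finset.induction_on with
  | empty =>
    refine ⟨fun t => ?_, fun _ => ?_⟩
    · have h := hT t
      unfold T at h
      refine h.trans_eq ?_
      congr 1
      refine Finset.sum_congr rfl fun k _ => ?_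
      simp only [Finset.filter_empty, Finset.card_empty, pow_zero, one_mul, e_re]
      congr 2
      ring
    · have h := hT0
      unfold T at h
      simp only [Finset.filter_empty, Finset.card_empty, pow_zero, Complex.one_re, mul_one]
      simp only [mul_zero, cos_zero, mul_one] at h
      exact h.ge
  | insert p S hpS ih =>
    obtain ⟨ih1, ih2⟩ := ih (fun q hq => hw q (Finset.mem_insert_of_mem hq))
    obtain ⟨hp, w, hw0, hw1, hwx, hwim⟩ := hw p (Finset.mem_insert_self p S)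
    have hp' : (p : ℝ) ≠ 0 := by exact_mod_cast hp.ne'
    have key : ∀ (k : ℕ) (t : ℝ),
        x ^ ((insert p S).filter (fun p => ¬ p ∣ k)).card * e ((k : ℝ) ^ 2 * t) =
        ∑ a ∈ range p, (w a : ℂ) *
          (x ^ (S.filter (fun p => ¬ p ∣ k)).card * e ((k : ℝ) ^ 2 * (t + a / p))) := by
      intro k t
      have h1 : ∀ a : ℕ, e ((k : ℝ) ^ 2 * (t + a / p)) =
          e ((k : ℝ) ^ 2 * t) * e ((k : ℝ) ^ 2 * (a / p)) := by
        intro a
        rw [← e_add]
        congr 1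
        ring
      have h2 : ∑ a ∈ range p, (w a : ℂ) *
          (x ^ (S.filter (fun p => ¬ p ∣ k)).card * e ((k : ℝ) ^ 2 * (t + a / p))) =
          x ^ (S.filter (fun p => ¬ p ∣ k)).card * e ((k : ℝ) ^ 2 * t) *
            ∑ a ∈ range p, (w a : ℂ) * e ((k : ℝ) ^ 2 * (a / p)) := by
        rw [Finset.mul_sum]
        refine Finset.sum_congr rfl fun a _ => ?_
        rw [h1]
        ring
      rw [h2]
      by_cases hk : p ∣ k
      · have h3 : (insert p S).filter (fun p => ¬ p ∣ k) = S.filter (fun p => ¬ p ∣ k) := by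
          rw [Finset.filter_insert, if_neg (by simpa using hk)]
        have h4 : ∑ a ∈ range p, (w a : ℂ) * e ((k : ℝ) ^ 2 * (a / p)) = 1 := by
          obtain ⟨m, rfl⟩ := hk
          have h5 : ∀ a ∈ range p, (w a : ℂ) * e (((p * m : ℕ) : ℝ) ^ 2 * (a / p)) = (w a : ℂ) := by
            intro a _
            have h6 : ((p * m : ℕ) : ℝ) ^ 2 * (a / p) = ((p * m ^ 2 * a : ℕ) : ℝ) := by
              push_cast
              field_simp
            rw [h6, e_nat, mul_one]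
          rw [Finset.sum_congr rfl h5]
          exact_mod_cast hw1
        rw [h3, h4, mul_one]
      · have h3 : (insert p S).filter (fun p => ¬ p ∣ k) =
            insert p (S.filter (fun p => ¬ p ∣ k)) := by
          rw [Finset.filter_insert, if_pos hk]
        have h4 : p ∉ S.filter (fun p => ¬ p ∣ k) := fun h => hpS (Finset.mem_filter.1 h).1
        rw [hwx k hk, h3, Finset.card_insert_of_notMem h4, pow_succ]
        ring
    have keyP : ∀ t : ℝ, c0 + ∑ k ∈ Finset.Icc 1 H,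
        c k * (x ^ ((insert p S).filter (fun p => ¬ p ∣ k)).card * e ((k : ℝ) ^ 2 * t)).re =
        ∑ a ∈ range p, w a * (c0 + ∑ k ∈ Finset.Icc 1 H,
          c k * (x ^ (S.filter (fun p => ¬ p ∣ k)).card * e ((k : ℝ) ^ 2 * (t + a / p))).re) := by
      intro t
      have h1 : ∀ k : ℕ, (x ^ ((insert p S).filter (fun p => ¬ p ∣ k)).card *
          e ((k : ℝ) ^ 2 * t)).re = ∑ a ∈ range p, w a *
          (x ^ (S.filter (fun p => ¬ p ∣ k)).card * e ((k : ℝ) ^ 2 * (t + a / p))).re := by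
        intro k
        rw [key k t, Complex.re_sum]
        refine Finset.sum_congr rfl fun a _ => ?_
        rw [Complex.re_ofReal_mul]
      simp only [mul_add, Finset.sum_add_distrib, ← Finset.sum_mul, hw1, one_mul]
      congr 1
      simp only [Finset.mul_sum]
      rw [Finset.sum_comm]
      refine Finset.sum_congr rfl fun k _ => ?_
      have h2 := h1 k
      simp only [mul_add] at h2
      rw [h2, Finset.mul_sum]
      refine Finset.sum_congr rfl fun a _ => ?_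
      ring
    have hnn : ∀ t : ℝ, 0 ≤ c0 + ∑ k ∈ Finset.Icc 1 H,
        c k * (x ^ ((insert p S).filter (fun p => ¬ p ∣ k)).card * e ((k : ℝ) ^ 2 * t)).re := by
      intro t
      rw [keyP t]
      exact Finset.sum_nonneg fun a _ => mul_nonneg (hw0 a) (ih1 _)
    refine ⟨hnn, fun him => ?_⟩
    have z0 : ∀ S' : Finset ℕ, c0 + ∑ k ∈ Finset.Icc 1 H,
        c k * (x ^ (S'.filter (fun p => ¬ p ∣ k)).card).re = c0 + ∑ k ∈ Finset.Icc 1 H,
        c k * (x ^ (S'.filter (fun p => ¬ p ∣ k)).card * e ((k : ℝ) ^ 2 * 0)).re := by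
      intro S'
      congr 1
      refine Finset.sum_congr rfl fun k _ => ?_
      rw [mul_zero, e_zero, mul_one]
    rw [z0, keyP 0, Finset.card_insert_of_notMem hpS, pow_succ]
    have h0 : x.re ^ S.card * x.re ≤ w 0 * (c0 + ∑ k ∈ Finset.Icc 1 H,
        c k * (x ^ (S.filter (fun p => ¬ p ∣ k)).card * e ((k : ℝ) ^ 2 * 0)).re) := by
      rw [← z0, mul_comm]
      exact mul_le_mul (hwim him) (ih2 him) (pow_nonneg hx0 _) (hw0 0)
    refine h0.trans ?_
    have h1 := Finset.single_le_sum (f := fun a : ℕ => w a * (c0 + ∑ k ∈ Finset.Icc 1 H,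
      c k * (x ^ (S.filter (fun p => ¬ p ∣ k)).card * e ((k : ℝ) ^ 2 * (0 + a / p))).re))
      (fun a _ => mul_nonneg (hw0 a) (ih1 _)) (Finset.mem_range.2 hp)
    refine le_trans (le_of_eq ?_) h1
    simp

/-- derivative bound for a function with non-negative real part -/
theorem deriv_bound (f : ℂ → ℂ) (hf : Differentiable ℂ f) (c : ℂ) (r : ℝ) (hr : 0 < r)
    (h : ∀ z, ‖z - c‖ ≤ r → 0 ≤ (f z).re) : ‖deriv f c‖ ≤ 2 * (f c).re / r := by
  have key : ∀ ε : ℝ, 0 < ε → ‖deriv f c‖ ≤ 2 * ((f c).re + ε) / r := by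
    intro ε hε
    have hfc : 0 ≤ (f c).re := h c (by simpa using hr.le)
    obtain ⟨g, hg⟩ : ∃ g : ℂ → ℂ, g = fun z => f z + (ε : ℂ) := ⟨_, rfl⟩
    have hgz : ∀ z, (g z).re = (f z).re + ε := by
      intro z
      rw [hg]
      simp
    have hgim : ∀ z, (g z).im = (f z).im := by
      intro z
      rw [hg]
      simp
    have hgc : 0 < (g c).re := by rw [hgz]; linarith
    have hgd : Differentiable ℂ g := by
      rw [hg]
      exact hf.add_const _
    have hpos : ∀ z ∈ Metric.ball c r, 0 < (g z + (starRingEnd ℂ) (g c)).re := by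
      intro z hz
      have h1 := h z (by rw [← dist_eq_norm]; exact (Metric.mem_ball.1 hz).le)
      rw [Complex.add_re, Complex.conj_re, hgz z]
      linarith
    have hne : ∀ z ∈ Metric.ball c r, g z + (starRingEnd ℂ) (g c) ≠ 0 := by
      intro z hz h0
      have := hpos z hz
      rw [h0] at this
      simp at this
    obtain ⟨φ, hφ⟩ : ∃ φ : ℂ → ℂ, φ = fun z => (g z - g c) / (g z + (starRingEnd ℂ) (g c)) :=
      ⟨_, rfl⟩
    have hφc : φ c = 0 := by
      rw [hφ]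
      simp
    have hcball : c ∈ Metric.ball c r := Metric.mem_ball_self hr
    have hφd : DifferentiableOn ℂ φ (Metric.ball c r) := by
      rw [hφ]
      intro z hz
      exact ((hgd z).sub_const _ |>.div ((hgd z).add_const _) (hne z hz)).differentiableWithinAt
    have hmaps : Set.MapsTo φ (Metric.ball c r) (Metric.closedBall (φ c) 1) := by
      intro z hz
      rw [hφc, mem_closedBall_zero_iff, hφ]
      simp only
      rw [norm_div]
      have h1 : 0 < ‖g z + (starRingEnd ℂ) (g c)‖ := norm_pos_iff.2 (hne z hz)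
      rw [div_le_one h1]
      have h2 := h z (by rw [← dist_eq_norm]; exact (Metric.mem_ball.1 hz).le)
      have h3 : 0 < (g z).re := by rw [hgz]; linarith
      have h4 : ‖g z - g c‖ ^ 2 ≤ ‖g z + (starRingEnd ℂ) (g c)‖ ^ 2 := by
        rw [Complex.sq_norm, Complex.sq_norm, Complex.normSq_apply, Complex.normSq_apply]
        simp only [Complex.sub_re, Complex.sub_im, Complex.add_re, Complex.add_im,
          Complex.conj_re, Complex.conj_im]
        nlinarith [mul_pos h3 hgc]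
      exact (sq_le_sq₀ (norm_nonneg _) (norm_nonneg _)).1 h4
    have hS := Complex.norm_deriv_le_div_of_mapsTo_ball hφd hmaps hr
    have hw : g c + (starRingEnd ℂ) (g c) = ((2 * (g c).re : ℝ) : ℂ) := by
      rw [Complex.add_conj]
    have hgder : HasDerivAt g (deriv f c) c := by
      rw [hg]
      exact (hf c).hasDerivAt.add_const _
    have hφder : HasDerivAt φ (deriv f c / ((2 * (g c).re : ℝ) : ℂ)) c := by
      have h1 := (hgder.sub_const (g c)).div (hgder.add_const ((starRingEnd ℂ) (g c)))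
        (hne c hcball)
      have h2 : (deriv f c * (g c + (starRingEnd ℂ) (g c)) - (g c - g c) * deriv f c) /
          (g c + (starRingEnd ℂ) (g c)) ^ 2 = deriv f c / ((2 * (g c).re : ℝ) : ℂ) := by
        have h3 := hne c hcball
        rw [hw] at h3 ⊢
        rw [sub_self, zero_mul, sub_zero]
        field_simp
      rw [h2] at h1
      rw [hφ]
      exact h1
    rw [hφder.deriv, norm_div, Complex.norm_real, Real.norm_eq_abs,
      abs_of_pos (by linarith : 0 < 2 * (g c).re), hgz c] at hS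
    have h5 : 0 < 2 * ((f c).re + ε) := by linarith
    rw [div_le_div_iff₀ h5 hr] at hS
    rw [le_div_iff₀ hr]
    linarith
  refine le_of_forall_pos_le_add fun δ hδ => ?_
  have h1 := key (δ * r / 2) (by positivity)
  have h2 : 2 * ((f c).re + δ * r / 2) / r = 2 * (f c).re / r + δ := by
    field_simp
  rw [h2] at h1
  exact h1

/-- Harnack inequality along the axis of the thin triangle -/
theorem harnack (f : ℂ → ℂ) (hf : Differentiable ℂ f) (s : ℝ) (hs : 1 ≤ s)
    (h : ∀ z : ℂ, 0 ≤ z.re → |z.im| ≤ (1 - z.re) / s → 0 ≤ (f z).re)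
    (der : ∀ (c : ℂ) (r : ℝ), 0 < r → (∀ z, ‖z - c‖ ≤ r → 0 ≤ (f z).re) →
      ‖deriv f c‖ ≤ 2 * (f c).re / r)
    (ξ : ℝ) (hξ0 : 0 < ξ) (hξ : ξ ≤ 1 / 2) :
    (f ((1 - ξ : ℝ) : ℂ)).re * (2 * ξ) ^ (4 * s) ≤ (f ((1 / 2 : ℝ) : ℂ)).re := by
  have hs0 : 0 < s := by linarith
  have hu : ∀ x : ℝ, HasDerivAt (fun x : ℝ => (f (x : ℂ)).re) (deriv f (x : ℂ)).re x :=
    fun x => (hf (x : ℂ)).hasDerivAt.real_of_complex
  have hder : ∀ x : ℝ, 1 / 2 ≤ x → x < 1 →
      (deriv f (x : ℂ)).re * (1 - x) ≤ 4 * s * (f (x : ℂ)).re := by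
    intro x hx1 hx2
    have h1x : 0 < 1 - x := by linarith
    obtain ⟨r, hr⟩ : ∃ r : ℝ, r = (1 - x) / (2 * s) := ⟨_, rfl⟩
    have hr0 : 0 < r := by rw [hr]; positivity
    have hrs : r * (2 * s) = 1 - x := by rw [hr]; field_simp
    have hr2 : 2 * r ≤ 1 - x := by nlinarith
    have h1 := der (x : ℂ) r hr0 (by
      intro z hz
      have hre : |(z - (x : ℂ)).re| ≤ r := (Complex.abs_re_le_norm _).trans hz
      have him : |(z - (x : ℂ)).im| ≤ r := (Complex.abs_im_le_norm _).trans hz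
      rw [Complex.sub_re, Complex.ofReal_re] at hre
      rw [Complex.sub_im, Complex.ofReal_im, sub_zero] at him
      have h2 := abs_le.mp hre
      apply h z
      · linarith [h2.1]
      · refine him.trans ?_
        rw [le_div_iff₀ hs0]
        nlinarith [h2.2])
    have h2 : (deriv f (x : ℂ)).re ≤ 2 * (f (x : ℂ)).re / r :=
      ((le_abs_self _).trans (Complex.abs_re_le_norm _)).trans h1
    rw [le_div_iff₀ hr0] at h2
    have h3 : (deriv f (x : ℂ)).re * (1 - x) = ((deriv f (x : ℂ)).re * r) * (2 * s) := by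
      rw [mul_assoc, hrs]
    rw [h3]
    have := mul_le_mul_of_nonneg_right h2 (show (0:ℝ) ≤ 2 * s by linarith)
    linarith
  have hg : ∀ x : ℝ, x < 1 → HasDerivAt (fun x : ℝ => (f (x : ℂ)).re * (1 - x) ^ (4 * s))
      ((deriv f (x : ℂ)).re * (1 - x) ^ (4 * s) +
        (f (x : ℂ)).re * ((-1) * (4 * s) * (1 - x) ^ (4 * s - 1))) x := by
    intro x hx
    have h1 : HasDerivAt (fun x : ℝ => 1 - x) (-1) x := by
      simpa using (hasDerivAt_id x).const_sub 1
    exact (hu x).mul (h1.rpow_const (p := 4 * s) (Or.inl (by linarith)))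
  have hanti : AntitoneOn (fun x : ℝ => (f (x : ℂ)).re * (1 - x) ^ (4 * s)) (Set.Icc (1 / 2) (1 - ξ)) := by
    apply antitoneOn_of_deriv_nonpos (convex_Icc _ _)
    · intro x hx
      exact (hg x (by linarith [hx.2])).continuousAt.continuousWithinAt
    · intro x hx
      rw [interior_Icc] at hx
      exact (hg x (by linarith [hx.2])).differentiableAt.differentiableWithinAt
    · intro x hx
      rw [interior_Icc] at hx
      have hx1 : x < 1 := by linarith [hx.2]
      have h1x : 0 < 1 - x := by linarith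
      rw [(hg x hx1).deriv]
      have h2 : (1 - x) ^ (4 * s) = (1 - x) * (1 - x) ^ (4 * s - 1) := by
        rw [Real.rpow_sub_one h1x.ne']
        field_simp
      rw [h2]
      have h3 := hder x hx.1.le hx1
      have h4 : 0 ≤ (1 - x) ^ (4 * s - 1) := Real.rpow_nonneg h1x.le _
      have h5 := mul_le_mul_of_nonneg_right h3 h4
      nlinarith
  have h1 := hanti (a := 1 / 2) (b := 1 - ξ) ⟨le_rfl, by linarith⟩ ⟨by linarith, le_rfl⟩ (by linarith)
  simp only at h1
  have e1 : (1 : ℝ) - (1 - ξ) = ξ := by ring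
  have e2 : (1 : ℝ) - 1 / 2 = 1 / 2 := by norm_num
  rw [e1, e2] at h1
  have h2 : (0:ℝ) ≤ 2 ^ (4 * s) := by positivity
  have h3 := mul_le_mul_of_nonneg_left h1 h2
  have e3 : (2 * ξ) ^ (4 * s) = 2 ^ (4 * s) * ξ ^ (4 * s) :=
    Real.mul_rpow (by norm_num) hξ0.le
  have e4 : (2 : ℝ) ^ (4 * s) * (1 / 2) ^ (4 * s) = 1 := by
    rw [← Real.mul_rpow (by norm_num) (by norm_num)]
    norm_num
  calc (f ((1 - ξ : ℝ) : ℂ)).re * (2 * ξ) ^ (4 * s)
      = 2 ^ (4 * s) * ((f ((1 - ξ : ℝ) : ℂ)).re * ξ ^ (4 * s)) := by rw [e3]; ring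
    _ ≤ 2 ^ (4 * s) * ((f ((1 / 2 : ℝ) : ℂ)).re * (1 / 2) ^ (4 * s)) := h3
    _ = (f ((1 / 2 : ℝ) : ℂ)).re * ((2 : ℝ) ^ (4 * s) * (1 / 2) ^ (4 * s)) := by ring
    _ = (f ((1 / 2 : ℝ) : ℂ)).re := by rw [e4, mul_one]

theorem cl_int_cos (n : ℤ) (hn : n ≠ 0) : ∫ t in (0:ℝ)..1, cos (2 * π * (n : ℝ) * t) = 0 := by
  have hc : (2 * π * (n : ℝ)) ≠ 0 := by
    have : (n : ℝ) ≠ 0 := by exact_mod_cast hn
    have := Real.pi_ne_zero
    positivity
  rw [intervalIntegral.integral_comp_mul_left (fun x => cos x) hc, integral_cos]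
  have h1 : sin (2 * π * (n : ℝ) * 1) = 0 := by
    have : 2 * π * (n : ℝ) * 1 = ((2 * n : ℤ) : ℝ) * π := by push_cast; ring
    rw [this, Real.sin_int_mul_pi]
  rw [h1, mul_zero, sin_zero]
  simp

theorem cl_int1 (k : ℕ) (hk : 1 ≤ k) : ∫ t in (0:ℝ)..1, cos (2 * π * (k : ℝ) ^ 2 * t) = 0 := by
  have h := cl_int_cos ((k : ℤ) ^ 2) (by positivity)
  have e : ∀ t : ℝ, 2 * π * (((k : ℤ) ^ 2 : ℤ) : ℝ) * t = 2 * π * (k : ℝ) ^ 2 * t := by
    intro t
    push_cast
    ring
  simp_rw [e] at h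
  exact h

theorem cl_cont (k : ℕ) : Continuous (fun t : ℝ => cos (2 * π * (k : ℝ) ^ 2 * t)) := by fun_prop

theorem cl_int2 (j k : ℕ) (hj : 1 ≤ j) (hk : 1 ≤ k) :
    ∫ t in (0:ℝ)..1, cos (2 * π * (j : ℝ) ^ 2 * t) * cos (2 * π * (k : ℝ) ^ 2 * t) =
      if j = k then 1 / 2 else 0 := by
  have e : ∀ t : ℝ, cos (2 * π * (j : ℝ) ^ 2 * t) * cos (2 * π * (k : ℝ) ^ 2 * t) =
      (1 / 2) * cos (2 * π * (((j : ℤ) ^ 2 - (k : ℤ) ^ 2 : ℤ) : ℝ) * t) +
        (1 / 2) * cos (2 * π * (((j : ℤ) ^ 2 + (k : ℤ) ^ 2 : ℤ) : ℝ) * t) := by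
    intro t
    have e1 : 2 * π * (((j : ℤ) ^ 2 - (k : ℤ) ^ 2 : ℤ) : ℝ) * t =
        2 * π * (j : ℝ) ^ 2 * t - 2 * π * (k : ℝ) ^ 2 * t := by push_cast; ring
    have e2 : 2 * π * (((j : ℤ) ^ 2 + (k : ℤ) ^ 2 : ℤ) : ℝ) * t =
        2 * π * (j : ℝ) ^ 2 * t + 2 * π * (k : ℝ) ^ 2 * t := by push_cast; ring
    rw [e1, e2, cos_sub, cos_add]
    ring
  simp_rw [e]
  have hi : ∀ n : ℤ, IntervalIntegrable (fun t : ℝ => (1 / 2 : ℝ) * cos (2 * π * (n : ℝ) * t))
      MeasureTheory.volume 0 1 := fun n =>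
    Continuous.intervalIntegrable (by fun_prop) 0 1
  rw [intervalIntegral.integral_add (hi _) (hi _), intervalIntegral.integral_const_mul,
    intervalIntegral.integral_const_mul, cl_int_cos ((j : ℤ) ^ 2 + (k : ℤ) ^ 2) (by positivity)]
  by_cases hjk : j = k
  · subst hjk
    simp
  · rw [if_neg hjk, cl_int_cos]
    · ring
    · intro h
      apply hjk
      have h2 : (j : ℤ) ^ 2 = (k : ℤ) ^ 2 := by linarith
      have h3 : j ^ 2 = k ^ 2 := by exact_mod_cast h2
      exact Nat.pow_left_injective (n := 2) (by norm_num) h3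

theorem cl_main (H : ℕ) (c0 : ℝ) (c : ℕ → ℝ) (hT : ∀ t : ℝ, 0 ≤ T H c0 c t) (k : ℕ)
    (hk1 : 1 ≤ k) (hk2 : k ≤ H) (s : ℝ) (hs : |s| ≤ 1) : 0 ≤ c0 + c k * s / 2 := by
  have h0 : 0 ≤ ∫ t in (0:ℝ)..1, T H c0 c t * (1 + s * cos (2 * π * (k : ℝ) ^ 2 * t)) := by
    apply intervalIntegral.integral_nonneg zero_le_one
    intro t _
    apply mul_nonneg (hT t)
    have h1 : |s * cos (2 * π * (k : ℝ) ^ 2 * t)| ≤ 1 := by
      rw [abs_mul]
      exact mul_le_one₀ hs (abs_nonneg _) (abs_cos_le_one _)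
    have := (abs_le.1 h1).1
    linarith
  have e : ∀ t : ℝ, T H c0 c t * (1 + s * cos (2 * π * (k : ℝ) ^ 2 * t)) =
      (c0 + c0 * s * cos (2 * π * (k : ℝ) ^ 2 * t)) +
        ∑ j ∈ Finset.Icc 1 H, (c j * cos (2 * π * (j : ℝ) ^ 2 * t) +
          c j * s * (cos (2 * π * (j : ℝ) ^ 2 * t) * cos (2 * π * (k : ℝ) ^ 2 * t))) := by
    intro t
    unfold T
    rw [add_mul, Finset.sum_mul]
    congr 1
    · ring
    · refine Finset.sum_congr rfl fun j _ => ?_
      ring
  simp_rw [e] at h0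
  have hc1 := cl_cont
  have i1 : IntervalIntegrable (fun t : ℝ => c0 + c0 * s * cos (2 * π * (k : ℝ) ^ 2 * t))
      MeasureTheory.volume 0 1 := Continuous.intervalIntegrable (by fun_prop) 0 1
  have i2 : ∀ j : ℕ, IntervalIntegrable (fun t : ℝ => c j * cos (2 * π * (j : ℝ) ^ 2 * t) +
          c j * s * (cos (2 * π * (j : ℝ) ^ 2 * t) * cos (2 * π * (k : ℝ) ^ 2 * t)))
      MeasureTheory.volume 0 1 := fun j => Continuous.intervalIntegrable (by fun_prop) 0 1
  have i3 : IntervalIntegrable (fun t : ℝ => ∑ j ∈ Finset.Icc 1 H, (c j * cos (2 * π * (j : ℝ) ^ 2 * t) +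
          c j * s * (cos (2 * π * (j : ℝ) ^ 2 * t) * cos (2 * π * (k : ℝ) ^ 2 * t))))
      MeasureTheory.volume 0 1 := Continuous.intervalIntegrable (by fun_prop) 0 1
  rw [intervalIntegral.integral_add i1 i3, intervalIntegral.integral_finset_sum (fun j _ => i2 j)] at h0
  have e1 : ∫ t in (0:ℝ)..1, (c0 + c0 * s * cos (2 * π * (k : ℝ) ^ 2 * t)) = c0 := by
    rw [intervalIntegral.integral_add (Continuous.intervalIntegrable (by fun_prop) 0 1)
      (Continuous.intervalIntegrable (by fun_prop) 0 1), intervalIntegral.integral_const_mul,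
      cl_int1 k hk1]
    simp
  have e2 : ∀ j ∈ Finset.Icc 1 H, ∫ t in (0:ℝ)..1, (c j * cos (2 * π * (j : ℝ) ^ 2 * t) +
          c j * s * (cos (2 * π * (j : ℝ) ^ 2 * t) * cos (2 * π * (k : ℝ) ^ 2 * t))) =
          if j = k then c k * s / 2 else 0 := by
    intro j hj
    have hj1 : 1 ≤ j := (Finset.mem_Icc.1 hj).1
    rw [intervalIntegral.integral_add (Continuous.intervalIntegrable (by fun_prop) 0 1)
      (Continuous.intervalIntegrable (by fun_prop) 0 1), intervalIntegral.integral_const_mul,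
      intervalIntegral.integral_const_mul, cl_int1 j hj1, cl_int2 j k hj1 hk1]
    by_cases hjk : j = k
    · subst hjk
      rw [if_pos rfl, if_pos rfl]
      ring
    · rw [if_neg hjk, if_neg hjk]
      ring
  rw [e1, Finset.sum_congr rfl e2, Finset.sum_ite_eq', if_pos (Finset.mem_Icc.2 ⟨hk1, hk2⟩)] at h0
  exact h0

/-- coefficients are at most twice the constant term -/
theorem coef_le (H : ℕ) (c0 : ℝ) (c : ℕ → ℝ) (hT : ∀ t : ℝ, 0 ≤ T H c0 c t) (k : ℕ)
    (hk1 : 1 ≤ k) (hk2 : k ≤ H) : |c k| ≤ 2 * c0 := by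
  have h1 := cl_main H c0 c hT k hk1 hk2 1 (by norm_num)
  have h2 := cl_main H c0 c hT k hk1 hk2 (-1) (by norm_num)
  rw [abs_le]
  constructor <;> linarith

theorem half_le (H m : ℕ) (c0 : ℝ) (c : ℕ → ℝ) (hc0 : 0 ≤ c0)
    (hc : ∀ k, 1 ≤ k → k ≤ H → |c k| ≤ 2 * c0) (S : Finset ℕ) (hS : S.card = m)
    (hp : ∀ p ∈ S, p.Prime) (hm : 2 * H ^ 2 ≤ 2 ^ m) :
    c0 + ∑ k ∈ Finset.Icc 1 H, c k * (1 / 2 : ℝ) ^ (S.filter (fun p => ¬ p ∣ k)).card ≤ 2 * c0 := by
  have key : ∀ k ∈ Finset.Icc 1 H, c k * (1 / 2 : ℝ) ^ (S.filter (fun p => ¬ p ∣ k)).card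
      ≤ 2 * c0 * (H / 2 ^ m) := by
    intro k hk
    rw [Finset.mem_Icc] at hk
    have hA : (2 : ℕ) ^ (S.filter (fun p => p ∣ k)).card ≤ H := by
      have h1 : ∏ p ∈ S.filter (fun p => p ∣ k), p ∣ k := by
        apply Finset.prod_primes_dvd
        · intro p hpp
          rw [Finset.mem_filter] at hpp
          exact (hp p hpp.1).prime
        · intro p hpp
          rw [Finset.mem_filter] at hpp
          exact hpp.2
      have h2 : ∏ p ∈ S.filter (fun p => p ∣ k), p ≤ k := Nat.le_of_dvd (by omega) h1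
      have h3 : (2 : ℕ) ^ (S.filter (fun p => p ∣ k)).card ≤ ∏ p ∈ S.filter (fun p => p ∣ k), p := by
        apply Finset.pow_card_le_prod
        intro p hpp
        rw [Finset.mem_filter] at hpp
        exact (hp p hpp.1).two_le
      omega
    have hcard : (S.filter (fun p => p ∣ k)).card + (S.filter (fun p => ¬ p ∣ k)).card = m := by
      rw [Finset.card_filter_add_card_filter_not, hS]
    have hpow : (1 / 2 : ℝ) ^ (S.filter (fun p => ¬ p ∣ k)).card ≤ H / 2 ^ m := by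
      have hAr : (2 : ℝ) ^ (S.filter (fun p => p ∣ k)).card ≤ H := by exact_mod_cast hA
      rw [le_div_iff₀ (by positivity), ← hcard, pow_add]
      have : (1 / 2 : ℝ) ^ (S.filter (fun p => ¬ p ∣ k)).card *
          2 ^ (S.filter (fun p => ¬ p ∣ k)).card = 1 := by
        rw [← mul_pow]; norm_num
      calc (1 / 2 : ℝ) ^ (S.filter (fun p => ¬ p ∣ k)).card *
          (2 ^ (S.filter (fun p => p ∣ k)).card * 2 ^ (S.filter (fun p => ¬ p ∣ k)).card)
          = 2 ^ (S.filter (fun p => p ∣ k)).card * ((1 / 2 : ℝ) ^ (S.filter (fun p => ¬ p ∣ k)).card *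
          2 ^ (S.filter (fun p => ¬ p ∣ k)).card) := by ring
        _ = 2 ^ (S.filter (fun p => p ∣ k)).card := by rw [this, mul_one]
        _ ≤ H := hAr
    have h4 := hc k hk.1 hk.2
    have h5 : c k ≤ 2 * c0 := (le_abs_self _).trans h4
    have h6 : (0 : ℝ) ≤ (1 / 2 : ℝ) ^ (S.filter (fun p => ¬ p ∣ k)).card := by positivity
    exact mul_le_mul h5 hpow h6 (by linarith)
  have hsum := Finset.sum_le_sum key
  rw [Finset.sum_const, Nat.card_Icc, nsmul_eq_mul] at hsum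
  have hm' : (2 : ℝ) * H ^ 2 ≤ 2 ^ m := by exact_mod_cast hm
  have h7 : ((H + 1 - 1 : ℕ) : ℝ) * (2 * c0 * (H / 2 ^ m)) ≤ c0 := by
    have : ((H + 1 - 1 : ℕ) : ℝ) = H := by simp
    rw [this]
    have h8 : (H : ℝ) * (2 * c0 * (H / 2 ^ m)) = c0 * ((2 * H ^ 2) / 2 ^ m) := by ring
    rw [h8]
    have h9 : (2 * (H : ℝ) ^ 2) / 2 ^ m ≤ 1 := by
      rw [div_le_one (by positivity)]; exact hm'
    nlinarith
  linarith

theorem final_lower (H m : ℕ) (hH : 16 ≤ H) (hm : m = 2 * Nat.log 2 H + 3) (y : ℝ)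
    (hy : y = ((10 ^ 6 * m * (Nat.log 2 m + 1) : ℕ) : ℝ)) :
    Real.exp (-(10 ^ 5 * √(Real.log H) * (Real.log (Real.log H)) ^ (3 / 2 : ℝ))) ≤
      (1 / 8) * (2 / (m : ℝ)) ^ (4 * √y) ∧ 2 * H ^ 2 ≤ 2 ^ m := by
  have hHpos : (0:ℝ) < (H:ℝ) := by exact_mod_cast (by omega : 0 < H)
  have hlog2 : (0.6931471803 : ℝ) < Real.log 2 := Real.log_two_gt_d9
  have hlog2' : Real.log 2 < (0.6931471808 : ℝ) := Real.log_two_lt_d9
  constructor
  · set l : ℝ := Real.log H with hl
    set q : ℝ := Real.log l with hq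
    have hl1 : 4 * Real.log 2 ≤ l := by
      have h1 : Real.log ((16:ℝ)) ≤ Real.log (H:ℝ) :=
        Real.log_le_log (by norm_num) (by exact_mod_cast hH)
      have h2 : Real.log (16:ℝ) = 4 * Real.log 2 := by
        rw [show (16:ℝ) = 2 ^ 4 by norm_num, Real.log_pow]; norm_num
      rw [h2] at h1; exact h1
    have hl2 : (2.7725 : ℝ) ≤ l := by linarith
    have hlpos : 0 < l := by linarith
    have hq1 : 1 ≤ q := by
      rw [hq, Real.le_log_iff_exp_le hlpos]
      have := Real.exp_one_lt_d9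
      linarith
    have hqpos : 0 < q := by linarith
    -- L bound
    have hL : (Nat.log 2 H : ℝ) * Real.log 2 ≤ l := by
      have h1 : 2 ^ Nat.log 2 H ≤ H := Nat.pow_log_le_self 2 (by omega)
      have h2 : ((2:ℝ) ^ Nat.log 2 H) ≤ (H:ℝ) := by exact_mod_cast h1
      have h3 := Real.log_le_log (by positivity) h2
      rw [Real.log_pow] at h3
      exact h3
    have hLnn : (0:ℝ) ≤ (Nat.log 2 H : ℝ) := Nat.cast_nonneg _
    have hL2 : (Nat.log 2 H : ℝ) ≤ 1.4428 * l := by nlinarith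
    have hmR : (m:ℝ) = 2 * (Nat.log 2 H : ℝ) + 3 := by rw [hm]; push_cast; ring
    have hm4 : (m:ℝ) ≤ 4 * l := by rw [hmR]; linarith
    have hm3 : (3:ℝ) ≤ (m:ℝ) := by rw [hmR]; linarith
    have hmpos : (0:ℝ) < (m:ℝ) := by linarith
    have hlog4l : Real.log (4 * l) = 2 * Real.log 2 + q := by
      rw [Real.log_mul (by norm_num) (by positivity), show (4:ℝ) = 2 ^ 2 by norm_num, Real.log_pow,
        ← hq]
      norm_num
    have hlogm : Real.log m ≤ 2 * Real.log 2 + q := by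
      rw [← hlog4l]; exact Real.log_le_log hmpos hm4
    have hM : (Nat.log 2 m : ℝ) * Real.log 2 ≤ Real.log m := by
      have hm0 : m ≠ 0 := by omega
      have h1 : 2 ^ Nat.log 2 m ≤ m := Nat.pow_log_le_self 2 hm0
      have h2 : ((2:ℝ) ^ Nat.log 2 m) ≤ (m:ℝ) := by exact_mod_cast h1
      have h3 := Real.log_le_log (by positivity) h2
      rw [Real.log_pow] at h3
      exact h3
    have hMnn : (0:ℝ) ≤ (Nat.log 2 m : ℝ) := Nat.cast_nonneg _
    have hM2 : (Nat.log 2 m : ℝ) + 1 ≤ 4.5 * q := by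
      have h1 : (Nat.log 2 m : ℝ) * 0.6931471803 ≤ 1.3862943616 + q := by nlinarith
      nlinarith
    have hyR : y = 10 ^ 6 * (m:ℝ) * ((Nat.log 2 m : ℝ) + 1) := by rw [hy]; push_cast; ring
    have hy1 : y ≤ 4243 ^ 2 * (l * q) := by
      rw [hyR]
      have h1 : (m:ℝ) * ((Nat.log 2 m : ℝ) + 1) ≤ (4 * l) * (4.5 * q) :=
        mul_le_mul hm4 hM2 (by linarith) (by linarith)
      have h2 : 0 ≤ l * q := by positivity
      nlinarith
    have hsy : √y ≤ 4243 * (√l * √q) := by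
      have h1 : √y ≤ √(4243 ^ 2 * (l * q)) := Real.sqrt_le_sqrt hy1
      have h2 : √(4243 ^ 2 * (l * q)) = 4243 * (√l * √q) := by
        rw [Real.sqrt_mul (by norm_num), Real.sqrt_sq (by norm_num), Real.sqrt_mul hlpos.le]
      rw [h2] at h1; exact h1
    have hlogm2 : Real.log ((m:ℝ) / 2) ≤ 1.7 * q := by
      rw [Real.log_div hmpos.ne' (by norm_num)]
      linarith
    have hlogm2nn : 0 ≤ Real.log ((m:ℝ) / 2) := by
      apply Real.log_nonneg
      rw [le_div_iff₀ (by norm_num)]; linarith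
    have hsl : 1 ≤ √l := by
      rw [show (1:ℝ) = √1 by simp]; exact Real.sqrt_le_sqrt (by linarith)
    have hsq : 1 ≤ √q := by
      rw [show (1:ℝ) = √1 by simp]; exact Real.sqrt_le_sqrt hq1
    have hq32 : q ^ (3 / 2 : ℝ) = q * √q := by
      rw [show (3 / 2 : ℝ) = 1 + 1 / 2 by norm_num, Real.rpow_add hqpos, Real.rpow_one,
        Real.sqrt_eq_rpow]
    have hlog8 : Real.log 8 ≤ 2.08 := by
      rw [show (8:ℝ) = 2 ^ 3 by norm_num, Real.log_pow]; push_cast; linarith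
    have hkey : Real.log 8 + 4 * √y * Real.log ((m:ℝ) / 2) ≤ 10 ^ 5 * √l * q ^ (3 / 2 : ℝ) := by
      rw [hq32]
      have h1 : √y * Real.log ((m:ℝ) / 2) ≤ (4243 * (√l * √q)) * (1.7 * q) :=
        mul_le_mul hsy hlogm2 hlogm2nn (by positivity)
      have h2 : 1 ≤ √l * (q * √q) := by
        have h3 : 1 ≤ q * √q := by nlinarith
        nlinarith
      nlinarith
    have hRHS : (1 / 8 : ℝ) * (2 / (m : ℝ)) ^ (4 * √y)
        = Real.exp (-(Real.log 8 + 4 * √y * Real.log ((m:ℝ) / 2))) := by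
      rw [neg_add, Real.exp_add]
      congr 1
      · rw [Real.exp_neg, Real.exp_log (by norm_num)]; norm_num
      · rw [Real.rpow_def_of_pos (by positivity)]
        congr 1
        rw [Real.log_div (by norm_num) hmpos.ne', Real.log_div hmpos.ne' (by norm_num)]
        ring
    rw [hRHS]
    apply Real.exp_le_exp.mpr
    linarith
  · have h1 : H < 2 ^ (Nat.log 2 H + 1) := Nat.lt_pow_succ_log_self (by norm_num) H
    have h2 : H ^ 2 ≤ (2 ^ (Nat.log 2 H + 1)) ^ 2 := Nat.pow_le_pow_left h1.le 2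
    calc 2 * H ^ 2 ≤ 2 * (2 ^ (Nat.log 2 H + 1)) ^ 2 := Nat.mul_le_mul_left 2 h2
      _ = 2 ^ m := by rw [hm]; ring


theorem lower_main (H m : ℕ) (hm2 : 2 ≤ m) (hm : 2 * H ^ 2 ≤ 2 ^ m) (y : ℝ) (hy : 1 ≤ y)
    (S : Finset ℕ) (hS : S.card = m) (hp : ∀ p ∈ S, p.Prime ∧ p % 4 = 3 ∧ (p : ℝ) ≤ y)
    (c0 : ℝ) (c : ℕ → ℝ) (hc0 : 0 ≤ c0) (hT : ∀ t, 0 ≤ T H c0 c t) (hT0 : T H c0 c 0 = 1) :
    (1 / 8) * (2 / (m : ℝ)) ^ (4 * √y) ≤ c0 := by
  have hsy : 1 ≤ √y := Real.one_le_sqrt.mpr hy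
  have hsy0 : 0 < √y := by linarith
  have hmr : (2 : ℝ) ≤ m := by exact_mod_cast hm2
  set N : ℕ → ℕ := fun k => (S.filter (fun p => ¬ p ∣ k)).card with hN
  set f : ℂ → ℂ := fun z => (c0 : ℂ) + ∑ k ∈ Finset.Icc 1 H, (c k : ℂ) * z ^ (N k) with hf
  have hfd : Differentiable ℂ f := by
    rw [hf]
    fun_prop
  have hre : ∀ z, (f z).re = c0 + ∑ k ∈ Finset.Icc 1 H, c k * (z ^ (N k)).re := by
    intro z
    simp only [hf]
    rw [Complex.add_re, Complex.re_sum, Complex.ofReal_re]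
    congr 1
    apply Finset.sum_congr rfl
    intro k _
    rw [Complex.re_ofReal_mul]
  have hav : ∀ x : ℂ, 0 ≤ x.re → |x.im| ≤ (1 - x.re) / √y → 0 ≤ (f x).re ∧
      (x.im = 0 → x.re ^ m ≤ (f x).re) := by
    intro x hx0 hx1
    have h1 := averaged H c0 c hT hT0 S x hx0 (fun p hpS =>
      ⟨(hp p hpS).1.pos, local_weights p (hp p hpS).1 (hp p hpS).2.1 y (hp p hpS).2.2 x hx0 hx1⟩)
    rw [hS] at h1
    constructor
    · have h2 := h1.1 0
      rw [hre]
      have e0 : ∀ k : ℕ, e ((k : ℝ) ^ 2 * 0) = 1 := by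
        intro k; unfold e; simp
      simp only [e0, mul_one] at h2
      exact h2
    · intro him
      rw [hre]
      exact h1.2 him
  have hpos : ∀ z : ℂ, 0 ≤ z.re → |z.im| ≤ (1 - z.re) / √y → 0 ≤ (f z).re :=
    fun z h0 h1 => (hav z h0 h1).1
  have hξ : (1 : ℝ) / m ≤ 1 / 2 := by
    apply one_div_le_one_div_of_le (by norm_num) hmr
  have hξ0 : (0 : ℝ) < 1 / m := by positivity
  have hH := harnack f hfd (√y) hsy hpos (fun c r hr h => deriv_bound f hfd c r hr h)
    (1 / m) hξ0 hξ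
  have h2 : (1 / 4 : ℝ) ≤ (f (((1 - 1 / m : ℝ)) : ℂ)).re := by
    have h3 := (hav (((1 - 1 / m : ℝ)) : ℂ) (by rw [Complex.ofReal_re]; linarith)
      (by rw [Complex.ofReal_im, abs_zero, Complex.ofReal_re]; apply div_nonneg _ hsy0.le; linarith)).2
      (Complex.ofReal_im _)
    rw [Complex.ofReal_re] at h3
    refine le_trans ?_ h3
    -- `(1-1/m)^m ≥ 1/4`
    have h4 : (1 / 2 : ℝ) ≤ (1 + -(1 / (m : ℝ))) ^ ((m : ℝ) / 2) := by
      have hb := one_add_mul_self_le_rpow_one_add (s := -(1 / (m : ℝ))) (by linarith)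
        (p := (m : ℝ) / 2) (by linarith)
      refine le_trans (le_of_eq ?_) hb
      field_simp
      norm_num
    have hb0 : (0 : ℝ) ≤ 1 + -(1 / (m : ℝ)) := by linarith
    have h10 : (1 - 1 / (m : ℝ)) ^ m = ((1 + -(1 / (m : ℝ))) ^ ((m : ℝ) / 2)) ^ 2 := by
      rw [← Real.rpow_natCast ((1 + -(1 / (m : ℝ))) ^ ((m : ℝ) / 2)) 2, ← Real.rpow_mul hb0,
        ← Real.rpow_natCast (1 - 1 / (m : ℝ)) m]
      congr 1
      push_cast
      ring
    rw [h10]
    nlinarith
  have h5 : (2 * (1 / (m : ℝ))) ^ (4 * √y) = (2 / (m : ℝ)) ^ (4 * √y) := by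
    congr 1; ring
  rw [h5] at hH
  have h6 : (0 : ℝ) ≤ (2 / (m : ℝ)) ^ (4 * √y) := by positivity
  have h7 := half_le H m c0 c hc0 (fun k h1 h2 => coef_le H c0 c hT k h1 h2) S hS
    (fun p hpS => (hp p hpS).1) hm
  have h8 : (f ((1 / 2 : ℝ) : ℂ)).re =
      c0 + ∑ k ∈ Finset.Icc 1 H, c k * (1 / 2 : ℝ) ^ (S.filter (fun p => ¬ p ∣ k)).card := by
    rw [hre]
    congr 1
    apply Finset.sum_congr rfl
    intro k _
    rw [← Complex.ofReal_pow, Complex.ofReal_re]
  rw [h8] at hH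
  have h9 := mul_le_mul_of_nonneg_right h2 h6
  linarith

theorem δ_lower (H : ℕ) (hH : 16 ≤ H) :
    Real.exp (-(10 ^ 5 * √(Real.log H) * (Real.log (Real.log H)) ^ (3 / 2 : ℝ))) ≤ δ H := by
  have hne : {c0 : ℝ | ∃ c : ℕ → ℝ, Admissible H c0 c}.Nonempty :=
    ⟨1, ⟨fun _ => 0, admissible_one H⟩⟩
  apply le_csInf hne
  rintro c0 ⟨c, hc⟩
  obtain ⟨m, hm⟩ : ∃ m : ℕ, m = 2 * Nat.log 2 H + 3 := ⟨_, rfl⟩
  obtain ⟨Y, hY⟩ : ∃ Y : ℕ, Y = 10 ^ 6 * m * (Nat.log 2 m + 1) := ⟨_, rfl⟩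
  have hm2 : 2 ≤ m := by omega
  obtain ⟨h1, h2⟩ := final_lower H m hH hm (Y : ℝ) (by rw [hY])
  have h3 : m ≤ (P3 Y).card := by
    rw [hY]
    exact P3_card_m m hm2 (fun x hx => P3_card x hx
      ((lam3 x (by omega)).trans (lam3_le x (by omega))))
  obtain ⟨S, hSs, hSc⟩ := Finset.exists_subset_card_eq h3
  refine h1.trans ?_
  apply lower_main H m hm2 h2 (Y : ℝ) _ S hSc _ c0 c (const_nonneg H c0 c hc) hc.1 hc.2
  · have : 1 ≤ Y := by
      rw [hY]
      exact Nat.one_le_iff_ne_zero.mpr (by positivity)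
    exact_mod_cast this
  · intro p hp
    have := hSs hp
    unfold P3 at this
    rw [Finset.mem_filter, Finset.mem_range] at this
    exact ⟨this.2.1, this.2.2, by exact_mod_cast (by omega : p ≤ Y)⟩
/-- the logarithmic scale -/
theorem limit_half (δ : ℕ → ℝ)
    (h : ∀ H : ℕ, 16 ≤ H →
      Real.exp (-(10 ^ 5 * √(Real.log H) * (Real.log (Real.log H)) ^ (3 / 2 : ℝ))) ≤ δ H ∧
        δ H ≤ 128 * Real.exp (-√(Real.log H) / 10 ^ 8)) :
    Filter.Tendsto (fun H : ℕ => Real.log (-Real.log (δ H)) / Real.log (Real.log H))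
      Filter.atTop (nhds (1 / 2)) := by
  have tl : Filter.Tendsto (fun H : ℕ => Real.log (H : ℝ)) Filter.atTop Filter.atTop :=
    Real.tendsto_log_atTop.comp tendsto_natCast_atTop_atTop
  have tq : Filter.Tendsto (fun H : ℕ => Real.log (Real.log (H : ℝ))) Filter.atTop Filter.atTop :=
    Real.tendsto_log_atTop.comp tl
  have t1 : Filter.Tendsto (fun H : ℕ => 1 / 2 - Real.log (10 ^ 9) / Real.log (Real.log (H : ℝ)))
      Filter.atTop (nhds (1 / 2)) := by
    have := (tendsto_const_nhds (x := (1 / 2 : ℝ))).sub (tq.const_div_atTop (Real.log (10 ^ 9)))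
    simpa using this
  have t2 : Filter.Tendsto (fun H : ℕ => 1 / 2 + 3 / 2 * (Real.log (Real.log (Real.log (H : ℝ))) /
      Real.log (Real.log (H : ℝ))) + Real.log (10 ^ 5) / Real.log (Real.log (H : ℝ)))
      Filter.atTop (nhds (1 / 2)) := by
    have h0 : Filter.Tendsto (fun x : ℝ => Real.log x / x) Filter.atTop (nhds 0) := by
      have := Real.isLittleO_log_id_atTop.tendsto_div_nhds_zero
      simpa using this
    have h1 := (h0.comp tq).const_mul (3 / 2 : ℝ)
    have h2 := ((tendsto_const_nhds (x := (1 / 2 : ℝ))).add h1).add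
      (tq.const_div_atTop (Real.log (10 ^ 5)))
    simpa [Function.comp_def] using h2
  have e1 : ∀ᶠ H : ℕ in Filter.atTop, 16 ≤ H := Filter.eventually_ge_atTop 16
  have e2 : ∀ᶠ H : ℕ in Filter.atTop, (10 : ℝ) ^ 30 ≤ Real.log (H : ℝ) := tl.eventually_ge_atTop _
  have e3 : ∀ᶠ H : ℕ in Filter.atTop, (1 : ℝ) ≤ Real.log (Real.log (H : ℝ)) := tq.eventually_ge_atTop _
  have key : ∀ᶠ H : ℕ in Filter.atTop,
      1 / 2 - Real.log (10 ^ 9) / Real.log (Real.log (H : ℝ)) ≤
        Real.log (-Real.log (δ H)) / Real.log (Real.log H) ∧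
      Real.log (-Real.log (δ H)) / Real.log (Real.log H) ≤
        1 / 2 + 3 / 2 * (Real.log (Real.log (Real.log (H : ℝ))) /
      Real.log (Real.log (H : ℝ))) + Real.log (10 ^ 5) / Real.log (Real.log (H : ℝ)) := by
    filter_upwards [e1, e2, e3] with H h1 h2 h3
    obtain ⟨ha, hb⟩ := h H h1
    set l := Real.log (H : ℝ) with hl
    set q := Real.log l with hq
    have hlpos : 0 < l := lt_of_lt_of_le (by norm_num) h2
    have hqpos : 0 < q := by linarith
    have hspos : 0 < √l := Real.sqrt_pos.mpr hlpos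
    have hs15 : (10 : ℝ) ^ 15 ≤ √l := by
      apply Real.le_sqrt_of_sq_le
      norm_num at h2 ⊢
      exact h2
    have hδ : 0 < δ H := lt_of_lt_of_le (Real.exp_pos _) ha
    have hup : -Real.log (δ H) ≤ 10 ^ 5 * √l * q ^ (3 / 2 : ℝ) := by
      have := Real.log_le_log (Real.exp_pos _) ha
      rw [Real.log_exp] at this
      linarith
    have hlo0 : √l / 10 ^ 8 - Real.log 128 ≤ -Real.log (δ H) := by
      have := Real.log_le_log hδ hb
      rw [Real.log_mul (by norm_num) (Real.exp_pos _).ne', Real.log_exp] at this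
      have e : -√l / 10 ^ 8 = -(√l / 10 ^ 8) := by ring
      rw [e] at this
      linarith
    have h128 : Real.log 128 ≤ 127 := by
      have := Real.log_le_sub_one_of_pos (show (0 : ℝ) < 128 by norm_num)
      linarith
    have hlo : √l / 10 ^ 9 ≤ -Real.log (δ H) := by
      refine le_trans ?_ hlo0
      have : √l / 10 ^ 8 = 10 * (√l / 10 ^ 9) := by ring
      rw [this]
      have h4 : (10 : ℝ) ^ 6 ≤ √l / 10 ^ 9 := by
        rw [le_div_iff₀ (by norm_num)]
        norm_num at hs15 ⊢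
        exact hs15
      linarith
    have hm : 0 < -Real.log (δ H) := lt_of_lt_of_le (by positivity) hlo
    have hlogs : Real.log (√l) = q / 2 := Real.log_sqrt hlpos.le
    constructor
    · rw [le_div_iff₀ hqpos]
      have h5 := Real.log_le_log (by positivity) hlo
      rw [Real.log_div hspos.ne' (by norm_num), hlogs] at h5
      have h6 : (1 / 2 - Real.log (10 ^ 9) / q) * q = q / 2 - Real.log (10 ^ 9) := by
        field_simp
      rw [h6]
      exact h5
    · rw [div_le_iff₀ hqpos]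
      have h5 := Real.log_le_log hm hup
      have hq32 : 0 < q ^ (3 / 2 : ℝ) := Real.rpow_pos_of_pos hqpos _
      rw [Real.log_mul (by positivity) hq32.ne', Real.log_mul (by norm_num) hspos.ne', hlogs,
        Real.log_rpow hqpos] at h5
      have h6 : (1 / 2 + 3 / 2 * (Real.log q / q) + Real.log (10 ^ 5) / q) * q =
          q / 2 + 3 / 2 * Real.log q + Real.log (10 ^ 5) := by
        field_simp
      rw [h6]
      linarith
  exact tendsto_of_tendsto_of_tendsto_of_le_of_le' t1 t2 (key.mono fun _ h => h.1)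
    (key.mono fun _ h => h.2)


end Pool.Agent.VdCSquares.L
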