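import Pool.Agent.VdCSquares.LowerBound

set_option linter.unusedVariables false

namespace Pool.Agent.VdCSquares.L

open Real Finset

/-- Harnack inequality on `(0,1/2]` -/
theorem harnack2 (f : ℂ → ℂ) (hf : Differentiable ℂ f) (s : ℝ) (hs : 1 ≤ s)
    (h : ∀ z : ℂ, 0 ≤ z.re → |z.im| ≤ (1 - z.re) / s → 0 ≤ (f z).re)
    (der : ∀ (c : ℂ) (r : ℝ), 0 < r → (∀ z, ‖z - c‖ ≤ r → 0 ≤ (f z).re) →
      ‖deriv f c‖ ≤ 2 * (f c).re / r)
    (ε : ℝ) (hε0 : 0 < ε) (hε : ε ≤ 1 / 2) :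
    (f ((1 / 2 : ℝ) : ℂ)).re * ((2 * ε) ^ 2 * Real.exp (-(4 * s))) ≤ (f ((ε : ℝ) : ℂ)).re := by
  have hs0 : 0 < s := by linarith
  have hball : ∀ x : ℝ, 0 < x → x ≤ 1 / 2 → ∀ z : ℂ, ‖z - (x : ℂ)‖ ≤ min x (1 / (4 * s)) →
      0 ≤ (f z).re := by
    intro x hx hx2 z hz
    have h1 : |(z - (x : ℂ)).re| ≤ min x (1 / (4 * s)) := (Complex.abs_re_le_norm _).trans hz
    have h2 : |(z - (x : ℂ)).im| ≤ min x (1 / (4 * s)) := (Complex.abs_im_le_norm _).trans hz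
    rw [Complex.sub_re, Complex.ofReal_re, abs_le] at h1
    rw [Complex.sub_im, Complex.ofReal_im, sub_zero] at h2
    have h3 := min_le_left x (1 / (4 * s))
    have h4 := min_le_right x (1 / (4 * s))
    have h5 : 1 / (4 * s) ≤ 1 / 4 := by
      rw [div_le_div_iff₀ (by positivity) (by norm_num)]
      linarith
    apply h z (by linarith [h1.1])
    have h6 : z.re ≤ 3 / 4 := by linarith [h1.2]
    calc |z.im| ≤ 1 / (4 * s) := h2.trans h4
      _ = (1 - 3 / 4) / s := by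
          field_simp
          norm_num
      _ ≤ (1 - z.re) / s := by
          apply div_le_div_of_nonneg_right _ hs0.le
          linarith
  have hu0 : ∀ x : ℝ, 0 < x → x ≤ 1 / 2 → 0 ≤ (f (x : ℂ)).re := by
    intro x hx hx2
    apply hball x hx hx2
    rw [sub_self, norm_zero]
    exact le_min hx.le (by positivity)
  have hder : ∀ x : ℝ, HasDerivAt (fun y : ℝ => (f (y : ℂ)).re) (deriv f (x : ℂ)).re x := by
    intro x
    exact (hf.differentiableAt.hasDerivAt).real_of_complex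
  have hbd : ∀ x : ℝ, 0 < x → x ≤ 1 / 2 →
      (deriv f (x : ℂ)).re ≤ (f (x : ℂ)).re * (8 * s + 2 * x⁻¹) := by
    intro x hx hx2
    have hr : 0 < min x (1 / (4 * s)) := lt_min hx (by positivity)
    have h1 := der (x : ℂ) _ hr (hball x hx hx2)
    have h2 := (le_abs_self _).trans ((Complex.abs_re_le_norm (deriv f (x : ℂ))).trans h1)
    have h0 := hu0 x hx hx2
    refine h2.trans ?_
    rcases min_choice x (1 / (4 * s)) with h3 | h3
    · rw [h3]
      have h4 : 2 * (f (x : ℂ)).re / x = (f (x : ℂ)).re * (2 * x⁻¹) := by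
        rw [div_eq_mul_inv]
        ring
      rw [h4]
      apply mul_le_mul_of_nonneg_left _ h0
      linarith
    · rw [h3]
      have h4 : 2 * (f (x : ℂ)).re / (1 / (4 * s)) = (f (x : ℂ)).re * (8 * s) := by
        field_simp
        ring
      rw [h4]
      apply mul_le_mul_of_nonneg_left _ h0
      have : 0 < x⁻¹ := inv_pos.mpr hx
      linarith
  have hg : ∀ x : ℝ, 0 < x → HasDerivAt
      (fun y : ℝ => (f (y : ℂ)).re * Real.exp (-(8 * s * y + 2 * Real.log y)))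
      ((deriv f (x : ℂ)).re * Real.exp (-(8 * s * x + 2 * Real.log x)) +
        (f (x : ℂ)).re * (Real.exp (-(8 * s * x + 2 * Real.log x)) *
          (-(8 * s * 1 + 2 * x⁻¹)))) x := by
    intro x hx
    have h1 : HasDerivAt (fun y : ℝ => -(8 * s * y + 2 * Real.log y))
        (-(8 * s * 1 + 2 * x⁻¹)) x :=
      (((hasDerivAt_id x).const_mul (8 * s)).add
        ((Real.hasDerivAt_log hx.ne').const_mul 2)).neg
    exact (hder x).mul h1.exp
  have hanti : AntitoneOn (fun y : ℝ => (f (y : ℂ)).re *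
      Real.exp (-(8 * s * y + 2 * Real.log y))) (Set.Icc ε (1 / 2)) := by
    apply antitoneOn_of_deriv_nonpos (convex_Icc _ _)
    · intro x hx
      exact (hg x (lt_of_lt_of_le hε0 hx.1)).continuousAt.continuousWithinAt
    · intro x hx
      rw [interior_Icc] at hx
      exact (hg x (hε0.trans hx.1)).differentiableAt.differentiableWithinAt
    · intro x hx
      rw [interior_Icc] at hx
      have hx0 := hε0.trans hx.1
      rw [(hg x hx0).deriv]
      have h1 := hbd x hx0 hx.2.le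
      have hE := Real.exp_pos (-(8 * s * x + 2 * Real.log x))
      nlinarith
  have hfin := hanti (Set.left_mem_Icc.mpr hε) (Set.right_mem_Icc.mpr hε) hε
  simp only at hfin
  have hu1 := hu0 (1 / 2) (by norm_num) le_rfl
  have hE1 : Real.exp (-(8 * s * (1 / 2) + 2 * Real.log (1 / 2))) = 4 * Real.exp (-(4 * s)) := by
    have h1 : -(8 * s * (1 / 2) + 2 * Real.log (1 / 2)) =
        Real.log 2 + Real.log 2 + -(4 * s) := by
      rw [one_div, Real.log_inv]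
      ring
    rw [h1, Real.exp_add, Real.exp_add, Real.exp_log (by norm_num)]
    ring
  have hE2 : Real.exp (-(8 * s * ε + 2 * Real.log ε)) ≤ (ε ^ 2)⁻¹ := by
    have h1 : -(8 * s * ε + 2 * Real.log ε) = -(8 * s * ε) + -(Real.log ε + Real.log ε) := by ring
    rw [h1, Real.exp_add, Real.exp_neg (Real.log ε + Real.log ε), Real.exp_add,
      Real.exp_log hε0]
    have h2 : Real.exp (-(8 * s * ε)) ≤ 1 := by
      rw [Real.exp_le_one_iff]
      have : 0 < 8 * s * ε := by positivity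
      linarith
    have h3 : 0 < (ε * ε)⁻¹ := by positivity
    calc Real.exp (-(8 * s * ε)) * (ε * ε)⁻¹ ≤ 1 * (ε * ε)⁻¹ :=
          mul_le_mul_of_nonneg_right h2 h3.le
      _ = (ε ^ 2)⁻¹ := by rw [one_mul, sq]
  rw [hE1] at hfin
  have huε := hu0 ε hε0 hε
  have h5 : (f ((1 / 2 : ℝ) : ℂ)).re * (4 * Real.exp (-(4 * s))) ≤
      (f ((ε : ℝ) : ℂ)).re * (ε ^ 2)⁻¹ :=
    hfin.trans (mul_le_mul_of_nonneg_left hE2 huε)
  have h6 : 0 < ε ^ 2 := by positivity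
  calc (f ((1 / 2 : ℝ) : ℂ)).re * ((2 * ε) ^ 2 * Real.exp (-(4 * s)))
      = (f ((1 / 2 : ℝ) : ℂ)).re * (4 * Real.exp (-(4 * s))) * ε ^ 2 := by ring
    _ ≤ (f ((ε : ℝ) : ℂ)).re * (ε ^ 2)⁻¹ * ε ^ 2 := mul_le_mul_of_nonneg_right h5 h6.le
    _ = (f ((ε : ℝ) : ℂ)).re := by
        rw [mul_assoc, inv_mul_cancel₀ h6.ne', mul_one]

theorem few_primes_sq (l : ℕ) : l * l ≤ 4 * 2 ^ l := by
  induction l with
  | zero => norm_num
  | succ l ih =>
    have h1 : l < 2 ^ l := Nat.lt_two_pow_self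
    rw [pow_succ]
    nlinarith

/-- few primes divide `k ≤ H` -/
theorem few_primes (H L l a : ℕ) (hH : 16 ≤ H) (hL : L = Nat.log 2 H) (hl : l = Nat.log 2 L)
    (ha : a = L / l + 1) (S : Finset ℕ) (hp : ∀ p ∈ S, p.Prime) (k : ℕ) (hk1 : 1 ≤ k)
    (hk2 : k ≤ H) : (S.filter (fun p => p ∣ k)).card ≤ 8 * a := by
  have hH0 : H ≠ 0 := by omega
  have hL4 : 4 ≤ L := by
    rw [hL]
    exact Nat.le_log_of_pow_le (by norm_num) (by norm_num; exact hH)
  have hl2 : 2 ≤ l := by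
    rw [hl]
    exact Nat.le_log_of_pow_le (by norm_num) (by norm_num; exact hL4)
  have h2l : 2 ^ l ≤ L := by
    rw [hl]
    exact Nat.pow_log_le_self 2 (by omega)
  have hHlt : H < 2 ^ (L + 1) := by
    rw [hL]
    exact Nat.lt_pow_succ_log_self (by norm_num) H
  have hal : L < a * l := by
    rw [ha]
    have h1 := Nat.div_add_mod L l
    have h2 := Nat.mod_lt L (show 0 < l by omega)
    have h3 : (L / l + 1) * l = l * (L / l) + l := by ring
    rw [h3]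
    omega
  by_contra hcon
  rw [not_le] at hcon
  obtain ⟨W, hW⟩ : ∃ W : Finset ℕ, W = S.filter (fun p => p ∣ k) := ⟨_, rfl⟩
  rw [← hW] at hcon
  have hWp : ∀ p ∈ W, p.Prime := by
    intro p hp'
    rw [hW, Finset.mem_filter] at hp'
    exact hp p hp'.1
  have hWd : ∀ p ∈ W, p ∣ k := by
    intro p hp'
    rw [hW, Finset.mem_filter] at hp'
    exact hp'.2
  have hdvd : ∏ p ∈ W, p ∣ k := Finset.prod_primes_dvd k (fun p hp' => (hWp p hp').prime) hWd
  have hle : ∏ p ∈ W, p ≤ k := Nat.le_of_dvd (by omega) hdvd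
  -- big primes
  have hsplit := Finset.card_filter_add_card_filter_not (s := W) (fun p => p ≤ 4 * a)
  have hsmall : (W.filter (fun p => p ≤ 4 * a)).card ≤ 4 * a := by
    have h1 : W.filter (fun p => p ≤ 4 * a) ⊆ Finset.Icc 1 (4 * a) := by
      intro p hp'
      rw [Finset.mem_filter] at hp'
      rw [Finset.mem_Icc]
      exact ⟨(hWp p hp'.1).one_lt.le, hp'.2⟩
    have h2 := Finset.card_le_card h1
    rw [Nat.card_Icc] at h2
    omega
  have hbig : 4 * a ≤ (W.filter (fun p => ¬ p ≤ 4 * a)).card := by omega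
  have h1 : (4 * a) ^ (W.filter (fun p => ¬ p ≤ 4 * a)).card ≤
      ∏ p ∈ W.filter (fun p => ¬ p ≤ 4 * a), p := by
    rw [← Finset.prod_const]
    apply Finset.prod_le_prod'
    intro p hp'
    rw [Finset.mem_filter] at hp'
    omega
  have h2 : ∏ p ∈ W.filter (fun p => ¬ p ≤ 4 * a), p ≤ ∏ p ∈ W, p := by
    apply Finset.prod_le_prod_of_subset_of_one_le' (Finset.filter_subset _ _)
    intro p hp' _
    exact (hWp p hp').one_lt.le
  have ha1 : 1 ≤ a := by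
    rw [ha]
    exact Nat.le_add_left 1 _
  have h3 : (4 * a) ^ (4 * a) ≤ (4 * a) ^ (W.filter (fun p => ¬ p ≤ 4 * a)).card :=
    Nat.pow_le_pow_right (by omega) hbig
  have h4 : 2 ^ l ≤ (4 * a) ^ 2 := by
    have e1 := few_primes_sq l
    have e2 : L * L ≤ (a * l) * (a * l) := Nat.mul_le_mul hal.le hal.le
    have e3 : L * (l * l) ≤ (4 * a) ^ 2 * (l * l) := by
      calc L * (l * l) ≤ L * (4 * 2 ^ l) := Nat.mul_le_mul_left _ e1
        _ ≤ L * (4 * L) := Nat.mul_le_mul_left _ (Nat.mul_le_mul_left _ h2l)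
        _ ≤ 16 * (L * L) := by nlinarith
        _ ≤ 16 * ((a * l) * (a * l)) := Nat.mul_le_mul_left _ e2
        _ = (4 * a) ^ 2 * (l * l) := by ring
    have e4 : L ≤ (4 * a) ^ 2 := Nat.le_of_mul_le_mul_right e3 (by positivity)
    exact h2l.trans e4
  have h5 : 2 ^ (L + 1) ≤ (4 * a) ^ (4 * a) := by
    have e1 : (4 * a) ^ (4 * a) = ((4 * a) ^ 2) ^ (2 * a) := by
      rw [← pow_mul]
      congr 1
      ring
    rw [e1]
    refine le_trans ?_ (Nat.pow_le_pow_left h4 (2 * a))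
    rw [← pow_mul]
    apply Nat.pow_le_pow_right (by norm_num)
    have e2 : l * (2 * a) = 2 * (a * l) := by ring
    rw [e2]
    omega
  omega

theorem eps_le (H L l a : ℕ) (hH : 16 ≤ H) (hL : L = Nat.log 2 H) (hl : l = Nat.log 2 L)
    (ha : a = L / l + 1) (c0 : ℝ) (c : ℕ → ℝ) (hc0 : 0 ≤ c0)
    (hc : ∀ k, 1 ≤ k → k ≤ H → |c k| ≤ 2 * c0) (S : Finset ℕ) (hS : S.card = 12 * a)
    (few : ∀ k, 1 ≤ k → k ≤ H → (S.filter (fun p => p ∣ k)).card ≤ 8 * a) :
    c0 + ∑ k ∈ Finset.Icc 1 H, c k * (1 / 2 ^ l : ℝ) ^ (S.filter (fun p => ¬ p ∣ k)).card ≤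
      2 * c0 := by
  have hL4 : 4 ≤ L := by
    rw [hL]
    have := Nat.log_mono_right (b := 2) hH
    have h16 : Nat.log 2 16 = 4 := by
      rw [show (16 : ℕ) = 2 ^ 4 by norm_num, Nat.log_pow (by norm_num)]
    omega
  have hl2 : 2 ≤ l := by
    rw [hl]
    have := Nat.log_mono_right (b := 2) hL4
    have h4 : Nat.log 2 4 = 2 := by
      rw [show (4 : ℕ) = 2 ^ 2 by norm_num, Nat.log_pow (by norm_num)]
    omega
  have hal : L < l * a := by
    rw [ha]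
    exact Nat.lt_mul_div_succ L (by omega)
  have hHL : 2 * H ≤ 2 ^ (4 * L) := by
    have h1 : H < 2 ^ (L + 1) := by
      rw [hL]
      exact Nat.lt_pow_succ_log_self (by norm_num) H
    have h2 : 2 ^ (L + 2) ≤ 2 ^ (4 * L) := Nat.pow_le_pow_right (by norm_num) (by omega)
    have h3 : 2 ^ (L + 2) = 2 * 2 ^ (L + 1) := by ring
    omega
  have hterm : ∀ k ∈ Finset.Icc 1 H,
      c k * (1 / 2 ^ l : ℝ) ^ (S.filter (fun p => ¬ p ∣ k)).card ≤
        2 * c0 * (1 / 2 ^ (4 * L)) := by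
    intro k hk
    obtain ⟨hk1, hk2⟩ := Finset.mem_Icc.1 hk
    have hn : 4 * a ≤ (S.filter (fun p => ¬ p ∣ k)).card := by
      have h1 := Finset.card_filter_add_card_filter_not (s := S) (fun p => p ∣ k)
      have h2 := few k hk1 hk2
      omega
    have hp0 : (0 : ℝ) ≤ (1 / 2 ^ l : ℝ) := by positivity
    have hp1 : (1 / 2 ^ l : ℝ) ≤ 1 := by
      rw [div_le_one (by positivity)]
      exact one_le_pow₀ (by norm_num)
    have h3 : (1 / 2 ^ l : ℝ) ^ (S.filter (fun p => ¬ p ∣ k)).card ≤ (1 / 2 ^ l : ℝ) ^ (4 * a) :=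
      pow_le_pow_of_le_one hp0 hp1 hn
    have h4 : (1 / 2 ^ l : ℝ) ^ (4 * a) ≤ 1 / 2 ^ (4 * L) := by
      rw [one_div_pow, ← pow_mul]
      apply one_div_le_one_div_of_le (by positivity)
      apply pow_le_pow_right₀ (by norm_num)
      nlinarith
    have h5 : c k ≤ 2 * c0 := (le_abs_self _).trans (hc k hk1 hk2)
    calc c k * (1 / 2 ^ l : ℝ) ^ (S.filter (fun p => ¬ p ∣ k)).card
        ≤ 2 * c0 * (1 / 2 ^ l : ℝ) ^ (S.filter (fun p => ¬ p ∣ k)).card :=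
          mul_le_mul_of_nonneg_right h5 (pow_nonneg hp0 _)
      _ ≤ 2 * c0 * (1 / 2 ^ (4 * L)) :=
          mul_le_mul_of_nonneg_left (h3.trans h4) (by linarith)
  have hsum := Finset.sum_le_sum hterm
  rw [Finset.sum_const, Nat.card_Icc, nsmul_eq_mul] at hsum
  have h6 : ((H + 1 - 1 : ℕ) : ℝ) * (2 * c0 * (1 / 2 ^ (4 * L))) ≤ c0 := by
    have h7 : (2 : ℝ) * (H : ℝ) ≤ 2 ^ (4 * L) := by exact_mod_cast hHL
    have h8 : ((H + 1 - 1 : ℕ) : ℝ) = (H : ℝ) := by simp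
    rw [h8]
    have h9 : (H : ℝ) * (2 * c0 * (1 / 2 ^ (4 * L))) = c0 * ((2 * (H : ℝ)) / 2 ^ (4 * L)) := by ring
    rw [h9]
    have h10 : (2 * (H : ℝ)) / 2 ^ (4 * L) ≤ 1 := by
      rw [div_le_one (by positivity)]
      exact h7
    exact mul_le_of_le_one_right hc0 h10
  linarith

theorem final_lower2 (H L l a m : ℕ) (hH : 16 ≤ H) (hL : L = Nat.log 2 H) (hl : l = Nat.log 2 L)
    (ha : a = L / l + 1) (hm : m = 12 * a) (y : ℝ)
    (hy : y = ((10 ^ 6 * m * (Nat.log 2 m + 1) : ℕ) : ℝ)) :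
    Real.exp (-(10 ^ 6 * √(Real.log H) * Real.log (Real.log H))) ≤
      (1 / 8) * (2 / (m : ℝ)) ^ (4 * √y) * ((2 * (1 / 2 ^ l)) ^ 2 * Real.exp (-(4 * √y))) := by
  have hHR : (16:ℝ) ≤ H := by exact_mod_cast hH
  have hlog2 := Real.log_two_gt_d9
  have hlog2' := Real.log_two_lt_d9
  have hexp1 := Real.exp_one_lt_d9
  have hexp1' := Real.exp_one_gt_d9
  have hLℓ : (L:ℝ) * Real.log 2 ≤ Real.log (H:ℝ) := by
    have h1 : 2^L ≤ H := by rw [hL]; exact Nat.pow_log_le_self 2 (by omega)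
    have h2 : ((2:ℝ)^L) ≤ H := by exact_mod_cast h1
    have h3 := Real.log_le_log (by positivity) h2
    rw [Real.log_pow] at h3
    exact h3
  have hℓ1 : 4 * Real.log 2 ≤ Real.log (H:ℝ) := by
    have h3 : Real.log ((2:ℝ)^4) ≤ Real.log (H:ℝ) :=
      Real.log_le_log (by norm_num) (by norm_num; exact hH)
    rw [Real.log_pow] at h3
    exact_mod_cast h3
  generalize Real.log (H:ℝ) = ℓ at *
  have hℓ2 : Real.exp 1 ≤ ℓ := by linarith
  have hℓ0 : 0 < ℓ := (Real.exp_pos 1).trans_le hℓ2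
  have hq1 : 1 ≤ Real.log ℓ := by
    rw [Real.le_log_iff_exp_le hℓ0]; exact hℓ2
  have hs1 : 1 ≤ √ℓ := by
    rw [Real.one_le_sqrt]; linarith
  have hL4 : 4 ≤ L := by
    rw [hL]; exact Nat.le_log_of_pow_le (by norm_num) (by omega)
  have hl2 : 2 ≤ l := by
    rw [hl]; exact Nat.le_log_of_pow_le (by norm_num) (by omega)
  have hL1 : (L:ℝ) ≤ 1.443 * ℓ := by
    have : (0:ℝ) ≤ L := by positivity
    nlinarith
  have hlL : l ≤ L := by rw [hl]; exact Nat.log_le_self 2 L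
  have h2l : 2 ^ l ≤ L := by rw [hl]; exact Nat.pow_log_le_self 2 (by omega)
  have hL2l : L < 2 ^ (l+1) := by rw [hl]; exact Nat.lt_pow_succ_log_self (by norm_num) L
  have htl : (L / l) * l ≤ L := Nat.div_mul_le_self L l
  have ht2 : 2 * (L / l) ≤ L := by nlinarith [Nat.zero_le (L/l)]
  have hm9 : m ≤ 9 * L := by rw [hm, ha]; omega
  have hm0 : 0 < m := by rw [hm, ha]; omega
  have hlogm : Nat.log 2 m + 1 ≤ l + 5 := by
    have : m < 2 ^ (l+5) := by
      have e : 2^(l+5) = 16 * 2^(l+1) := by ring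
      rw [e]
      omega
    have := Nat.log_lt_of_lt_pow hm0.ne' this
    omega
  have hml : m * (Nat.log 2 m + 1) ≤ 69 * L := by
    calc m * (Nat.log 2 m + 1) ≤ m * (l+5) := Nat.mul_le_mul_left _ hlogm
      _ = 12 * ((L / l) * l + 5 * (L / l) + l + 5) := by rw [hm, ha]; ring
      _ ≤ 69 * L := by omega
  have hmlR : (m:ℝ) * (Nat.log 2 m + 1) ≤ 69 * L := by exact_mod_cast hml
  have hyle : y ≤ 10^8 * ℓ := by
    rw [hy]
    push_cast
    have : (1000000:ℝ) * m * (Nat.log 2 m + 1) = 10^6 * (m * (Nat.log 2 m + 1)) := by ring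
    rw [this]
    linarith
  have hsy : √y ≤ 10^4 * √ℓ := by
    rw [Real.sqrt_le_iff]
    refine ⟨by positivity, ?_⟩
    rw [mul_pow, Real.sq_sqrt hℓ0.le]
    calc y ≤ 10^8 * ℓ := hyle
      _ = _ := by ring
  have hmR : (0:ℝ) < m := by exact_mod_cast hm0
  have hLm : Real.log ((m:ℝ)/2) ≤ Real.log ℓ + 2 := by
    have h1 : (m:ℝ)/2 ≤ ℓ * Real.exp 2 := by
      have h2 : (m:ℝ) ≤ 9 * L := by exact_mod_cast hm9
      have h3 : Real.exp 2 = Real.exp 1 * Real.exp 1 := by rw [← Real.exp_add]; norm_num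
      have h4 : (7:ℝ) ≤ Real.exp 2 := by rw [h3]; nlinarith
      nlinarith
    calc Real.log ((m:ℝ)/2) ≤ Real.log (ℓ * Real.exp 2) := Real.log_le_log (by positivity) h1
      _ = Real.log ℓ + 2 := by rw [Real.log_mul hℓ0.ne' (Real.exp_pos _).ne', Real.log_exp]
  have hLb : Real.log ((2:ℝ)^l/2) ≤ Real.log ℓ + 1 := by
    have h1 : (2:ℝ)^l/2 ≤ ℓ * Real.exp 1 := by
      have h2 : (2:ℝ)^l ≤ L := by exact_mod_cast h2l
      nlinarith
    calc Real.log ((2:ℝ)^l/2) ≤ Real.log (ℓ * Real.exp 1) := Real.log_le_log (by positivity) h1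
      _ = Real.log ℓ + 1 := by rw [Real.log_mul hℓ0.ne' (Real.exp_pos _).ne', Real.log_exp]
  have h8 : Real.log (1/8) = -(3 * Real.log 2) := by
    rw [one_div, Real.log_inv, show (8:ℝ) = 2^3 by norm_num, Real.log_pow]
    norm_num
  have e1 : Real.log (2 / (m:ℝ)) = - Real.log ((m:ℝ)/2) := by
    rw [← Real.log_inv, inv_div]
  have e2 : Real.log (2 * (1 / 2 ^ l)) = - Real.log ((2:ℝ)^l/2) := by
    rw [← Real.log_inv, inv_div]
    congr 1
    ring
  have hA : (0:ℝ) < (2 / (m : ℝ)) ^ (4 * √y) := Real.rpow_pos_of_pos (by positivity) _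
  have hB : (0:ℝ) < (2 * (1 / 2 ^ l)) ^ 2 := by positivity
  have hE := Real.exp_pos (-(4 * √y))
  rw [← Real.le_log_iff_exp_le (by positivity), Real.log_mul (by positivity) (by positivity),
    Real.log_mul (by norm_num) hA.ne', Real.log_mul hB.ne' hE.ne', Real.log_rpow (by positivity),
    Real.log_pow, Real.log_exp, h8, e1, e2]
  have hy0 : 0 ≤ √y := Real.sqrt_nonneg y
  have k1 : √y * (Real.log ((m:ℝ)/2) + 1) ≤ 10^4 * √ℓ * (4 * Real.log ℓ) := by
    calc √y * (Real.log ((m:ℝ)/2) + 1) ≤ √y * (4 * Real.log ℓ) :=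
          mul_le_mul_of_nonneg_left (by linarith) hy0
      _ ≤ _ := mul_le_mul_of_nonneg_right hsy (by linarith)
  have k2 : Real.log ℓ ≤ √ℓ * Real.log ℓ := by nlinarith
  have k3 : (1:ℝ) ≤ √ℓ * Real.log ℓ := by linarith
  push_cast
  nlinarith


theorem lower_main2 (H L l a m : ℕ) (hH : 16 ≤ H) (hL : L = Nat.log 2 H) (hl : l = Nat.log 2 L)
    (ha : a = L / l + 1) (hma : m = 12 * a) (hm2 : 2 ≤ m)
    (y : ℝ) (hy : 1 ≤ y)
    (S : Finset ℕ) (hS : S.card = m) (hp : ∀ p ∈ S, p.Prime ∧ p % 4 = 3 ∧ (p : ℝ) ≤ y)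
    (c0 : ℝ) (c : ℕ → ℝ) (hc0 : 0 ≤ c0) (hT : ∀ t, 0 ≤ T H c0 c t) (hT0 : T H c0 c 0 = 1) :
    (1 / 8) * (2 / (m : ℝ)) ^ (4 * √y) * ((2 * (1 / 2 ^ l)) ^ 2 * Real.exp (-(4 * √y))) ≤ c0 := by
  have hsy : 1 ≤ √y := Real.one_le_sqrt.mpr hy
  have hsy0 : 0 < √y := by linarith
  have hmr : (2 : ℝ) ≤ m := by exact_mod_cast hm2
  set N : ℕ → ℕ := fun k => (S.filter (fun p => ¬ p ∣ k)).card with hN
  set f : ℂ → ℂ := fun z => (c0 : ℂ) + ∑ k ∈ Finset.Icc 1 H, (c k : ℂ) * z ^ (N k) with hf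
  have hfd : Differentiable ℂ f := by
    rw [hf]
    fun_prop
  have hre : ∀ z, (f z).re = c0 + ∑ k ∈ Finset.Icc 1 H, c k * (z ^ (N k)).re := by
    intro z
    simp only [hf]
    rw [Complex.add_re, Complex.re_sum, Complex.ofReal_re]
    congr 1
    apply Finset.sum_congr rfl
    intro k _
    rw [Complex.re_ofReal_mul]
  have hav : ∀ x : ℂ, 0 ≤ x.re → |x.im| ≤ (1 - x.re) / √y → 0 ≤ (f x).re ∧
      (x.im = 0 → x.re ^ m ≤ (f x).re) := by
    intro x hx0 hx1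
    have h1 := averaged H c0 c hT hT0 S x hx0 (fun p hpS =>
      ⟨(hp p hpS).1.pos, local_weights p (hp p hpS).1 (hp p hpS).2.1 y (hp p hpS).2.2 x hx0 hx1⟩)
    rw [hS] at h1
    constructor
    · have h2 := h1.1 0
      rw [hre]
      have e0 : ∀ k : ℕ, e ((k : ℝ) ^ 2 * 0) = 1 := by
        intro k; unfold e; simp
      simp only [e0, mul_one] at h2
      exact h2
    · intro him
      rw [hre]
      exact h1.2 him
  have hpos : ∀ z : ℂ, 0 ≤ z.re → |z.im| ≤ (1 - z.re) / √y → 0 ≤ (f z).re :=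
    fun z h0 h1 => (hav z h0 h1).1
  have hξ : (1 : ℝ) / m ≤ 1 / 2 := by
    apply one_div_le_one_div_of_le (by norm_num) hmr
  have hξ0 : (0 : ℝ) < 1 / m := by positivity
  have hH1 := harnack f hfd (√y) hsy hpos (fun c r hr h => deriv_bound f hfd c r hr h)
    (1 / m) hξ0 hξ
  have hl1 : 1 ≤ l := by
    have h1 : 4 ≤ L := by
      rw [hL]
      exact Nat.le_log_of_pow_le (by norm_num) (by omega)
    rw [hl]
    exact Nat.le_log_of_pow_le (by norm_num) (by omega)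
  have hε0 : (0 : ℝ) < 1 / 2 ^ l := by positivity
  have hε : (1 : ℝ) / 2 ^ l ≤ 1 / 2 := by
    apply one_div_le_one_div_of_le (by norm_num)
    calc (2 : ℝ) = 2 ^ 1 := by norm_num
      _ ≤ 2 ^ l := pow_le_pow_right₀ (by norm_num) hl1
  have hH2 := harnack2 f hfd (√y) hsy hpos (fun c r hr h => deriv_bound f hfd c r hr h)
    (1 / 2 ^ l) hε0 hε
  have h2 : (1 / 4 : ℝ) ≤ (f (((1 - 1 / m : ℝ)) : ℂ)).re := by
    have h3 := (hav (((1 - 1 / m : ℝ)) : ℂ) (by rw [Complex.ofReal_re]; linarith)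
      (by rw [Complex.ofReal_im, abs_zero, Complex.ofReal_re]; apply div_nonneg _ hsy0.le; linarith)).2
      (Complex.ofReal_im _)
    rw [Complex.ofReal_re] at h3
    refine le_trans ?_ h3
    -- `(1-1/m)^m ≥ 1/4`
    have h4 : (1 / 2 : ℝ) ≤ (1 + -(1 / (m : ℝ))) ^ ((m : ℝ) / 2) := by
      have hb := one_add_mul_self_le_rpow_one_add (s := -(1 / (m : ℝ))) (by linarith)
        (p := (m : ℝ) / 2) (by linarith)
      refine le_trans (le_of_eq ?_) hb
      field_simp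
      norm_num
    have hb0 : (0 : ℝ) ≤ 1 + -(1 / (m : ℝ)) := by linarith
    have h10 : (1 - 1 / (m : ℝ)) ^ m = ((1 + -(1 / (m : ℝ))) ^ ((m : ℝ) / 2)) ^ 2 := by
      rw [← Real.rpow_natCast ((1 + -(1 / (m : ℝ))) ^ ((m : ℝ) / 2)) 2, ← Real.rpow_mul hb0,
        ← Real.rpow_natCast (1 - 1 / (m : ℝ)) m]
      congr 1
      push_cast
      ring
    rw [h10]
    nlinarith
  have h5 : (2 * (1 / (m : ℝ))) ^ (4 * √y) = (2 / (m : ℝ)) ^ (4 * √y) := by
    congr 1; ring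
  rw [h5] at hH1
  have h6 : (0 : ℝ) ≤ (2 / (m : ℝ)) ^ (4 * √y) := by positivity
  have h7 := eps_le H L l a hH hL hl ha c0 c hc0 (fun k h1 h2 => coef_le H c0 c hT k h1 h2) S
    (by rw [hS, hma])
    (fun k hk1 hk2 => few_primes H L l a hH hL hl ha S (fun p hpS => (hp p hpS).1) k hk1 hk2)
  have h8 : (f ((1 / 2 ^ l : ℝ) : ℂ)).re =
      c0 + ∑ k ∈ Finset.Icc 1 H, c k * (1 / 2 ^ l : ℝ) ^ (S.filter (fun p => ¬ p ∣ k)).card := by
    rw [hre]
    congr 1
    apply Finset.sum_congr rfl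
    intro k _
    rw [← Complex.ofReal_pow, Complex.ofReal_re]
  rw [h8] at hH2
  have h9 := mul_le_mul_of_nonneg_right h2 h6
  have h11 : (1 / 4) * (2 / (m : ℝ)) ^ (4 * √y) ≤ (f ((1 / 2 : ℝ) : ℂ)).re := h9.trans hH1
  have h12 : (0 : ℝ) ≤ (2 * (1 / 2 ^ l)) ^ 2 * Real.exp (-(4 * √y)) := by positivity
  have h13 := mul_le_mul_of_nonneg_right h11 h12
  linarith

theorem δ_lower2 (H : ℕ) (hH : 16 ≤ H) :
    Real.exp (-(10 ^ 6 * √(Real.log H) * Real.log (Real.log H))) ≤ δ H := by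
  have hne : {c0 : ℝ | ∃ c : ℕ → ℝ, Admissible H c0 c}.Nonempty :=
    ⟨1, ⟨fun _ => 0, admissible_one H⟩⟩
  apply le_csInf hne
  rintro c0 ⟨c, hc⟩
  obtain ⟨L, hL⟩ : ∃ L : ℕ, L = Nat.log 2 H := ⟨_, rfl⟩
  obtain ⟨l, hl⟩ : ∃ l : ℕ, l = Nat.log 2 L := ⟨_, rfl⟩
  obtain ⟨a, ha⟩ : ∃ a : ℕ, a = L / l + 1 := ⟨_, rfl⟩
  obtain ⟨m, hm⟩ : ∃ m : ℕ, m = 12 * a := ⟨_, rfl⟩
  obtain ⟨Y, hY⟩ : ∃ Y : ℕ, Y = 10 ^ 6 * m * (Nat.log 2 m + 1) := ⟨_, rfl⟩
  have ha1 : 1 ≤ a := by rw [ha]; exact Nat.le_add_left 1 _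
  have hm2 : 2 ≤ m := by rw [hm]; omega
  have h1 := final_lower2 H L l a m hH hL hl ha hm (Y : ℝ) (by rw [hY])
  have h3 : m ≤ (P3 Y).card := by
    rw [hY]
    exact P3_card_m m hm2 (fun x hx => P3_card x hx
      ((lam3 x (by omega)).trans (lam3_le x (by omega))))
  obtain ⟨S, hSs, hSc⟩ := Finset.exists_subset_card_eq h3
  refine h1.trans ?_
  apply lower_main2 H L l a m hH hL hl ha hm hm2 (Y : ℝ) _ S hSc _ c0 c
    (const_nonneg H c0 c hc) hc.1 hc.2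
  · have : 1 ≤ Y := by
      rw [hY]
      exact Nat.one_le_iff_ne_zero.mpr (by positivity)
    exact_mod_cast this
  · intro p hp
    have := hSs hp
    unfold P3 at this
    rw [Finset.mem_filter, Finset.mem_range] at this
    exact ⟨this.2.1, this.2.2, by exact_mod_cast (by omega : p ≤ Y)⟩

end Pool.Agent.VdCSquares.L
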