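import Mathlib

/-!
# Square-frequency cosine polynomials (MP_b3c6db_nt)

Tools for the two-sided bound `(5H)^(-1/2) ≤ δ(H) ≤ 1600 (log H)^(-1/2)`.

* `geom_bound`, `weyl_diff`, `S_sq_le`, `block_count`, `count_le`, `weyl_final`: a Weyl inequality
  for `∑_{k<M} e(k² y)` when `y` is near `b/r`.
* `abel_bound`, `weight_ge`, `pos_bound`: the weights `(2k+1)(1-k²/K²)`.
* `d`, `chain`, `d_size`: the chain of dilations `d_j` and the chain lemma.
* `main_sum`, `δ_le`, `δ_upper`: the upper bound.  `const_ge_sqrt`: the lower bound.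
-/

set_option linter.unusedVariables false


namespace Pool.Agent.VdCSquares

open Real Finset

/-- `e(θ) = exp(2π i θ)` -/
noncomputable def e (θ : ℝ) : ℂ := Complex.exp ((2 * π * θ : ℝ) * Complex.I)

/-- geometric sum: if `θ` is at distance `> δ` from every integer then `|∑_{l<M} e(lθ)| ≤ 1/δ`. -/
theorem geom_bound (θ δ : ℝ) (hδ : 0 < δ) (hθ : ∀ m : ℤ, δ < |θ - m|) (M : ℕ) :
    ‖∑ l ∈ range M, e (l * θ)‖ ≤ 1 / δ := by
  set a := e θ with ha
  have hpow : ∀ l : ℕ, e (l * θ) = a ^ l := by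
    intro l
    rw [ha]
    unfold e
    rw [← Complex.exp_nat_mul]
    congr 1
    push_cast
    ring
  have hnorm : ∀ x : ℝ, ‖e x‖ = 1 := by
    intro x
    unfold e
    rw [Complex.norm_exp_ofReal_mul_I]
  -- reduce to x = θ - round θ
  set m := round θ with hm
  set x := θ - m with hx
  have hxabs : |x| ≤ 1 / 2 := by
    rw [hx, hm]
    exact abs_sub_round θ
  have hxδ : δ < |x| := hθ m
  have hax : a = e x := by
    rw [ha, hx]
    unfold e
    have : ((2 * π * (θ - m) : ℝ) : ℂ) * Complex.I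
        = ((2 * π * θ : ℝ) : ℂ) * Complex.I - (m : ℂ) * (2 * π * Complex.I) := by
      push_cast
      ring
    rw [this, Complex.exp_sub, Complex.exp_int_mul_two_pi_mul_I]
    simp
  have hdist : 2 * δ ≤ ‖a - 1‖ := by
    rw [hax]
    unfold e
    have h1 : ‖Complex.exp (((2 * π * x : ℝ) : ℂ) * Complex.I) - 1‖ = ‖2 * Real.sin ((2 * π * x) / 2)‖ := by
      rw [mul_comm (((2 * π * x : ℝ) : ℂ)) Complex.I]
      exact Complex.norm_exp_I_mul_ofReal_sub_one (2 * π * x)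
    rw [h1]
    have h2 : (2 * π * x) / 2 = π * x := by ring
    rw [h2, Real.norm_eq_abs, abs_mul, abs_of_pos (by norm_num : (0:ℝ) < 2)]
    have h3 : |Real.sin (π * x)| = Real.sin (π * |x|) := by
      rcases le_total 0 x with h | h
      · rw [abs_of_nonneg h, abs_of_nonneg]
        apply Real.sin_nonneg_of_nonneg_of_le_pi
        · positivity
        · have := le_of_abs_le hxabs
          nlinarith [Real.pi_pos]
      · rw [abs_of_nonpos h, mul_neg, Real.sin_neg, abs_of_nonpos]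
        have : 0 ≤ Real.sin (π * (-x)) := by
          apply Real.sin_nonneg_of_nonneg_of_le_pi
          · have : 0 ≤ -x := by linarith
            positivity
          · have := neg_le_of_abs_le hxabs
            nlinarith [Real.pi_pos]
        rw [mul_neg, Real.sin_neg] at this
        linarith
    rw [h3]
    have h4 : 2 / π * (π * |x|) ≤ Real.sin (π * |x|) := by
      apply Real.mul_le_sin
      · positivity
      · nlinarith [Real.pi_pos, abs_nonneg x]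
    have h5 : 2 / π * (π * |x|) = 2 * |x| := by
      field_simp
    rw [h5] at h4
    nlinarith [abs_nonneg x]
  have hsum : (a - 1) * ∑ l ∈ range M, a ^ l = a ^ M - 1 := by
    rw [mul_comm]
    exact geom_sum_mul a M
  have hle2 : ‖a ^ M - 1‖ ≤ 2 := by
    calc ‖a ^ M - 1‖ ≤ ‖a ^ M‖ + ‖(1:ℂ)‖ := norm_sub_le _ _
      _ = 2 := by
        rw [norm_pow, ha, hnorm]
        norm_num
  have hS : ‖∑ l ∈ range M, e (l * θ)‖ = ‖∑ l ∈ range M, a ^ l‖ := by
    congr 1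
    exact Finset.sum_congr rfl (fun l _ => hpow l)
  rw [hS]
  have h6 : ‖a - 1‖ * ‖∑ l ∈ range M, a ^ l‖ ≤ 2 := by
    rw [← norm_mul, hsum]
    exact hle2
  rw [le_div_iff₀ hδ]
  have h7 : 2 * δ * ‖∑ l ∈ range M, a ^ l‖ ≤ 2 :=
    le_trans (mul_le_mul_of_nonneg_right hdist (norm_nonneg _)) h6
  linarith

theorem weyl_diff_gen (f : ℕ → ℂ) (M : ℕ) :
    ‖∑ k ∈ range M, f k‖ ^ 2 = (∑ k ∈ range M, ‖f k‖ ^ 2) +
      2 * (∑ h ∈ range M, ∑ l ∈ range (M - (h + 1)),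
        f (l + (h + 1)) * (starRingEnd ℂ) (f l)).re := by
  induction M with
  | zero => simp
  | succ M ih =>
    have h1 : ‖∑ k ∈ range (M + 1), f k‖ ^ 2 = ‖∑ k ∈ range M, f k‖ ^ 2 + ‖f M‖ ^ 2 +
        2 * (f M * (starRingEnd ℂ) (∑ k ∈ range M, f k)).re := by
      rw [sum_range_succ, ← Complex.normSq_eq_norm_sq, Complex.normSq_add,
        Complex.normSq_eq_norm_sq, Complex.normSq_eq_norm_sq]
      have : ((∑ k ∈ range M, f k) * (starRingEnd ℂ) (f M)).re =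
          (f M * (starRingEnd ℂ) (∑ k ∈ range M, f k)).re := by
        rw [← Complex.conj_re ((∑ k ∈ range M, f k) * (starRingEnd ℂ) (f M)), map_mul,
          Complex.conj_conj, mul_comm]
      rw [this]
    have h2 : ∑ h ∈ range (M + 1), ∑ l ∈ range (M + 1 - (h + 1)),
        f (l + (h + 1)) * (starRingEnd ℂ) (f l) =
        (∑ h ∈ range M, ∑ l ∈ range (M - (h + 1)),
        f (l + (h + 1)) * (starRingEnd ℂ) (f l)) +
        f M * (starRingEnd ℂ) (∑ k ∈ range M, f k) := by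
      rw [sum_range_succ]
      have e0 : M + 1 - (M + 1) = 0 := by omega
      rw [e0, sum_range_zero, add_zero, ← sum_range_reflect f M, map_sum, mul_sum,
        ← sum_add_distrib]
      refine sum_congr rfl fun h hh => ?_
      have hh' := mem_range.1 hh
      have e1 : M + 1 - (h + 1) = (M - (h + 1)) + 1 := by omega
      rw [e1, sum_range_succ]
      have e2 : M - (h + 1) + (h + 1) = M := by omega
      have e3 : M - 1 - h = M - (h + 1) := by omega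
      rw [e2, e3]
    rw [h1, h2, ih, sum_range_succ, Complex.add_re]
    ring

theorem e_norm (θ : ℝ) : ‖e θ‖ = 1 := Complex.norm_exp_ofReal_mul_I _

theorem e_add (a b : ℝ) : e (a + b) = e a * e b := by
  unfold e
  rw [← Complex.exp_add]
  congr 1
  push_cast
  ring

theorem e_conj (a : ℝ) : (starRingEnd ℂ) (e a) = e (-a) := by
  unfold e
  rw [← Complex.exp_conj]
  congr 1
  rw [map_mul, Complex.conj_ofReal, Complex.conj_I]
  push_cast
  ring

/-- Weyl differencing for squares -/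
theorem weyl_diff (y : ℝ) (M : ℕ) :
    ‖∑ k ∈ range M, e ((k : ℝ) ^ 2 * y)‖ ^ 2 ≤
      M + 2 * ∑ h ∈ Icc 1 (M - 1), ‖∑ l ∈ range (M - h), e (l * (2 * h * y))‖ := by
  rw [weyl_diff_gen (fun k => e ((k : ℝ) ^ 2 * y)) M]
  have h1 : ∑ k ∈ range M, ‖e ((k : ℝ) ^ 2 * y)‖ ^ 2 = M := by
    simp [e_norm]
  rw [h1]
  have h2 : ∑ h ∈ Icc 1 (M - 1), ‖∑ l ∈ range (M - h), e (l * (2 * h * y))‖ =
      ∑ h ∈ range M, ‖∑ l ∈ range (M - (h + 1)), e (l * (2 * ((h + 1 : ℕ) : ℝ) * y))‖ := by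
    rcases M with _ | K
    · simp
    · rw [sum_range_succ]
      have e0 : K + 1 - (K + 1) = 0 := by omega
      have e1 : Icc 1 (K + 1 - 1) = Ico 1 (K + 1) := by
        ext x
        simp only [mem_Icc, mem_Ico]
        omega
      rw [e0, sum_range_zero, norm_zero, add_zero, e1, sum_Ico_eq_sum_range]
      refine sum_congr (by simp) fun h _ => ?_
      rw [add_comm 1 h]
  rw [h2]
  refine add_le_add le_rfl (mul_le_mul_of_nonneg_left ?_ (by norm_num))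
  refine (Complex.re_le_norm _).trans ((norm_sum_le _ _).trans (sum_le_sum fun h _ => ?_))
  have h3 : ∑ l ∈ range (M - (h + 1)), e (((l + (h + 1) : ℕ) : ℝ) ^ 2 * y) *
        (starRingEnd ℂ) (e ((l : ℝ) ^ 2 * y)) =
      e (((h + 1 : ℕ) : ℝ) ^ 2 * y) *
        ∑ l ∈ range (M - (h + 1)), e (l * (2 * ((h + 1 : ℕ) : ℝ) * y)) := by
    rw [mul_sum]
    refine sum_congr rfl fun l _ => ?_
    rw [e_conj, ← e_add, ← e_add]
    congr 1
    push_cast
    ring
  change ‖∑ l ∈ range (M - (h + 1)), e (((l + (h + 1) : ℕ) : ℝ) ^ 2 * y) *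
        (starRingEnd ℂ) (e ((l : ℝ) ^ 2 * y))‖ ≤ _
  rw [h3, norm_mul, e_norm, one_mul]

open Classical in
/-- number of `t < R ≤ r` with `z + t y` within `δ` of an integer, when `y` is near `b/r` -/
theorem block_count (y z δ : ℝ) (b : ℤ) (r R : ℕ) (hr : 1 ≤ r) (hR : R ≤ r)
    (hb : IsCoprime b (r : ℤ)) (hδ : 0 ≤ δ) :
    (((range R).filter (fun t : ℕ => ∃ m : ℤ, |z + t * y - m| ≤ δ)).card : ℝ) ≤
      2 * r * (δ + R * |y - b / r|) + 1 := by
  set γ : ℝ := y - b / r with hγ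
  set X : ℝ := r * (δ + R * |γ|) with hX
  have hr0 : (0 : ℝ) < r := by exact_mod_cast hr
  have hX0 : 0 ≤ X := by positivity
  have hex : ∀ t : ℕ, ∃ m : ℤ, (t ∈ (range R).filter (fun t : ℕ => ∃ m : ℤ, |z + t * y - m| ≤ δ)) →
      |z + t * y - m| ≤ δ := by
    intro t
    by_cases ht : t ∈ (range R).filter (fun t : ℕ => ∃ m : ℤ, |z + t * y - m| ≤ δ)
    · obtain ⟨m, hm⟩ := (Finset.mem_filter.1 ht).2
      exact ⟨m, fun _ => hm⟩
    · exact ⟨0, fun h => absurd h ht⟩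
  choose m hm using hex
  have hmap : Set.MapsTo (fun t : ℕ => (t : ℤ) * b - m t * r)
      (((range R).filter (fun t : ℕ => ∃ m : ℤ, |z + t * y - m| ≤ δ) : Finset ℕ) : Set ℕ)
      ((Finset.Icc ⌈-(z * r) - X⌉ ⌊-(z * r) + X⌋ : Finset ℤ) : Set ℤ) := by
    intro t ht
    have ht' : t ∈ (range R).filter (fun t : ℕ => ∃ m : ℤ, |z + t * y - m| ≤ δ) := ht
    have h1 := hm t ht'
    have htR : t < R := Finset.mem_range.1 (Finset.mem_filter.1 ht').1
    have htR' : (t : ℝ) ≤ R := by exact_mod_cast htR.le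
    have h2 : z * r + ((t : ℝ) * b - m t * r) = r * (z + t * y - m t) - t * r * γ := by
      rw [hγ]
      field_simp
      ring
    have h3 : |z * r + ((t : ℝ) * b - m t * r)| ≤ X := by
      rw [h2]
      calc |r * (z + t * y - m t) - t * r * γ| ≤ |r * (z + t * y - m t)| + |t * r * γ| :=
            abs_sub _ _
        _ = r * |z + t * y - m t| + t * r * |γ| := by
            have e1 : |(t : ℝ)| = t := abs_of_nonneg (Nat.cast_nonneg t)
            rw [abs_mul, abs_mul, abs_mul, abs_of_pos hr0, e1]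
        _ ≤ r * δ + R * r * |γ| := by
            refine add_le_add (mul_le_mul_of_nonneg_left h1 hr0.le) ?_
            refine mul_le_mul_of_nonneg_right ?_ (abs_nonneg _)
            exact mul_le_mul_of_nonneg_right htR' hr0.le
        _ = X := by rw [hX]; ring
    have h4 := abs_le.1 h3
    show (t : ℤ) * b - m t * r ∈ ((Finset.Icc ⌈-(z * r) - X⌉ ⌊-(z * r) + X⌋ : Finset ℤ) : Set ℤ)
    rw [Finset.mem_coe, Finset.mem_Icc, Int.ceil_le, Int.le_floor]
    push_cast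
    constructor <;> linarith [h4.1, h4.2]
  have hinj : Set.InjOn (fun t : ℕ => (t : ℤ) * b - m t * r)
      (((range R).filter (fun t : ℕ => ∃ m : ℤ, |z + t * y - m| ≤ δ) : Finset ℕ) : Set ℕ) := by
    intro t ht t' ht' htt
    have ht1 : t ∈ (range R).filter (fun t : ℕ => ∃ m : ℤ, |z + t * y - m| ≤ δ) := ht
    have ht2 : t' ∈ (range R).filter (fun t : ℕ => ∃ m : ℤ, |z + t * y - m| ≤ δ) := ht'
    have hlt : t < R := Finset.mem_range.1 (Finset.mem_filter.1 ht1).1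
    have hlt' : t' < R := Finset.mem_range.1 (Finset.mem_filter.1 ht2).1
    have h0 : (t : ℤ) * b - m t * r = (t' : ℤ) * b - m t' * r := htt
    have hdvd : (r : ℤ) ∣ ((t : ℤ) - t') * b := ⟨m t - m t', by linear_combination h0⟩
    have hdvd2 : (r : ℤ) ∣ ((t : ℤ) - t') := hb.symm.dvd_of_dvd_mul_right hdvd
    have hz : (t : ℤ) - t' = 0 := by
      apply Int.eq_zero_of_abs_lt_dvd hdvd2
      rw [abs_lt]
      constructor <;> omega
    omega
  have hcard := Finset.card_le_card_of_injOn _ hmap hinj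
  have hcard' : (((range R).filter (fun t : ℕ => ∃ m : ℤ, |z + t * y - m| ≤ δ)).card : ℝ) ≤
      ((Finset.Icc ⌈-(z * r) - X⌉ ⌊-(z * r) + X⌋).card : ℝ) := by exact_mod_cast hcard
  refine hcard'.trans ?_
  rw [Int.card_Icc]
  have h5 : ((((⌊-(z * r) + X⌋ + 1 - ⌈-(z * r) - X⌉).toNat : ℕ) : ℤ) : ℝ) ≤ 2 * X + 1 := by
    rw [Int.toNat_eq_max]
    push_cast
    apply max_le
    · have h6 := Int.floor_le (-(z * r) + X)
      have h7 := Int.le_ceil (-(z * r) - X)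
      linarith
    · linarith
  have h8 : (((⌊-(z * r) + X⌋ + 1 - ⌈-(z * r) - X⌉).toNat : ℕ) : ℝ) ≤ 2 * X + 1 := by
    exact_mod_cast h5
  refine h8.trans (le_of_eq ?_)
  rw [hX]
  ring

open Classical in
/-- number of `h < n` with `h y` within `δ` of an integer, when `y` is near `b/r` -/
theorem count_le (y δ : ℝ) (b : ℤ) (r R n : ℕ) (hr : 1 ≤ r) (hR1 : 1 ≤ R) (hR : R ≤ r)
    (hb : IsCoprime b (r : ℤ)) (hδ : 0 ≤ δ)
    (block : ∀ z : ℝ, (((range R).filter (fun t : ℕ => ∃ m : ℤ, |z + t * y - m| ≤ δ)).card : ℝ) ≤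
      2 * r * (δ + R * |y - b / r|) + 1) :
    (((range n).filter (fun h : ℕ => ∃ m : ℤ, |(h : ℝ) * y - m| ≤ δ)).card : ℝ) ≤
      ((n : ℝ) / R + 1) * (2 * r * (δ + R * |y - b / r|) + 1) := by
  have hsub : (range n).filter (fun h : ℕ => ∃ m : ℤ, |(h : ℝ) * y - m| ≤ δ) ⊆
      (range (n / R + 1)).biUnion (fun s => ((range R).filter
        (fun t : ℕ => ∃ m : ℤ, |((R : ℝ) * s * y) + t * y - m| ≤ δ)).image
          (fun t => R * s + t)) := by
    intro h hh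
    rw [mem_filter, mem_range] at hh
    obtain ⟨hn, m, hm⟩ := hh
    rw [mem_biUnion]
    refine ⟨h / R, ?_, ?_⟩
    · rw [mem_range]
      exact Nat.lt_succ_of_le (Nat.div_le_div_right hn.le)
    · rw [mem_image]
      refine ⟨h % R, ?_, Nat.div_add_mod h R⟩
      rw [mem_filter, mem_range]
      refine ⟨Nat.mod_lt _ (by omega), m, ?_⟩
      have e1 : (h : ℝ) = (R : ℝ) * ((h / R : ℕ) : ℝ) + ((h % R : ℕ) : ℝ) := by
        exact_mod_cast (Nat.div_add_mod h R).symm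
      have e2 : (R : ℝ) * ((h / R : ℕ) : ℝ) * y + ((h % R : ℕ) : ℝ) * y = (h : ℝ) * y := by
        rw [e1]
        ring
      rw [e2]
      exact hm
  have h1 : (((range n).filter (fun h : ℕ => ∃ m : ℤ, |(h : ℝ) * y - m| ≤ δ)).card : ℝ) ≤
      ∑ s ∈ range (n / R + 1), (((range R).filter
        (fun t : ℕ => ∃ m : ℤ, |((R : ℝ) * s * y) + t * y - m| ≤ δ)).card : ℝ) := by
    have h2 := (card_le_card hsub).trans (card_biUnion_le.trans
      (sum_le_sum fun s _ => card_image_le))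
    exact_mod_cast h2
  have hB : 0 ≤ 2 * r * (δ + R * |y - b / r|) + 1 := by positivity
  refine h1.trans ((sum_le_sum fun s _ => block _).trans ?_)
  rw [sum_const, card_range, nsmul_eq_mul]
  refine mul_le_mul_of_nonneg_right ?_ hB
  push_cast
  have := Nat.cast_div_le (α := ℝ) (m := n) (n := R)
  linarith

theorem abel_id (z : ℕ → ℂ) (f : ℕ → ℝ) (n : ℕ) :
    ∑ k ∈ range n, ((f k : ℝ) : ℂ) * z k = ((f n : ℝ) : ℂ) * ∑ k ∈ range n, z k -
      ∑ k ∈ range n, (((f (k + 1) - f k : ℝ)) : ℂ) * ∑ j ∈ range (k + 1), z j := by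
  induction n with
  | zero => simp
  | succ n ih =>
    rw [sum_range_succ, ih, sum_range_succ (fun k => (((f (k + 1) - f k : ℝ)) : ℂ) * ∑ j ∈ range (k + 1), z j),
      sum_range_succ z n]
    push_cast
    ring

/-- Abel summation with the weights `(2k+1)(1 - k²/K²)` -/
theorem abel_bound (z : ℕ → ℂ) (K : ℕ) (hK : 1 ≤ K) (B : ℝ)
    (hB : ∀ M ≤ K, ‖∑ k ∈ range M, z k‖ ≤ B) :
    ‖∑ k ∈ range K, (((2 * k + 1) * (1 - (k : ℝ) ^ 2 / (K : ℝ) ^ 2) : ℝ) : ℂ) * z k‖ ≤ 4 * K * B := by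
  have hK0 : (0:ℝ) < K := by exact_mod_cast hK
  have h := abel_id z (fun k => (2 * k + 1) * (1 - (k : ℝ) ^ 2 / (K : ℝ) ^ 2)) K
  rw [h]
  have hfK : (2 * (K:ℝ) + 1) * (1 - (K : ℝ) ^ 2 / (K : ℝ) ^ 2) = 0 := by
    rw [div_self (by positivity)]
    ring
  rw [hfK, Complex.ofReal_zero, zero_mul, zero_sub, norm_neg]
  have hB0 : 0 ≤ B := (norm_nonneg _).trans (hB 0 (Nat.zero_le _))
  have hterm : ∀ k ∈ range K, ‖((((2 * ((k + 1 : ℕ):ℝ) + 1) * (1 - ((k + 1 : ℕ) : ℝ) ^ 2 / (K : ℝ) ^ 2) -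
      (2 * (k:ℝ) + 1) * (1 - (k : ℝ) ^ 2 / (K : ℝ) ^ 2) : ℝ)) : ℂ) * ∑ j ∈ range (k + 1), z j‖ ≤ 4 * B := by
    intro k hk
    rw [mem_range] at hk
    rw [norm_mul]
    apply mul_le_mul _ (hB (k+1) hk) (norm_nonneg _) (by norm_num)
    rw [Complex.norm_real, Real.norm_eq_abs, abs_le]
    have hk1 : (k:ℝ) + 1 ≤ K := by exact_mod_cast hk
    have hk0 : (0:ℝ) ≤ k := Nat.cast_nonneg _
    have e1 : (2 * ((k + 1 : ℕ):ℝ) + 1) * (1 - ((k + 1 : ℕ) : ℝ) ^ 2 / (K : ℝ) ^ 2) -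
      (2 * (k:ℝ) + 1) * (1 - (k : ℝ) ^ 2 / (K : ℝ) ^ 2) =
      2 * (1 - ((k:ℝ) + 1) ^ 2 / (K : ℝ) ^ 2) - (2 * k + 1) ^ 2 / (K : ℝ) ^ 2 := by
      push_cast
      ring
    rw [e1]
    have h1 : ((k:ℝ) + 1) ^ 2 / (K : ℝ) ^ 2 ≤ 1 := by
      rw [div_le_one (by positivity)]
      nlinarith
    have h2 : 0 ≤ ((k:ℝ) + 1) ^ 2 / (K : ℝ) ^ 2 := by positivity
    have h3 : (2 * (k:ℝ) + 1) ^ 2 / (K : ℝ) ^ 2 ≤ 4 := by
      rw [div_le_iff₀ (by positivity)]
      nlinarith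
    have h4 : 0 ≤ (2 * (k:ℝ) + 1) ^ 2 / (K : ℝ) ^ 2 := by positivity
    constructor <;> linarith
  calc _ ≤ ∑ k ∈ range K, ‖((((2 * ((k + 1 : ℕ):ℝ) + 1) * (1 - ((k + 1 : ℕ) : ℝ) ^ 2 / (K : ℝ) ^ 2) -
      (2 * (k:ℝ) + 1) * (1 - (k : ℝ) ^ 2 / (K : ℝ) ^ 2) : ℝ)) : ℂ) * ∑ j ∈ range (k + 1), z j‖ := norm_sum_le _ _
    _ ≤ ∑ k ∈ range K, 4 * B := sum_le_sum hterm
    _ = 4 * K * B := by
      rw [sum_const, card_range, nsmul_eq_mul]; ring

lemma cos_lip833 (a b : ℝ) : |cos a - cos b| ≤ |a - b| := by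
  have h := Real.lipschitzWith_cos.dist_le_mul a b
  simpa [Real.dist_eq] using h

lemma g_lip833 (U c : ℝ) (hU : 0 < U) (x y : ℝ) (hx : 0 ≤ x) (hxU : x ≤ U) :
    |(1 - x / U) * cos (c * x) - (1 - y / U) * cos (c * y)| ≤ (1 / U + |c|) * |x - y| := by
  have e : (1 - x / U) * cos (c * x) - (1 - y / U) * cos (c * y)
      = (1 - x / U) * (cos (c * x) - cos (c * y)) + (y - x) / U * cos (c * y) := by ring
  rw [e]
  refine (abs_add_le _ _).trans ?_
  have h1 : |1 - x / U| ≤ 1 := by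
    have a1 : 0 ≤ x / U := div_nonneg hx hU.le
    have a2 : x / U ≤ 1 := (div_le_one hU).mpr hxU
    rw [abs_le]
    constructor <;> linarith
  have h2 : |cos (c * x) - cos (c * y)| ≤ |c| * |x - y| := by
    refine (cos_lip833 _ _).trans ?_
    rw [← mul_sub, abs_mul]
  have h3 : |(1 - x / U) * (cos (c * x) - cos (c * y))| ≤ |c| * |x - y| := by
    rw [abs_mul]
    calc |1 - x / U| * |cos (c * x) - cos (c * y)| ≤ 1 * (|c| * |x - y|) :=
          mul_le_mul h1 h2 (abs_nonneg _) zero_le_one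
      _ = _ := one_mul _
  have h4 : |(y - x) / U * cos (c * y)| ≤ 1 / U * |x - y| := by
    rw [abs_mul, abs_div, abs_of_pos hU, abs_sub_comm y x]
    calc |x - y| / U * |cos (c * y)| ≤ |x - y| / U * 1 :=
          mul_le_mul_of_nonneg_left (abs_cos_le_one _) (by positivity)
      _ = _ := by ring
  calc _ ≤ |c| * |x - y| + 1 / U * |x - y| := add_le_add h3 h4
    _ = _ := by ring

lemma step833 (U c : ℝ) (hU : 0 < U) (hc : c ≠ 0) (a b : ℝ) (ha : 0 ≤ a) (hab : a < b)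
    (hb : b ≤ U) :
    ((1 - b / U) * (sin (c * b) / c) - cos (c * b) / (c ^ 2 * U))
      - ((1 - a / U) * (sin (c * a) / c) - cos (c * a) / (c ^ 2 * U))
      - (1 / U + |c|) * (b - a) ^ 2 ≤ (b - a) * ((1 - a / U) * cos (c * a)) := by
  obtain ⟨G, hG⟩ : ∃ G : ℝ → ℝ, G = fun u => (1 - u / U) * (sin (c * u) / c)
      - cos (c * u) / (c ^ 2 * U) := ⟨_, rfl⟩
  have hder : ∀ u, HasDerivAt G ((1 - u / U) * cos (c * u)) u := by
    intro u
    rw [hG]
    have h0 : HasDerivAt (fun u : ℝ => c * u) c u := by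
      simpa using (hasDerivAt_id u).const_mul c
    have h1 : HasDerivAt (fun u : ℝ => 1 - u / U) (-(1 / U)) u := by
      have := ((hasDerivAt_id u).div_const U).const_sub 1
      simpa using this
    have h2 : HasDerivAt (fun u : ℝ => sin (c * u) / c) (cos (c * u) * c / c) u :=
      (h0.sin).div_const c
    have h3 : HasDerivAt (fun u : ℝ => cos (c * u) / (c ^ 2 * U)) (-sin (c * u) * c / (c ^ 2 * U)) u :=
      (h0.cos).div_const _
    have h4 := (h1.mul h2).sub h3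
    refine h4.congr_deriv ?_
    field_simp
    ring
  obtain ⟨ξ, hξ, hξ'⟩ := exists_hasDerivAt_eq_slope G (fun u => (1 - u / U) * cos (c * u)) hab
    (fun x _ => (hder x).continuousAt.continuousWithinAt) (fun x _ => hder x)
  have hba : 0 < b - a := by linarith
  rw [eq_div_iff hba.ne'] at hξ'
  have h5 := g_lip833 U c hU ξ a (by linarith [hξ.1]) (by linarith [hξ.2])
  have h6 : (1 - ξ / U) * cos (c * ξ) - (1 - a / U) * cos (c * a) ≤ (1 / U + |c|) * (b - a) := by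
    refine (le_abs_self _).trans (h5.trans ?_)
    refine mul_le_mul_of_nonneg_left ?_ (by positivity)
    rw [abs_of_pos (by linarith [hξ.1])]
    linarith [hξ.2]
  have h7 : G b - G a ≤ (b - a) * ((1 - a / U) * cos (c * a)) + (1 / U + |c|) * (b - a) ^ 2 := by
    rw [← hξ']
    have h8 := mul_le_mul_of_nonneg_right h6 hba.le
    nlinarith [h8]
  rw [hG] at h7
  simp only [] at h7
  linarith

/-- near-positivity of the weighted sum near an integer -/
theorem pos_bound (K : ℕ) (hK : 1 ≤ K) (c : ℝ) :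
    -(4 * (K : ℝ) ^ 3 * (1 / (K : ℝ) ^ 2 + |c|)) ≤
      ∑ k ∈ range K, (2 * (k : ℝ) + 1) * (1 - (k : ℝ) ^ 2 / (K : ℝ) ^ 2) *
        cos (c * (k : ℝ) ^ 2) := by
  have hK0 : (0 : ℝ) < K := by exact_mod_cast hK
  obtain ⟨U, hU⟩ : ∃ U : ℝ, U = (K : ℝ) ^ 2 := ⟨_, rfl⟩
  have hU0 : 0 < U := by rw [hU]; positivity
  rw [← hU]
  rcases eq_or_ne c 0 with rfl | hc
  · have h1 : 0 ≤ ∑ k ∈ range K, (2 * (k : ℝ) + 1) * (1 - (k : ℝ) ^ 2 / U) *
        cos (0 * (k : ℝ) ^ 2) := by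
      refine Finset.sum_nonneg fun k hk => ?_
      rw [zero_mul, cos_zero, mul_one]
      have hkK : (k : ℝ) ≤ K := by exact_mod_cast (mem_range.mp hk).le
      have h2 : (k : ℝ) ^ 2 / U ≤ 1 := by
        rw [div_le_one hU0, hU]
        exact pow_le_pow_left₀ (Nat.cast_nonneg k) hkK 2
      exact mul_nonneg (by positivity) (by linarith)
    have h3 : 0 ≤ 4 * (K : ℝ) ^ 3 * (1 / U + |(0 : ℝ)|) := by positivity
    linarith
  · obtain ⟨G, hG⟩ : ∃ G : ℝ → ℝ, G = fun u => (1 - u / U) * (sin (c * u) / c)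
      - cos (c * u) / (c ^ 2 * U) := ⟨_, rfl⟩
    have hstep : ∀ k ∈ range K, (G (((k + 1 : ℕ) : ℝ) ^ 2) - G ((k : ℝ) ^ 2))
        - (1 / U + |c|) * (2 * (K : ℝ)) ^ 2 ≤
        (2 * (k : ℝ) + 1) * (1 - (k : ℝ) ^ 2 / U) * cos (c * (k : ℝ) ^ 2) := by
      intro k hk
      have hkK : (k : ℝ) + 1 ≤ K := by exact_mod_cast (mem_range.mp hk)
      have hk0 : (0 : ℝ) ≤ k := Nat.cast_nonneg k
      have h1 := step833 U c hU0 hc ((k : ℝ) ^ 2) (((k + 1 : ℕ) : ℝ) ^ 2) (by positivity)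
        (by push_cast; nlinarith) (by rw [hU]; push_cast; exact pow_le_pow_left₀ (by positivity) hkK 2)
      have e1 : ((k + 1 : ℕ) : ℝ) ^ 2 - (k : ℝ) ^ 2 = 2 * (k : ℝ) + 1 := by push_cast; ring
      rw [e1] at h1
      have h2 : (1 / U + |c|) * (2 * (k : ℝ) + 1) ^ 2 ≤ (1 / U + |c|) * (2 * (K : ℝ)) ^ 2 := by
        refine mul_le_mul_of_nonneg_left ?_ (by positivity)
        exact pow_le_pow_left₀ (by positivity) (by linarith) 2
      rw [hG]
      simp only []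
      have e2 : (2 * (k : ℝ) + 1) * (1 - (k : ℝ) ^ 2 / U) * cos (c * (k : ℝ) ^ 2)
        = (2 * (k : ℝ) + 1) * ((1 - (k : ℝ) ^ 2 / U) * cos (c * (k : ℝ) ^ 2)) := by ring
      rw [e2]
      linarith
    have hsum := Finset.sum_le_sum hstep
    rw [Finset.sum_sub_distrib, Finset.sum_range_sub (fun k : ℕ => G ((k : ℝ) ^ 2)),
      Finset.sum_const, card_range, nsmul_eq_mul] at hsum
    have hGU : 0 ≤ G ((K : ℝ) ^ 2) - G (((0 : ℕ) : ℝ) ^ 2) := by
      rw [← hU, hG]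
      simp only [Nat.cast_zero]
      have e3 : (1 - U / U) * (sin (c * U) / c) - cos (c * U) / (c ^ 2 * U)
          - ((1 - (0 : ℝ) ^ 2 / U) * (sin (c * (0 : ℝ) ^ 2) / c) - cos (c * (0 : ℝ) ^ 2) / (c ^ 2 * U))
          = (1 - cos (c * U)) / (c ^ 2 * U) := by
        rw [div_self hU0.ne']
        simp
        ring
      rw [e3]
      have := cos_le_one (c * U)
      exact div_nonneg (by linarith) (by positivity)
    have e4 : (K : ℝ) * ((1 / U + |c|) * (2 * (K : ℝ)) ^ 2) = 4 * (K : ℝ) ^ 3 * (1 / U + |c|) := by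
      ring
    rw [e4] at hsum
    generalize hX : G ((K : ℝ) ^ 2) - G (((0 : ℕ) : ℝ) ^ 2) = X at hsum hGU
    generalize hY : 4 * (K : ℝ) ^ 3 * (1 / U + |c|) = Y at hsum ⊢
    calc -Y ≤ X - Y := by linarith
      _ ≤ _ := hsum

open Classical in
/-- squared Weyl sum bounded by the number of `h` with `h y` close to an integer -/
theorem S_sq_le (y δ : ℝ) (hδ : 0 < δ) (K M : ℕ) (hM : M ≤ K)
    (geom : ∀ θ : ℝ, (∀ m : ℤ, δ < |θ - m|) → ∀ M : ℕ, ‖∑ l ∈ range M, e (l * θ)‖ ≤ 1 / δ)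
    (weyl : ‖∑ k ∈ range M, e ((k : ℝ) ^ 2 * y)‖ ^ 2 ≤
      M + 2 * ∑ h ∈ Icc 1 (M - 1), ‖∑ l ∈ range (M - h), e (l * (2 * h * y))‖) :
    ‖∑ k ∈ range M, e ((k : ℝ) ^ 2 * y)‖ ^ 2 ≤
      K + 2 * K * ((range (2 * K)).filter (fun h : ℕ => ∃ m : ℤ, |(h : ℝ) * y - m| ≤ δ)).card
        + 2 * K / δ := by
  have he : ∀ θ : ℝ, ‖e θ‖ = 1 := fun θ => by
    unfold e
    exact Complex.norm_exp_ofReal_mul_I _
  have hMK : (M : ℝ) ≤ K := by exact_mod_cast hM
  have hδ1 : 0 ≤ 1 / δ := by positivity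
  have hinner : ∀ h ∈ Icc 1 (M - 1), ‖∑ l ∈ range (M - h), e (l * (2 * h * y))‖ ≤
      (if ∃ m : ℤ, |(2 * (h : ℝ) * y) - m| ≤ δ then (K : ℝ) else 0) + 1 / δ := by
    intro h hh
    split_ifs with hb
    · have h1 : ‖∑ l ∈ range (M - h), e (l * (2 * h * y))‖ ≤ ((M - h : ℕ) : ℝ) := by
        refine (norm_sum_le _ _).trans ?_
        simp only [he, Finset.sum_const, Finset.card_range, nsmul_eq_mul, mul_one, le_refl]
      have h2 : ((M - h : ℕ) : ℝ) ≤ K := by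
        have : M - h ≤ K := by omega
        exact_mod_cast this
      linarith
    · push Not at hb
      have h1 := geom (2 * h * y) hb (M - h)
      linarith
  have hcard : ((Icc 1 (M - 1)).filter (fun h : ℕ => ∃ m : ℤ, |(2 * (h : ℝ) * y) - m| ≤ δ)).card ≤
      ((range (2 * K)).filter (fun h : ℕ => ∃ m : ℤ, |(h : ℝ) * y - m| ≤ δ)).card := by
    refine Finset.card_le_card_of_injOn (fun h => 2 * h) ?_ ?_
    · intro h hh
      rw [Finset.mem_coe, Finset.mem_filter, Finset.mem_Icc] at hh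
      obtain ⟨⟨h1, h2⟩, m, hm⟩ := hh
      rw [Finset.mem_coe, Finset.mem_filter, Finset.mem_range]
      refine ⟨by show 2 * h < 2 * K; omega, m, ?_⟩
      push_cast
      exact hm
    · intro a _ b _ hab
      have : 2 * a = 2 * b := hab
      omega
  have hsum : ∑ h ∈ Icc 1 (M - 1), ‖∑ l ∈ range (M - h), e (l * (2 * h * y))‖ ≤
      K * ((range (2 * K)).filter (fun h : ℕ => ∃ m : ℤ, |(h : ℝ) * y - m| ≤ δ)).card + K * (1 / δ) := by
    refine (Finset.sum_le_sum hinner).trans ?_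
    rw [Finset.sum_add_distrib, Finset.sum_const, nsmul_eq_mul, ← Finset.sum_filter,
      Finset.sum_const, nsmul_eq_mul]
    have h3 : (((Icc 1 (M - 1)).filter
        (fun h : ℕ => ∃ m : ℤ, |(2 * (h : ℝ) * y) - m| ≤ δ)).card : ℝ) ≤
        (((range (2 * K)).filter (fun h : ℕ => ∃ m : ℤ, |(h : ℝ) * y - m| ≤ δ)).card : ℝ) := by
      exact_mod_cast hcard
    have h4 : ((Icc 1 (M - 1)).card : ℝ) ≤ K := by
      have : (Icc 1 (M - 1)).card ≤ K := by
        rw [Nat.card_Icc]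
        omega
      exact_mod_cast this
    have h5 : (0 : ℝ) ≤ K := Nat.cast_nonneg K
    have h6 := mul_le_mul_of_nonneg_right h3 h5
    have h7 := mul_le_mul_of_nonneg_right h4 hδ1
    linarith
  have h8 : 2 * (K : ℝ) / δ = 2 * (K * (1 / δ)) := by ring
  rw [h8]
  linarith

theorem weight_closed (n : ℕ) : (∑ k ∈ range n, (2 * (k : ℝ) + 1) * (k : ℝ) ^ 2) =
    (n : ℝ) ^ 2 * ((n : ℝ) - 1) ^ 2 / 2 + ((n : ℝ) - 1) * n * (2 * n - 1) / 6 := by
  induction n with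
  | zero => simp
  | succ n ih => rw [Finset.sum_range_succ, ih]; push_cast; ring

theorem weight_closed' (n : ℕ) : (∑ k ∈ range n, (2 * (k : ℝ) + 1)) = (n : ℝ) ^ 2 := by
  induction n with
  | zero => simp
  | succ n ih => rw [Finset.sum_range_succ, ih]; push_cast; ring

/-- total weight -/
theorem weight_ge (K : ℕ) (hK : 1 ≤ K) :
    (K : ℝ) ^ 2 / 2 ≤ ∑ k ∈ range K, (2 * (k : ℝ) + 1) * (1 - (k : ℝ) ^ 2 / (K : ℝ) ^ 2) := by
  have hK' : (1 : ℝ) ≤ K := by exact_mod_cast hK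
  have h1 : ∑ k ∈ range K, (2 * (k : ℝ) + 1) * (1 - (k : ℝ) ^ 2 / (K : ℝ) ^ 2) =
      (K : ℝ) ^ 2 - ((K : ℝ) ^ 2 * ((K : ℝ) - 1) ^ 2 / 2 + ((K : ℝ) - 1) * K * (2 * K - 1) / 6) /
        (K : ℝ) ^ 2 := by
    rw [← weight_closed, ← weight_closed', Finset.sum_div, ← Finset.sum_sub_distrib]
    apply Finset.sum_congr rfl
    intro k _
    rw [weight_closed']
    ring
  rw [h1]
  have h2 : ((K : ℝ) ^ 2 * ((K : ℝ) - 1) ^ 2 / 2 + ((K : ℝ) - 1) * K * (2 * K - 1) / 6) /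
        (K : ℝ) ^ 2 = ((K : ℝ) - 1) ^ 2 / 2 + ((K : ℝ) - 1) * (2 * K - 1) / (6 * K) := by
    field_simp
  rw [h2]
  have h3 : ((K : ℝ) - 1) * (2 * K - 1) / (6 * K) ≤ ((K : ℝ) - 1) / 3 := by
    rw [div_le_div_iff₀ (by positivity) (by norm_num)]
    nlinarith
  nlinarith

/-- the chain of dilations -/
def d (I j : ℕ) : ℕ := ∏ a ∈ range (I + 1), (primorial (4 ^ a)) ^ (j / 2 ^ a)

theorem d_ne_zero (I j : ℕ) : d I j ≠ 0 := by
  unfold d
  exact Finset.prod_ne_zero_iff.mpr fun a _ => pow_ne_zero _ (primorial_ne_zero _)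

theorem d_dvd (I : ℕ) {j j' : ℕ} (h : j ≤ j') : d I j ∣ d I j' := by
  unfold d
  exact Finset.prod_dvd_prod_of_dvd _ _ fun a _ => pow_dvd_pow _ (Nat.div_le_div_right h)

theorem d_dvd_pow (I a p : ℕ) (ha : a ≤ I) (hp : p.Prime) (hpa : p ≤ 4 ^ a) {j j' : ℕ}
    (h : j ≤ j') : p ^ (j' / 2 ^ a - j / 2 ^ a) * d I j ∣ d I j' := by
  classical
  have haI : a ∈ range (I + 1) := Finset.mem_range.mpr (by omega)
  have hd : ∀ j, d I j = primorial (4 ^ a) ^ (j / 2 ^ a) *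
      ∏ b ∈ (range (I + 1)).erase a, primorial (4 ^ b) ^ (j / 2 ^ b) := by
    intro j
    unfold d
    exact (Finset.mul_prod_erase (range (I + 1))
      (fun b => primorial (4 ^ b) ^ (j / 2 ^ b)) haI).symm
  rw [hd j, hd j', ← mul_assoc]
  apply mul_dvd_mul
  · have hle : j / 2 ^ a ≤ j' / 2 ^ a := Nat.div_le_div_right h
    have h1 : primorial (4 ^ a) ^ (j' / 2 ^ a) =
        primorial (4 ^ a) ^ (j' / 2 ^ a - j / 2 ^ a) * primorial (4 ^ a) ^ (j / 2 ^ a) := by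
      rw [← pow_add]
      congr 1
      omega
    rw [h1]
    exact mul_dvd_mul_right (pow_dvd_pow_of_dvd ((hp.dvd_primorial_iff).mpr hpa) _) _
  · exact Finset.prod_dvd_prod_of_dvd _ _ fun b _ => pow_dvd_pow _ (Nat.div_le_div_right h)

theorem q_val (q D D1 p e : ℕ) (hq : q ≠ 0) (hD : D ≠ 0) (hD1 : D1 ≠ 0) (hp : p.Prime)
    (hdvd : p ^ e * D ∣ D1) (h1 : p ∣ q / Nat.gcd q (D1 ^ 2)) :
    p ^ (1 + 2 * e) ∣ q / Nat.gcd q (D ^ 2) := by
  have hfac : ∀ E : ℕ, E ≠ 0 → (q / Nat.gcd q (E ^ 2)).factorization p =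
      q.factorization p - min (q.factorization p) (2 * E.factorization p) := by
    intro E hE
    rw [Nat.factorization_div (Nat.gcd_dvd_left _ _),
      Nat.factorization_gcd hq (pow_ne_zero 2 hE), Nat.factorization_pow]
    rfl
  have hne : ∀ E : ℕ, q / Nat.gcd q (E ^ 2) ≠ 0 := by
    intro E
    exact (Nat.div_pos (Nat.le_of_dvd (Nat.pos_of_ne_zero hq) (Nat.gcd_dvd_left _ _))
      (Nat.gcd_pos_of_pos_left _ (Nat.pos_of_ne_zero hq))).ne'
  have h2 : 1 ≤ (q / Nat.gcd q (D1 ^ 2)).factorization p :=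
    (hp.dvd_iff_one_le_factorization (hne D1)).mp h1
  rw [hfac D1 hD1] at h2
  have h3 : e + D.factorization p ≤ D1.factorization p := by
    have h4 := (Nat.factorization_le_iff_dvd
      (mul_ne_zero (pow_ne_zero _ hp.ne_zero) hD) hD1).mpr hdvd p
    rw [Nat.factorization_mul (pow_ne_zero _ hp.ne_zero) hD, Nat.factorization_pow] at h4
    simpa [hp.factorization_self] using h4
  rw [hp.pow_dvd_iff_le_factorization (hne D), hfac D hD]
  omega

theorem geo_sum (x : ℝ) (hx0 : 0 ≤ x) (hx : x ≤ 1 / 2) (m : ℕ) (hm : 0 < m) (N : ℕ) :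
    ∑ j ∈ range (m * (N + 1)), x ^ (N - j / m) ≤ 2 * m := by
  induction N with
  | zero =>
    rw [zero_add, mul_one]
    have h1 : ∑ j ∈ range m, x ^ (0 - j / m) = m := by
      rw [Finset.sum_congr rfl (g := fun _ => (1 : ℝ)) (fun j _ => by
        rw [Nat.zero_sub, pow_zero])]
      simp
    rw [h1]
    have : (0 : ℝ) ≤ m := Nat.cast_nonneg m
    linarith
  | succ N ih =>
    rw [show m * (N + 1 + 1) = m * (N + 1) + m by ring, Finset.sum_range_add]
    have h1 : ∑ j ∈ range (m * (N + 1)), x ^ (N + 1 - j / m) =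
        x * ∑ j ∈ range (m * (N + 1)), x ^ (N - j / m) := by
      rw [Finset.mul_sum]
      refine Finset.sum_congr rfl fun j hj => ?_
      rw [Finset.mem_range] at hj
      have h2 : j / m < N + 1 := Nat.div_lt_of_lt_mul hj
      rw [show N + 1 - j / m = (N - j / m) + 1 by omega, pow_succ, mul_comm]
    have h2 : ∑ i ∈ range m, x ^ (N + 1 - (m * (N + 1) + i) / m) = m := by
      rw [Finset.sum_congr rfl (g := fun _ => (1 : ℝ)) (fun j hj => by
        rw [Finset.mem_range] at hj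
        rw [Nat.mul_add_div hm, Nat.div_eq_of_lt hj, add_zero, Nat.sub_self, pow_zero])]
      simp
    rw [h1, h2]
    have h3 : (0 : ℝ) ≤ 2 * m := by positivity
    have h4 : x * ∑ j ∈ range (m * (N + 1)), x ^ (N - j / m) ≤ 1 / 2 * (2 * m) :=
      (mul_le_mul_of_nonneg_left ih hx0).trans (mul_le_mul_of_nonneg_right hx h3)
    linarith

/-- chain lemma: the sum of `q_j^(-1/2)` over the `j < 2^I` with `q_j ≠ 1` is at most `4` -/
theorem chain (I q : ℕ) (hq : 1 ≤ q) :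
    ∑ j ∈ (range (2 ^ I)).filter (fun j => q / Nat.gcd q ((d I j) ^ 2) ≠ 1),
      (1 : ℝ) / √((q / Nat.gcd q ((d I j) ^ 2) : ℕ) : ℝ) ≤ 4 := by
  classical
  set F := (range (2 ^ I)).filter (fun j => q / Nat.gcd q ((d I j) ^ 2) ≠ 1) with hF
  have hq0 : q ≠ 0 := by omega
  rcases F.eq_empty_or_nonempty with h0 | hne
  · rw [h0, Finset.sum_empty]
    norm_num
  set j1 := F.max' hne with hj1
  have hj1F : j1 ∈ F := F.max'_mem hne
  have hj1' := Finset.mem_filter.mp hj1F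
  have hmax : ∀ j ∈ F, j ≤ j1 := fun j hj => F.le_max' j hj
  have hQpos : ∀ j, 0 < q / Nat.gcd q ((d I j) ^ 2) := by
    intro j
    exact Nat.div_pos (Nat.le_of_dvd (by omega) (Nat.gcd_dvd_left _ _))
      (Nat.gcd_pos_of_pos_left _ (by omega))
  have hcard : F.card ≤ 2 ^ I := by
    have := Finset.card_filter_le (range (2 ^ I)) (fun j => q / Nat.gcd q ((d I j) ^ 2) ≠ 1)
    rwa [Finset.card_range] at this
  by_cases hbig : 4 ^ I ≤ q / Nat.gcd q ((d I j1) ^ 2)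
  · have hterm : ∀ j ∈ F, (1 : ℝ) / √((q / Nat.gcd q ((d I j) ^ 2) : ℕ) : ℝ) ≤ 1 / 2 ^ I := by
      intro j hj
      have h1 : q / Nat.gcd q ((d I j1) ^ 2) ≤ q / Nat.gcd q ((d I j) ^ 2) := by
        apply Nat.div_le_div_left
        · apply Nat.le_of_dvd (Nat.gcd_pos_of_pos_left _ (by omega))
          exact Nat.gcd_dvd_gcd_of_dvd_right _ (pow_dvd_pow_of_dvd (d_dvd I (hmax j hj)) 2)
        · exact Nat.gcd_pos_of_pos_left _ (by omega)
      have h2 : 4 ^ I ≤ q / Nat.gcd q ((d I j) ^ 2) := hbig.trans h1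
      have h3 : (2 : ℝ) ^ I ≤ √((q / Nat.gcd q ((d I j) ^ 2) : ℕ) : ℝ) := by
        apply Real.le_sqrt_of_sq_le
        have h4 : ((4 ^ I : ℕ) : ℝ) ≤ ((q / Nat.gcd q ((d I j) ^ 2) : ℕ) : ℝ) := by
          exact_mod_cast h2
        refine le_trans (le_of_eq ?_) h4
        rw [← pow_mul, mul_comm, pow_mul]
        norm_num
      exact one_div_le_one_div_of_le (by positivity) h3
    calc _ ≤ ∑ _j ∈ F, (1 : ℝ) / 2 ^ I := Finset.sum_le_sum hterm
      _ = F.card * (1 / 2 ^ I) := by rw [Finset.sum_const, nsmul_eq_mul]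
      _ ≤ (2 ^ I : ℝ) * (1 / 2 ^ I) := by
          apply mul_le_mul_of_nonneg_right _ (by positivity)
          exact_mod_cast hcard
      _ = 1 := by
          rw [mul_one_div, div_self (by positivity)]
      _ ≤ 4 := by norm_num
  · push Not at hbig
    set p := (q / Nat.gcd q ((d I j1) ^ 2)).minFac with hpdef
    have hp : p.Prime := Nat.minFac_prime hj1'.2
    have hpdvd : p ∣ q / Nat.gcd q ((d I j1) ^ 2) := Nat.minFac_dvd _
    have hplt : p < 4 ^ I := lt_of_le_of_lt (Nat.minFac_le (hQpos j1)) hbig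
    have hex : ∃ a, p ≤ 4 ^ a := ⟨I, hplt.le⟩
    obtain ⟨a, ha1, ha2⟩ : ∃ a, p ≤ 4 ^ a ∧ ∀ b < a, ¬ p ≤ 4 ^ b :=
      ⟨Nat.find hex, Nat.find_spec hex, fun b hb => Nat.find_min hex hb⟩
    have haI : a ≤ I := by
      by_contra hcon
      push Not at hcon
      exact ha2 I hcon hplt.le
    have ha0 : a ≠ 0 := by
      rintro rfl
      have := hp.two_le
      simp at ha1
      omega
    obtain ⟨a', rfl⟩ : ∃ a', a = a' + 1 := ⟨a - 1, by omega⟩
    have ha3 : 4 ^ a' < p := by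
      have := ha2 a' (by omega)
      omega
    set m := 2 ^ (a' + 1) with hm
    have hmpos : 0 < m := by positivity
    have hm2 : m ^ 2 < 4 * p := by
      have : m ^ 2 = 4 * 4 ^ a' := by
        rw [hm, ← pow_mul, mul_comm (a' + 1) 2, pow_mul]
        norm_num
        ring
      omega
    have hp0 : (0 : ℝ) < p := by exact_mod_cast hp.pos
    have hsp : 0 < √(p : ℝ) := Real.sqrt_pos.mpr hp0
    have hmp : (m : ℝ) ≤ 2 * √(p : ℝ) := by
      have h1 : ((m ^ 2 : ℕ) : ℝ) < ((4 * p : ℕ) : ℝ) := by exact_mod_cast hm2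
      push_cast at h1
      have h2 : √(p : ℝ) ^ 2 = p := Real.sq_sqrt hp0.le
      by_contra hcon
      push Not at hcon
      nlinarith
    have hterm : ∀ j ∈ F, (1 : ℝ) / √((q / Nat.gcd q ((d I j) ^ 2) : ℕ) : ℝ) ≤
        1 / √(p : ℝ) * (1 / (p : ℝ)) ^ (j1 / m - j / m) := by
      intro j hj
      set e := j1 / m - j / m with he
      have h1 := d_dvd_pow I (a' + 1) p haI hp ha1 (hmax j hj)
      have h2 := q_val q (d I j) (d I j1) p e hq0 (d_ne_zero I j) (d_ne_zero I j1) hp h1 hpdvd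
      have h3 : p ^ (1 + 2 * e) ≤ q / Nat.gcd q ((d I j) ^ 2) := Nat.le_of_dvd (hQpos j) h2
      have h4 : √(p : ℝ) * (p : ℝ) ^ e ≤ √((q / Nat.gcd q ((d I j) ^ 2) : ℕ) : ℝ) := by
        apply Real.le_sqrt_of_sq_le
        have h5 : ((p ^ (1 + 2 * e) : ℕ) : ℝ) ≤ ((q / Nat.gcd q ((d I j) ^ 2) : ℕ) : ℝ) := by
          exact_mod_cast h3
        refine le_trans (le_of_eq ?_) h5
        rw [mul_pow, Real.sq_sqrt hp0.le]
        push_cast
        ring
      calc (1 : ℝ) / √((q / Nat.gcd q ((d I j) ^ 2) : ℕ) : ℝ) ≤ 1 / (√(p : ℝ) * (p : ℝ) ^ e) :=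
            one_div_le_one_div_of_le (by positivity) h4
        _ = 1 / √(p : ℝ) * (1 / (p : ℝ)) ^ e := by
            rw [one_div_pow, one_div_mul_one_div]
    have hx : 1 / (p : ℝ) ≤ 1 / 2 := by
      apply one_div_le_one_div_of_le (by norm_num)
      exact_mod_cast hp.two_le
    have hsub : F ⊆ range (m * (j1 / m + 1)) := by
      intro j hj
      rw [Finset.mem_range]
      exact lt_of_le_of_lt (hmax j hj) (Nat.lt_mul_div_succ j1 hmpos)
    calc _ ≤ ∑ j ∈ F, 1 / √(p : ℝ) * (1 / (p : ℝ)) ^ (j1 / m - j / m) :=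
          Finset.sum_le_sum hterm
      _ ≤ ∑ j ∈ range (m * (j1 / m + 1)), 1 / √(p : ℝ) * (1 / (p : ℝ)) ^ (j1 / m - j / m) :=
          Finset.sum_le_sum_of_subset_of_nonneg hsub fun j _ _ => by positivity
      _ = 1 / √(p : ℝ) * ∑ j ∈ range (m * (j1 / m + 1)), (1 / (p : ℝ)) ^ (j1 / m - j / m) := by
          rw [Finset.mul_sum]
      _ ≤ 1 / √(p : ℝ) * (2 * m) :=
          mul_le_mul_of_nonneg_left (geo_sum _ (by positivity) hx m hmpos _) (by positivity)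
      _ ≤ 1 / √(p : ℝ) * (2 * (2 * √(p : ℝ))) := by
          apply mul_le_mul_of_nonneg_left _ (by positivity)
          linarith
      _ = 4 := by
          field_simp
          ring

theorem d_pos (I j : ℕ) : 0 < d I j := by
  unfold d
  exact Finset.prod_pos fun a _ => pow_pos (primorial_pos _) _

theorem d_size (I : ℕ) : d I (2 ^ I) ≤ 4 ^ (2 * 4 ^ I) := by
  unfold d
  have h1 : ∀ a ∈ range (I + 1), (primorial (4 ^ a)) ^ (2 ^ I / 2 ^ a) ≤ 4 ^ (2 ^ I * 2 ^ a) := by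
    intro a ha
    have haI : a ≤ I := Nat.lt_succ_iff.1 (mem_range.1 ha)
    calc (primorial (4 ^ a)) ^ (2 ^ I / 2 ^ a) ≤ (4 ^ (4 ^ a)) ^ (2 ^ I / 2 ^ a) :=
          Nat.pow_le_pow_left (primorial_le_four_pow _) _
      _ = 4 ^ (4 ^ a * (2 ^ I / 2 ^ a)) := by rw [← pow_mul]
      _ = 4 ^ (2 ^ I * 2 ^ a) := by
          congr 1
          rw [Nat.pow_div haI (by norm_num)]
          rw [show (4 : ℕ) = 2 ^ 2 by norm_num, ← pow_mul, ← pow_add, ← pow_add]
          congr 1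
          omega
  refine (Finset.prod_le_prod (fun _ _ => Nat.zero_le _) h1).trans ?_
  rw [Finset.prod_pow_eq_pow_sum, ← Finset.mul_sum]
  refine Nat.pow_le_pow_right (by norm_num) ?_
  have h2 : ∑ a ∈ range (I + 1), 2 ^ a ≤ 2 ^ (I + 1) := by
    have h3 := Nat.geomSum_lt (m := 2) (n := I + 1) (s := range (I + 1)) (le_refl 2)
      (fun k hk => mem_range.1 hk)
    exact h3.le
  calc 2 ^ I * ∑ a ∈ range (I + 1), 2 ^ a ≤ 2 ^ I * 2 ^ (I + 1) := Nat.mul_le_mul_left _ h2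
    _ = 2 * 4 ^ I := by
      rw [show (4 : ℕ) = 2 ^ 2 by norm_num, ← pow_mul, ← pow_add, ← pow_succ']
      congr 1
      omega


theorem norm_e (θ : ℝ) : ‖e θ‖ = 1 := by
  unfold e
  exact Complex.norm_exp_ofReal_mul_I _

theorem e_re (θ : ℝ) : (e θ).re = cos (2 * π * θ) := by
  unfold e
  rw [Complex.exp_ofReal_mul_I_re]

open Classical in
theorem weyl_final (G V E : ℕ) (hG : 1 ≤ G) (hV : 1 ≤ V) (hE : 1 ≤ E) (y : ℝ) (b : ℤ) (r : ℕ)
    (hr : 1 ≤ r) (hrN : r ≤ E * (G ^ 2 * V)) (hb : IsCoprime b (r : ℤ))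
    (hy : r * |y - b / r| ≤ 1 / ((G : ℝ) ^ 2 * V)) (M : ℕ) (hM : M ≤ G ^ 2) :
    ‖∑ k ∈ range M, e ((k : ℝ) ^ 2 * y)‖ ^ 2 ≤
      ((G : ℝ) ^ 2) ^ 2 * (12 / r + 51 * E * V / G) := by
  have hGr : (1 : ℝ) ≤ G := by exact_mod_cast hG
  have hVr : (1 : ℝ) ≤ V := by exact_mod_cast hV
  have hEr : (1 : ℝ) ≤ E := by exact_mod_cast hE
  have hrr : (1 : ℝ) ≤ r := by exact_mod_cast hr
  have hδ : (0 : ℝ) < 1 / G := by positivity
  have h1 := S_sq_le y (1 / G) hδ (G ^ 2) M hM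
    (fun θ hθ M' => geom_bound θ (1 / G) hδ hθ M') (weyl_diff y M)
  set R : ℕ := min r (G ^ 2 * V) with hRdef
  have hRr : R ≤ r := min_le_left _ _
  have hRV : R ≤ G ^ 2 * V := min_le_right _ _
  have hGV : 1 ≤ G ^ 2 * V := Nat.one_le_iff_ne_zero.mpr (by positivity)
  have hR1 : 1 ≤ R := le_min hr hGV
  have h2 := count_le y (1 / G) b r R (2 * G ^ 2) hr hR1 hRr hb hδ.le
    (fun z => block_count y z (1 / G) b r R hr hRr hb hδ.le)
  set n2 : ℝ := (((range (2 * G ^ 2)).filter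
    (fun h : ℕ => ∃ m : ℤ, |(h : ℝ) * y - m| ≤ 1 / G)).card : ℝ) with hn2
  -- the factor of the block count
  have h3 : 2 * (r : ℝ) * (1 / G + R * |y - b / r|) + 1 ≤ 2 * r / G + 3 := by
    have h4 : (R : ℝ) * (r * |y - b / r|) ≤ 1 := by
      have hRV' : (R : ℝ) ≤ (G : ℝ) ^ 2 * V := by exact_mod_cast hRV
      calc (R : ℝ) * (r * |y - b / r|) ≤ ((G : ℝ) ^ 2 * V) * (1 / ((G : ℝ) ^ 2 * V)) :=
            mul_le_mul hRV' hy (by positivity) (by positivity)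
        _ = 1 := by field_simp
    have h5 : 2 * (r : ℝ) * (1 / G + R * |y - b / r|) + 1 =
        2 * r / G + 2 * (R * (r * |y - b / r|)) + 1 := by ring
    rw [h5]; linarith
  have hRr' : (1 : ℝ) ≤ R := by exact_mod_cast hR1
  have h6 : n2 ≤ ((2 * (G : ℝ) ^ 2) / R + 1) * (2 * r / G + 3) := by
    refine h2.trans ?_
    push_cast
    exact mul_le_mul_of_nonneg_left h3 (by positivity)
  -- two cases
  have h7 : n2 ≤ 4 * G + 6 * (G : ℝ) ^ 2 / r + 2 * G * V + 12 + 6 * E * G * V := by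
    rcases le_total r (G ^ 2 * V) with hc | hc
    · have hR' : R = r := min_eq_left hc
      rw [hR'] at h6
      have hc' : (r : ℝ) ≤ (G : ℝ) ^ 2 * V := by exact_mod_cast hc
      have e1 : ((2 * (G : ℝ) ^ 2) / r + 1) * (2 * r / G + 3) =
          4 * G + 6 * (G : ℝ) ^ 2 / r + 2 * r / G + 3 := by
        field_simp
        ring
      have e2 : 2 * (r : ℝ) / G ≤ 2 * G * V := by
        rw [div_le_iff₀ (by positivity)]
        nlinarith
      have e3 : (0 : ℝ) ≤ 6 * E * G * V := by positivity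
      rw [e1] at h6
      linarith
    · have hR' : R = G ^ 2 * V := min_eq_right hc
      have hrN' : (r : ℝ) ≤ E * ((G : ℝ) ^ 2 * V) := by exact_mod_cast hrN
      have e0 : (R : ℝ) = (G : ℝ) ^ 2 * V := by rw [hR']; push_cast; ring
      rw [e0] at h6
      have e1 : (2 * (G : ℝ) ^ 2) / ((G : ℝ) ^ 2 * V) + 1 ≤ 3 := by
        have : (2 * (G : ℝ) ^ 2) / ((G : ℝ) ^ 2 * V) ≤ 2 := by
          rw [div_le_iff₀ (by positivity)]
          nlinarith [sq_nonneg (G : ℝ), mul_le_mul_of_nonneg_left hVr (sq_nonneg (G : ℝ))]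
        linarith
      have e2 : 2 * (r : ℝ) / G ≤ 2 * E * G * V := by
        rw [div_le_iff₀ (by positivity)]
        nlinarith
      have e3 : ((2 * (G : ℝ) ^ 2) / ((G : ℝ) ^ 2 * V) + 1) * (2 * r / G + 3) ≤
          3 * (2 * E * G * V + 3) :=
        mul_le_mul e1 (by linarith) (by positivity) (by norm_num)
      have e4 : (0 : ℝ) ≤ 4 * G + 6 * (G : ℝ) ^ 2 / r + 2 * G * V := by positivity
      linarith
  -- final
  have hn0 : 0 ≤ n2 := by positivity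
  have h8 : ‖∑ k ∈ range M, e ((k : ℝ) ^ 2 * y)‖ ^ 2 ≤
      (G : ℝ) ^ 2 + 2 * (G : ℝ) ^ 2 * n2 + 2 * (G : ℝ) ^ 2 * G := by
    refine h1.trans ?_
    push_cast
    have : 2 * (G : ℝ) ^ 2 / (1 / (G : ℝ)) = 2 * (G : ℝ) ^ 2 * G := by field_simp
    rw [this]
  refine h8.trans ?_
  have h9 : 2 * (G : ℝ) ^ 2 * n2 ≤ 2 * (G : ℝ) ^ 2 *
      (4 * G + 6 * (G : ℝ) ^ 2 / r + 2 * G * V + 12 + 6 * E * G * V) :=
    mul_le_mul_of_nonneg_left h7 (by positivity)
  have h10 : ((G : ℝ) ^ 2) ^ 2 * (12 / r + 51 * E * V / G) =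
      12 * (G : ℝ) ^ 4 / r + 51 * E * V * (G : ℝ) ^ 3 := by
    field_simp
  have h11 : 2 * (G : ℝ) ^ 2 * (4 * G + 6 * (G : ℝ) ^ 2 / r + 2 * G * V + 12 + 6 * E * G * V) =
      12 * (G : ℝ) ^ 4 / r + (8 * G + 4 * G * V + 24 + 12 * E * G * V) * (G : ℝ) ^ 2 := by
    field_simp
    ring
  rw [h10]
  rw [h11] at h9
  have hEV : (1 : ℝ) ≤ E * V := by nlinarith
  have hVE : (V : ℝ) ≤ E * V := by nlinarith
  have h12 : (G : ℝ) ^ 2 + (8 * G + 4 * G * V + 24 + 12 * E * G * V) * (G : ℝ) ^ 2 +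
      2 * (G : ℝ) ^ 2 * G ≤ 51 * E * V * (G : ℝ) ^ 3 := by
    have h13 : 1 + (8 * (G : ℝ) + 4 * G * V + 24 + 12 * E * G * V) + 2 * G ≤ 51 * (E * V) * G := by
      have a1 : (G : ℝ) ≤ (E * V) * G := by nlinarith
      have a2 : (G : ℝ) * V ≤ (E * V) * G := by nlinarith
      nlinarith
    have h14 : (0 : ℝ) ≤ (G : ℝ) ^ 2 := by positivity
    nlinarith [mul_le_mul_of_nonneg_left h13 h14]
  linarith

/-- the unnormalised weighted sum -/
noncomputable def F (K : ℕ) (y : ℝ) : ℝ :=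
  ∑ k ∈ range K, (2 * (k : ℝ) + 1) * (1 - (k : ℝ) ^ 2 / (K : ℝ) ^ 2) * cos (2 * π * (k : ℝ) ^ 2 * y)

/-- the total weight -/
noncomputable def W (K : ℕ) : ℝ :=
  ∑ k ∈ range K, (2 * (k : ℝ) + 1) * (1 - (k : ℝ) ^ 2 / (K : ℝ) ^ 2)

theorem F_abs (K : ℕ) (hK : 1 ≤ K) (y B : ℝ)
    (hB : ∀ M ≤ K, ‖∑ k ∈ range M, e ((k : ℝ) ^ 2 * y)‖ ≤ B) : |F K y| ≤ 4 * K * B := by
  have h := abel_bound (fun k => e ((k : ℝ) ^ 2 * y)) K hK B hB
  refine le_trans ?_ h
  have h2 : F K y = (∑ k ∈ range K, (((2 * k + 1) * (1 - (k : ℝ) ^ 2 / (K : ℝ) ^ 2) : ℝ) : ℂ) *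
      e ((k : ℝ) ^ 2 * y)).re := by
    rw [Complex.re_sum]
    unfold F
    apply Finset.sum_congr rfl
    intro k _
    rw [Complex.re_ofReal_mul, e_re]
    ring_nf
  rw [h2]
  exact Complex.abs_re_le_norm _

theorem F_pos (K : ℕ) (hK : 1 ≤ K) (y : ℝ) (b : ℤ) :
    -(4 * (K : ℝ) ^ 3 * (1 / (K : ℝ) ^ 2 + 2 * π * |y - b|)) ≤ F K y := by
  have h := pos_bound K hK (2 * π * (y - b))
  have h1 : |2 * π * (y - b)| = 2 * π * |y - b| := by
    rw [abs_mul, abs_of_pos (by positivity : (0 : ℝ) < 2 * π)]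
  rw [h1] at h
  refine h.trans (le_of_eq ?_)
  unfold F
  apply Finset.sum_congr rfl
  intro k _
  congr 1
  have : 2 * π * (k : ℝ) ^ 2 * y = 2 * π * (y - b) * (k : ℝ) ^ 2 + ((b * k ^ 2 : ℤ) : ℝ) * (2 * π) := by
    push_cast; ring
  rw [this, Real.cos_add_int_mul_two_pi]

theorem F_zero (K : ℕ) : F K 0 = W K := by
  unfold F W
  simp

theorem W_ge (K : ℕ) (hK : 1 ≤ K) : (K : ℝ) ^ 2 / 2 ≤ W K := weight_ge K hK


/-- The cosine polynomial `c₀ + ∑_{k=1}^H c_k cos (2π k² x)`. -/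
noncomputable def T (H : ℕ) (c0 : ℝ) (c : ℕ → ℝ) (x : ℝ) : ℝ :=
  c0 + ∑ k ∈ Finset.Icc 1 H, c k * cos (2 * π * (k : ℝ) ^ 2 * x)

/-- Admissible: non-negative on `ℝ`, value `1` at `0`. -/
def Admissible (H : ℕ) (c0 : ℝ) (c : ℕ → ℝ) : Prop :=
  (∀ x : ℝ, 0 ≤ T H c0 c x) ∧ T H c0 c 0 = 1

/-- `δ(H)`: the infimum of the constant terms of admissible polynomials with parameter `H`. -/
noncomputable def δ (H : ℕ) : ℝ :=
  sInf {c0 : ℝ | ∃ c : ℕ → ℝ, Admissible H c0 c}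

/-- the weight `1/√5` -/
noncomputable def w : ℝ := 1 / √5

/-- multiplier of `cos(2π k² x)` at level `i` -/
noncomputable def lam (i k : ℕ) : ℝ :=
  w + (1 - w) * cos (2 * π * (k : ℝ) ^ 2 * (2 / 5 ^ (2 * i + 1)))

lemma w_pos : 0 < w := by unfold w; positivity

lemma w_le_one : w ≤ 1 := by
  unfold w
  rw [div_le_one (by positivity)]
  exact Real.one_le_sqrt.mpr (by norm_num)

/-- one averaging step, on the level of the polynomials -/
lemma step (H : ℕ) (c0 : ℝ) (c : ℕ → ℝ) (i : ℕ) (x : ℝ) :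
    T H c0 (fun k => c k * lam i k) x =
      w * T H c0 c x + (1 - w) / 2 * (T H c0 c (x + 2 / 5 ^ (2 * i + 1)) +
        T H c0 c (x - 2 / 5 ^ (2 * i + 1))) := by
  unfold T
  set s : ℝ := 2 / 5 ^ (2 * i + 1) with hs
  have key : ∀ k : ℕ, c k * lam i k * cos (2 * π * (k : ℝ) ^ 2 * x) =
      w * (c k * cos (2 * π * (k : ℝ) ^ 2 * x)) + (1 - w) / 2 *
        (c k * cos (2 * π * (k : ℝ) ^ 2 * (x + s)) +
          c k * cos (2 * π * (k : ℝ) ^ 2 * (x - s))) := by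
    intro k
    have h1 : cos (2 * π * (k : ℝ) ^ 2 * (x + s)) =
        cos (2 * π * (k : ℝ) ^ 2 * x) * cos (2 * π * (k : ℝ) ^ 2 * s) -
        sin (2 * π * (k : ℝ) ^ 2 * x) * sin (2 * π * (k : ℝ) ^ 2 * s) := by
      rw [← Real.cos_add]; ring_nf
    have h2 : cos (2 * π * (k : ℝ) ^ 2 * (x - s)) =
        cos (2 * π * (k : ℝ) ^ 2 * x) * cos (2 * π * (k : ℝ) ^ 2 * s) +
        sin (2 * π * (k : ℝ) ^ 2 * x) * sin (2 * π * (k : ℝ) ^ 2 * s) := by
      rw [← Real.cos_sub]; ring_nf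
    rw [h1, h2]
    unfold lam
    rw [← hs]
    ring
  rw [Finset.sum_congr rfl (fun k _ => key k)]
  rw [Finset.sum_add_distrib, ← Finset.mul_sum, ← Finset.mul_sum, Finset.sum_add_distrib]
  ring

lemma iter (H : ℕ) (c0 : ℝ) (c : ℕ → ℝ) (h : Admissible H c0 c) (t : ℕ) :
    (∀ x : ℝ, 0 ≤ T H c0 (fun k => c k * ∏ i ∈ Finset.range t, lam i k) x) ∧
      w ^ t ≤ T H c0 (fun k => c k * ∏ i ∈ Finset.range t, lam i k) 0 := by
  induction t with
  | zero =>
    simp only [Finset.range_zero, Finset.prod_empty, mul_one, pow_zero]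
    exact ⟨h.1, h.2.ge⟩
  | succ t ih =>
    have e : (fun k => c k * ∏ i ∈ Finset.range (t + 1), lam i k) =
        (fun k => (c k * ∏ i ∈ Finset.range t, lam i k) * lam t k) := by
      funext k
      rw [Finset.prod_range_succ]; ring
    rw [e]
    have hw := w_pos
    have hw1 := w_le_one
    constructor
    · intro x
      rw [step H c0 (fun k => c k * ∏ i ∈ Finset.range t, lam i k) t x]
      have a1 := ih.1 x
      have a2 := ih.1 (x + 2 / 5 ^ (2 * t + 1))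
      have a3 := ih.1 (x - 2 / 5 ^ (2 * t + 1))
      have b1 := mul_nonneg hw.le a1
      have b2 := mul_nonneg (by linarith : (0 : ℝ) ≤ (1 - w) / 2) (add_nonneg a2 a3)
      linarith
    · rw [step H c0 (fun k => c k * ∏ i ∈ Finset.range t, lam i k) t 0]
      have a2 := ih.1 (0 + 2 / 5 ^ (2 * t + 1))
      have a3 := ih.1 (0 - 2 / 5 ^ (2 * t + 1))
      have b2 := mul_nonneg (by linarith : (0 : ℝ) ≤ (1 - w) / 2) (add_nonneg a2 a3)
      have b1 := mul_le_mul_of_nonneg_left ih.2 hw.le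
      rw [pow_succ, mul_comm]
      linarith

lemma cos_four_pi_div_five : cos (2 * π * 2 / 5) = -(1 + √5) / 4 := by
  have h : (2 * π * 2 / 5 : ℝ) = π - π / 5 := by ring
  rw [h, Real.cos_pi_sub, Real.cos_pi_div_five]
  ring

/-- the multiplier vanishes at level `i = v_5(k)` -/
lemma lam_eq_zero (i m : ℕ) (hm : ¬ 5 ∣ m) : lam i (5 ^ i * m) = 0 := by
  have hcos : cos (2 * π * ((5 ^ i * m : ℕ) : ℝ) ^ 2 * (2 / 5 ^ (2 * i + 1))) =
      cos (2 * π * 2 / 5) := by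
    have e1 : 2 * π * ((5 ^ i * m : ℕ) : ℝ) ^ 2 * (2 / 5 ^ (2 * i + 1)) =
        2 * π * 2 * (m : ℝ) ^ 2 / 5 := by
      push_cast
      have : (5 : ℝ) ^ (2 * i + 1) = (5 ^ i) ^ 2 * 5 := by
        rw [← pow_mul]; ring
      rw [this]
      have h5 : ((5 : ℝ) ^ i) ≠ 0 := by positivity
      field_simp
    rw [e1]
    have hmod : m ^ 2 % 5 = 1 ∨ m ^ 2 % 5 = 4 := by
      have : m % 5 ≠ 0 := fun h => hm (Nat.dvd_of_mod_eq_zero h)
      have h5 : m % 5 < 5 := Nat.mod_lt _ (by norm_num)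
      rw [Nat.pow_mod]
      interval_cases h : m % 5 <;> simp_all
    rcases hmod with h | h
    · obtain ⟨q, hq⟩ : ∃ q, m ^ 2 = 5 * q + 1 := ⟨m ^ 2 / 5, by omega⟩
      have hq' : (m : ℝ) ^ 2 = 5 * q + 1 := by exact_mod_cast hq
      rw [hq']
      have e2 : 2 * π * 2 * (5 * (q : ℝ) + 1) / 5 = 2 * π * 2 / 5 + ((2 * q : ℕ) : ℝ) * (2 * π) := by
        push_cast; ring
      rw [e2, Real.cos_add_nat_mul_two_pi]
    · obtain ⟨q, hq⟩ : ∃ q, m ^ 2 + 1 = 5 * q := ⟨(m ^ 2 + 1) / 5, by omega⟩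
      have hq' : (m : ℝ) ^ 2 = 5 * q - 1 := by
        have : ((m ^ 2 + 1 : ℕ) : ℝ) = ((5 * q : ℕ) : ℝ) := by rw [hq]
        push_cast at this
        linarith
      rw [hq']
      have e2 : 2 * π * 2 * (5 * (q : ℝ) - 1) / 5 = -(2 * π * 2 / 5) + ((2 * q : ℕ) : ℝ) * (2 * π) := by
        push_cast; ring
      rw [e2, Real.cos_add_nat_mul_two_pi, Real.cos_neg]
  unfold lam
  rw [hcos, cos_four_pi_div_five]
  unfold w
  have h5 : √5 * √5 = (5 : ℝ) := Real.mul_self_sqrt (by norm_num)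
  have h0 : √5 ≠ (0 : ℝ) := by positivity
  field_simp
  nlinarith [h5]

lemma prod_lam_eq_zero (t k : ℕ) (hk : 1 ≤ k) (hkt : k < 5 ^ t) :
    ∏ i ∈ Finset.range t, lam i k = 0 := by
  obtain ⟨i, m, hm, rfl⟩ := Nat.exists_eq_pow_mul_and_not_dvd (n := k) (by omega) 5 (by norm_num)
  have hit : i < t := by
    have hm0 : 1 ≤ m := by
      rcases Nat.eq_zero_or_pos m with h | h
      · subst h; simp at hm
      · exact h
    have : 5 ^ i < 5 ^ t := lt_of_le_of_lt (Nat.le_mul_of_pos_right _ hm0) hkt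
    exact (Nat.pow_lt_pow_iff_right (by norm_num)).mp this
  exact Finset.prod_eq_zero (Finset.mem_range.mpr hit) (lam_eq_zero i m hm)

lemma const_ge (H t : ℕ) (hH : H < 5 ^ t) (c0 : ℝ) (c : ℕ → ℝ) (h : Admissible H c0 c) :
    w ^ t ≤ c0 := by
  have h1 := (iter H c0 c h t).2
  have h2 : T H c0 (fun k => c k * ∏ i ∈ Finset.range t, lam i k) 0 = c0 := by
    unfold T
    rw [Finset.sum_eq_zero, add_zero]
    intro k hk
    rw [Finset.mem_Icc] at hk
    have h3 := prod_lam_eq_zero t k hk.1 (by omega)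
    simp [h3]
  rwa [h2] at h1

theorem admissible_one (H : ℕ) : Admissible H 1 (fun _ => 0) := by
  constructor
  · intro x; simp [T]
  · simp [T]

lemma const_ge_sqrt (H : ℕ) (hH : 1 ≤ H) (c0 : ℝ) (c : ℕ → ℝ) (h : Admissible H c0 c) :
    1 / √(5 * H) ≤ c0 := by
  set t := Nat.log 5 H with ht
  have h1 : H < 5 ^ (t + 1) := Nat.lt_pow_succ_log_self (by norm_num) H
  have h2 : 5 ^ t ≤ H := Nat.pow_log_le_self 5 (by omega)
  refine le_trans ?_ (const_ge H (t + 1) h1 c0 c h)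
  have e : w ^ (t + 1) = 1 / √((5 : ℝ) ^ (t + 1)) := by
    unfold w
    rw [div_pow, one_pow, Real.sqrt_eq_rpow, Real.sqrt_eq_rpow, ← Real.rpow_natCast,
      ← Real.rpow_natCast, ← Real.rpow_mul (by norm_num), ← Real.rpow_mul (by norm_num)]
    ring_nf
  rw [e]
  apply one_div_le_one_div_of_le
  · positivity
  · apply Real.sqrt_le_sqrt
    rw [pow_succ, mul_comm]
    have : ((5 ^ t : ℕ) : ℝ) ≤ (H : ℝ) := by exact_mod_cast h2
    push_cast at this
    linarith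

/-- `f` is a square-frequency polynomial with constant term `a` -/
def IsSq (H : ℕ) (a : ℝ) (f : ℝ → ℝ) : Prop := ∃ c : ℕ → ℝ, ∀ x, f x = T H a c x

theorem IsSq.const (H : ℕ) (a : ℝ) : IsSq H a (fun _ => a) := ⟨fun _ => 0, fun x => by simp [T]⟩

theorem IsSq.add {H : ℕ} {a b : ℝ} {f g : ℝ → ℝ} (hf : IsSq H a f) (hg : IsSq H b g) :
    IsSq H (a + b) (fun x => f x + g x) := by
  obtain ⟨c, hc⟩ := hf
  obtain ⟨c', hc'⟩ := hg
  refine ⟨fun k => c k + c' k, fun x => ?_⟩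
  show f x + g x = _
  rw [hc, hc']
  unfold T
  simp only [add_mul, Finset.sum_add_distrib]
  ring

theorem IsSq.smul {H : ℕ} {a : ℝ} {f : ℝ → ℝ} (t : ℝ) (hf : IsSq H a f) :
    IsSq H (t * a) (fun x => t * f x) := by
  obtain ⟨c, hc⟩ := hf
  refine ⟨fun k => t * c k, fun x => ?_⟩
  show t * f x = _
  rw [hc]
  unfold T
  rw [mul_add, Finset.mul_sum]
  simp only [mul_assoc]

theorem IsSq.sum {H : ℕ} {ι : Type} (s : Finset ι) (a : ι → ℝ) (f : ι → ℝ → ℝ)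
    (h : ∀ i ∈ s, IsSq H (a i) (f i)) : IsSq H (∑ i ∈ s, a i) (fun x => ∑ i ∈ s, f i x) := by
  classical
  induction s using Finset.induction_on with
  | empty => simpa using IsSq.const H 0
  | insert i s hi ih =>
    simp only [Finset.sum_insert hi]
    exact (h i (Finset.mem_insert_self _ _)).add
      (ih (fun j hj => h j (Finset.mem_insert_of_mem hj)))

theorem IsSq.cos {H m : ℕ} (h1 : 1 ≤ m) (h2 : m ≤ H) :
    IsSq H 0 (fun x => Real.cos (2 * π * (m : ℝ) ^ 2 * x)) := by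
  classical
  refine ⟨fun k => if k = m then 1 else 0, fun x => ?_⟩
  unfold T
  rw [Finset.sum_eq_single m]
  · simp
  · intro b _ hb; simp [hb]
  · intro h; exact absurd (Finset.mem_Icc.mpr ⟨h1, h2⟩) h

/-- the dilated weighted sum is a square-frequency polynomial with constant term `1` -/
theorem IsSq.F {H K D : ℕ} (hK : 1 ≤ K) (hD : 1 ≤ D) (hH : D * K ≤ H) :
    IsSq H 1 (fun x => F K ((D : ℝ) ^ 2 * x)) := by
  have h := IsSq.sum (H := H) (range K) (fun k => if k = 0 then (1 : ℝ) else 0)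
    (fun k x => (2 * (k : ℝ) + 1) * (1 - (k : ℝ) ^ 2 / (K : ℝ) ^ 2) *
      Real.cos (2 * π * (k : ℝ) ^ 2 * ((D : ℝ) ^ 2 * x))) ?_
  · have e1 : (∑ k ∈ range K, if k = 0 then (1 : ℝ) else 0) = 1 := by
      rw [Finset.sum_ite_eq' ]
      simp; omega
    rw [e1] at h
    exact h
  · intro k hk
    rw [Finset.mem_range] at hk
    rcases Nat.eq_zero_or_pos k with h0 | h0
    · subst h0
      simp only [if_true]
      have := IsSq.const H 1
      refine ⟨this.choose, fun x => ?_⟩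
      rw [← this.choose_spec x]
      simp
    · have hk0 : k ≠ 0 := by omega
      simp only [hk0, if_false]
      have h1 : IsSq H 0 (fun x => Real.cos (2 * π * ((D * k : ℕ) : ℝ) ^ 2 * x)) := by
        apply IsSq.cos
        · exact Nat.mul_pos hD h0
        · exact le_trans (Nat.mul_le_mul_left D hk.le) hH
      have h2 := h1.smul ((2 * (k : ℝ) + 1) * (1 - (k : ℝ) ^ 2 / (K : ℝ) ^ 2))
      rw [mul_zero] at h2
      have e2 : (fun x => (2 * (k : ℝ) + 1) * (1 - (k : ℝ) ^ 2 / (K : ℝ) ^ 2) *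
          Real.cos (2 * π * ((D * k : ℕ) : ℝ) ^ 2 * x)) =
          (fun x => (2 * (k : ℝ) + 1) * (1 - (k : ℝ) ^ 2 / (K : ℝ) ^ 2) *
          Real.cos (2 * π * (k : ℝ) ^ 2 * ((D : ℝ) ^ 2 * x))) := by
        funext x
        congr 2
        push_cast; ring
      rw [e2] at h2
      exact h2

theorem const_nonneg (H : ℕ) (c0 : ℝ) (c : ℕ → ℝ) (h : Admissible H c0 c) : 0 ≤ c0 := by
  refine le_trans ?_ (const_ge H H (Nat.lt_pow_self (by norm_num)) c0 c h)
  exact pow_nonneg w_pos.le _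

theorem bddBelow (H : ℕ) : BddBelow {c0 : ℝ | ∃ c : ℕ → ℝ, Admissible H c0 c} :=
  ⟨0, fun _ ⟨c, hc⟩ => const_nonneg H _ c hc⟩

theorem δ_le_of (H : ℕ) (c0 : ℝ) (c : ℕ → ℝ) (h : Admissible H c0 c) : δ H ≤ c0 :=
  csInf_le (bddBelow H) ⟨c, h⟩

theorem δ_le_one (H : ℕ) : δ H ≤ 1 :=
  δ_le_of H 1 (fun _ => 0) ⟨fun x => by simp [T], by simp [T]⟩

/-- rational approximation of `x` and of its dilates -/
theorem approx (x : ℝ) (D KV : ℕ) (hD : 1 ≤ D) (hKV : 1 ≤ KV) :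
    ∃ q : ℕ, 1 ≤ q ∧ ∀ d' : ℕ, 1 ≤ d' → d' ≤ D → ∃ b : ℤ,
      IsCoprime b ((q / Nat.gcd q (d' ^ 2) : ℕ) : ℤ) ∧ 1 ≤ q / Nat.gcd q (d' ^ 2) ∧
      q / Nat.gcd q (d' ^ 2) ≤ D ^ 2 * KV ∧
      ((q / Nat.gcd q (d' ^ 2) : ℕ) : ℝ) * |(d' : ℝ) ^ 2 * x - b / ((q / Nat.gcd q (d' ^ 2) : ℕ) : ℝ)| ≤
        1 / (KV : ℝ) := by
  have hN : 0 < D ^ 2 * KV := by positivity
  obtain ⟨ξ, hξ1, hξ2⟩ := Real.exists_rat_abs_sub_le_and_den_le x hN
  refine ⟨ξ.den, ξ.pos, fun d' hd1 hd2 => ?_⟩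
  set g := Nat.gcd ξ.den (d' ^ 2) with hg
  have hgpos : 0 < g := Nat.gcd_pos_of_pos_left _ ξ.pos
  have hgd : g ∣ ξ.den := Nat.gcd_dvd_left _ _
  have hgd2 : g ∣ d' ^ 2 := Nat.gcd_dvd_right _ _
  obtain ⟨u, hu⟩ := hgd
  obtain ⟨v, hv⟩ := hgd2
  have hdiv : ξ.den / g = u := by rw [hu]; exact Nat.mul_div_cancel_left _ hgpos
  have hcop : Nat.Coprime u v := by
    have := Nat.coprime_div_gcd_div_gcd (m := ξ.den) (n := d' ^ 2) (hg ▸ hgpos)
    rw [← hg] at this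
    have hv' : d' ^ 2 / g = v := by rw [hv]; exact Nat.mul_div_cancel_left _ hgpos
    rwa [hdiv, hv'] at this
  have hu1 : 1 ≤ u := by
    rcases Nat.eq_zero_or_pos u with h | h
    · have := ξ.pos; rw [hu, h] at this; simp at this
    · exact h
  rw [hdiv]
  refine ⟨ξ.num * v, ?_, hu1, ?_, ?_⟩
  · have h1 : IsCoprime ξ.num (u : ℤ) := by
      have h2 : IsCoprime ξ.num (ξ.den : ℤ) := by
        have := ξ.reduced
        exact Int.isCoprime_iff_gcd_eq_one.mpr (by simpa [Int.gcd] using this)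
      apply h2.of_isCoprime_of_dvd_right
      exact ⟨(g : ℤ), by rw [hu]; push_cast; ring⟩
    have h3 : IsCoprime (v : ℤ) (u : ℤ) := by
      exact (Nat.isCoprime_iff_coprime.mpr hcop).symm
    exact h1.mul_left h3
  · have : u ≤ ξ.den := by rw [hu]; exact Nat.le_mul_of_pos_left _ hgpos
    exact this.trans hξ2
  · have hur : (0 : ℝ) < u := by exact_mod_cast hu1
    have hgr : (0 : ℝ) < g := by exact_mod_cast hgpos
    have hden : (ξ.den : ℝ) = g * u := by rw [hu]; push_cast; ring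
    have hdd : (d' : ℝ) ^ 2 = g * v := by
      have : ((d' ^ 2 : ℕ) : ℝ) = ((g * v : ℕ) : ℝ) := by rw [← hv]
      push_cast at this; exact this
    have hξ : (ξ : ℝ) = ξ.num / ξ.den := by
      exact_mod_cast (Rat.num_div_den ξ).symm
    have e1 : (d' : ℝ) ^ 2 * x - ((ξ.num * v : ℤ) : ℝ) / (u : ℝ) = (d' : ℝ) ^ 2 * (x - ξ) := by
      rw [hξ, hden, hdd]
      push_cast
      field_simp
    rw [e1, abs_mul, abs_of_nonneg (by positivity : (0 : ℝ) ≤ (d' : ℝ) ^ 2)]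
    have hD' : (d' : ℝ) ^ 2 ≤ (D : ℝ) ^ 2 := by
      have : (d' : ℝ) ≤ D := by exact_mod_cast hd2
      gcongr
    have hD1 : (1 : ℝ) ≤ D := by exact_mod_cast hD
    have hK1 : (1 : ℝ) ≤ KV := by exact_mod_cast hKV
    have hu_le : (u : ℝ) ≤ ξ.den := by
      rw [hden]
      have : (1 : ℝ) ≤ g := by exact_mod_cast hgpos
      nlinarith
    have hdp : (0 : ℝ) < ξ.den := by exact_mod_cast ξ.pos
    calc (u : ℝ) * ((d' : ℝ) ^ 2 * |x - ξ|)
        ≤ ξ.den * ((D : ℝ) ^ 2 * (1 / (((D ^ 2 * KV : ℕ) + 1) * ξ.den))) := by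
          apply mul_le_mul hu_le _ (by positivity) hdp.le
          apply mul_le_mul hD' hξ1 (by positivity) (by positivity)
      _ = (D : ℝ) ^ 2 / ((D : ℝ) ^ 2 * KV + 1) := by
          push_cast
          field_simp
      _ ≤ 1 / (KV : ℝ) := by
          rw [div_le_div_iff₀ (by positivity) (by positivity)]
          nlinarith


/-- lower bound for one term with `q_j ≠ 1` -/
theorem F_ge_of_ne (G V E J : ℕ) (hG : 1 ≤ G) (hV : 1 ≤ V) (hE : 1 ≤ E) (hJ : 1 ≤ J)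
    (hGb : 3264 * E * V * J ^ 2 ≤ G) (y : ℝ) (b : ℤ) (r : ℕ)
    (hr : 1 ≤ r) (hrN : r ≤ E * (G ^ 2 * V)) (hb : IsCoprime b (r : ℤ))
    (hy : r * |y - b / r| ≤ 1 / ((G : ℝ) ^ 2 * V)) :
    -(W (G ^ 2) * (28 * (1 / √(r : ℝ)) + 1 / J)) ≤ F (G ^ 2) y := by
  have hGr : (1 : ℝ) ≤ G := by exact_mod_cast hG
  have hVr : (1 : ℝ) ≤ V := by exact_mod_cast hV
  have hEr : (1 : ℝ) ≤ E := by exact_mod_cast hE
  have hrr : (1 : ℝ) ≤ r := by exact_mod_cast hr
  have hJr : (1 : ℝ) ≤ J := by exact_mod_cast hJ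
  have hK : 1 ≤ G ^ 2 := Nat.one_le_iff_ne_zero.mpr (by positivity)
  -- `B`
  set η : ℝ := 1 / (8 * J) with hη
  have hηpos : 0 < η := by positivity
  have hsr : 0 < √(r : ℝ) := Real.sqrt_pos.mpr (by linarith)
  have hsr2 : √(r : ℝ) ^ 2 = r := Real.sq_sqrt (by linarith)
  set B : ℝ := (G : ℝ) ^ 2 * (7 / 2 * (1 / √(r : ℝ)) + η) with hB
  have hBpos : 0 ≤ B := by positivity
  have hbig : 51 * (E : ℝ) * V / G ≤ η ^ 2 := by
    have h1 : (3264 * (E : ℝ) * V * J ^ 2) ≤ G := by exact_mod_cast hGb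
    have e2 : η ^ 2 = 1 / (64 * (J : ℝ) ^ 2) := by rw [hη]; field_simp; norm_num
    rw [e2, div_le_div_iff₀ (by positivity) (by positivity)]
    nlinarith
  have hS : ∀ M ≤ G ^ 2, ‖∑ k ∈ range M, e ((k : ℝ) ^ 2 * y)‖ ≤ B := by
    intro M hM
    have h1 := weyl_final G V E hG hV hE y b r hr hrN hb hy M hM
    apply le_of_sq_le_sq _ hBpos
    refine h1.trans ?_
    rw [hB, mul_pow]
    apply mul_le_mul_of_nonneg_left _ (by positivity)
    have e1 : (7 / 2 * (1 / √(r : ℝ)) + η) ^ 2 = 49 / 4 / r + 7 * η * (1 / √(r : ℝ)) + η ^ 2 := by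
      have : (1 / √(r : ℝ)) ^ 2 = 1 / r := by rw [div_pow, hsr2, one_pow]
      have h5 : (7 / 2 * (1 / √(r : ℝ)) + η) ^ 2 =
        49 / 4 * (1 / √(r : ℝ)) ^ 2 + 7 * η * (1 / √(r : ℝ)) + η ^ 2 := by ring
      rw [h5, this]; ring
    rw [e1]
    have e3 : 12 / (r : ℝ) ≤ 49 / 4 / r := by
      apply div_le_div_of_nonneg_right _ (by positivity)
      norm_num
    have e4 : 0 ≤ 7 * η * (1 / √(r : ℝ)) := by positivity
    linarith
  have h2 := F_abs (G ^ 2) hK y B hS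
  have h3 := W_ge (G ^ 2) hK
  push_cast at h2 h3
  have h4 := neg_le_of_abs_le h2
  have h5 : 4 * (G : ℝ) ^ 2 * B ≤ W (G ^ 2) * (28 * (1 / √(r : ℝ)) + 1 / J) := by
    have e5 : 28 * (1 / √(r : ℝ)) + 1 / (J : ℝ) = 8 * (7 / 2 * (1 / √(r : ℝ)) + η) := by
      rw [hη]; field_simp; ring
    rw [e5, hB]
    have h6 : 0 ≤ 7 / 2 * (1 / √(r : ℝ)) + η := by positivity
    nlinarith [mul_le_mul_of_nonneg_right h3 h6]
  linarith

/-- lower bound for one term with `q_j = 1` -/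
theorem F_ge_of_eq (G V J : ℕ) (hG : 1 ≤ G) (hV : 1 ≤ V) (hJ : 1 ≤ J)
    (hVb : 60 * J ≤ V) (hGb : 3264 * V * J ^ 2 ≤ G) (y : ℝ) (b : ℤ)
    (hy : |y - b| ≤ 1 / ((G : ℝ) ^ 2 * V)) :
    -(W (G ^ 2) * (1 / J)) ≤ F (G ^ 2) y := by
  have hGr : (1 : ℝ) ≤ G := by exact_mod_cast hG
  have hVr : (1 : ℝ) ≤ V := by exact_mod_cast hV
  have hJr : (1 : ℝ) ≤ J := by exact_mod_cast hJ
  have hK : 1 ≤ G ^ 2 := Nat.one_le_iff_ne_zero.mpr (by positivity)
  have h1 := F_pos (G ^ 2) hK y b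
  have h3 := W_ge (G ^ 2) hK
  push_cast at h1 h3
  have hVb' : 60 * (J : ℝ) ≤ V := by exact_mod_cast hVb
  have hGb' : 3264 * (V : ℝ) * J ^ 2 ≤ G := by exact_mod_cast hGb
  have h4 : 4 * ((G : ℝ) ^ 2) ^ 3 * (1 / ((G : ℝ) ^ 2) ^ 2 + 2 * π * |y - b|) ≤
      W (G ^ 2) * (1 / J) := by
    have h5 : 4 * ((G : ℝ) ^ 2) ^ 3 * (1 / ((G : ℝ) ^ 2) ^ 2 + 2 * π * |y - b|) ≤
        4 * ((G : ℝ) ^ 2) ^ 3 * (1 / ((G : ℝ) ^ 2) ^ 2 + 2 * π * (1 / ((G : ℝ) ^ 2 * V))) := by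
      gcongr
    have h6 : 4 * ((G : ℝ) ^ 2) ^ 3 * (1 / ((G : ℝ) ^ 2) ^ 2 + 2 * π * (1 / ((G : ℝ) ^ 2 * V))) =
        ((G : ℝ) ^ 2) ^ 2 / 2 * (8 / (G : ℝ) ^ 2 + 16 * π / V) := by
      field_simp
      ring
    have hπ : π < 3.15 := Real.pi_lt_d2
    have h7 : 8 / (G : ℝ) ^ 2 + 16 * π / V ≤ 1 / J := by
      have a1 : 16 * π / V ≤ 50.4 / (60 * J) := by
        apply div_le_div₀ (by norm_num) (by linarith) (by positivity) hVb'
      have a2 : 8 / (G : ℝ) ^ 2 ≤ 8 / (100 * J) := by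
        apply div_le_div_of_nonneg_left (by norm_num) (by positivity)
        have : (100 : ℝ) * J ≤ G := by nlinarith
        nlinarith
      have a3 : 50.4 / (60 * (J : ℝ)) + 8 / (100 * J) ≤ 1 / J := by
        have : 50.4 / (60 * (J : ℝ)) + 8 / (100 * J) = (50.4 / 60 + 8 / 100) * (1 / J) := by
          field_simp
        rw [this]
        have : (0 : ℝ) < 1 / J := by positivity
        nlinarith
      linarith
    rw [h6] at h5
    refine h5.trans ?_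
    have h8 : 0 ≤ 8 / (G : ℝ) ^ 2 + 16 * π / V := by positivity
    calc ((G : ℝ) ^ 2) ^ 2 / 2 * (8 / (G : ℝ) ^ 2 + 16 * π / V)
        ≤ W (G ^ 2) * (8 / (G : ℝ) ^ 2 + 16 * π / V) := mul_le_mul_of_nonneg_right h3 h8
      _ ≤ W (G ^ 2) * (1 / J) := by
          apply mul_le_mul_of_nonneg_left h7
          exact le_trans (by positivity) h3
  linarith

/-- the main inequality -/
theorem main_sum (I : ℕ) (x : ℝ) :
    -(114 * W ((200000 * (d I (2 ^ I)) ^ 2 * (2 ^ I) ^ 3) ^ 2)) ≤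
      ∑ j ∈ range (2 ^ I), F ((200000 * (d I (2 ^ I)) ^ 2 * (2 ^ I) ^ 3) ^ 2)
        ((d I j : ℝ) ^ 2 * x) := by
  set J : ℕ := 2 ^ I with hJdef
  set D : ℕ := d I J with hDdef
  set G : ℕ := 200000 * D ^ 2 * J ^ 3 with hGdef
  have hJ : 1 ≤ J := Nat.one_le_two_pow
  have hD : 1 ≤ D := d_pos I J
  set V : ℕ := 60 * J with hVdef
  have hV : 1 ≤ V := by omega
  have hD2 : 1 ≤ D ^ 2 := Nat.one_le_pow _ _ hD
  have hJ2 : 1 ≤ J ^ 3 := Nat.one_le_pow _ _ hJ
  have hG : 1 ≤ G := by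
    rw [hGdef]
    exact Nat.one_le_iff_ne_zero.mpr (by positivity)
  have hKV : 1 ≤ G ^ 2 * V := Nat.one_le_iff_ne_zero.mpr (by positivity)
  obtain ⟨q, hq, hap⟩ := approx x D (G ^ 2 * V) hD hKV
  have hdj : ∀ j ∈ range J, 1 ≤ d I j ∧ d I j ≤ D := by
    intro j hj
    rw [mem_range] at hj
    exact ⟨d_pos I j, Nat.le_of_dvd (d_pos I J) (d_dvd I hj.le)⟩
  have hGb : 3264 * D ^ 2 * V * J ^ 2 ≤ G := by
    rw [hVdef, hGdef]
    have : 3264 * D ^ 2 * (60 * J) * J ^ 2 = 195840 * (D ^ 2 * J ^ 3) := by ring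
    rw [this, mul_assoc]
    exact Nat.mul_le_mul_right _ (by norm_num)
  have hGb2 : 3264 * V * J ^ 2 ≤ G := by
    refine le_trans ?_ hGb
    have : 3264 * D ^ 2 * V * J ^ 2 = D ^ 2 * (3264 * V * J ^ 2) := by ring
    rw [this]
    exact Nat.le_mul_of_pos_left _ hD2
  have hW : 0 ≤ W (G ^ 2) := by
    have := W_ge (G ^ 2) (Nat.one_le_iff_ne_zero.mpr (by positivity))
    exact le_trans (by positivity) this
  -- termwise lower bound
  have hterm : ∀ j ∈ range J, -(W (G ^ 2) * ((if q / Nat.gcd q ((d I j) ^ 2) ≠ 1 then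
      28 * (1 / √((q / Nat.gcd q ((d I j) ^ 2) : ℕ) : ℝ)) else 0) + 1 / J)) ≤
      F (G ^ 2) ((d I j : ℝ) ^ 2 * x) := by
    intro j hj
    obtain ⟨h1, h2⟩ := hdj j hj
    obtain ⟨b, hb1, hb2, hb3, hb4⟩ := hap (d I j) h1 h2
    split_ifs with hc
    · apply F_ge_of_ne G V (D ^ 2) J hG hV hD2 hJ hGb _ b _ hb2 hb3 hb1
      exact_mod_cast hb4
    · have hc' : q / Nat.gcd q ((d I j) ^ 2) = 1 := by
        by_contra hne
        exact hc hne
      rw [hc'] at hb4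
      rw [zero_add]
      apply F_ge_of_eq G V J hG hV hJ le_rfl hGb2 _ b
      push_cast at hb4
      rw [one_mul, div_one] at hb4
      exact hb4
  have hsum := Finset.sum_le_sum hterm
  refine le_trans ?_ hsum
  have hch := chain I q hq
  have e1 : ∑ j ∈ range J, -(W (G ^ 2) * ((if q / Nat.gcd q ((d I j) ^ 2) ≠ 1 then
      28 * (1 / √((q / Nat.gcd q ((d I j) ^ 2) : ℕ) : ℝ)) else 0) + 1 / J)) =
      -(W (G ^ 2) * (28 * (∑ j ∈ (range J).filter (fun j => q / Nat.gcd q ((d I j) ^ 2) ≠ 1),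
      (1 : ℝ) / √((q / Nat.gcd q ((d I j) ^ 2) : ℕ) : ℝ)) + 1)) := by
    rw [Finset.sum_neg_distrib, ← Finset.mul_sum, Finset.sum_add_distrib, Finset.sum_filter,
      Finset.mul_sum]
    congr 3
    · apply Finset.sum_congr rfl
      intro j _
      split_ifs <;> simp
    · rw [Finset.sum_const, Finset.card_range, nsmul_eq_mul]
      have : (J : ℝ) ≠ 0 := by positivity
      field_simp
  rw [e1]
  have h5 : W (G ^ 2) * (28 * (∑ j ∈ (range J).filter (fun j => q / Nat.gcd q ((d I j) ^ 2) ≠ 1),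
      (1 : ℝ) / √((q / Nat.gcd q ((d I j) ^ 2) : ℕ) : ℝ)) + 1) ≤ W (G ^ 2) * 113 :=
    mul_le_mul_of_nonneg_left (by linarith) hW
  linarith

/-- the upper bound along `J = 2^I` -/
theorem δ_le (I H : ℕ) (hH : d I (2 ^ I) * (200000 * (d I (2 ^ I)) ^ 2 * (2 ^ I) ^ 3) ^ 2 ≤ H) :
    δ H ≤ 115 / 2 ^ I := by
  set J : ℕ := 2 ^ I with hJdef
  set D : ℕ := d I J with hDdef
  set K : ℕ := (200000 * D ^ 2 * J ^ 3) ^ 2 with hKdef
  have hJ : 1 ≤ J := Nat.one_le_two_pow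
  have hJr : (1 : ℝ) ≤ J := by exact_mod_cast hJ
  have hJe : (J : ℝ) = 2 ^ I := by rw [hJdef]; push_cast; ring
  have hD : 1 ≤ D := d_pos I J
  rw [← hJe]
  by_cases hsmall : (J : ℝ) < 115
  · refine (δ_le_one H).trans ?_
    rw [le_div_iff₀ (by positivity)]
    linarith
  rw [not_lt] at hsmall
  have hK : 1 ≤ K := by
    rw [hKdef]; exact Nat.one_le_iff_ne_zero.mpr (by positivity)
  have hW := W_ge K hK
  have hKJ : (2 : ℝ) * J ≤ (K : ℝ) ^ 2 := by
    have h1 : 2 * J ≤ K := by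
      rw [hKdef]
      have a1 : J ≤ J ^ 3 := Nat.le_self_pow (by norm_num) J
      have a2 : 2 * J ≤ 200000 * D ^ 2 * J ^ 3 := by
        have a3 : 1 ≤ D ^ 2 := Nat.one_le_pow _ _ hD
        calc 2 * J ≤ 200000 * 1 * J ^ 3 := by nlinarith
          _ ≤ 200000 * D ^ 2 * J ^ 3 := by gcongr
      exact a2.trans (Nat.le_self_pow (by norm_num) _)
    have h2 : (2 : ℝ) * J ≤ K := by exact_mod_cast h1
    have h3 : (1 : ℝ) ≤ K := by exact_mod_cast hK
    nlinarith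
  have hWpos : 0 < W K := by
    have : (0 : ℝ) < (K : ℝ) ^ 2 / 2 := by positivity
    linarith
  -- the polynomial
  set c' : ℝ := 114 / J with hc'
  have hc1 : c' ≤ 1 := by rw [hc', div_le_one (by positivity)]; linarith
  have hc0 : 0 ≤ c' := by positivity
  have hsq : IsSq H (c' + (1 - c') / (J * W K) * ∑ j ∈ range J, (1 : ℝ))
      (fun x => c' + (1 - c') / (J * W K) * ∑ j ∈ range J, F K ((d I j : ℝ) ^ 2 * x)) := by
    apply IsSq.add (IsSq.const H c')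
    apply IsSq.smul
    apply IsSq.sum
    intro j hj
    rw [mem_range] at hj
    apply IsSq.F hK (d_pos I j)
    refine le_trans ?_ hH
    exact Nat.mul_le_mul_right _ (Nat.le_of_dvd (d_pos I J) (d_dvd I hj.le))
  obtain ⟨c, hc⟩ := hsq
  have hadm : Admissible H (c' + (1 - c') / (J * W K) * ∑ j ∈ range J, (1 : ℝ)) c := by
    constructor
    · intro x
      rw [← hc x]
      have h1 := main_sum I x
      have h2 : (1 - c') / (J * W K) * (-(114 * W K)) ≤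
          (1 - c') / (J * W K) * ∑ j ∈ range J, F K ((d I j : ℝ) ^ 2 * x) := by
        apply mul_le_mul_of_nonneg_left h1
        apply div_nonneg (by linarith) (by positivity)
      have h3 : (1 - c') / (J * W K) * (-(114 * W K)) = -((1 - c') * c') := by
        rw [hc']
        field_simp
      rw [h3] at h2
      nlinarith
    · rw [← hc 0]
      have : ∀ j ∈ range J, F K ((d I j : ℝ) ^ 2 * 0) = W K := by
        intro j _; rw [mul_zero, F_zero]
      show c' + (1 - c') / (J * W K) * ∑ j ∈ range J, F K ((d I j : ℝ) ^ 2 * 0) = 1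
      rw [Finset.sum_congr rfl this, Finset.sum_const, Finset.card_range, nsmul_eq_mul]
      field_simp
      ring
  refine (δ_le_of H _ c hadm).trans ?_
  rw [Finset.sum_const, Finset.card_range, nsmul_eq_mul, mul_one]
  have h4 : (1 - c') / (J * W K) * J ≤ 1 / J := by
    have e1 : (1 - c') / (J * W K) * J = (1 - c') / W K := by field_simp
    rw [e1, div_le_div_iff₀ hWpos (by positivity)]
    nlinarith
  have h5 : (115 : ℝ) / J = 114 / J + 1 / J := by rw [← add_div]; norm_num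
  rw [h5]
  linarith


/-- size of the parameters -/
theorem size_bound (I : ℕ) :
    d I (2 ^ I) * (200000 * (d I (2 ^ I)) ^ 2 * (2 ^ I) ^ 3) ^ 2 ≤ 2 ^ (62 * 4 ^ I) := by
  have hD := d_size I
  set D := d I (2 ^ I) with hDdef
  have e1 : D * (200000 * D ^ 2 * (2 ^ I) ^ 3) ^ 2 = 40000000000 * D ^ 5 * (2 ^ I) ^ 6 := by ring
  rw [e1]
  have h1 : (40000000000 : ℕ) ≤ 2 ^ 36 := by norm_num
  have h2 : D ^ 5 ≤ 2 ^ (20 * 4 ^ I) := by
    calc D ^ 5 ≤ (4 ^ (2 * 4 ^ I)) ^ 5 := Nat.pow_le_pow_left hD 5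
      _ = 2 ^ (20 * 4 ^ I) := by
        rw [← pow_mul, show (4 : ℕ) = 2 ^ 2 by norm_num, ← pow_mul, ← pow_mul]
        congr 1; ring
  have h3 : ((2 : ℕ) ^ I) ^ 6 ≤ 2 ^ (6 * 4 ^ I) := by
    rw [← pow_mul]
    apply Nat.pow_le_pow_right (by norm_num)
    have : I ≤ 4 ^ I := (Nat.lt_pow_self (by norm_num)).le
    omega
  have h4 : 1 ≤ 4 ^ I := Nat.one_le_pow _ _ (by norm_num)
  calc 40000000000 * D ^ 5 * (2 ^ I) ^ 6 ≤ 2 ^ 36 * 2 ^ (20 * 4 ^ I) * 2 ^ (6 * 4 ^ I) := by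
        gcongr
    _ = 2 ^ (36 + 20 * 4 ^ I + 6 * 4 ^ I) := by rw [← pow_add, ← pow_add]
    _ ≤ 2 ^ (62 * 4 ^ I) := by
        apply Nat.pow_le_pow_right (by norm_num)
        omega

theorem δ_upper (H : ℕ) (hH : 2 ≤ H) : δ H ≤ 1600 / √(Real.log H) := by
  have hHr : (2 : ℝ) ≤ H := by exact_mod_cast hH
  have hlog : 0 < Real.log H := Real.log_pos (by linarith)
  have hs : 0 < √(Real.log H) := Real.sqrt_pos.mpr hlog
  have hlog2 : Real.log 2 < 0.6931471808 := Real.log_two_lt_d9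
  have hlog2p : 0 < Real.log 2 := Real.log_pos (by norm_num)
  by_cases hsm : Nat.log 2 H < 62
  · refine (δ_le_one H).trans ?_
    have h1 : H < 2 ^ 62 := by
      calc H < 2 ^ (Nat.log 2 H + 1) := Nat.lt_pow_succ_log_self (by norm_num) H
        _ ≤ 2 ^ 62 := Nat.pow_le_pow_right (by norm_num) (by omega)
    have h2 : Real.log H ≤ 62 * Real.log 2 := by
      have h3 : (H : ℝ) ≤ 2 ^ 62 := by exact_mod_cast h1.le
      calc Real.log H ≤ Real.log ((2 : ℝ) ^ 62) := Real.log_le_log (by linarith) h3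
        _ = 62 * Real.log 2 := by rw [Real.log_pow]; push_cast; ring
    rw [le_div_iff₀ hs, one_mul, Real.sqrt_le_left (by norm_num)]
    linarith
  · rw [not_lt] at hsm
    set m := Nat.log 2 H / 62 with hm
    have hm1 : m ≠ 0 := by
      have : 1 ≤ m := by rw [hm]; omega
      omega
    set I := Nat.log 4 m with hI
    have h1 : 4 ^ I ≤ m := Nat.pow_log_le_self 4 hm1
    have h2 : m < 4 ^ (I + 1) := Nat.lt_pow_succ_log_self (by norm_num) m
    have h3 : 62 * 4 ^ I ≤ Nat.log 2 H := by omega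
    have h4 : Nat.log 2 H + 1 ≤ 62 * 4 ^ (I + 1) := by omega
    have h5 : 2 ^ (62 * 4 ^ I) ≤ H := by
      calc 2 ^ (62 * 4 ^ I) ≤ 2 ^ (Nat.log 2 H) := Nat.pow_le_pow_right (by norm_num) h3
        _ ≤ H := Nat.pow_log_le_self 2 (by omega)
    refine (δ_le I H ((size_bound I).trans h5)).trans ?_
    have h6 : Real.log H ≤ (13 * 2 ^ I) ^ 2 * 1.02 := by
      have h7 : H ≤ 2 ^ (62 * 4 ^ (I + 1)) := by
        calc H ≤ 2 ^ (Nat.log 2 H + 1) := (Nat.lt_pow_succ_log_self (by norm_num) H).le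
          _ ≤ 2 ^ (62 * 4 ^ (I + 1)) := Nat.pow_le_pow_right (by norm_num) h4
      have h8 : (H : ℝ) ≤ 2 ^ (62 * 4 ^ (I + 1)) := by exact_mod_cast h7
      have h9 : Real.log H ≤ ((62 * 4 ^ (I + 1) : ℕ) : ℝ) * Real.log 2 := by
        rw [← Real.log_pow]
        exact Real.log_le_log (by linarith) h8
      have h10 : ((62 * 4 ^ (I + 1) : ℕ) : ℝ) = 248 * (2 ^ I) ^ 2 := by
        push_cast
        rw [pow_succ, ← pow_mul, mul_comm I 2, pow_mul]
        norm_num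
        ring
      rw [h10] at h9
      have h11 : (0 : ℝ) < (2 ^ I) ^ 2 := by positivity
      nlinarith
    rw [div_le_div_iff₀ (by positivity) hs]
    have h12 : √(Real.log H) ≤ 13.2 * 2 ^ I := by
      rw [Real.sqrt_le_left (by positivity)]
      have h11 : (0 : ℝ) < (2 ^ I) ^ 2 := by positivity
      nlinarith
    have h13 : (0 : ℝ) < 2 ^ I := by positivity
    nlinarith


end Pool.Agent.VdCSquares
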