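import Pool.Agent.VdCSquares.Core

/-!
# A quasi-polynomial upper bound for `δ(H)` (MP_b3c6db_nt)

`δ(H) ≤ 128 exp(-(log H)^(1/3) / 25000)` for every `H ≥ 2`.

* `SS X d x`: the weighted sum over multiples of `d` of `e(k² x)`, `k < X`;
* `major`: near `a/r` it equals `Gauss sum of d² a/r` times an archimedean factor `IX` that does not
  depend on `d`;  `minorA`, `minorB`: it is small when `r` is large;
* `sector`: a dyadic mixture of the archimedean factors lies in a sector around `(0,∞)`;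
* `Om`, `Omega`: a signed combination of dilations: the product over primes `4000² n² < p < 2·4^n` of
  `∑_j π_p^j (U_p^j - U_p^(j-1))`, `π_p = 1000 n/√p`, truncated at total degree `n`, times a geometric
  average over the powers of the primorial `M`;
* `big`, `local_lemma`: the resulting combination of Gauss sums is, at every rational, within
  `ρ/100 + 2·2^(-n)` of a real number `ρ ∈ [0,1]`;
* `ZZ_ge`, `ZZ_zero`, `level`, `δ_quasi`: assembly.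
-/

set_option linter.unusedVariables false

namespace Pool.Agent.VdCSquares.Q

open Real Finset

/-- the weight `2k(1-k²/X²)` for `k < X` -/
noncomputable def wt (X k : ℕ) : ℝ :=
  if k < X then 2 * (k : ℝ) * (1 - (k : ℝ) ^ 2 / (X : ℝ) ^ 2) else 0

/-- dilated weighted sum -/
noncomputable def SS (X d : ℕ) (x : ℝ) : ℂ :=
  d * ∑ m ∈ range X, (wt X (d * m) : ℂ) * e (((d * m : ℕ) : ℝ) ^ 2 * x)

/-- the archimedean factor -/
noncomputable def IX (X : ℕ) (γ : ℝ) : ℂ := ∑ k ∈ range X, (wt X k : ℂ) * e ((k : ℝ) ^ 2 * γ)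

/-- normalised Gauss sum -/
noncomputable def Gr (r : ℕ) (x : ℝ) : ℂ := (1 / (r : ℂ)) * ∑ s ∈ range r, e ((s : ℝ) ^ 2 * x)

/-- normalised Gauss sum at a rational -/
noncomputable def Gq (x : ℚ) : ℂ := Gr x.den (x : ℝ)

/-- `2 ∫_0^1 (1-v) exp(iθv) dv` in closed form -/
noncomputable def Ph (θ : ℝ) : ℂ :=
  if θ = 0 then 1 else
    2 * (1 + (θ : ℂ) * Complex.I - Complex.exp ((θ : ℂ) * Complex.I)) / (θ : ℂ) ^ 2

/-- truncated signed product functional -/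
noncomputable def Om (w : ℕ → ℝ) : List ℕ → ℕ → (ℕ → ℂ) → ℂ
  | [], _, ψ => ψ 1
  | (p :: ps), k, ψ => ∑ j ∈ range (k + 1), ((w p ^ j : ℝ) : ℂ) *
      (Om w ps (k - j) (fun d => ψ (p ^ j * d)) -
        if j = 0 then 0 else Om w ps (k - j) (fun d => ψ (p ^ (j - 1) * d)))

theorem ap_tel (φ : ℕ → ℂ) (Λ : ℝ) (hΛ : ∀ k, ‖φ (k + 1) - φ k‖ ≤ Λ) (m i : ℕ) :
    ‖φ (m + i) - φ m‖ ≤ (i : ℝ) * Λ := by
  induction i with
  | zero => simp
  | succ i ih =>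
    have h := hΛ (m + i)
    have e1 : φ (m + (i + 1)) - φ m = (φ (m + i + 1) - φ (m + i)) + (φ (m + i) - φ m) := by
      rw [← add_assoc]; ring
    rw [e1]
    refine (norm_add_le _ _).trans ?_
    push_cast
    linarith

theorem ap_tel2 (φ : ℕ → ℂ) (Λ : ℝ) (hΛ : ∀ k, ‖φ (k + 1) - φ k‖ ≤ Λ) (q m s t : ℕ)
    (hs : s < q) (ht : t < q) : ‖φ (m + s) - φ (m + t)‖ ≤ (q : ℝ) * Λ := by
  have h0 : 0 ≤ Λ := (norm_nonneg _).trans (hΛ 0)
  have key : ∀ a b : ℕ, a ≤ b → b < q → ‖φ (m + b) - φ (m + a)‖ ≤ (q : ℝ) * Λ := by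
    intro a b hab hb
    have h := ap_tel φ Λ hΛ (m + a) (b - a)
    rw [show m + a + (b - a) = m + b by omega] at h
    refine h.trans ?_
    apply mul_le_mul_of_nonneg_right _ h0
    exact_mod_cast (by omega : b - a ≤ q)
  rcases le_total s t with h | h
  · rw [norm_sub_rev]; exact key s t h ht
  · exact key t s h hs

theorem ap_block (φ : ℕ → ℂ) (q n : ℕ) :
    ∑ l ∈ range n, ∑ t ∈ range q, φ (q * l + t) = ∑ k ∈ range (q * n), φ k := by
  induction n with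
  | zero => simp
  | succ n ih => rw [sum_range_succ, ih, Nat.mul_succ, sum_range_add]

/-- sums over arithmetic progressions of a slowly varying finitely supported sequence -/
theorem ap_sum (φ : ℕ → ℂ) (Λ : ℝ) (hΛ : ∀ k, ‖φ (k + 1) - φ k‖ ≤ Λ) (X q s : ℕ)
    (hq : 1 ≤ q) (hs : s < q) (hφ : ∀ k, X ≤ k → φ k = 0) :
    ‖(q : ℂ) * ∑ l ∈ range X, φ (q * l + s) - ∑ k ∈ range X, φ k‖ ≤ ((X : ℝ) + q) * q * Λ := by
  have h0 : 0 ≤ Λ := (norm_nonneg _).trans (hΛ 0)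
  have e1 : ∑ k ∈ range X, φ k = ∑ l ∈ range X, ∑ t ∈ range q, φ (q * l + t) := by
    rw [ap_block]
    apply sum_subset
    · intro k hk
      rw [mem_range] at hk ⊢
      exact lt_of_lt_of_le hk (Nat.le_mul_of_pos_left X hq)
    · intro k _ hk
      apply hφ
      simpa using hk
  have e2 : (q : ℂ) * ∑ l ∈ range X, φ (q * l + s) =
      ∑ l ∈ range X, ∑ t ∈ range q, φ (q * l + s) := by
    rw [mul_sum]
    apply sum_congr rfl
    intro l _
    rw [sum_const, card_range, nsmul_eq_mul]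
  rw [e1, e2, ← sum_sub_distrib]
  have hb : ∀ l ∈ range X, ‖∑ t ∈ range q, φ (q * l + s) - ∑ t ∈ range q, φ (q * l + t)‖ ≤
      if q * l < X then (q : ℝ) * (q * Λ) else 0 := by
    intro l _
    rw [← sum_sub_distrib]
    split_ifs with hl
    · refine (norm_sum_le _ _).trans ?_
      refine (sum_le_sum (fun t ht => ap_tel2 φ Λ hΛ q (q * l) s t hs (mem_range.1 ht))).trans ?_
      rw [sum_const, card_range, nsmul_eq_mul]
    · push Not at hl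
      rw [sum_eq_zero, norm_zero]
      intro t _
      rw [hφ _ (by omega), hφ _ (by omega), sub_zero]
  refine (norm_sum_le _ _).trans ?_
  refine (sum_le_sum hb).trans ?_
  rw [← sum_filter, sum_const, nsmul_eq_mul]
  have hc : ((range X).filter fun l => q * l < X).card ≤ X / q + 1 := by
    have : ((range X).filter fun l => q * l < X) ⊆ range (X / q + 1) := by
      intro l hl
      rw [mem_filter] at hl
      rw [mem_range, Nat.lt_succ_iff, Nat.le_div_iff_mul_le (by omega), mul_comm]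
      exact hl.2.le
    simpa using card_le_card this
  have hc2 : ((((range X).filter fun l => q * l < X).card : ℕ) : ℝ) * q ≤ (X : ℝ) + q := by
    have h3 : ((range X).filter fun l => q * l < X).card * q ≤ X + q := by
      calc ((range X).filter fun l => q * l < X).card * q ≤ (X / q + 1) * q :=
            Nat.mul_le_mul_right q hc
        _ = X / q * q + q := by ring
        _ ≤ X + q := by
            have := Nat.div_mul_le_self X q
            omega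
    exact_mod_cast h3
  calc ((((range X).filter fun l => q * l < X).card : ℕ) : ℝ) * ((q : ℝ) * (q * Λ))
      = (((((range X).filter fun l => q * l < X).card : ℕ) : ℝ) * q) * (q * Λ) := by ring
    _ ≤ ((X : ℝ) + q) * (q * Λ) := mul_le_mul_of_nonneg_right hc2 (by positivity)
    _ = ((X : ℝ) + q) * q * Λ := by ring

theorem wt_nonneg (X k : ℕ) : 0 ≤ wt X k := by
  unfold wt
  split_ifs with h
  · have hX : (0 : ℝ) < X := by exact_mod_cast (by omega : 0 < X)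
    have hk : (k : ℝ) ≤ X := by exact_mod_cast h.le
    have hk0 : (0 : ℝ) ≤ k := Nat.cast_nonneg _
    have h1 : (k : ℝ) ^ 2 / (X : ℝ) ^ 2 ≤ 1 := by
      rw [div_le_one (by positivity)]
      nlinarith
    have : 0 ≤ 1 - (k : ℝ) ^ 2 / (X : ℝ) ^ 2 := by linarith
    positivity
  · exact le_rfl

theorem wt_le (X k : ℕ) : wt X k ≤ 2 * X := by
  unfold wt
  split_ifs with h
  · have hX : (0 : ℝ) < X := by exact_mod_cast (by omega : 0 < X)
    have hk : (k : ℝ) ≤ X := by exact_mod_cast h.le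
    have hk0 : (0 : ℝ) ≤ k := Nat.cast_nonneg _
    have h1 : 0 ≤ (k : ℝ) ^ 2 / (X : ℝ) ^ 2 := by positivity
    nlinarith
  · positivity

theorem wt_lip (X k : ℕ) : |wt X (k + 1) - wt X k| ≤ 4 := by
  unfold wt
  have hk0 : (0 : ℝ) ≤ k := Nat.cast_nonneg _
  by_cases h1 : k + 1 < X
  · have h2 : k < X := by omega
    rw [if_pos h1, if_pos h2]
    have hX : (0 : ℝ) < X := by exact_mod_cast (by omega : 0 < X)
    have hk : (k : ℝ) + 1 ≤ X := by exact_mod_cast h1.le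
    have e1 : 2 * ((k + 1 : ℕ) : ℝ) * (1 - ((k + 1 : ℕ) : ℝ) ^ 2 / (X : ℝ) ^ 2) -
        2 * (k : ℝ) * (1 - (k : ℝ) ^ 2 / (X : ℝ) ^ 2) =
        2 - (6 * (k : ℝ) ^ 2 + 6 * k + 2) / (X : ℝ) ^ 2 := by
      push_cast
      field_simp
      ring
    rw [e1, abs_le]
    have h3 : 0 ≤ (6 * (k : ℝ) ^ 2 + 6 * k + 2) / (X : ℝ) ^ 2 := by positivity
    have h4 : (6 * (k : ℝ) ^ 2 + 6 * k + 2) / (X : ℝ) ^ 2 ≤ 6 := by
      rw [div_le_iff₀ (by positivity)]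
      nlinarith
    constructor <;> linarith
  · rw [if_neg h1]
    by_cases h2 : k < X
    · rw [if_pos h2]
      have h3 : X = k + 1 := by omega
      subst h3
      have hk1 : (0 : ℝ) < k + 1 := by positivity
      have e1 : 2 * (k : ℝ) * (1 - (k : ℝ) ^ 2 / ((k + 1 : ℕ) : ℝ) ^ 2) =
          2 * k * (2 * k + 1) / (k + 1) ^ 2 := by
        push_cast
        field_simp
        ring
      rw [e1, zero_sub, abs_neg, abs_of_nonneg (by positivity), div_le_iff₀ (by positivity)]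
      nlinarith
    · rw [if_neg h2]
      norm_num

theorem e_diff (a b : ℝ) : ‖e a - e b‖ ≤ 2 * π * |a - b| := by
  unfold e
  have h1 : Complex.exp ((2 * π * a : ℝ) * Complex.I) - Complex.exp ((2 * π * b : ℝ) * Complex.I) =
      Complex.exp ((2 * π * b : ℝ) * Complex.I) *
        (Complex.exp (Complex.I * ((2 * π * (a - b) : ℝ) : ℂ)) - 1) := by
    rw [mul_sub, ← Complex.exp_add, mul_one]
    congr 2
    push_cast
    ring
  rw [h1, norm_mul, Complex.norm_exp_ofReal_mul_I, one_mul]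
  refine (Real.norm_exp_I_mul_ofReal_sub_one_le).trans ?_
  rw [Real.norm_eq_abs, abs_mul, abs_of_pos (by positivity : (0 : ℝ) < 2 * π)]

theorem phi_lip (X k : ℕ) (γ : ℝ) :
    ‖(wt X (k + 1) : ℂ) * e (((k + 1 : ℕ) : ℝ) ^ 2 * γ) - (wt X k : ℂ) * e ((k : ℝ) ^ 2 * γ)‖ ≤
      4 + 26 * |γ| * (X : ℝ) ^ 2 := by
  have hk0 : (0 : ℝ) ≤ k := Nat.cast_nonneg _
  have h0 : (wt X (k + 1) : ℂ) * e (((k + 1 : ℕ) : ℝ) ^ 2 * γ) - (wt X k : ℂ) * e ((k : ℝ) ^ 2 * γ) =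
      (wt X (k + 1) : ℂ) * (e (((k + 1 : ℕ) : ℝ) ^ 2 * γ) - e ((k : ℝ) ^ 2 * γ)) +
      ((wt X (k + 1) - wt X k : ℝ) : ℂ) * e ((k : ℝ) ^ 2 * γ) := by
    push_cast; ring
  rw [h0]
  refine (norm_add_le _ _).trans ?_
  have hne : ‖e ((k : ℝ) ^ 2 * γ)‖ = 1 := by
    unfold e; exact Complex.norm_exp_ofReal_mul_I _
  have h1 : ‖((wt X (k + 1) - wt X k : ℝ) : ℂ) * e ((k : ℝ) ^ 2 * γ)‖ ≤ 4 := by
    rw [norm_mul, hne, mul_one, Complex.norm_real, Real.norm_eq_abs]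
    exact wt_lip X k
  have h2 : ‖(wt X (k + 1) : ℂ) * (e (((k + 1 : ℕ) : ℝ) ^ 2 * γ) - e ((k : ℝ) ^ 2 * γ))‖ ≤
      26 * |γ| * (X : ℝ) ^ 2 := by
    rw [norm_mul, Complex.norm_real, Real.norm_eq_abs, abs_of_nonneg (wt_nonneg _ _)]
    by_cases hX : k + 1 < X
    · have hXr : (k : ℝ) + 1 ≤ X := by exact_mod_cast hX.le
      have h3 := e_diff (((k + 1 : ℕ) : ℝ) ^ 2 * γ) ((k : ℝ) ^ 2 * γ)
      have h4 : |((k + 1 : ℕ) : ℝ) ^ 2 * γ - (k : ℝ) ^ 2 * γ| = (2 * k + 1) * |γ| := by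
        have : ((k + 1 : ℕ) : ℝ) ^ 2 * γ - (k : ℝ) ^ 2 * γ = (2 * k + 1) * γ := by
          push_cast; ring
        rw [this, abs_mul, abs_of_nonneg (by positivity)]
      rw [h4] at h3
      have h5 : 2 * π * ((2 * k + 1) * |γ|) ≤ 13 * (X : ℝ) * |γ| := by
        have hπ : π < 3.15 := Real.pi_lt_d2
        have hπ0 := Real.pi_pos
        have h6 : (2 * (k : ℝ) + 1) ≤ 2 * X := by linarith
        have h7 : 2 * π * (2 * (k : ℝ) + 1) ≤ 13 * X := by nlinarith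
        calc 2 * π * ((2 * k + 1) * |γ|) = (2 * π * (2 * (k : ℝ) + 1)) * |γ| := by ring
          _ ≤ (13 * X) * |γ| := mul_le_mul_of_nonneg_right h7 (abs_nonneg _)
      calc wt X (k + 1) * ‖e (((k + 1 : ℕ) : ℝ) ^ 2 * γ) - e ((k : ℝ) ^ 2 * γ)‖
          ≤ (2 * X) * (13 * (X : ℝ) * |γ|) :=
            mul_le_mul (wt_le X (k + 1)) (h3.trans h5) (norm_nonneg _) (by positivity)
        _ = 26 * |γ| * (X : ℝ) ^ 2 := by ring
    · have : wt X (k + 1) = 0 := by unfold wt; rw [if_neg hX]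
      rw [this, zero_mul]
      positivity
  linarith

/-- major arc formula -/
theorem major (X d r : ℕ) (hX : 1 ≤ X) (hd : 1 ≤ d) (hr : 1 ≤ r) (x0 γ Λ : ℝ) (a : ℤ)
    (hx0 : (r : ℝ) * x0 = a)
    (hΛ : ∀ k : ℕ, ‖(wt X (k + 1) : ℂ) * e (((k + 1 : ℕ) : ℝ) ^ 2 * γ) -
      (wt X k : ℂ) * e ((k : ℝ) ^ 2 * γ)‖ ≤ Λ)
    (ap : ∀ (φ : ℕ → ℂ), (∀ k, ‖φ (k + 1) - φ k‖ ≤ Λ) → ∀ (X q s : ℕ),
      1 ≤ q → s < q → (∀ k, X ≤ k → φ k = 0) →
      ‖(q : ℂ) * ∑ l ∈ range X, φ (q * l + s) - ∑ k ∈ range X, φ k‖ ≤ ((X : ℝ) + q) * q * Λ) :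
    ‖SS X d (x0 + γ) - Gr r ((d : ℝ) ^ 2 * x0) * IX X γ‖ ≤
      ((X : ℝ) + d * r) * (d * r) * Λ := by
  set φ : ℕ → ℂ := fun k => (wt X k : ℂ) * e ((k : ℝ) ^ 2 * γ) with hφ
  have hφ0 : ∀ k, X ≤ k → φ k = 0 := by
    intro k hk
    simp [hφ, wt, not_lt.mpr hk]
  have hIX : IX X γ = ∑ k ∈ range X, φ k := rfl
  have he_add : ∀ x y : ℝ, e (x + y) = e x * e y := by
    intro x y
    unfold e
    rw [← Complex.exp_add]
    congr 1
    push_cast
    ring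
  have he_int : ∀ n : ℤ, e (n : ℝ) = 1 := by
    intro n
    unfold e
    rw [Complex.exp_eq_one_iff]
    exact ⟨n, by push_cast; ring⟩
  have he_norm : ∀ x : ℝ, ‖e x‖ = 1 := by
    intro x
    unfold e
    exact Complex.norm_exp_ofReal_mul_I _
  set F : ℕ → ℂ := fun m => φ (d * m) * e (((d * m : ℕ) : ℝ) ^ 2 * x0) with hF
  have hSS : SS X d (x0 + γ) = d * ∑ m ∈ range X, F m := by
    unfold SS
    congr 1
    apply Finset.sum_congr rfl
    intro m _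
    simp only [hF, hφ]
    rw [mul_add, he_add]
    ring
  have hF0 : ∀ m, X ≤ m → F m = 0 := by
    intro m hm
    simp only [hF]
    rw [hφ0 (d * m) (le_trans hm (Nat.le_mul_of_pos_left m hd)), zero_mul]
  have hext : ∑ m ∈ range X, F m = ∑ m ∈ range (r * X), F m := by
    apply Finset.sum_subset
    · intro x hx
      rw [Finset.mem_range] at hx ⊢
      exact lt_of_lt_of_le hx (Nat.le_mul_of_pos_left X hr)
    · intro x _ hx
      rw [Finset.mem_range, not_lt] at hx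
      exact hF0 x hx
  have hsplit : ∀ Y : ℕ, ∑ m ∈ range (r * Y), F m =
      ∑ s ∈ range r, ∑ l ∈ range Y, F (r * l + s) := by
    intro Y
    induction Y with
    | zero => simp
    | succ Y ih =>
      rw [Nat.mul_succ, Finset.sum_range_add, ih, ← Finset.sum_add_distrib]
      apply Finset.sum_congr rfl
      intro s _
      rw [Finset.sum_range_succ]
  have hFe : ∀ l s : ℕ, F (r * l + s) =
      e ((s : ℝ) ^ 2 * ((d : ℝ) ^ 2 * x0)) * φ (d * r * l + d * s) := by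
    intro l s
    simp only [hF]
    have h1 : (((d * (r * l + s) : ℕ) : ℝ) ^ 2 * x0) =
        (s : ℝ) ^ 2 * ((d : ℝ) ^ 2 * x0) +
          (((((r : ℤ) * l ^ 2 + 2 * l * s) * d ^ 2 * a : ℤ)) : ℝ) := by
      push_cast
      rw [← hx0]
      ring
    rw [h1, he_add, he_int, mul_one, mul_comm, Nat.mul_add, Nat.mul_assoc]
  have hr0 : (r : ℂ) ≠ 0 := by
    exact_mod_cast (Nat.pos_iff_ne_zero.mp hr)
  have hkey : SS X d (x0 + γ) - Gr r ((d : ℝ) ^ 2 * x0) * IX X γ =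
      (1 / (r : ℂ)) * ∑ s ∈ range r, e ((s : ℝ) ^ 2 * ((d : ℝ) ^ 2 * x0)) *
        (((d * r : ℕ) : ℂ) * ∑ l ∈ range X, φ (d * r * l + d * s) - ∑ k ∈ range X, φ k) := by
    rw [hSS, hext, hsplit X, hIX]
    unfold Gr
    have h2 : ∑ s ∈ range r, ∑ l ∈ range X, F (r * l + s) =
        ∑ s ∈ range r, e ((s : ℝ) ^ 2 * ((d : ℝ) ^ 2 * x0)) *
          ∑ l ∈ range X, φ (d * r * l + d * s) := by
      apply Finset.sum_congr rfl
      intro s _
      rw [Finset.mul_sum]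
      apply Finset.sum_congr rfl
      intro l _
      exact hFe l s
    rw [h2]
    have h3 : ∑ s ∈ range r, e ((s : ℝ) ^ 2 * ((d : ℝ) ^ 2 * x0)) *
        (((d * r : ℕ) : ℂ) * ∑ l ∈ range X, φ (d * r * l + d * s) - ∑ k ∈ range X, φ k) =
        ((d * r : ℕ) : ℂ) * (∑ s ∈ range r, e ((s : ℝ) ^ 2 * ((d : ℝ) ^ 2 * x0)) *
          ∑ l ∈ range X, φ (d * r * l + d * s)) -
        (∑ s ∈ range r, e ((s : ℝ) ^ 2 * ((d : ℝ) ^ 2 * x0))) * ∑ k ∈ range X, φ k := by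
      rw [Finset.mul_sum, Finset.sum_mul, ← Finset.sum_sub_distrib]
      apply Finset.sum_congr rfl
      intro s _
      ring
    rw [h3]
    generalize (∑ s ∈ range r, e ((s : ℝ) ^ 2 * ((d : ℝ) ^ 2 * x0)) *
          ∑ l ∈ range X, φ (d * r * l + d * s)) = A
    generalize (∑ s ∈ range r, e ((s : ℝ) ^ 2 * ((d : ℝ) ^ 2 * x0))) = B
    generalize (∑ k ∈ range X, φ k) = C
    push_cast
    field_simp
  rw [hkey, norm_mul]
  have hn : ‖(1 / (r : ℂ))‖ = 1 / (r : ℝ) := by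
    simp
  rw [hn]
  have hrpos : (0 : ℝ) < r := by exact_mod_cast hr
  have hsum : ‖∑ s ∈ range r, e ((s : ℝ) ^ 2 * ((d : ℝ) ^ 2 * x0)) *
        (((d * r : ℕ) : ℂ) * ∑ l ∈ range X, φ (d * r * l + d * s) - ∑ k ∈ range X, φ k)‖ ≤
      ∑ s ∈ range r, (((X : ℝ) + d * r) * (d * r) * Λ) := by
    apply norm_sum_le_of_le
    intro s hs
    rw [norm_mul, he_norm, one_mul]
    have h4 := ap φ hΛ X (d * r) (d * s) (Nat.one_le_iff_ne_zero.mpr
      (Nat.mul_ne_zero (by omega) (by omega)))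
      (Nat.mul_lt_mul_of_pos_left (Finset.mem_range.mp hs) (by omega)) hφ0
    push_cast at h4 ⊢
    exact h4
  rw [Finset.sum_const, Finset.card_range, nsmul_eq_mul] at hsum
  calc 1 / (r : ℝ) * _ ≤ 1 / (r : ℝ) * ((r : ℝ) * (((X : ℝ) + d * r) * (d * r) * Λ)) := by
        exact mul_le_mul_of_nonneg_left hsum (by positivity)
    _ = ((X : ℝ) + d * r) * (d * r) * Λ := by
        field_simp

/-- the smooth profile -/
noncomputable def gg (U c v : ℝ) : ℂ :=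
  ((1 - v / U : ℝ) : ℂ) * Complex.exp (Complex.I * ((c * v : ℝ) : ℂ))

/-- the antiderivative -/
noncomputable def GG (U c v : ℝ) : ℂ :=
  if c = 0 then ((v - v ^ 2 / (2 * U) : ℝ) : ℂ) else
    ((1 - v / U : ℝ) : ℂ) * Complex.exp (Complex.I * ((c * v : ℝ) : ℂ)) / (Complex.I * (c : ℂ)) +
      ((1 / U : ℝ) : ℂ) * Complex.exp (Complex.I * ((c * v : ℝ) : ℂ)) / (Complex.I * (c : ℂ)) ^ 2

theorem IX_norm_exp (x : ℝ) : ‖Complex.exp (Complex.I * (x : ℂ))‖ = 1 := by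
  rw [mul_comm]
  exact Complex.norm_exp_ofReal_mul_I x

theorem IX_lip {U c : ℝ} (hU : 0 < U) {v w : ℝ} (hw : 0 ≤ w) (hw' : w ≤ U) :
    ‖gg U c v - gg U c w‖ ≤ (1 / U + |c|) * |v - w| := by
  have e1 : gg U c v - gg U c w =
      (((w - v) / U : ℝ) : ℂ) * Complex.exp (Complex.I * ((c * v : ℝ) : ℂ)) +
        ((1 - w / U : ℝ) : ℂ) * (Complex.exp (Complex.I * ((c * w : ℝ) : ℂ)) *
          (Complex.exp (Complex.I * ((c * v - c * w : ℝ) : ℂ)) - 1)) := by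
    unfold gg
    have e2 : Complex.exp (Complex.I * ((c * w : ℝ) : ℂ)) *
        Complex.exp (Complex.I * ((c * v - c * w : ℝ) : ℂ)) =
        Complex.exp (Complex.I * ((c * v : ℝ) : ℂ)) := by
      rw [← Complex.exp_add]
      congr 1
      push_cast
      ring
    rw [mul_sub, mul_one, e2]
    push_cast
    ring
  rw [e1]
  refine (norm_add_le _ _).trans ?_
  rw [norm_mul, norm_mul, norm_mul, IX_norm_exp, IX_norm_exp, mul_one, one_mul]
  have h1 : ‖(((w - v) / U : ℝ) : ℂ)‖ = 1 / U * |v - w| := by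
    rw [Complex.norm_real, Real.norm_eq_abs, abs_div, abs_of_pos hU, abs_sub_comm]
    ring
  have h2 : ‖((1 - w / U : ℝ) : ℂ)‖ ≤ 1 := by
    rw [Complex.norm_real, Real.norm_eq_abs, abs_le]
    have : 0 ≤ w / U := by positivity
    have h3 : w / U ≤ 1 := by rw [div_le_one hU]; exact hw'
    constructor <;> linarith
  have h4 : ‖Complex.exp (Complex.I * ((c * v - c * w : ℝ) : ℂ)) - 1‖ ≤ |c| * |v - w| := by
    refine (Real.norm_exp_I_mul_ofReal_sub_one_le).trans ?_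
    rw [Real.norm_eq_abs, ← abs_mul, mul_sub]
  have h5 : ‖((1 - w / U : ℝ) : ℂ)‖ * ‖Complex.exp (Complex.I * ((c * v - c * w : ℝ) : ℂ)) - 1‖ ≤
      1 * (|c| * |v - w|) := mul_le_mul h2 h4 (norm_nonneg _) zero_le_one
  rw [h1]
  linarith

theorem IX_deriv {U c : ℝ} (hU : 0 < U) (v : ℝ) : HasDerivAt (GG U c) (gg U c v) v := by
  unfold GG
  by_cases hc : c = 0
  · simp only [hc, if_true]
    have h : HasDerivAt (fun v : ℝ => (v - v ^ 2 / (2 * U) : ℝ)) (1 - v / U) v := by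
      have h1 : HasDerivAt (fun v : ℝ => v ^ 2 / (2 * U)) (2 * v / (2 * U)) v := by
        have := (hasDerivAt_pow 2 v).div_const (2 * U)
        simpa using this
      have h2 := (hasDerivAt_id v).sub h1
      have e : (1 : ℝ) - 2 * v / (2 * U) = 1 - v / U := by
        field_simp
      rw [e] at h2
      exact h2
    have h3 := h.ofReal_comp
    have e : gg U 0 v = ((1 - v / U : ℝ) : ℂ) := by
      unfold gg
      simp
    rw [e]
    exact h3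
  · simp only [hc, if_false]
    have hc' : (c : ℂ) ≠ 0 := by exact_mod_cast hc
    have hE : HasDerivAt (fun v : ℝ => Complex.exp (Complex.I * ((c * v : ℝ) : ℂ)))
        (Complex.exp (Complex.I * ((c * v : ℝ) : ℂ)) * (Complex.I * (c : ℂ))) v := by
      have h0 : HasDerivAt (fun v : ℝ => ((c * v : ℝ) : ℂ)) (c : ℂ) v := by
        have h1 : HasDerivAt (fun v : ℝ => c * v) c v := by
          simpa using (hasDerivAt_id v).const_mul c
        exact h1.ofReal_comp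
      exact (h0.const_mul Complex.I).cexp
    have hL : HasDerivAt (fun v : ℝ => ((1 - v / U : ℝ) : ℂ)) ((-(1 / U) : ℝ) : ℂ) v := by
      have h1 : HasDerivAt (fun v : ℝ => 1 - v / U) (-(1 / U)) v := by
        have h2 := ((hasDerivAt_id v).div_const U).const_sub 1
        simpa using h2
      exact h1.ofReal_comp
    have h1 := (hL.mul hE).div_const (Complex.I * (c : ℂ))
    have h2 := (hE.const_mul (((1 / U : ℝ) : ℂ))).div_const ((Complex.I * (c : ℂ)) ^ 2)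
    have h3 := h1.add h2
    refine HasDerivAt.congr_deriv h3 ?_
    unfold gg
    have hI : Complex.I * (c : ℂ) ≠ 0 := mul_ne_zero Complex.I_ne_zero hc'
    field_simp
    push_cast
    ring

theorem IX_step {U c : ℝ} (hU : 0 < U) {a b : ℝ} (ha : 0 ≤ a) (hab : a ≤ b) (hb : b ≤ U) :
    ‖GG U c b - GG U c a - ((b - a : ℝ) : ℂ) * gg U c a‖ ≤ (1 / U + |c|) * (b - a) ^ 2 := by
  have hd : ∀ x ∈ Set.Icc a b, HasDerivWithinAt (fun v => GG U c v - ((v : ℝ) : ℂ) * gg U c a)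
      (gg U c x - gg U c a) (Set.Icc a b) x := by
    intro x hx
    have h1 : HasDerivAt (fun v : ℝ => ((v : ℝ) : ℂ) * gg U c a) (gg U c a) x := by
      have := ((hasDerivAt_id x).ofReal_comp).mul_const (gg U c a)
      simpa using this
    exact ((IX_deriv hU x).sub h1).hasDerivWithinAt
  have hb' : ∀ x ∈ Set.Ico a b, ‖gg U c x - gg U c a‖ ≤ (1 / U + |c|) * (b - a) := by
    intro x hx
    refine (IX_lip hU ha (hab.trans hb)).trans ?_
    have h1 : |x - a| ≤ b - a := by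
      rw [abs_of_nonneg (by linarith [hx.1])]
      linarith [hx.2]
    have h2 : 0 ≤ 1 / U + |c| := by positivity
    exact mul_le_mul_of_nonneg_left h1 h2
  have h := norm_image_sub_le_of_norm_deriv_le_segment' hd hb' b (Set.right_mem_Icc.2 hab)
  have e1 : GG U c b - ((b : ℝ) : ℂ) * gg U c a - (GG U c a - ((a : ℝ) : ℂ) * gg U c a) =
      GG U c b - GG U c a - ((b - a : ℝ) : ℂ) * gg U c a := by
    push_cast
    ring
  rw [e1] at h
  refine h.trans (le_of_eq ?_)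
  ring

theorem IX_total {U c : ℝ} (hU : 0 < U) :
    GG U c U - GG U c 0 = ((U / 2 : ℝ) : ℂ) * Ph (c * U) := by
  unfold GG Ph
  have hU' : (U : ℂ) ≠ 0 := by exact_mod_cast hU.ne'
  by_cases hc : c = 0
  · simp only [hc, if_true, zero_mul]
    push_cast
    field_simp
    ring
  · have hcU : c * U ≠ 0 := mul_ne_zero hc hU.ne'
    have hc' : (c : ℂ) ≠ 0 := by exact_mod_cast hc
    simp only [hc, hcU, if_false]
    have e1 : (Complex.I * (c : ℂ)) ^ 2 = -(c : ℂ) ^ 2 := by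
      rw [mul_pow, Complex.I_sq]
      ring
    have e2 : Complex.exp (Complex.I * ((c * (0 : ℝ) : ℝ) : ℂ)) = 1 := by simp
    have e3 : ((1 - U / U : ℝ) : ℂ) = 0 := by
      rw [div_self hU.ne']; simp
    have e4 : ((1 - (0 : ℝ) / U : ℝ) : ℂ) = 1 := by simp
    have e5 : Complex.exp (((c * U : ℝ) : ℂ) * Complex.I) =
        Complex.exp (Complex.I * ((c * U : ℝ) : ℂ)) := by rw [mul_comm]
    rw [e1, e2, e3, e4, e5]
    generalize Complex.exp (Complex.I * ((c * U : ℝ) : ℂ)) = E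
    have hI : (1 : ℂ) / (Complex.I * (c : ℂ)) = -Complex.I / (c : ℂ) := by
      rw [div_eq_div_iff (mul_ne_zero Complex.I_ne_zero hc') hc']
      ring_nf
      rw [Complex.I_sq]
      ring
    rw [mul_one, hI]
    push_cast
    field_simp
    ring

theorem IX_wt (X : ℕ) (hX : 1 ≤ X) (γ : ℝ) (k : ℕ) (hk : k < X) :
    (wt X k : ℂ) * e ((k : ℝ) ^ 2 * γ) =
      ((2 * (k : ℝ) : ℝ) : ℂ) * gg ((X : ℝ) ^ 2) (2 * π * γ) ((k : ℝ) ^ 2) := by
  unfold wt e gg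
  rw [if_pos hk]
  have h1 : ((2 * π * ((k : ℝ) ^ 2 * γ) : ℝ) : ℂ) * Complex.I =
      Complex.I * ((2 * π * γ * (k : ℝ) ^ 2 : ℝ) : ℂ) := by
    push_cast
    ring
  rw [h1]
  push_cast
  ring

/-- the archimedean factor in closed form -/
theorem IX_approx (X : ℕ) (hX : 1 ≤ X) (γ : ℝ) :
    ‖IX X γ - ((((X : ℝ) ^ 2 / 2 : ℝ)) : ℂ) * Ph (2 * π * γ * (X : ℝ) ^ 2)‖ ≤
      5 * X + 4 * (X : ℝ) ^ 3 * (2 * π * |γ|) := by
  set U : ℝ := (X : ℝ) ^ 2 with hUdef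
  set c : ℝ := 2 * π * γ with hc
  have hX0 : (1 : ℝ) ≤ X := by exact_mod_cast hX
  have hU : 0 < U := by positivity
  have hcabs : |c| = 2 * π * |γ| := by
    rw [hc, abs_mul, abs_of_pos (by positivity)]
  have hIX : IX X γ = ∑ k ∈ range X, ((2 * (k : ℝ) : ℝ) : ℂ) * gg U c ((k : ℝ) ^ 2) := by
    unfold IX
    refine Finset.sum_congr rfl fun k hk => ?_
    exact IX_wt X hX γ k (Finset.mem_range.1 hk)
  have htel : ∑ k ∈ range X, (GG U c ((((k + 1 : ℕ) : ℝ)) ^ 2) - GG U c ((k : ℝ) ^ 2)) =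
      ((U / 2 : ℝ) : ℂ) * Ph (c * U) := by
    have h := Finset.sum_range_sub (fun k : ℕ => GG U c ((k : ℝ) ^ 2)) X
    rw [← IX_total hU]
    rw [h]
    simp [hUdef]
  have hstep : ∀ k ∈ range X, ‖((2 * (k : ℝ) : ℝ) : ℂ) * gg U c ((k : ℝ) ^ 2) -
      (GG U c ((((k + 1 : ℕ) : ℝ)) ^ 2) - GG U c ((k : ℝ) ^ 2))‖ ≤
      (1 / U + |c|) * (4 * U) + 1 := by
    intro k hk
    have hkX : k + 1 ≤ X := Finset.mem_range.1 hk
    have hkX' : (k : ℝ) + 1 ≤ X := by exact_mod_cast hkX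
    have hk0 : (0 : ℝ) ≤ k := Nat.cast_nonneg k
    have h1 := IX_step (c := c) hU (a := (k : ℝ) ^ 2) (b := (((k + 1 : ℕ) : ℝ)) ^ 2) (by positivity)
      (by push_cast; nlinarith) (by rw [hUdef]; push_cast; nlinarith)
    have h2 : ‖gg U c ((k : ℝ) ^ 2)‖ ≤ 1 := by
      unfold gg
      rw [norm_mul, IX_norm_exp, mul_one, Complex.norm_real, Real.norm_eq_abs, abs_le]
      have : 0 ≤ (k : ℝ) ^ 2 / U := by positivity
      have h3 : (k : ℝ) ^ 2 / U ≤ 1 := by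
        rw [div_le_one hU, hUdef]
        nlinarith
      constructor <;> linarith
    have e1 : ((2 * (k : ℝ) : ℝ) : ℂ) * gg U c ((k : ℝ) ^ 2) -
        (GG U c ((((k + 1 : ℕ) : ℝ)) ^ 2) - GG U c ((k : ℝ) ^ 2)) =
        -(GG U c ((((k + 1 : ℕ) : ℝ)) ^ 2) - GG U c ((k : ℝ) ^ 2) -
          ((((((k + 1 : ℕ) : ℝ)) ^ 2 - (k : ℝ) ^ 2 : ℝ)) : ℂ) * gg U c ((k : ℝ) ^ 2)) -
          gg U c ((k : ℝ) ^ 2) := by
      push_cast
      ring
    rw [e1]
    refine (norm_sub_le _ _).trans ?_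
    rw [norm_neg]
    have h4 : ((((k + 1 : ℕ) : ℝ)) ^ 2 - (k : ℝ) ^ 2) ^ 2 ≤ 4 * U := by
      push_cast
      rw [hUdef]
      have : ((k : ℝ) + 1) ^ 2 - (k : ℝ) ^ 2 = 2 * k + 1 := by ring
      rw [this]
      nlinarith
    have h5 : 0 ≤ 1 / U + |c| := by positivity
    have h6 := mul_le_mul_of_nonneg_left h4 h5
    linarith
  have hsum : ‖IX X γ - ((U / 2 : ℝ) : ℂ) * Ph (c * U)‖ ≤
      X * ((1 / U + |c|) * (4 * U) + 1) := by
    rw [hIX, ← htel]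
    rw [← Finset.sum_sub_distrib]
    refine (norm_sum_le _ _).trans ?_
    refine (Finset.sum_le_sum hstep).trans ?_
    rw [Finset.sum_const, Finset.card_range, nsmul_eq_mul]
  refine hsum.trans (le_of_eq ?_)
  rw [hcabs]
  have : (1 / U + 2 * π * |γ|) * (4 * U) = 4 + 4 * U * (2 * π * |γ|) := by
    field_simp
  rw [this, hUdef]
  ring

theorem sec_Ph_norm_small (θ : ℝ) (h : |θ| ≤ 1) : ‖Ph θ‖ ≤ 2 := by
  unfold Ph
  split_ifs with h0
  · simp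
  · have hn : ‖(θ : ℂ) * Complex.I‖ = |θ| := by simp
    have h1 := Complex.norm_exp_sub_one_sub_id_le (x := (θ : ℂ) * Complex.I) (by rw [hn]; exact h)
    have hpos : 0 < |θ| := abs_pos.2 h0
    rw [norm_div, norm_mul]
    have h2 : ‖(1 + (θ : ℂ) * Complex.I - Complex.exp ((θ : ℂ) * Complex.I))‖ ≤ |θ| ^ 2 := by
      rw [← norm_neg]
      rw [hn] at h1
      have he : -(1 + (θ : ℂ) * Complex.I - Complex.exp ((θ : ℂ) * Complex.I)) =
        Complex.exp ((θ : ℂ) * Complex.I) - 1 - (θ : ℂ) * Complex.I := by ring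
      rw [he]
      exact h1
    have h3 : ‖(θ : ℂ) ^ 2‖ = |θ| ^ 2 := by simp
    rw [h3, div_le_iff₀ (by positivity)]
    have : ‖(2 : ℂ)‖ = 2 := by simp
    rw [this]
    linarith

theorem sec_Ph_norm_large (θ : ℝ) (h : 1 ≤ |θ|) : ‖Ph θ‖ ≤ 6 / |θ| := by
  have h0 : θ ≠ 0 := by
    rintro rfl
    simp at h
    linarith
  unfold Ph
  rw [if_neg h0]
  have hpos : 0 < |θ| := abs_pos.2 h0
  rw [norm_div, norm_mul]
  have h3 : ‖(θ : ℂ) ^ 2‖ = |θ| ^ 2 := by simp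
  have h4 : ‖(2 : ℂ)‖ = 2 := by simp
  have h2 : ‖(1 + (θ : ℂ) * Complex.I - Complex.exp ((θ : ℂ) * Complex.I))‖ ≤ 2 + |θ| := by
    have ha : ‖(1 + (θ : ℂ) * Complex.I)‖ ≤ 1 + |θ| := by
      refine (norm_add_le _ _).trans ?_
      simp
    have hb : ‖Complex.exp ((θ : ℂ) * Complex.I)‖ = 1 := Complex.norm_exp_ofReal_mul_I θ
    refine (norm_sub_le _ _).trans ?_
    rw [hb]; linarith
  rw [h3, h4, div_le_div_iff₀ (by positivity) hpos]
  nlinarith [mul_nonneg hpos.le (sub_nonneg.2 h), mul_le_mul_of_nonneg_right h2 hpos.le]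

theorem Ph_norm (θ : ℝ) : ‖Ph θ‖ ≤ 6 := by
  rcases le_total |θ| 1 with h | h
  · linarith [sec_Ph_norm_small θ h]
  · refine (sec_Ph_norm_large θ h).trans ?_
    rw [div_le_iff₀ (by linarith)]
    linarith

theorem sec_Ph_re (θ : ℝ) (h : θ ≠ 0) : (Ph θ).re = 2 * (1 - Real.cos θ) / θ ^ 2 := by
  unfold Ph
  rw [if_neg h]
  have : (2 * (1 + (θ : ℂ) * Complex.I - Complex.exp ((θ : ℂ) * Complex.I)) / (θ : ℂ) ^ 2)
      = ((1 / θ ^ 2 : ℝ) : ℂ) * (2 * (1 + (θ : ℂ) * Complex.I - Complex.exp ((θ : ℂ) * Complex.I))) := by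
    push_cast; ring
  rw [this, Complex.re_ofReal_mul, Complex.exp_mul_I]
  simp
  rw [← Complex.ofReal_cos, Complex.ofReal_re]
  ring

theorem sec_Ph_re_nonneg (θ : ℝ) : 0 ≤ (Ph θ).re := by
  by_cases h : θ = 0
  · simp [Ph, h]
  · rw [sec_Ph_re θ h]
    have := Real.cos_le_one θ
    apply div_nonneg _ (by positivity)
    linarith

theorem sec_Ph_re_small (θ : ℝ) (h : |θ| ≤ 1) : 4 / 5 ≤ (Ph θ).re := by
  by_cases h0 : θ = 0
  · simp [Ph, h0]; norm_num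
  · rw [sec_Ph_re θ h0]
    have hc := Real.cos_bound h
    have hpos : 0 < |θ| := abs_pos.2 h0
    have h2 := (abs_le.1 hc).2
    have h4 : |θ| ^ 4 ≤ θ ^ 2 := by
      have : |θ| ^ 2 = θ ^ 2 := sq_abs θ
      nlinarith [sq_nonneg θ, mul_nonneg (sq_nonneg θ) (by nlinarith [hpos.le] : (0:ℝ) ≤ 1 - |θ| ^ 2)]
    have hsq : 0 < θ ^ 2 := by positivity
    rw [le_div_iff₀ hsq]
    nlinarith

/-- the sum -/
noncomputable def secS (m : ℕ) (θ : ℝ) : ℂ :=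
  ∑ i ∈ range m, (((1 / 2 : ℝ) ^ i : ℝ) : ℂ) * Ph (θ / 4 ^ i)

theorem secS_succ (m : ℕ) (θ : ℝ) : secS (m + 1) θ = Ph θ + (1 / 2 : ℂ) * secS m (θ / 4) := by
  unfold secS
  rw [Finset.sum_range_succ', Finset.mul_sum, add_comm]
  congr 1
  · simp
  · apply Finset.sum_congr rfl
    intro i _
    rw [pow_succ, pow_succ, div_div, mul_comm (4 : ℝ) (4 ^ i)]
    push_cast
    ring

theorem secS_re_nonneg (m : ℕ) : ∀ θ : ℝ, 0 ≤ (secS m θ).re := by
  induction m with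
  | zero => intro θ; simp [secS]
  | succ m ih =>
    intro θ
    rw [secS_succ]
    have h1 := ih (θ / 4)
    have h2 := sec_Ph_re_nonneg θ
    have : ((1 / 2 : ℂ) * secS m (θ / 4)).re = (1 / 2) * (secS m (θ / 4)).re := by
      have : (1 / 2 : ℂ) = ((1 / 2 : ℝ) : ℂ) := by push_cast; ring
      rw [this, Complex.re_ofReal_mul]
    rw [Complex.add_re, this]
    linarith

theorem secS_norm_small (m : ℕ) : ∀ θ : ℝ, |θ| ≤ 1 → ‖secS m θ‖ ≤ 4 := by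
  induction m with
  | zero => intro θ _; simp [secS]
  | succ m ih =>
    intro θ h
    rw [secS_succ]
    have h1 := ih (θ / 4) (by rw [abs_div]; simp; linarith [abs_nonneg θ])
    have h2 := sec_Ph_norm_small θ h
    refine (norm_add_le _ _).trans ?_
    rw [norm_mul]
    have : ‖(1 / 2 : ℂ)‖ = 1 / 2 := by simp
    rw [this]
    linarith

noncomputable def secg (θ : ℝ) : ℝ :=
  if |θ| ≤ 1 then 3 / 4 else (1 / 5) / √|θ| + (3 / 40) / |θ|

theorem secg_nonneg (θ : ℝ) : 0 ≤ secg θ := by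
  unfold secg
  split_ifs
  · norm_num
  · positivity

theorem secg_le (θ : ℝ) : secg θ ≤ 3 / 4 := by
  unfold secg
  split_ifs with h
  · exact le_rfl
  · push Not at h
    have h1 : 1 ≤ √|θ| := by
      rw [show (1:ℝ) = √1 by simp]
      exact Real.sqrt_le_sqrt h.le
    have h2 : (1 / 5) / √|θ| ≤ 1 / 5 := by
      rw [div_le_iff₀ (by linarith)]; linarith
    have h3 : (3 / 40) / |θ| ≤ 3 / 40 := by
      rw [div_le_iff₀ (by linarith)]; linarith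
    linarith

theorem secg_step (θ : ℝ) (h : 1 < |θ|) : secg θ + (3 / 40) * (1 / |θ|) ≤ (1 / 2) * secg (θ / 4) := by
  have hpos : 0 < |θ| := by linarith
  have hab : |θ / 4| = |θ| / 4 := by rw [abs_div]; simp
  unfold secg
  rw [if_neg (by linarith), hab]
  have h1 : 1 ≤ √|θ| := by
    rw [show (1:ℝ) = √1 by simp]
    exact Real.sqrt_le_sqrt h.le
  split_ifs with h4
  · have h2 : (1 / 5) / √|θ| ≤ 1 / 5 := by
      rw [div_le_iff₀ (by linarith)]; linarith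
    have h3 : 1 / |θ| ≤ 1 := by
      rw [div_le_iff₀ (by linarith)]; linarith
    have h5 : (3 / 40) / |θ| = (3 / 40) * (1 / |θ|) := by ring
    rw [h5]
    linarith
  · have hs : √(|θ| / 4) = √|θ| / 2 := by
      rw [Real.sqrt_div hpos.le]
      congr 1
      rw [show (4:ℝ) = 2 ^ 2 by norm_num]
      simp
    rw [hs]
    have hs0 : √|θ| ≠ 0 := by linarith
    have hp0 : |θ| ≠ 0 := hpos.ne'
    apply le_of_eq
    field_simp
    ring

theorem sec_key (m : ℕ) : ∀ θ : ℝ,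
    (1 / 80) * ‖secS m θ‖ + secg θ ≤ (secS m θ).re + (1 / 2) ^ m := by
  induction m with
  | zero =>
    intro θ
    have := secg_le θ
    simp [secS]
    linarith
  | succ m ih =>
    intro θ
    have hre : ((1 / 2 : ℂ) * secS m (θ / 4)).re = (1 / 2) * (secS m (θ / 4)).re := by
      have : (1 / 2 : ℂ) = ((1 / 2 : ℝ) : ℂ) := by push_cast; ring
      rw [this, Complex.re_ofReal_mul]
    have hnorm : ‖(1 / 2 : ℂ)‖ = 1 / 2 := by simp
    have hpw : (0:ℝ) < (1 / 2) ^ m := by positivity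
    rcases le_or_gt |θ| 1 with h | h
    · have h1 := secS_norm_small (m + 1) θ h
      have h2 : 4 / 5 ≤ (secS (m + 1) θ).re := by
        rw [secS_succ, Complex.add_re, hre]
        have := sec_Ph_re_small θ h
        have := secS_re_nonneg m (θ / 4)
        linarith
      have h3 := secg_le θ
      rw [pow_succ]
      linarith
    · have h1 := ih (θ / 4)
      have h2 := secg_step θ h
      have h3 := sec_Ph_norm_large θ h.le
      have h4 := sec_Ph_re_nonneg θ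
      have h5 : ‖secS (m + 1) θ‖ ≤ ‖Ph θ‖ + (1 / 2) * ‖secS m (θ / 4)‖ := by
        rw [secS_succ]
        refine (norm_add_le _ _).trans ?_
        rw [norm_mul, hnorm]
      have h6 : (secS (m + 1) θ).re = (Ph θ).re + (1 / 2) * (secS m (θ / 4)).re := by
        rw [secS_succ, Complex.add_re, hre]
      rw [h6, pow_succ]
      have h7 : 6 / |θ| = 6 * (1 / |θ|) := by ring
      rw [h7] at h3
      nlinarith

/-- the dyadic mixture of the `Ph` lies in a sector around the positive real axis -/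
theorem sector (m : ℕ) (θ : ℝ) :
    (1 / 80) * ‖∑ i ∈ range m, (((1 / 2 : ℝ) ^ i : ℝ) : ℂ) * Ph (θ / 4 ^ i)‖ - (1 / 2) ^ m ≤
      (∑ i ∈ range m, (((1 / 2 : ℝ) ^ i : ℝ) : ℂ) * Ph (θ / 4 ^ i)).re := by
  have h1 := sec_key m θ
  have h2 := secg_nonneg θ
  unfold secS at h1
  linarith

theorem e_add_int (θ : ℝ) (n : ℤ) : e (θ + n) = e θ := by
  unfold e
  have h : ((2 * π * (θ + n) : ℝ) : ℂ) * Complex.I =
      ((2 * π * θ : ℝ) : ℂ) * Complex.I + n * (2 * π * Complex.I) := by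
    push_cast
    ring
  rw [h, Complex.exp_add, Complex.exp_int_mul_two_pi_mul_I, mul_one]

theorem e_norm (θ : ℝ) : ‖e θ‖ = 1 := by
  unfold e
  exact Complex.norm_exp_ofReal_mul_I _

theorem Gr_per (x : ℚ) (s : ℕ) :
    e (((s + x.den : ℕ) : ℝ) ^ 2 * (x : ℝ)) = e ((s : ℝ) ^ 2 * (x : ℝ)) := by
  have hx : (x : ℝ) * (x.den : ℝ) = (x.num : ℝ) := by
    exact_mod_cast Rat.mul_den_eq_num x
  have h : ((s + x.den : ℕ) : ℝ) ^ 2 * (x : ℝ) = (s : ℝ) ^ 2 * (x : ℝ) +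
      (((2 * (s : ℤ) + (x.den : ℤ)) * x.num : ℤ) : ℝ) := by
    push_cast
    rw [← hx]
    ring
  rw [h, e_add_int]

theorem Gr_per' (x : ℚ) (c s : ℕ) :
    e (((x.den * c + s : ℕ) : ℝ) ^ 2 * (x : ℝ)) = e ((s : ℝ) ^ 2 * (x : ℝ)) := by
  induction c with
  | zero => simp
  | succ c ih =>
    have h : x.den * (c + 1) + s = (x.den * c + s) + x.den := by ring
    rw [h, Gr_per, ih]

theorem Gr_sum (x : ℚ) (c : ℕ) :
    ∑ s ∈ range (x.den * c), e ((s : ℝ) ^ 2 * (x : ℝ)) =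
      c * ∑ s ∈ range x.den, e ((s : ℝ) ^ 2 * (x : ℝ)) := by
  induction c with
  | zero => simp
  | succ c ih =>
    rw [mul_add, mul_one, Finset.sum_range_add, ih,
      Finset.sum_congr rfl fun s _ => Gr_per' x c s]
    push_cast
    ring

/-- independence of the modulus -/
theorem Gr_eq_Gq (x : ℚ) (r : ℕ) (hr : 1 ≤ r) (h : x.den ∣ r) : Gr r (x : ℝ) = Gq x := by
  obtain ⟨c, rfl⟩ := h
  have hc : (c : ℂ) ≠ 0 := by
    intro h0
    have : c = 0 := by exact_mod_cast h0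
    rw [this] at hr
    simp at hr
  have hd : (x.den : ℂ) ≠ 0 := by
    exact_mod_cast x.den_nz
  unfold Gq Gr
  rw [Gr_sum]
  generalize ∑ s ∈ range x.den, e ((s : ℝ) ^ 2 * (x : ℝ)) = Z
  push_cast
  field_simp

theorem Gq_le_one (x : ℚ) : ‖Gq x‖ ≤ 1 := by
  unfold Gq Gr
  have hd : (0:ℝ) < x.den := by exact_mod_cast x.den_pos
  rw [norm_mul, norm_div, norm_one, Complex.norm_natCast]
  have h1 : ‖∑ s ∈ range x.den, e ((s : ℝ) ^ 2 * (x : ℝ))‖ ≤ x.den := by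
    refine (norm_sum_le _ _).trans ?_
    rw [Finset.sum_congr rfl fun s _ => e_norm _]
    simp
  rw [one_div, inv_mul_le_iff₀ hd, mul_one]
  exact h1

theorem Gq_int (x : ℚ) (h : x.den = 1) : Gq x = 1 := by
  unfold Gq Gr
  rw [h]
  simp [e]

theorem aux_e_add (a b : ℝ) : e (a + b) = e a * e b := by
  unfold e; rw [← Complex.exp_add]; congr 1; push_cast; ring

theorem aux_e_int (n : ℤ) : e (n : ℝ) = 1 := by
  unfold e
  rw [Complex.exp_eq_one_iff]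
  exact ⟨n, by push_cast; ring⟩

theorem aux_e_mod (x : ℚ) (s : ℕ) :
    e (((s % x.den : ℕ) : ℝ) ^ 2 * (x : ℝ)) = e ((s : ℝ) ^ 2 * (x : ℝ)) := by
  have hx : (x : ℝ) * (x.den : ℝ) = (x.num : ℝ) := by exact_mod_cast Rat.mul_den_eq_num x
  obtain ⟨a, ha⟩ : ∃ a : ℕ, a = s % x.den := ⟨_, rfl⟩
  obtain ⟨b, hb⟩ : ∃ b : ℕ, b = s / x.den := ⟨_, rfl⟩
  have hs : (s : ℝ) = (a : ℝ) + (x.den : ℝ) * (b : ℝ) := by
    rw [ha, hb]
    exact_mod_cast (Nat.mod_add_div s x.den).symm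
  rw [← ha]
  have h1 : (s : ℝ) ^ 2 * (x : ℝ) = (a : ℝ) ^ 2 * (x : ℝ) +
      (((2 * (a : ℤ) * (b : ℤ) + (x.den : ℤ) * (b : ℤ) ^ 2) * x.num : ℤ) : ℝ) := by
    push_cast
    rw [hs]
    linear_combination (2 * (a : ℝ) * b + (x.den : ℝ) * (b : ℝ) ^ 2) * hx
  rw [h1, aux_e_add, aux_e_int, mul_one]

theorem aux_den (x y : ℚ) (h : Nat.Coprime x.den y.den) : (x + y).den = x.den * y.den := by
  apply Nat.dvd_antisymm (Rat.add_den_dvd x y)
  have hx : x.den ∣ (x + y).den * y.den := by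
    have := Rat.add_den_dvd (x + y) (-y)
    rw [add_neg_cancel_right, Rat.neg_den] at this
    exact this
  have hy : y.den ∣ (x + y).den * x.den := by
    have := Rat.add_den_dvd (x + y) (-x)
    rw [show x + y + -x = y by ring, Rat.neg_den] at this
    exact this
  have h1 : x.den ∣ (x + y).den := h.dvd_of_dvd_mul_right hx
  have h2 : y.den ∣ (x + y).den := h.symm.dvd_of_dvd_mul_right hy
  exact h.mul_dvd_of_dvd_of_dvd h1 h2

theorem aux_crt (r₁ r₂ : ℕ) (h : Nat.Coprime r₁ r₂) (h1 : 0 < r₁) (h2 : 0 < r₂) (f g : ℕ → ℂ) :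
    ∑ s ∈ range (r₁ * r₂), f (s % r₁) * g (s % r₂) = (∑ s ∈ range r₁, f s) * ∑ s ∈ range r₂, g s := by
  rw [Finset.sum_mul_sum, ← Finset.sum_product']
  refine Finset.sum_bij (fun s _ => (s % r₁, s % r₂)) ?_ ?_ ?_ ?_
  · intro s hs
    rw [Finset.mem_product, Finset.mem_range, Finset.mem_range]
    exact ⟨Nat.mod_lt _ h1, Nat.mod_lt _ h2⟩
  · intro s hs t ht hst
    rw [Prod.mk.injEq] at hst
    have h3 : s ≡ t [MOD r₁ * r₂] := (Nat.modEq_and_modEq_iff_modEq_mul h).1 ⟨hst.1, hst.2⟩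
    exact Nat.ModEq.eq_of_lt_of_lt h3 (Finset.mem_range.1 hs) (Finset.mem_range.1 ht)
  · rintro ⟨a, b⟩ hab
    rw [Finset.mem_product, Finset.mem_range, Finset.mem_range] at hab
    refine ⟨(Nat.chineseRemainder h a b : ℕ), ?_, ?_⟩
    · rw [Finset.mem_range]
      exact Nat.chineseRemainder_lt_mul h a b h1.ne' h2.ne'
    · have h3 := (Nat.chineseRemainder h a b).2
      rw [Prod.mk.injEq]
      refine ⟨?_, ?_⟩
      · have h4 := h3.1
        unfold Nat.ModEq at h4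
        rw [h4]
        exact Nat.mod_eq_of_lt hab.1
      · have h4 := h3.2
        unfold Nat.ModEq at h4
        rw [h4]
        exact Nat.mod_eq_of_lt hab.2
  · intro s hs
    rfl


/-- multiplicativity of Gauss sums -/
theorem Gq_mul (x y : ℚ) (h : Nat.Coprime x.den y.den) : Gq (x + y) = Gq x * Gq y := by
  unfold Gq Gr
  rw [aux_den x y h]
  have h1 : ∑ s ∈ range (x.den * y.den), e ((s : ℝ) ^ 2 * ((x + y : ℚ) : ℝ)) =
      ∑ s ∈ range (x.den * y.den), (fun s : ℕ => e ((s : ℝ) ^ 2 * (x : ℝ))) (s % x.den) *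
        (fun s : ℕ => e ((s : ℝ) ^ 2 * (y : ℝ))) (s % y.den) := by
    refine Finset.sum_congr rfl fun s _ => ?_
    simp only
    rw [aux_e_mod, aux_e_mod, ← aux_e_add]
    congr 1
    push_cast
    ring
  rw [h1, aux_crt _ _ h x.pos y.pos (fun s : ℕ => e ((s : ℝ) ^ 2 * (x : ℝ))) (fun s : ℕ => e ((s : ℝ) ^ 2 * (y : ℝ)))]
  have hx : (x.den : ℂ) ≠ 0 := by exact_mod_cast x.pos.ne'
  have hy : (y.den : ℂ) ≠ 0 := by exact_mod_cast y.pos.ne'
  rw [Nat.cast_mul]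
  generalize (∑ s ∈ range x.den, (fun s : ℕ => e ((s : ℝ) ^ 2 * (x : ℝ))) s) = P
  generalize (∑ s ∈ range y.den, (fun s : ℕ => e ((s : ℝ) ^ 2 * (y : ℝ))) s) = Q
  field_simp

theorem Gq_unit_e_int (θ : ℝ) (m : ℤ) : e (θ + m) = e θ := by
  unfold e
  have h1 : ((2 * π * (θ + m) : ℝ) : ℂ) * Complex.I =
      ((2 * π * θ : ℝ) : ℂ) * Complex.I + m * (2 * π * Complex.I) := by
    push_cast
    ring
  rw [h1, Complex.exp_add, Complex.exp_int_mul_two_pi_mul_I, mul_one]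

/-- invariance under unit squares -/
theorem Gq_unit (x : ℚ) (u : ℕ) (h : Nat.Coprime u x.den) : Gq ((u : ℚ) ^ 2 * x) = Gq x := by
  have hden : ((u : ℚ) ^ 2 * x).den = x.den := by
    have h1 : (u : ℚ) ^ 2 * x = (((u : ℤ) ^ 2 * x.num : ℤ) : ℚ) / ((x.den : ℤ) : ℚ) := by
      push_cast
      rw [mul_div_assoc, Rat.num_div_den]
    have h2 : Nat.Coprime ((u : ℤ) ^ 2 * x.num).natAbs (x.den : ℤ).natAbs := by
      rw [Int.natAbs_mul, Int.natAbs_pow, Int.natAbs_natCast, Int.natAbs_natCast]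
      exact Nat.Coprime.mul_left (h.pow_left 2) x.reduced
    have h3 := Rat.den_div_eq_of_coprime (by exact_mod_cast x.pos : (0 : ℤ) < (x.den : ℤ)) h2
    rw [← h1] at h3
    exact_mod_cast h3
  unfold Gq Gr
  rw [hden]
  congr 1
  obtain ⟨r, hr⟩ : ∃ r : ℕ, r = x.den := ⟨_, rfl⟩
  have hrpos : 0 < r := by rw [hr]; exact x.pos
  have hxr : (x : ℝ) * r = x.num := by
    rw [hr]
    have := Rat.mul_den_eq_num x
    exact_mod_cast this
  rw [← hr] at h ⊢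
  have : NeZero r := ⟨hrpos.ne'⟩
  have hf : ∀ t : ℕ, e ((t : ℝ) ^ 2 * x) = e (((t % r : ℕ) : ℝ) ^ 2 * x) := by
    intro t
    obtain ⟨q, hq⟩ : ∃ q : ℕ, q = t / r := ⟨_, rfl⟩
    obtain ⟨w, hw⟩ : ∃ w : ℕ, w = t % r := ⟨_, rfl⟩
    have h0 : r * q + w = t := by rw [hq, hw]; exact Nat.div_add_mod t r
    rw [← hw]
    have h2 : (t : ℝ) ^ 2 * x = (w : ℝ) ^ 2 * x +
        ((x.num * ((r : ℤ) * (q : ℤ) ^ 2 + 2 * (q : ℤ) * (w : ℤ)) : ℤ) : ℝ) := by
      rw [← h0]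
      push_cast
      rw [← hxr]
      ring
    rw [h2, Gq_unit_e_int]
  have hsum : ∀ G : ZMod r → ℂ, ∑ s ∈ range r, G (s : ZMod r) = ∑ z : ZMod r, G z := by
    intro G
    apply Finset.sum_nbij' (fun s : ℕ => (s : ZMod r)) (fun z => z.val)
    · intro s _; exact Finset.mem_univ _
    · intro z _; exact mem_range.2 (ZMod.val_lt z)
    · intro s hs; exact ZMod.val_cast_of_lt (mem_range.1 hs)
    · intro z _; exact ZMod.natCast_zmod_val z
    · intro s _; rfl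
  have hF : ∀ t : ℕ, e ((t : ℝ) ^ 2 * x) = (fun z : ZMod r => e ((z.val : ℝ) ^ 2 * x)) (t : ZMod r) := by
    intro t
    simp only
    rw [hf t, ZMod.val_natCast]
  have hL : ∑ s ∈ range r, e ((s : ℝ) ^ 2 * (((u : ℚ) ^ 2 * x : ℚ) : ℝ)) =
      ∑ s ∈ range r, (fun z : ZMod r => e ((((u : ZMod r) * z).val : ℝ) ^ 2 * x)) (s : ZMod r) := by
    apply Finset.sum_congr rfl
    intro s _
    have h1 : (s : ℝ) ^ 2 * (((u : ℚ) ^ 2 * x : ℚ) : ℝ) = ((u * s : ℕ) : ℝ) ^ 2 * x := by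
      push_cast
      ring
    rw [h1, hF (u * s)]
    simp only [Nat.cast_mul]
  have hR : ∑ s ∈ range r, e ((s : ℝ) ^ 2 * (x : ℝ)) =
      ∑ s ∈ range r, (fun z : ZMod r => e ((z.val : ℝ) ^ 2 * x)) (s : ZMod r) :=
    Finset.sum_congr rfl (fun s _ => hF s)
  rw [hL, hR]
  have s1 := hsum (fun z : ZMod r => e ((((u : ZMod r) * z).val : ℝ) ^ 2 * x))
  have s2 := hsum (fun z : ZMod r => e ((z.val : ℝ) ^ 2 * x))
  simp only at s1 s2 ⊢
  rw [s1, s2]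
  have hun : IsUnit (u : ZMod r) := (ZMod.isUnit_iff_coprime u r).2 h
  obtain ⟨v, hv⟩ := hun
  rw [← hv]
  exact Equiv.sum_comp (Units.mulLeft v) (fun z : ZMod r => e ((z.val : ℝ) ^ 2 * x))

/-- range sum to ZMod sum -/
lemma aux_sum_range (r : ℕ) [NeZero r] (f : ZMod r → ℂ) :
    ∑ s ∈ range r, f (s : ZMod r) = ∑ z : ZMod r, f z := by
  refine Finset.sum_bij (fun (s : ℕ) (_ : s ∈ range r) => ((s : ℕ) : ZMod r)) ?_ ?_ ?_ ?_
  · intro s _; exact Finset.mem_univ _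
  · intro s hs t ht h
    have h1 := congrArg ZMod.val h
    rwa [ZMod.val_cast_of_lt (Finset.mem_range.mp hs), ZMod.val_cast_of_lt (Finset.mem_range.mp ht)] at h1
  · intro z _
    exact ⟨z.val, Finset.mem_range.mpr (ZMod.val_lt z), ZMod.natCast_zmod_val z⟩
  · intro s _; rfl

lemma aux_card (r : ℕ) [NeZero r] (a : ZMod r) (ha : IsUnit a) :
    (Finset.univ.filter (fun h : ZMod r => 2 * a * h = 0)).card ≤ 2 := by
  have hsub : (Finset.univ.filter (fun h : ZMod r => 2 * a * h = 0)) ⊆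
      ({0, ((r / 2 : ℕ) : ZMod r)} : Finset (ZMod r)) := by
    intro h hh
    rw [Finset.mem_filter] at hh
    have h1 : (2 : ZMod r) * h = 0 := by
      have h2 : a * (2 * h) = 0 := by rw [← hh.2]; ring
      exact (ha.mul_right_eq_zero).mp h2
    have h3 : ((2 * h.val : ℕ) : ZMod r) = 0 := by
      push_cast
      rw [ZMod.natCast_zmod_val]
      exact h1
    rw [ZMod.natCast_eq_zero_iff] at h3
    obtain ⟨c, hc⟩ := h3
    have hlt := ZMod.val_lt h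
    have hr : 0 < r := Nat.pos_of_ne_zero (NeZero.ne r)
    have hc2 : c < 2 := by
      by_contra hcon
      have : r * 2 ≤ r * c := Nat.mul_le_mul_left _ (by omega)
      omega
    rw [Finset.mem_insert, Finset.mem_singleton]
    interval_cases c
    · left
      have : h.val = 0 := by omega
      exact (ZMod.val_eq_zero h).mp this
    · right
      have h4 : h.val = r / 2 := by omega
      rw [← h4, ZMod.natCast_zmod_val]
  exact (Finset.card_le_card hsub).trans Finset.card_le_two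

lemma aux_gauss (r : ℕ) [NeZero r] (a : ZMod r) (ha : IsUnit a) :
    ‖∑ s : ZMod r, ZMod.stdAddChar (a * s ^ 2)‖ ^ 2 ≤ 2 * (r : ℝ) := by
  set ψ : AddChar (ZMod r) ℂ := ZMod.stdAddChar with hψ
  have hprim : ψ.IsPrimitive := ZMod.isPrimitive_stdAddChar r
  have hconj : ∀ z : ZMod r, (starRingEnd ℂ) (ψ z) = ψ (-z) := by
    intro z
    rw [AddChar.map_neg_eq_conj]
  have hnorm : ∀ z : ZMod r, ‖ψ z‖ = 1 := fun z => AddChar.norm_apply ψ z
  have key : ((‖∑ s : ZMod r, ψ (a * s ^ 2)‖ ^ 2 : ℝ) : ℂ) =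
      ∑ h : ZMod r, ψ (a * h ^ 2) * (if 2 * a * h = 0 then (r : ℂ) else 0) := by
    rw [← Complex.normSq_eq_norm_sq, Complex.normSq_eq_conj_mul_self, map_sum, Finset.sum_mul_sum]
    simp_rw [hconj]
    have h1 : ∀ t : ZMod r, ∑ s : ZMod r, ψ (-(a * t ^ 2)) * ψ (a * s ^ 2) =
        ∑ h : ZMod r, ψ (a * h ^ 2) * ψ (t * (2 * a * h)) := by
      intro t
      rw [← Equiv.sum_comp (Equiv.addLeft t)]
      apply Finset.sum_congr rfl
      intro h _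
      rw [← AddChar.map_add_eq_mul, ← AddChar.map_add_eq_mul]
      congr 1
      simp only [Equiv.coe_addLeft]
      ring
    simp_rw [h1]
    rw [Finset.sum_comm]
    apply Finset.sum_congr rfl
    intro h _
    rw [← Finset.mul_sum, AddChar.sum_mulShift _ hprim]
    simp [ZMod.card]
  have h2 : ‖∑ s : ZMod r, ψ (a * s ^ 2)‖ ^ 2 =
      ‖((‖∑ s : ZMod r, ψ (a * s ^ 2)‖ ^ 2 : ℝ) : ℂ)‖ := by
    rw [Complex.norm_real, Real.norm_of_nonneg (by positivity)]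
  rw [h2, key]
  calc ‖∑ h : ZMod r, ψ (a * h ^ 2) * (if 2 * a * h = 0 then (r : ℂ) else 0)‖
      ≤ ∑ h : ZMod r, ‖ψ (a * h ^ 2) * (if 2 * a * h = 0 then (r : ℂ) else 0)‖ := norm_sum_le _ _
    _ = ∑ h : ZMod r, (if 2 * a * h = 0 then (r : ℝ) else 0) := by
        apply Finset.sum_congr rfl
        intro h _
        rw [norm_mul, hnorm, one_mul]
        split_ifs <;> simp
    _ = ((Finset.univ.filter (fun h : ZMod r => 2 * a * h = 0)).card : ℝ) * r := by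
        rw [← Finset.sum_filter, Finset.sum_const, nsmul_eq_mul]
    _ ≤ 2 * r := by
        have := aux_card r a ha
        have h3 : ((Finset.univ.filter (fun h : ZMod r => 2 * a * h = 0)).card : ℝ) ≤ 2 := by
          exact_mod_cast this
        exact mul_le_mul_of_nonneg_right h3 (Nat.cast_nonneg r)

/-- size of a quadratic Gauss sum -/
theorem Gq_norm (x : ℚ) : ‖Gq x‖ ≤ √2 / √(x.den : ℝ) := by
  haveI : NeZero x.den := ⟨x.den_nz⟩
  set r := x.den with hr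
  have hr0 : (0 : ℝ) < r := by
    have := x.den_pos
    exact_mod_cast this
  have hunit : IsUnit ((x.num : ℤ) : ZMod r) := by
    rw [ZMod.coe_int_isUnit_iff_isCoprime]
    have h := x.reduced
    rw [Int.isCoprime_iff_gcd_eq_one, Int.gcd_comm]
    simpa [Int.gcd, Nat.Coprime] using h
  have hsum : ∑ s ∈ range r, e ((s : ℝ) ^ 2 * (x : ℝ)) =
      ∑ z : ZMod r, ZMod.stdAddChar (((x.num : ℤ) : ZMod r) * z ^ 2) := by
    rw [← aux_sum_range r (fun z => (ZMod.stdAddChar (((x.num : ℤ) : ZMod r) * z ^ 2) : ℂ))]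
    apply Finset.sum_congr rfl
    intro s _
    have h1 : (((x.num : ℤ) : ZMod r) * (s : ZMod r) ^ 2) = ((x.num * (s : ℤ) ^ 2 : ℤ) : ZMod r) := by
      push_cast; rfl
    rw [h1, ZMod.stdAddChar_coe]
    unfold e
    congr 1
    have hx : (x : ℝ) = (x.num : ℝ) / (r : ℝ) := by
      rw [hr]; exact_mod_cast (Rat.num_div_den x).symm
    rw [hx]
    push_cast
    ring
  unfold Gq Gr
  rw [← hr, hsum, norm_mul]
  have hg := aux_gauss r _ hunit
  set S := ‖∑ z : ZMod r, ZMod.stdAddChar (((x.num : ℤ) : ZMod r) * z ^ 2)‖ with hS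
  have hS0 : 0 ≤ S := norm_nonneg _
  have h3 : S ≤ √2 * √(r : ℝ) := by
    rw [← Real.sqrt_mul (by norm_num), ← Real.sqrt_sq hS0]
    exact Real.sqrt_le_sqrt hg
  have h4 : ‖(1 : ℂ) / (r : ℂ)‖ = 1 / (r : ℝ) := by
    rw [norm_div, norm_one, Complex.norm_natCast]
  rw [h4]
  have hsr : 0 < √(r : ℝ) := Real.sqrt_pos.mpr hr0
  rw [le_div_iff₀ hsr]
  have h5 : √(r : ℝ) * √(r : ℝ) = r := Real.mul_self_sqrt hr0.le
  calc 1 / (r : ℝ) * S * √(r : ℝ) ≤ 1 / (r : ℝ) * (√2 * √(r : ℝ)) * √(r : ℝ) := by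
        gcongr
    _ = √2 * (√(r : ℝ) * √(r : ℝ)) / r := by ring
    _ = √2 := by rw [h5]; field_simp

/-- partial fractions at one prime -/
theorem partial_frac (x : ℚ) (p : ℕ) (hp : p.Prime) :
    ∃ xp x' : ℚ, x = xp + x' ∧ (∃ n : ℕ, xp.den = p ^ n) ∧ ¬ p ∣ x'.den ∧ x'.den ∣ x.den := by
  obtain ⟨n, m, hm, hd⟩ := Nat.exists_eq_pow_mul_and_not_dvd x.den_ne_zero p hp.ne_one
  have hcop : Nat.Coprime (p ^ n) m := Nat.Coprime.pow_left n ((Nat.Prime.coprime_iff_not_dvd hp).2 hm)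
  obtain ⟨u, v, huv⟩ := (Nat.isCoprime_iff_coprime.2 hcop)
  have hm0 : (m : ℚ) ≠ 0 := by
    intro h
    apply hm
    rw [Nat.cast_eq_zero.1 h]
    exact dvd_zero p
  have hp0 : ((p ^ n : ℕ) : ℚ) ≠ 0 := by
    exact_mod_cast (pow_ne_zero n hp.ne_zero)
  have huv' : (u : ℚ) * ((p ^ n : ℕ) : ℚ) + (v : ℚ) * (m : ℚ) = 1 := by exact_mod_cast huv
  have h1 : ((((x.num * v : ℤ) : ℚ) / (((p ^ n : ℕ) : ℤ) : ℚ)).den : ℤ) ∣ ((p ^ n : ℕ) : ℤ) := by
    rw [← Rat.divInt_eq_div]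
    exact Rat.den_dvd _ _
  have h2 : ((((x.num * u : ℤ) : ℚ) / ((m : ℤ) : ℚ)).den : ℤ) ∣ (m : ℤ) := by
    rw [← Rat.divInt_eq_div]
    exact Rat.den_dvd _ _
  refine ⟨((x.num * v : ℤ) : ℚ) / (((p ^ n : ℕ) : ℤ) : ℚ), ((x.num * u : ℤ) : ℚ) / ((m : ℤ) : ℚ),
    ?_, ?_, ?_, ?_⟩
  · have hx : x = (x.num : ℚ) / ((p ^ n : ℕ) * m : ℚ) := by
      conv_lhs => rw [← Rat.num_div_den x]
      congr 1
      exact_mod_cast hd
    conv_lhs => rw [hx]
    rw [Int.cast_natCast, Int.cast_natCast, Int.cast_mul, Int.cast_mul]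
    rw [div_add_div _ _ hp0 hm0]
    congr 1
    linear_combination (-(x.num : ℚ)) * huv'
  · obtain ⟨k, -, hk⟩ := (Nat.dvd_prime_pow hp).1 (Int.natCast_dvd_natCast.1 h1)
    exact ⟨k, hk⟩
  · intro h
    exact hm (h.trans (Int.natCast_dvd_natCast.1 h2))
  · refine (Int.natCast_dvd_natCast.1 h2).trans ?_
    conv_rhs => rw [hd]
    exact dvd_mul_left m _

theorem dc_den_dvd (n : ℕ) (z : ℚ) : ((n : ℚ) ^ 2 * z).den ∣ z.den := by
  have h := Rat.mul_den_dvd ((n : ℚ) ^ 2) z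
  have h1 : ((n : ℚ) ^ 2).den = 1 := by
    have h2 : ((n : ℚ) ^ 2) = ((n ^ 2 : ℕ) : ℚ) := by push_cast; ring
    rw [h2]
    exact Rat.den_natCast _
  rwa [h1, one_mul] at h

theorem dc_pow (t p i : ℕ) (hp : p.Prime) (hpt : p ∣ t) (z : ℚ)
    (h : p ∣ (((t ^ i : ℕ) : ℚ) ^ 2 * z).den) : p ^ (2 * i + 1) ∣ z.den := by
  obtain ⟨y, hy⟩ : ∃ y : ℚ, y = ((t ^ i : ℕ) : ℚ) ^ 2 * z := ⟨_, rfl⟩
  rw [← hy] at h
  have e1 : (y.num : ℚ) * (z.den : ℚ) = ((t ^ i : ℕ) : ℚ) ^ 2 * (z.num : ℚ) * (y.den : ℚ) := by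
    have h1 : y * y.den = y.num := Rat.mul_den_eq_num y
    have h2 : z * z.den = z.num := Rat.mul_den_eq_num z
    rw [← h1, ← h2]
    nth_rewrite 1 [hy]
    ring
  have e2 : y.num * (z.den : ℤ) = ((t ^ i : ℕ) : ℤ) ^ 2 * z.num * (y.den : ℤ) := by
    exact_mod_cast e1
  have h3 : ((p ^ (2 * i + 1) : ℕ) : ℤ) ∣ y.num * (z.den : ℤ) := by
    rw [e2]
    have h4 : ((p ^ (2 * i + 1) : ℕ) : ℤ) = ((p ^ i : ℕ) : ℤ) ^ 2 * (p : ℤ) := by
      push_cast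
      ring
    rw [h4]
    have h5 : ((p ^ i : ℕ) : ℤ) ∣ ((t ^ i : ℕ) : ℤ) := by
      exact_mod_cast pow_dvd_pow_of_dvd hpt i
    have h6 : (p : ℤ) ∣ (y.den : ℤ) := by exact_mod_cast h
    exact mul_dvd_mul (Dvd.dvd.mul_right (pow_dvd_pow_of_dvd h5 2) _) h6
  have h7 : p ^ (2 * i + 1) ∣ y.num.natAbs * z.den := by
    have h8 := Int.natAbs_dvd_natAbs.2 h3
    rwa [Int.natAbs_mul, Int.natAbs_natCast, Int.natAbs_natCast] at h8
  have h9 : Nat.Coprime (p ^ (2 * i + 1)) y.num.natAbs := by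
    apply Nat.Coprime.pow_left
    exact (Nat.Coprime.coprime_dvd_right h y.reduced).symm
  exact h9.dvd_of_dvd_mul_left h7

theorem dc_dvd_pow (t d : ℕ) (ht : t ≠ 0) (hd : d ≠ 0) (h : ∀ q : ℕ, q.Prime → q ∣ d → q ∣ t) :
    d ∣ t ^ d := by
  rw [← Nat.factorization_le_iff_dvd hd (pow_ne_zero _ ht)]
  intro p
  rw [Nat.factorization_pow]
  change d.factorization p ≤ d * t.factorization p
  by_cases hp : p.Prime
  · by_cases hpd : p ∣ d
    · have h1 : 1 ≤ t.factorization p := (hp.dvd_iff_one_le_factorization ht).1 (h p hp hpd)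
      have h2 : d.factorization p < d := Nat.factorization_lt p hd
      calc d.factorization p ≤ d * 1 := by omega
        _ ≤ d * t.factorization p := Nat.mul_le_mul_left _ h1
    · rw [Nat.factorization_eq_zero_of_not_dvd hpd]
      exact Nat.zero_le _
  · rw [Nat.factorization_eq_zero_of_not_prime _ hp]
    exact Nat.zero_le _

theorem dc_exists (t : ℕ) (ht : t ≠ 0) (x : ℚ) (hx : ∀ q : ℕ, q.Prime → q ∣ x.den → q ∣ t) :
    ∃ j : ℕ, (((t ^ j : ℕ) : ℚ) ^ 2 * x).den = 1 := by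
  obtain ⟨c, hc⟩ := dc_dvd_pow t x.den ht x.den_nz hx
  refine ⟨x.den, ?_⟩
  have h2 : x * x.den = x.num := Rat.mul_den_eq_num x
  have e : ((t ^ x.den : ℕ) : ℚ) ^ 2 * x = (((t ^ x.den : ℕ) * c * x.num : ℤ) : ℚ) := by
    have e1 : ((t ^ x.den : ℕ) : ℚ) = (x.den : ℚ) * (c : ℚ) := by
      rw [hc]
      push_cast
      ring
    calc ((t ^ x.den : ℕ) : ℚ) ^ 2 * x = ((t ^ x.den : ℕ) : ℚ) * (((t ^ x.den : ℕ) : ℚ) * x) := by ring
      _ = ((t ^ x.den : ℕ) : ℚ) * (((x.den : ℚ) * (c : ℚ)) * x) := by rw [← e1]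
      _ = ((t ^ x.den : ℕ) : ℚ) * c * (x * x.den) := by ring
      _ = (((t ^ x.den : ℕ) * c * x.num : ℤ) : ℚ) := by
        rw [h2]
        push_cast
        ring
  rw [e]
  exact Rat.den_intCast _

/-- decay of `Gq (t^(2j) x)` before it becomes `1` -/
theorem decay (t τ : ℕ) (ht : 2 ≤ t) (hτ : 2 ≤ τ) (htq : ∀ q : ℕ, q.Prime → q ∣ t → τ ≤ q)
    (x : ℚ) (hx : ∀ q : ℕ, q.Prime → q ∣ x.den → q ∣ t)
    (Gq_norm : ∀ y : ℚ, ‖Gq y‖ ≤ √2 / √(y.den : ℝ))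
    (Gq_int : ∀ y : ℚ, y.den = 1 → Gq y = 1) :
    ∃ h : ℕ, (∀ j, h ≤ j → Gq (((t ^ j : ℕ) : ℚ) ^ 2 * x) = 1) ∧
      ∀ j < h, ‖Gq (((t ^ j : ℕ) : ℚ) ^ 2 * x)‖ ≤ √2 * (1 / √(τ : ℝ)) ^ (2 * (h - j) - 1) := by
  have ht0 : t ≠ 0 := by omega
  have hex := dc_exists t ht0 x hx
  classical
  obtain ⟨h, hh, hmin⟩ : ∃ h : ℕ, (((t ^ h : ℕ) : ℚ) ^ 2 * x).den = 1 ∧
      ∀ j < h, (((t ^ j : ℕ) : ℚ) ^ 2 * x).den ≠ 1 :=
    ⟨Nat.find hex, Nat.find_spec hex, fun j hj => Nat.find_min hex hj⟩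
  refine ⟨h, fun j hj => ?_, fun j hj => ?_⟩
  · apply Gq_int
    have e : ((t ^ j : ℕ) : ℚ) ^ 2 * x = ((t ^ (j - h) : ℕ) : ℚ) ^ 2 * (((t ^ h : ℕ) : ℚ) ^ 2 * x) := by
      have e1 : t ^ j = t ^ (j - h) * t ^ h := by
        rw [← pow_add]
        congr 1
        omega
      rw [e1]
      push_cast
      ring
    have h1 := dc_den_dvd (t ^ (j - h)) (((t ^ h : ℕ) : ℚ) ^ 2 * x)
    rw [← e, hh] at h1
    exact Nat.dvd_one.1 h1
  · have e : ((t ^ (h - 1) : ℕ) : ℚ) ^ 2 * x =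
        ((t ^ (h - 1 - j) : ℕ) : ℚ) ^ 2 * (((t ^ j : ℕ) : ℚ) ^ 2 * x) := by
      have e1 : t ^ (h - 1) = t ^ (h - 1 - j) * t ^ j := by
        rw [← pow_add]
        congr 1
        omega
      rw [e1]
      push_cast
      ring
    have hne := hmin (h - 1) (by omega)
    obtain ⟨p, hp, hpd⟩ := Nat.exists_prime_and_dvd hne
    have hpt : p ∣ t := hx p hp (hpd.trans (dc_den_dvd _ _))
    rw [e] at hpd
    have h2 := dc_pow t p (h - 1 - j) hp hpt _ hpd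
    have h3 : τ ≤ p := htq p hp hpt
    have h4 : 2 * (h - 1 - j) + 1 = 2 * (h - j) - 1 := by omega
    rw [h4] at h2
    obtain ⟨y, hy⟩ : ∃ y : ℚ, y = ((t ^ j : ℕ) : ℚ) ^ 2 * x := ⟨_, rfl⟩
    rw [← hy] at h2 ⊢
    have h5 : τ ^ (2 * (h - j) - 1) ≤ y.den :=
      (Nat.pow_le_pow_left h3 _).trans (Nat.le_of_dvd y.den_pos h2)
    generalize 2 * (h - j) - 1 = k at h5 ⊢
    have hτ0 : (0 : ℝ) < (τ : ℝ) := by
      have : (2 : ℝ) ≤ (τ : ℝ) := by exact_mod_cast hτ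
      linarith
    have hs : 0 < √(τ : ℝ) := Real.sqrt_pos.2 hτ0
    have h6 : (√(τ : ℝ)) ^ k ≤ √(y.den : ℝ) := by
      apply Real.le_sqrt_of_sq_le
      rw [← pow_mul, mul_comm k 2, pow_mul, Real.sq_sqrt hτ0.le]
      exact_mod_cast h5
    refine (Gq_norm y).trans ?_
    rw [one_div, inv_pow, ← div_eq_mul_inv]
    exact div_le_div_of_nonneg_left (Real.sqrt_nonneg _) (pow_pos hs k) h6

theorem one_prime_geo (h : ℕ) (b C : ℝ) (hb : 0 < b) (hC : 16 ≤ C) (hb64 : b ≤ 1/64) :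
    C * ∑ j ∈ range h, (C * b) ^ j * b ^ (2 * (h - j) - 1) ≤ 1.01 * (C * b) ^ h := by
  induction h with
  | zero => norm_num
  | succ h ih =>
    rw [Finset.sum_range_succ]
    have e1 : ∑ j ∈ range h, (C * b) ^ j * b ^ (2 * (h + 1 - j) - 1)
        = b ^ 2 * ∑ j ∈ range h, (C * b) ^ j * b ^ (2 * (h - j) - 1) := by
      rw [Finset.mul_sum]
      apply Finset.sum_congr rfl
      intro j hj
      have hj' := Finset.mem_range.mp hj
      rw [show 2 * (h + 1 - j) - 1 = (2 * (h - j) - 1) + 2 by omega, pow_add]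
      ring
    rw [e1, show 2 * (h + 1 - h) - 1 = 1 by omega, pow_one]
    have h0 : 0 < (C * b) ^ h := by positivity
    have h1 : b ^ 2 * (C * ∑ j ∈ range h, (C * b) ^ j * b ^ (2 * (h - j) - 1))
        ≤ b ^ 2 * (1.01 * (C * b) ^ h) := mul_le_mul_of_nonneg_left ih (by positivity)
    have h2 : b ^ 2 * 1.01 + C * b ≤ 1.01 * (C * b) := by nlinarith
    have h3 := mul_le_mul_of_nonneg_right h2 h0.le
    rw [pow_succ (C * b) h]
    linarith

/-- one-prime analysis -/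
theorem one_prime (g : ℕ → ℂ) (h : ℕ) (b C : ℝ) (hb : 0 < b) (hC : 16 ≤ C) (hbC : b * (4 * C) ≤ 1)
    (g1 : ∀ j, h ≤ j → g j = 1)
    (g2 : ∀ j < h, ‖g j‖ ≤ √2 * b ^ (2 * (h - j) - 1)) :
    ‖∑ j ∈ range (h + 1), (((C * b) ^ j : ℝ) : ℂ) * (g j - if j = 0 then 0 else g (j - 1)) -
        (((C * b) ^ h : ℝ) : ℂ)‖ ≤ (C * b) ^ h * ((1 + 4 / C) ^ h - 1) ∧
    ∑ j ∈ range (h + 1), (C * b) ^ j * ‖g j - if j = 0 then 0 else g (j - 1)‖ ≤ (1 / 2) ^ h ∧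
    ∀ j, h < j → (g j - if j = 0 then 0 else g (j - 1)) = 0 := by
  have hC0 : 0 < C := by linarith
  have hb64 : b ≤ 1 / 64 := by nlinarith
  have hthird : ∀ j, h < j → (g j - if j = 0 then 0 else g (j - 1)) = 0 := by
    intro j hj
    rw [if_neg (by omega), g1 j hj.le, g1 (j - 1) (by omega), sub_self]
  rcases Nat.eq_zero_or_pos h with h0 | hpos
  · subst h0
    have hg0 : g 0 = 1 := g1 0 (le_refl _)
    refine ⟨?_, ?_, hthird⟩
    · simp [hg0]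
    · simp [hg0]
  · set w := C * b with hw
    have hw0 : 0 < w := by positivity
    have hw4 : w ≤ 1 / 4 := by rw [hw]; linarith
    have hs2 : √2 ≤ 1.415 := by
      rw [Real.sqrt_le_left (by norm_num)]
      norm_num
    have hs0 : 0 ≤ √2 := Real.sqrt_nonneg 2
    have hb2 : b ^ 2 ≤ 1 / 4096 := by nlinarith
    -- bound for the differences
    have hD : ∀ j < h, ‖g j - if j = 0 then 0 else g (j - 1)‖ ≤ √2 * (1 + b ^ 2) * b ^ (2 * (h - j) - 1) := by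
      intro j hj
      have hgj := g2 j hj
      have hbp : 0 ≤ √2 * (b ^ 2 * b ^ (2 * (h - j) - 1)) := by positivity
      by_cases hj0 : j = 0
      · rw [if_pos hj0, sub_zero]
        nlinarith
      · rw [if_neg hj0]
        have hgj1 := g2 (j - 1) (by omega)
        rw [show 2 * (h - (j - 1)) - 1 = (2 * (h - j) - 1) + 2 by omega, pow_add] at hgj1
        calc ‖g j - g (j - 1)‖ ≤ ‖g j‖ + ‖g (j - 1)‖ := norm_sub_le _ _
          _ ≤ √2 * b ^ (2 * (h - j) - 1) + √2 * (b ^ (2 * (h - j) - 1) * b ^ 2) := add_le_add hgj hgj1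
          _ = √2 * (1 + b ^ 2) * b ^ (2 * (h - j) - 1) := by ring
    have hS := one_prime_geo h b C hb hC hb64
    rw [← hw] at hS
    have hSum : C * ∑ j ∈ range h, w ^ j * ‖g j - if j = 0 then 0 else g (j - 1)‖ ≤ 1.5 * w ^ h := by
      have h1 : ∑ j ∈ range h, w ^ j * ‖g j - if j = 0 then 0 else g (j - 1)‖
          ≤ √2 * (1 + b ^ 2) * ∑ j ∈ range h, w ^ j * b ^ (2 * (h - j) - 1) := by
        rw [Finset.mul_sum]
        apply Finset.sum_le_sum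
        intro j hj
        have := mul_le_mul_of_nonneg_left (hD j (Finset.mem_range.mp hj)) (by positivity : (0:ℝ) ≤ w ^ j)
        calc _ ≤ w ^ j * (√2 * (1 + b ^ 2) * b ^ (2 * (h - j) - 1)) := this
          _ = _ := by ring
      have h2 := mul_le_mul_of_nonneg_left h1 hC0.le
      have h3 : √2 * (1 + b ^ 2) ≤ 1.43 := by
        calc √2 * (1 + b ^ 2) ≤ 1.415 * (1 + 1 / 4096) :=
              mul_le_mul hs2 (by linarith) (by positivity) (by norm_num)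
          _ ≤ 1.43 := by norm_num
      have hwh : 0 < w ^ h := by positivity
      have h4 : √2 * (1 + b ^ 2) * (C * ∑ j ∈ range h, w ^ j * b ^ (2 * (h - j) - 1))
          ≤ 1.43 * (1.01 * w ^ h) := by
        apply mul_le_mul h3 hS (by positivity) (by norm_num)
      have h5 : (1.43 : ℝ) * (1.01 * w ^ h) ≤ 1.5 * w ^ h := by
        have : (1.43 : ℝ) * 1.01 ≤ 1.5 := by norm_num
        nlinarith
      calc _ ≤ _ := h2
        _ = √2 * (1 + b ^ 2) * (C * ∑ j ∈ range h, w ^ j * b ^ (2 * (h - j) - 1)) := by ring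
        _ ≤ _ := h4
        _ ≤ _ := h5
    have hgh1 : ‖g (h - 1)‖ ≤ √2 * b := by
      have := g2 (h - 1) (by omega)
      rwa [show 2 * (h - (h - 1)) - 1 = 1 by omega, pow_one] at this
    have hCb : C * (√2 * b) ≤ 0.36 := by
      have h1 : C * b ≤ 1 / 4 := by linarith
      calc C * (√2 * b) = √2 * (C * b) := by ring
        _ ≤ 1.415 * (1 / 4) := mul_le_mul hs2 h1 (by positivity) (by norm_num)
        _ ≤ 0.36 := by norm_num
    have hwh : 0 < w ^ h := by positivity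
    set S := ∑ j ∈ range h, w ^ j * ‖g j - if j = 0 then 0 else g (j - 1)‖ with hSdef
    -- total error
    have hT : S + w ^ h * ‖g (h - 1)‖ ≤ w ^ h * (2 / C) := by
      have h1 : C * (S + w ^ h * ‖g (h - 1)‖) ≤ w ^ h * 2 := by
        have h2 : w ^ h * (C * ‖g (h - 1)‖) ≤ w ^ h * 0.36 :=
          mul_le_mul_of_nonneg_left (le_trans (mul_le_mul_of_nonneg_left hgh1 hC0.le) hCb) hwh.le
        nlinarith
      rw [mul_div_assoc', le_div_iff₀ hC0]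
      linarith
    refine ⟨?_, ?_, hthird⟩
    · rw [Finset.sum_range_succ, if_neg (by omega : ¬ h = 0), g1 h (le_refl _)]
      have e1 : ∑ j ∈ range h, ((w ^ j : ℝ) : ℂ) * (g j - if j = 0 then 0 else g (j - 1))
          + ((w ^ h : ℝ) : ℂ) * (1 - g (h - 1)) - ((w ^ h : ℝ) : ℂ)
          = ∑ j ∈ range h, ((w ^ j : ℝ) : ℂ) * (g j - if j = 0 then 0 else g (j - 1))
          - ((w ^ h : ℝ) : ℂ) * g (h - 1) := by ring
      rw [e1]
      have hn : ∀ j : ℕ, ‖((w ^ j : ℝ) : ℂ)‖ = w ^ j := by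
        intro j
        rw [Complex.norm_real, Real.norm_eq_abs, abs_of_nonneg (by positivity)]
      have h1 : ‖∑ j ∈ range h, ((w ^ j : ℝ) : ℂ) * (g j - if j = 0 then 0 else g (j - 1))‖ ≤ S := by
        refine le_trans (norm_sum_le _ _) (le_of_eq ?_)
        apply Finset.sum_congr rfl
        intro j _
        rw [norm_mul, hn]
      have h2 : ‖((w ^ h : ℝ) : ℂ) * g (h - 1)‖ = w ^ h * ‖g (h - 1)‖ := by
        rw [norm_mul, hn]
      have h3 : (h:ℝ) * (4 / C) ≤ (1 + 4 / C) ^ h - 1 := by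
        have h4 : (-2 : ℝ) ≤ 4 / C := le_trans (by norm_num) (by positivity : (0:ℝ) ≤ 4 / C)
        have := one_add_mul_le_pow h4 h
        linarith
      have h5 : (2 : ℝ) / C ≤ (h:ℝ) * (4 / C) := by
        have h6 : (1:ℝ) ≤ (h:ℝ) := by exact_mod_cast hpos
        have h7 : (0:ℝ) ≤ 4 / C := by positivity
        have h8 : (2:ℝ) / C ≤ 4 / C := div_le_div_of_nonneg_right (by norm_num) hC0.le
        nlinarith
      calc _ ≤ ‖∑ j ∈ range h, ((w ^ j : ℝ) : ℂ) * (g j - if j = 0 then 0 else g (j - 1))‖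
            + ‖((w ^ h : ℝ) : ℂ) * g (h - 1)‖ := norm_sub_le _ _
        _ ≤ S + w ^ h * ‖g (h - 1)‖ := by rw [h2]; linarith
        _ ≤ w ^ h * (2 / C) := hT
        _ ≤ w ^ h * ((1 + 4 / C) ^ h - 1) := mul_le_mul_of_nonneg_left (le_trans h5 h3) hwh.le
    · rw [Finset.sum_range_succ, if_neg (by omega : ¬ h = 0), g1 h (le_refl _)]
      have h1 : ‖(1:ℂ) - g (h - 1)‖ ≤ 1 + ‖g (h - 1)‖ := by
        refine le_trans (norm_sub_le _ _) ?_
        rw [norm_one]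
      have h2 : w ^ h * ‖(1:ℂ) - g (h - 1)‖ ≤ w ^ h * (1 + ‖g (h - 1)‖) :=
        mul_le_mul_of_nonneg_left h1 hwh.le
      have h3 : w ^ h * (2 / C) ≤ w ^ h * (1 / 8) := by
        apply mul_le_mul_of_nonneg_left _ hwh.le
        rw [div_le_div_iff₀ hC0 (by norm_num)]
        linarith
      have h4 : w ^ h ≤ (1/4 : ℝ) ^ h := pow_le_pow_left₀ hw0.le hw4 h
      have h5 : ((1:ℝ)/4) ^ h = (1/2) ^ h * (1/2) ^ h := by
        rw [← mul_pow]; norm_num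
      have h6 : ((1:ℝ)/2) ^ h ≤ 1/2 := by
        calc ((1:ℝ)/2) ^ h ≤ (1/2) ^ 1 := pow_le_pow_of_le_one (by norm_num) (by norm_num) hpos
          _ = 1/2 := by norm_num
      have h7 : (0:ℝ) < (1/2) ^ h := by positivity
      have h8 : ((1:ℝ)/2) ^ h * (1/2) ^ h ≤ (1/2) ^ h * (1/2) := mul_le_mul_of_nonneg_left h6 h7.le
      nlinarith

lemma A_bound (h : ℕ) : ∑ j ∈ range h, (999 / 1000 : ℝ) ^ j * (2 * (1 / 2) ^ (h - j)) ≤
    (5 / 2) * (999 / 1000 : ℝ) ^ h := by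
  induction h with
  | zero => norm_num
  | succ h ih =>
    rw [sum_range_succ]
    have h1 : ∑ j ∈ range h, (999 / 1000 : ℝ) ^ j * (2 * (1 / 2) ^ (h + 1 - j))
        = (1 / 2) * ∑ j ∈ range h, (999 / 1000 : ℝ) ^ j * (2 * (1 / 2) ^ (h - j)) := by
      rw [mul_sum]
      refine sum_congr rfl fun j hj => ?_
      have hj' := mem_range.1 hj
      rw [show h + 1 - j = (h - j) + 1 by omega, pow_succ]
      ring
    rw [h1, show h + 1 - h = 1 by omega, pow_succ (999 / 1000 : ℝ) h]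
    have h2 : (0 : ℝ) < (999 / 1000 : ℝ) ^ h := by positivity
    nlinarith

lemma geo (h m : ℕ) : (1 / 1000 : ℂ) * ∑ x ∈ range m, (((999 / 1000 : ℝ) ^ (h + x) : ℝ) : ℂ) +
    (((999 / 1000 : ℝ) ^ (h + m) : ℝ) : ℂ) = (((999 / 1000 : ℝ) ^ h : ℝ) : ℂ) := by
  induction m with
  | zero => norm_num
  | succ m ih =>
    rw [sum_range_succ, ← ih, ← add_assoc h m 1, pow_succ (999 / 1000 : ℝ) (h + m)]
    push_cast
    ring

lemma norm_w (j : ℕ) : ‖(((999 / 1000 : ℝ) ^ j : ℝ) : ℂ)‖ = (999 / 1000 : ℝ) ^ j := by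
  rw [Complex.norm_real, Real.norm_of_nonneg (by positivity)]

/-- the geometric average over the powers of `M` -/
theorem small_part (g : ℕ → ℂ) (h J0 : ℕ) (g1 : ∀ j, h ≤ j → g j = 1)
    (g2 : ∀ j < h, ‖g j‖ ≤ 2 * (1 / 2) ^ (h - j)) :
    ∃ ρ : ℝ, 0 ≤ ρ ∧ ρ ≤ 1 ∧
      ‖(1 / 1000 : ℂ) * ∑ j ∈ range J0, (((999 / 1000 : ℝ) ^ j : ℝ) : ℂ) * g j +
        (((999 / 1000 : ℝ) ^ J0 : ℝ) : ℂ) * g J0 - (ρ : ℂ)‖ ≤
        (1 / 400) * ρ + 2 * (999 / 1000 : ℝ) ^ J0 := by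
  rcases le_or_gt h J0 with hle | hlt
  · obtain ⟨m, rfl⟩ := Nat.exists_eq_add_of_le hle
    refine ⟨(999 / 1000 : ℝ) ^ h, by positivity, pow_le_one₀ (by norm_num) (by norm_num), ?_⟩
    have e1 : (1 / 1000 : ℂ) * ∑ j ∈ range (h + m), (((999 / 1000 : ℝ) ^ j : ℝ) : ℂ) * g j +
        (((999 / 1000 : ℝ) ^ (h + m) : ℝ) : ℂ) * g (h + m) - (((999 / 1000 : ℝ) ^ h : ℝ) : ℂ)
        = (1 / 1000 : ℂ) * ∑ j ∈ range h, (((999 / 1000 : ℝ) ^ j : ℝ) : ℂ) * g j := by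
      rw [sum_range_add, g1 (h + m) (by omega)]
      have e2 : ∑ x ∈ range m, (((999 / 1000 : ℝ) ^ (h + x) : ℝ) : ℂ) * g (h + x)
          = ∑ x ∈ range m, (((999 / 1000 : ℝ) ^ (h + x) : ℝ) : ℂ) := by
        refine sum_congr rfl fun x _ => ?_
        rw [g1 (h + x) (by omega), mul_one]
      rw [e2]
      have e3 := geo h m
      linear_combination e3
    rw [e1, norm_mul]
    have e4 : ‖∑ j ∈ range h, (((999 / 1000 : ℝ) ^ j : ℝ) : ℂ) * g j‖ ≤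
        ∑ j ∈ range h, (999 / 1000 : ℝ) ^ j * (2 * (1 / 2) ^ (h - j)) := by
      refine (norm_sum_le _ _).trans (sum_le_sum fun j hj => ?_)
      rw [norm_mul, norm_w]
      exact mul_le_mul_of_nonneg_left (g2 j (mem_range.1 hj)) (by positivity)
    have e5 := A_bound h
    have e6 : ‖(1 / 1000 : ℂ)‖ = 1 / 1000 := by norm_num
    rw [e6]
    have e7 : (0 : ℝ) < (999 / 1000 : ℝ) ^ (h + m) := by positivity
    linarith
  · refine ⟨0, le_rfl, zero_le_one, ?_⟩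
    rw [Complex.ofReal_zero, sub_zero, mul_zero, zero_add]
    have e4 : ‖∑ j ∈ range J0, (((999 / 1000 : ℝ) ^ j : ℝ) : ℂ) * g j‖ ≤
        ∑ j ∈ range J0, (999 / 1000 : ℝ) ^ j * (2 * (1 / 2) ^ (J0 - j)) := by
      refine (norm_sum_le _ _).trans (sum_le_sum fun j hj => ?_)
      have hj' := mem_range.1 hj
      rw [norm_mul, norm_w]
      refine mul_le_mul_of_nonneg_left ((g2 j (by omega)).trans ?_) (by positivity)
      refine mul_le_mul_of_nonneg_left ?_ (by norm_num)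
      exact pow_le_pow_of_le_one (by norm_num) (by norm_num) (by omega)
    have e5 := A_bound J0
    have e6 : ‖(1 / 1000 : ℂ)‖ = 1 / 1000 := by norm_num
    have e8 : ‖g J0‖ ≤ 1 := by
      refine (g2 J0 hlt).trans ?_
      have : ((1 : ℝ) / 2) ^ (h - J0) ≤ (1 / 2) ^ 1 :=
        pow_le_pow_of_le_one (by norm_num) (by norm_num) (by omega)
      linarith
    have e7 : (0 : ℝ) < (999 / 1000 : ℝ) ^ J0 := by positivity
    refine (norm_add_le _ _).trans ?_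
    rw [norm_mul, norm_mul, norm_w, e6]
    nlinarith

theorem Om_congr (w : ℕ → ℝ) (ps : List ℕ) (k : ℕ) (ψ ψ' : ℕ → ℂ) (hps : ∀ p ∈ ps, p.Prime)
    (h : ∀ d : ℕ, 1 ≤ d → (∀ q : ℕ, q.Prime → q ∣ d → q ∈ ps) → ψ d = ψ' d) :
    Om w ps k ψ = Om w ps k ψ' := by
  induction ps generalizing k ψ ψ' with
  | nil =>
    simp only [Om]
    apply h 1 le_rfl
    intro q hq hq1
    exact absurd (Nat.dvd_one.1 hq1) hq.one_lt.ne'
  | cons p ps ih =>
    simp only [Om]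
    apply sum_congr rfl
    intro j hj
    have hp : p.Prime := hps p (by simp)
    have key : ∀ i : ℕ, Om w ps (k - j) (fun d => ψ (p ^ i * d))
        = Om w ps (k - j) (fun d => ψ' (p ^ i * d)) := by
      intro i
      apply ih
      · intro q hq
        exact hps q (List.mem_cons_of_mem _ hq)
      · intro d hd hq
        apply h
        · exact Nat.one_le_iff_ne_zero.2 (Nat.mul_ne_zero (pow_ne_zero _ hp.ne_zero) (by omega))
        · intro q hqp hqd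
          rcases (Nat.Prime.dvd_mul hqp).1 hqd with h1 | h1
          · have := (Nat.prime_dvd_prime_iff_eq hqp hp).1 (hqp.dvd_of_dvd_pow h1)
            simp [this]
          · exact List.mem_cons_of_mem _ (hq q hqp h1)
    rw [key j, key (j - 1)]

theorem Om_mul (w : ℕ → ℝ) (ps : List ℕ) (k : ℕ) (c : ℂ) (ψ : ℕ → ℂ) :
    Om w ps k (fun d => c * ψ d) = c * Om w ps k ψ := by
  induction ps generalizing k ψ with
  | nil => simp only [Om]
  | cons p ps ih =>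
    simp only [Om]
    rw [mul_sum]
    apply sum_congr rfl
    intro j hj
    rw [ih (k - j) (fun d => ψ (p ^ j * d)), ih (k - j) (fun d => ψ (p ^ (j - 1) * d))]
    split_ifs
    · ring
    · ring

theorem Om_sub (w : ℕ → ℝ) (ps : List ℕ) (k : ℕ) (ψ ψ' : ℕ → ℂ) :
    Om w ps k (fun d => ψ d - ψ' d) = Om w ps k ψ - Om w ps k ψ' := by
  induction ps generalizing k ψ ψ' with
  | nil => simp only [Om]
  | cons p ps ih =>
    simp only [Om]
    rw [← sum_sub_distrib]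
    apply sum_congr rfl
    intro j hj
    rw [ih (k - j) (fun d => ψ (p ^ j * d)) (fun d => ψ' (p ^ j * d)),
      ih (k - j) (fun d => ψ (p ^ (j - 1) * d)) (fun d => ψ' (p ^ (j - 1) * d))]
    split_ifs
    · ring
    · ring

theorem Om_const (w : ℕ → ℝ) (ps : List ℕ) (k : ℕ) (c : ℂ) :
    Om w ps k (fun _ => c) = c := by
  induction ps generalizing k with
  | nil => simp only [Om]
  | cons p ps ih =>
    simp only [Om]
    rw [sum_range_succ']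
    simp [ih]

theorem om_aux (N : ℝ) (hN : 1 ≤ N) (k : ℕ) :
    ∑ j ∈ range (k + 1), (1 / 2 : ℝ) ^ j * N ^ (k - j) ≤ (N + 1) ^ k := by
  induction k with
  | zero => simp
  | succ k ih =>
    rw [Finset.sum_range_succ]
    have h1 : ∑ j ∈ range (k + 1), (1 / 2 : ℝ) ^ j * N ^ (k + 1 - j) =
        N * ∑ j ∈ range (k + 1), (1 / 2 : ℝ) ^ j * N ^ (k - j) := by
      rw [Finset.mul_sum]
      refine Finset.sum_congr rfl fun j hj => ?_
      rw [Finset.mem_range] at hj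
      have h2 : k + 1 - j = (k - j) + 1 := by omega
      rw [h2, pow_succ]
      ring
    rw [h1]
    have h3 : (1 / 2 : ℝ) ^ (k + 1) * N ^ (k + 1 - (k + 1)) ≤ 1 := by
      rw [Nat.sub_self, pow_zero, mul_one]
      exact pow_le_one₀ (by norm_num) (by norm_num)
    have h4 : 1 ≤ (N + 1) ^ k := one_le_pow₀ (by linarith)
    have h5 : N * ∑ j ∈ range (k + 1), (1 / 2 : ℝ) ^ j * N ^ (k - j) ≤ N * (N + 1) ^ k :=
      mul_le_mul_of_nonneg_left ih (by linarith)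
    have h6 : (N + 1) ^ (k + 1) = N * (N + 1) ^ k + (N + 1) ^ k := by ring
    rw [h6]
    linarith

theorem Om_norm (w : ℕ → ℝ) (ps : List ℕ) (k P : ℕ) (ψ : ℕ → ℂ) (B : ℝ) (hB : 0 ≤ B)
    (hw : ∀ p ∈ ps, 0 ≤ w p ∧ w p ≤ 1 / 4) (hP : ∀ p ∈ ps, 1 ≤ p ∧ p ≤ P) (hP1 : 1 ≤ P)
    (h : ∀ d : ℕ, 1 ≤ d → d ≤ P ^ k → ‖ψ d‖ ≤ B) :
    ‖Om w ps k ψ‖ ≤ ((ps.length : ℝ) + 1) ^ k * B := by
  induction ps generalizing k ψ with
  | nil =>
    simp only [Om, List.length_nil, Nat.cast_zero, zero_add, one_pow, one_mul]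
    exact h 1 le_rfl (Nat.one_le_pow _ _ hP1)
  | cons p ps ih =>
    obtain ⟨N, hN⟩ : ∃ N : ℝ, N = (ps.length : ℝ) + 1 := ⟨_, rfl⟩
    have hN1 : 1 ≤ N := by
      rw [hN]
      have : (0:ℝ) ≤ ps.length := Nat.cast_nonneg _
      linarith
    have ih' : ∀ (k' : ℕ) (ψ' : ℕ → ℂ), (∀ d : ℕ, 1 ≤ d → d ≤ P ^ k' → ‖ψ' d‖ ≤ B) →
        ‖Om w ps k' ψ'‖ ≤ N ^ k' * B := by
      intro k' ψ' h'
      rw [hN]
      exact ih k' ψ' (fun q hq => hw q (List.mem_cons_of_mem _ hq))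
        (fun q hq => hP q (List.mem_cons_of_mem _ hq)) h'
    obtain ⟨hw0, hw1⟩ := hw p List.mem_cons_self
    obtain ⟨hp1, hp2⟩ := hP p List.mem_cons_self
    have hlen : (((p :: ps).length : ℝ) + 1) = N + 1 := by
      rw [hN]; push_cast [List.length_cons]; ring
    rw [hlen]
    unfold Om
    have hterm : ∀ j ∈ range (k + 1), ‖((w p ^ j : ℝ) : ℂ) *
      (Om w ps (k - j) (fun d => ψ (p ^ j * d)) -
        if j = 0 then 0 else Om w ps (k - j) (fun d => ψ (p ^ (j - 1) * d)))‖ ≤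
        (1 / 2 : ℝ) ^ j * N ^ (k - j) * B := by
      intro j hj
      rw [Finset.mem_range] at hj
      have hA : ‖Om w ps (k - j) (fun d => ψ (p ^ j * d))‖ ≤ N ^ (k - j) * B := by
        apply ih'
        intro d hd1 hd2
        apply h
        · exact Nat.mul_pos (Nat.pow_pos hp1) hd1
        · calc p ^ j * d ≤ P ^ j * P ^ (k - j) :=
              Nat.mul_le_mul (Nat.pow_le_pow_left hp2 j) hd2
            _ = P ^ k := by rw [← pow_add]; congr 1; omega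
      rw [norm_mul, Complex.norm_real, Real.norm_eq_abs, abs_of_nonneg (pow_nonneg hw0 j)]
      by_cases hj0 : j = 0
      · subst hj0
        simpa using hA
      · rw [if_neg hj0]
        have hB' : ‖Om w ps (k - j) (fun d => ψ (p ^ (j - 1) * d))‖ ≤ N ^ (k - j) * B := by
          apply ih'
          intro d hd1 hd2
          apply h
          · exact Nat.mul_pos (Nat.pow_pos hp1) hd1
          · calc p ^ (j - 1) * d ≤ P ^ (j - 1) * P ^ (k - j) :=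
                Nat.mul_le_mul (Nat.pow_le_pow_left hp2 (j - 1)) hd2
              _ = P ^ (k - 1) := by rw [← pow_add]; congr 1; omega
              _ ≤ P ^ k := Nat.pow_le_pow_right hP1 (by omega)
        have h3 : ‖Om w ps (k - j) (fun d => ψ (p ^ j * d)) -
            Om w ps (k - j) (fun d => ψ (p ^ (j - 1) * d))‖ ≤ 2 * (N ^ (k - j) * B) := by
          refine (norm_sub_le _ _).trans ?_
          linarith
        have h4 : w p ^ j ≤ (1 / 4 : ℝ) ^ j := pow_le_pow_left₀ hw0 hw1 j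
        have h5 : (1 / 4 : ℝ) ^ j * 2 ≤ (1 / 2 : ℝ) ^ j := by
          have h6 : (1 / 4 : ℝ) ^ j = (1 / 2 : ℝ) ^ j * (1 / 2 : ℝ) ^ j := by
            rw [← mul_pow]; norm_num
          have h7 : (1 / 2 : ℝ) ^ j ≤ 1 / 2 := by
            obtain ⟨m, rfl⟩ : ∃ m, j = m + 1 := ⟨j - 1, by omega⟩
            rw [pow_succ]
            have : (1 / 2 : ℝ) ^ m ≤ 1 := pow_le_one₀ (by norm_num) (by norm_num)
            linarith
          have h8 : (0:ℝ) < (1 / 2 : ℝ) ^ j := by positivity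
          rw [h6]
          nlinarith
        have h9 : 0 ≤ N ^ (k - j) * B := by positivity
        calc w p ^ j * ‖Om w ps (k - j) (fun d => ψ (p ^ j * d)) -
            Om w ps (k - j) (fun d => ψ (p ^ (j - 1) * d))‖
            ≤ (1 / 4 : ℝ) ^ j * (2 * (N ^ (k - j) * B)) :=
              mul_le_mul h4 h3 (norm_nonneg _) (by positivity)
          _ = ((1 / 4 : ℝ) ^ j * 2) * (N ^ (k - j) * B) := by ring
          _ ≤ (1 / 2 : ℝ) ^ j * (N ^ (k - j) * B) := mul_le_mul_of_nonneg_right h5 h9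
          _ = _ := by ring
    calc _ ≤ ∑ j ∈ range (k + 1), (1 / 2 : ℝ) ^ j * N ^ (k - j) * B :=
          norm_sum_le_of_le _ hterm
      _ = (∑ j ∈ range (k + 1), (1 / 2 : ℝ) ^ j * N ^ (k - j)) * B := by
          rw [Finset.sum_mul]
      _ ≤ (N + 1) ^ k * B := mul_le_mul_of_nonneg_right (om_aux N hN1 k) hB

theorem den_dvd (m : ℕ) (x : ℚ) : ((m : ℚ) ^ 2 * x).den ∣ x.den := by
  have h : ((m : ℚ) ^ 2 * x) = ((m ^ 2 : ℕ) : ℚ) * x := by push_cast; rfl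
  rw [h]
  have := Rat.mul_den_dvd ((m ^ 2 : ℕ) : ℚ) x
  rwa [Rat.den_natCast, one_mul] at this

theorem step_eval (w : ℕ → ℝ) (p : ℕ) (qs : List ℕ) (hp : p.Prime) (hpq : p ∉ qs)
    (hqs : ∀ q ∈ qs, q.Prime) (x xp x' x1 : ℚ) (hx : x = xp + x') (n : ℕ) (hxp : xp.den = p ^ n)
    (hx' : ¬ p ∣ x'.den) (hx1 : x1.den ∣ x'.den) (E' : ℕ → ℂ)
    (IH : ∀ (k c : ℕ), (∀ q ∈ qs, ¬ q ∣ c) →
      Om w qs k (fun d => Gq (((c * d : ℕ) : ℚ) ^ 2 * x')) = Gq ((c : ℚ) ^ 2 * x1) * E' k)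
    (c : ℕ) (hcp : ¬ p ∣ c) (hc : ∀ q ∈ qs, ¬ q ∣ c) (i m : ℕ) :
    Om w qs m (fun d => Gq (((c * (p ^ i * d) : ℕ) : ℚ) ^ 2 * x)) =
      Gq (((p ^ i : ℕ) : ℚ) ^ 2 * xp) * (Gq ((c : ℚ) ^ 2 * x1) * E' m) := by
  have h1 : Om w qs m (fun d => Gq (((c * (p ^ i * d) : ℕ) : ℚ) ^ 2 * x)) =
      Om w qs m (fun d => Gq (((p ^ i : ℕ) : ℚ) ^ 2 * xp) *
        Gq ((((c * p ^ i) * d : ℕ) : ℚ) ^ 2 * x')) := by
    apply Om_congr w qs m _ _ hqs
    intro d hd hdq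
    have hpd : ¬ p ∣ d := fun h => hpq (hdq p hp h)
    rw [hx, mul_add, Gq_mul]
    · have e1 : Gq (((c * (p ^ i * d) : ℕ) : ℚ) ^ 2 * xp) = Gq (((p ^ i : ℕ) : ℚ) ^ 2 * xp) := by
        have e : ((c * (p ^ i * d) : ℕ) : ℚ) ^ 2 * xp =
            ((c * d : ℕ) : ℚ) ^ 2 * (((p ^ i : ℕ) : ℚ) ^ 2 * xp) := by push_cast; ring
        rw [e]
        apply Gq_unit
        refine Nat.Coprime.coprime_dvd_right (den_dvd _ _) ?_
        rw [hxp]
        apply Nat.Coprime.pow_right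
        rw [Nat.coprime_comm, hp.coprime_iff_not_dvd]
        intro h
        rcases (hp.dvd_mul).1 h with h | h
        · exact hcp h
        · exact hpd h
      have e2 : c * (p ^ i * d) = c * p ^ i * d := by ring
      rw [e1, e2]
    · refine Nat.Coprime.coprime_dvd_left (den_dvd _ _)
        (Nat.Coprime.coprime_dvd_right (den_dvd _ _) ?_)
      rw [hxp]
      exact Nat.Coprime.pow_left n ((hp.coprime_iff_not_dvd).2 hx')
  rw [h1, Om_mul, IH m (c * p ^ i) ?_]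
  · congr 2
    have e : ((c * p ^ i : ℕ) : ℚ) ^ 2 * x1 = ((p ^ i : ℕ) : ℚ) ^ 2 * ((c : ℚ) ^ 2 * x1) := by
      push_cast; ring
    rw [e]
    apply Gq_unit
    refine Nat.Coprime.coprime_dvd_right ((den_dvd _ _).trans hx1) ?_
    exact Nat.Coprime.pow_left i ((hp.coprime_iff_not_dvd).2 hx')
  · intro q hq h
    have hqp := hqs q hq
    rcases (hqp.dvd_mul).1 h with h | h
    · exact hc q hq h
    · have h2 := hqp.dvd_of_dvd_pow h
      have h3 := (Nat.prime_dvd_prime_iff_eq hqp hp).1 h2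
      subst h3
      exact hpq hq

theorem big_norm (S A' : ℂ) (u ρ' a : ℝ) (m n : ℕ) (hu : 0 ≤ u) (hρ : 0 ≤ ρ') (ha : 0 ≤ a)
    (h1 : ‖S - (u : ℂ)‖ ≤ u * ((1 + a) ^ m - 1)) (h2 : ‖A' - (ρ' : ℂ)‖ ≤ ρ' * ((1 + a) ^ n - 1)) :
    ‖S * A' - ((u * ρ' : ℝ) : ℂ)‖ ≤ u * ρ' * ((1 + a) ^ (m + n) - 1) := by
  have hA : ‖A'‖ ≤ ρ' * (1 + a) ^ n := by
    have e : A' = (A' - (ρ' : ℂ)) + (ρ' : ℂ) := by ring
    rw [e]
    refine (norm_add_le _ _).trans ?_
    rw [Complex.norm_real, Real.norm_of_nonneg hρ]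
    linarith
  have e : S * A' - ((u * ρ' : ℝ) : ℂ) = (S - (u : ℂ)) * A' + (u : ℂ) * (A' - (ρ' : ℂ)) := by
    push_cast; ring
  rw [e]
  refine (norm_add_le _ _).trans ?_
  rw [norm_mul, norm_mul, Complex.norm_real, Real.norm_of_nonneg hu]
  have hp1 : 1 ≤ (1 + a) ^ m := one_le_pow₀ (by linarith)
  have h3 : ‖S - (u : ℂ)‖ * ‖A'‖ ≤ (u * ((1 + a) ^ m - 1)) * (ρ' * (1 + a) ^ n) :=
    mul_le_mul h1 hA (norm_nonneg _) (mul_nonneg hu (by linarith))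
  have h4 : u * ‖A' - (ρ' : ℂ)‖ ≤ u * (ρ' * ((1 + a) ^ n - 1)) := mul_le_mul_of_nonneg_left h2 hu
  refine (add_le_add h3 h4).trans (le_of_eq ?_)
  rw [pow_add]
  ring

theorem big (C : ℝ) (hC : 16 ≤ C) (w : ℕ → ℝ) (ps : List ℕ) (hnd : ps.Nodup)
    (hps : ∀ p ∈ ps, p.Prime) (hw : ∀ p ∈ ps, w p = C * (1 / √(p : ℝ)))
    (hpC : ∀ p ∈ ps, (1 / √(p : ℝ)) * (4 * C) ≤ 1) (x : ℚ) :
    ∃ (x1 : ℚ) (h : ℕ) (E : ℕ → ℂ) (A : ℂ) (ρ : ℝ),
      (∀ p ∈ ps, ¬ p ∣ x1.den) ∧ x1.den ∣ x.den ∧ 0 < ρ ∧ ρ ≤ 1 ∧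
      (∀ (k c : ℕ), (∀ p ∈ ps, ¬ p ∣ c) →
        Om w ps k (fun d => Gq (((c * d : ℕ) : ℚ) ^ 2 * x)) = Gq ((c : ℚ) ^ 2 * x1) * E k) ∧
      (∀ k, h ≤ k → E k = A) ∧ ‖A - (ρ : ℂ)‖ ≤ ρ * ((1 + 4 / C) ^ h - 1) ∧
      (∀ k, ‖E k‖ ≤ (1 / 2) ^ h) := by
  induction ps generalizing x with
  | nil =>
    refine ⟨x, 0, fun _ => 1, 1, 1, by simp, dvd_rfl, one_pos, le_rfl, ?_, fun _ _ => rfl,
      by simp, by simp⟩
    intro k c _
    show Gq (((c * 1 : ℕ) : ℚ) ^ 2 * x) = Gq ((c : ℚ) ^ 2 * x) * 1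
    rw [mul_one, mul_one]
  | cons p qs ih =>
    have hp : p.Prime := hps p (by simp)
    have hpq : p ∉ qs := (List.nodup_cons.1 hnd).1
    have hqs : ∀ q ∈ qs, q.Prime := fun q hq => hps q (by simp [hq])
    obtain ⟨xp, x', hx, ⟨n, hxp⟩, hx', hx'd⟩ := partial_frac x p hp
    obtain ⟨x1, h', E', A', ρ', i1, i2, i3, i4, i5, i6, i7, i8⟩ :=
      ih (List.nodup_cons.1 hnd).2 hqs (fun q hq => hw q (by simp [hq]))
        (fun q hq => hpC q (by simp [hq])) x'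
    obtain ⟨hh, d1, d2⟩ := decay p p hp.two_le hp.two_le
      (fun q hq hqp => ((Nat.prime_dvd_prime_iff_eq hq hp).1 hqp).symm.le) xp (fun q hq hqd => by
        rw [hxp] at hqd
        exact hq.dvd_of_dvd_pow hqd) Gq_norm Gq_int
    set g : ℕ → ℂ := fun j => Gq (((p ^ j : ℕ) : ℚ) ^ 2 * xp) with hg
    have hp0 : (0:ℝ) < p := by exact_mod_cast hp.pos
    have hb : 0 < 1 / √(p : ℝ) := by positivity
    obtain ⟨o1, o2, o3⟩ := one_prime g hh (1 / √(p : ℝ)) C hb hC (hpC p (by simp)) d1 d2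
    rw [← hw p (by simp)] at o1 o2
    have hwp : w p = C * (1 / √(p : ℝ)) := hw p (by simp)
    have hwpos : 0 < w p := by
      rw [hwp]
      have : 0 < C := by linarith
      positivity
    have hw1 : w p ≤ 1 := by
      rw [hwp]
      have h1 := hpC p (by simp)
      have h2 : 0 ≤ C * (1 / √(p : ℝ)) := by
        rw [← hwp]
        exact hwpos.le
      linarith
    set D : ℕ → ℂ := fun j => g j - if j = 0 then 0 else g (j - 1) with hD
    have ho1 : ‖∑ j ∈ range (hh + 1), ((w p ^ j : ℝ) : ℂ) * D j - ((w p ^ hh : ℝ) : ℂ)‖ ≤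
        w p ^ hh * ((1 + 4 / C) ^ hh - 1) := o1
    have ho2 : ∑ j ∈ range (hh + 1), w p ^ j * ‖D j‖ ≤ (1 / 2) ^ hh := o2
    have ho3 : ∀ j, hh < j → D j = 0 := o3
    refine ⟨x1, hh + h', fun k => ∑ j ∈ range (k + 1), ((w p ^ j : ℝ) : ℂ) * D j * E' (k - j),
      (∑ j ∈ range (hh + 1), ((w p ^ j : ℝ) : ℂ) * D j) * A', w p ^ hh * ρ', ?_, ?_, ?_, ?_, ?_,
      ?_, ?_, ?_⟩
    · intro q hq
      rcases List.mem_cons.1 hq with rfl | hq
      · exact fun h => hx' (h.trans i2)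
      · exact i1 q hq
    · exact i2.trans hx'd
    · positivity
    · calc w p ^ hh * ρ' ≤ 1 * 1 := mul_le_mul (pow_le_one₀ hwpos.le hw1) i4 i3.le zero_le_one
        _ = 1 := one_mul 1
    · intro k c hc
      have hcp : ¬ p ∣ c := hc p (by simp)
      have hcq : ∀ q ∈ qs, ¬ q ∣ c := fun q hq => hc q (by simp [hq])
      have hev := fun i m => step_eval w p qs hp hpq hqs x xp x' x1 hx n hxp hx' i2 E' i5 c hcp
        hcq i m
      show ∑ j ∈ range (k + 1), ((w p ^ j : ℝ) : ℂ) *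
        (Om w qs (k - j) (fun d => Gq (((c * (p ^ j * d) : ℕ) : ℚ) ^ 2 * x)) -
          if j = 0 then 0 else
            Om w qs (k - j) (fun d => Gq (((c * (p ^ (j - 1) * d) : ℕ) : ℚ) ^ 2 * x))) = _
      rw [Finset.mul_sum]
      refine Finset.sum_congr rfl fun j _ => ?_
      rw [hev, hev]
      simp only [hD, hg]
      split_ifs <;> ring
    · intro k hk
      have hs : range (hh + 1) ⊆ range (k + 1) := by
        intro j hj
        rw [Finset.mem_range] at *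
        omega
      rw [Finset.sum_mul]
      show ∑ j ∈ range (k + 1), ((w p ^ j : ℝ) : ℂ) * D j * E' (k - j) = _
      rw [← Finset.sum_subset hs]
      · refine Finset.sum_congr rfl fun j hj => ?_
        rw [Finset.mem_range] at hj
        rw [i6 (k - j) (by omega)]
      · intro j _ hj
        rw [Finset.mem_range] at hj
        rw [ho3 j (by omega), mul_zero, zero_mul]
    · exact big_norm _ _ _ _ _ _ _ (pow_nonneg hwpos.le _) i3.le (by
        have : 0 < C := by linarith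
        positivity) ho1 i7
    · intro k
      have h1 : ∀ j ∈ range (k + 1), ‖((w p ^ j : ℝ) : ℂ) * D j * E' (k - j)‖ ≤
          w p ^ j * ‖D j‖ * (1 / 2) ^ h' := by
        intro j _
        rw [norm_mul, norm_mul, Complex.norm_real, Real.norm_of_nonneg (pow_nonneg hwpos.le _)]
        exact mul_le_mul_of_nonneg_left (i8 _) (mul_nonneg (pow_nonneg hwpos.le _) (norm_nonneg _))
      refine (norm_sum_le _ _).trans ((Finset.sum_le_sum h1).trans ?_)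
      rw [← Finset.sum_mul, pow_add]
      refine mul_le_mul_of_nonneg_right (le_trans ?_ ho2) (by positivity)
      have h2 : range (k + 1) ⊆ range (max k hh + 1) := by
        intro j hj
        rw [Finset.mem_range] at *
        omega
      have h3 : range (hh + 1) ⊆ range (max k hh + 1) := by
        intro j hj
        rw [Finset.mem_range] at *
        omega
      rw [Finset.sum_subset h3 (by
        intro j _ hj
        rw [Finset.mem_range] at hj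
        rw [ho3 j (by omega), norm_zero, mul_zero])]
      exact Finset.sum_le_sum_of_subset_of_nonneg h2 fun j _ _ =>
        mul_nonneg (pow_nonneg hwpos.le _) (norm_nonneg _)

/-- the full functional -/
noncomputable def Omega (w : ℕ → ℝ) (ps : List ℕ) (n M J0 : ℕ) (ψ : ℕ → ℂ) : ℂ :=
  (1 / 1000 : ℂ) * ∑ j ∈ range J0, (((999 / 1000 : ℝ) ^ j : ℝ) : ℂ) *
      Om w ps n (fun d => ψ (M ^ j * d)) +
    (((999 / 1000 : ℝ) ^ J0 : ℝ) : ℂ) * Om w ps n (fun d => ψ (M ^ J0 * d))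


theorem ll_norm (g : ℕ → ℂ) (J0 : ℕ) (b : ℝ) (hg : ∀ j, ‖g j‖ ≤ b) :
    ‖(1 / 1000 : ℂ) * ∑ j ∈ range J0, (((999 / 1000 : ℝ) ^ j : ℝ) : ℂ) * g j +
        (((999 / 1000 : ℝ) ^ J0 : ℝ) : ℂ) * g J0‖ ≤ b := by
  have h1 : ‖∑ j ∈ range J0, (((999 / 1000 : ℝ) ^ j : ℝ) : ℂ) * g j‖ ≤
      ∑ j ∈ range J0, (999 / 1000 : ℝ) ^ j * b := by
    refine norm_sum_le_of_le _ (fun j _ => ?_)
    rw [norm_mul, Complex.norm_real, Real.norm_eq_abs, abs_of_nonneg (by positivity)]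
    exact mul_le_mul_of_nonneg_left (hg j) (by positivity)
  have h2 : ∑ j ∈ range J0, (999 / 1000 : ℝ) ^ j * b = 1000 * (1 - (999 / 1000 : ℝ) ^ J0) * b := by
    rw [← Finset.sum_mul, geom_sum_eq (by norm_num)]
    ring
  have h3 : ‖(((999 / 1000 : ℝ) ^ J0 : ℝ) : ℂ) * g J0‖ ≤ (999 / 1000 : ℝ) ^ J0 * b := by
    rw [norm_mul, Complex.norm_real, Real.norm_eq_abs, abs_of_nonneg (by positivity)]
    exact mul_le_mul_of_nonneg_left (hg J0) (by positivity)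
  have h4 : ‖(1 / 1000 : ℂ)‖ = 1 / 1000 := by simp
  calc ‖(1 / 1000 : ℂ) * ∑ j ∈ range J0, (((999 / 1000 : ℝ) ^ j : ℝ) : ℂ) * g j +
        (((999 / 1000 : ℝ) ^ J0 : ℝ) : ℂ) * g J0‖
      ≤ ‖(1 / 1000 : ℂ) * ∑ j ∈ range J0, (((999 / 1000 : ℝ) ^ j : ℝ) : ℂ) * g j‖ +
        ‖(((999 / 1000 : ℝ) ^ J0 : ℝ) : ℂ) * g J0‖ := norm_add_le _ _
    _ ≤ 1 / 1000 * (1000 * (1 - (999 / 1000 : ℝ) ^ J0) * b) + (999 / 1000 : ℝ) ^ J0 * b := by
        rw [norm_mul, h4]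
        rw [h2] at h1
        exact add_le_add (mul_le_mul_of_nonneg_left h1 (by norm_num)) h3
    _ = b := by ring

theorem ll_den (q M j : ℕ) (x1 : ℚ) (hq : q.Prime) (h1 : q ∣ x1.den) (h2 : ¬ q ∣ M)
    (hM : 2 ≤ M) : q ∣ (((M ^ j : ℕ) : ℚ) ^ 2 * x1).den := by
  obtain ⟨c, hc⟩ : ∃ c : ℕ, c = (M ^ j) ^ 2 := ⟨_, rfl⟩
  have hc0 : c ≠ 0 := by
    rw [hc]
    positivity
  have hcq : ((c : ℕ) : ℚ) ≠ 0 := by exact_mod_cast hc0
  have e1 : ((M ^ j : ℕ) : ℚ) ^ 2 * x1 = (c : ℚ) * x1 := by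
    rw [hc]
    push_cast
    ring
  rw [e1]
  have e2 : x1 = (c : ℚ)⁻¹ * ((c : ℚ) * x1) := by
    rw [inv_mul_cancel_left₀ hcq]
  have h3 : x1.den ∣ ((c : ℚ)⁻¹).den * ((c : ℚ) * x1).den := by
    conv_lhs => rw [e2]
    exact Rat.mul_den_dvd _ _
  have h4 : ((c : ℚ)⁻¹).den = c := by
    rw [Rat.inv_natCast_den]
    rw [if_neg hc0]
  rw [h4] at h3
  have h5 : q ∣ c * ((c : ℚ) * x1).den := h1.trans h3
  rcases (Nat.Prime.dvd_mul hq).mp h5 with h | h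
  · exfalso
    apply h2
    rw [hc] at h
    exact hq.dvd_of_dvd_pow (hq.dvd_of_dvd_pow h)
  · exact h

theorem ll_half (a b : ℝ) (ha : 0 < a) (h2 : 2 ≤ b) (h3 : a * b = 1) : a ≤ 1 / 2 := by
  have h5 : a * 2 ≤ a * b := mul_le_mul_of_nonneg_left h2 ha.le
  linarith

theorem ll_pow1000 (n : ℕ) : (999 / 1000 : ℝ) ^ (1000 * (n + 1)) ≤ (1 / 2) ^ (n + 1) := by
  rw [pow_mul]
  apply pow_le_pow_left₀ (pow_nonneg (by norm_num) _)
  refine ll_half _ ((1 + 1 / 999) ^ 1000) (pow_pos (by norm_num) _) ?_ ?_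
  · have hB := one_add_mul_le_pow (a := (1 / 999 : ℝ)) (by norm_num) 1000
    refine le_trans ?_ hB
    have e : ((1000 : ℕ) : ℝ) = 1000 := by norm_num
    rw [e]
    norm_num
  · rw [← mul_pow]
    have e : (999 / 1000 : ℝ) * (1 + 1 / 999) = 1 := by norm_num
    rw [e, one_pow]

theorem ll_exp (n h : ℕ) (hn : 1 ≤ n) (hh : h ≤ n) :
    (1 + 4 / (1000 * (n : ℝ))) ^ h - 1 ≤ 1 / 200 := by
  have hn0 : (0 : ℝ) < n := by exact_mod_cast hn
  have h1 : (1 + 4 / (1000 * (n : ℝ))) ^ h ≤ (1 + 4 / (1000 * (n : ℝ))) ^ n := by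
    apply pow_le_pow_right₀ _ hh
    have : 0 ≤ 4 / (1000 * (n : ℝ)) := by positivity
    linarith
  have h2 : (1 + 4 / (1000 * (n : ℝ))) ^ n ≤ Real.exp (4 / 1000) := by
    have h3 : 1 + 4 / (1000 * (n : ℝ)) ≤ Real.exp (4 / (1000 * (n : ℝ))) := by
      have := Real.add_one_le_exp (4 / (1000 * (n : ℝ)))
      linarith
    calc (1 + 4 / (1000 * (n : ℝ))) ^ n ≤ (Real.exp (4 / (1000 * (n : ℝ)))) ^ n :=
          pow_le_pow_left₀ (by positivity) h3 n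
      _ = Real.exp (4 / 1000) := by
          rw [← Real.exp_nat_mul]
          congr 1
          field_simp
  have h4 : Real.exp (4 / 1000) ≤ 1 + 1 / 200 := by
    have h5 := Real.add_one_le_exp (-(4 / 1000) : ℝ)
    have h6 : Real.exp (4 / 1000) * Real.exp (-(4 / 1000)) = 1 := by
      rw [← Real.exp_add, add_neg_cancel, Real.exp_zero]
    have h7 := Real.exp_pos (4 / 1000)
    nlinarith
  linarith

theorem local_lemma (n : ℕ) (hn : 1 ≤ n) (w : ℕ → ℝ) (ps : List ℕ) (M J0 P : ℕ) (hM : 2 ≤ M)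
    (hJ0 : J0 = 1000 * (n + 1)) (hMps : ∀ p ∈ ps, ¬ p ∣ M) (hps : ∀ p ∈ ps, p.Prime)
    (hP : 2 * 4 ^ n ≤ P)
    (hcov : ∀ q : ℕ, q.Prime → q ∣ M ∨ q ∈ ps ∨ P ≤ q) (x : ℚ)
    (hbig : ∃ (x1 : ℚ) (h : ℕ) (E : ℕ → ℂ) (A : ℂ) (ρ : ℝ),
      (∀ p ∈ ps, ¬ p ∣ x1.den) ∧ x1.den ∣ x.den ∧ 0 < ρ ∧ ρ ≤ 1 ∧
      (∀ (k c : ℕ), (∀ p ∈ ps, ¬ p ∣ c) →
        Om w ps k (fun d => Gq (((c * d : ℕ) : ℚ) ^ 2 * x)) = Gq ((c : ℚ) ^ 2 * x1) * E k) ∧
      (∀ k, h ≤ k → E k = A) ∧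
      ‖A - (ρ : ℂ)‖ ≤ ρ * ((1 + 4 / (1000 * (n : ℝ))) ^ h - 1) ∧
      (∀ k, ‖E k‖ ≤ (1 / 2) ^ h)) :
    ∃ ρ : ℝ, 0 ≤ ρ ∧ ρ ≤ 1 ∧
      ‖Omega w ps n M J0 (fun d => Gq ((d : ℚ) ^ 2 * x)) - (ρ : ℂ)‖ ≤
        (1 / 100) * ρ + 2 * (1 / 2) ^ n := by
  obtain ⟨x1, h, E, A, ρb, ha, hb, hρ0, hρ1, hc, hd, he, hf⟩ := hbig
  obtain ⟨g, hg⟩ : ∃ g : ℕ → ℂ, ∀ j, g j = Gq (((M ^ j : ℕ) : ℚ) ^ 2 * x1) := ⟨_, fun j => rfl⟩
  obtain ⟨S, hS⟩ : ∃ S : ℂ, S = (1 / 1000 : ℂ) * ∑ j ∈ range J0,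
      (((999 / 1000 : ℝ) ^ j : ℝ) : ℂ) * g j + (((999 / 1000 : ℝ) ^ J0 : ℝ) : ℂ) * g J0 :=
    ⟨_, rfl⟩
  have hOm : ∀ j, Om w ps n (fun d => Gq (((M ^ j * d : ℕ) : ℚ) ^ 2 * x)) = g j * E n := by
    intro j
    rw [hg]
    exact hc n (M ^ j) (fun p hp hpd => hMps p hp ((hps p hp).dvd_of_dvd_pow hpd))
  have hOmega : Omega w ps n M J0 (fun d => Gq ((d : ℚ) ^ 2 * x)) = S * E n := by
    unfold Omega
    simp only [hOm]
    rw [hS, add_mul, mul_assoc (1 / 1000 : ℂ), Finset.sum_mul]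
    simp only [mul_assoc]
  have hE1 : ‖E n‖ ≤ 1 := (hf n).trans (pow_le_one₀ (by norm_num) (by norm_num))
  have hpow0 : (0 : ℝ) < (1 / 2) ^ n := by positivity
  rw [hOmega]
  by_cases hcase : ∃ q : ℕ, q.Prime ∧ q ∣ x1.den ∧ ¬ q ∣ M
  · obtain ⟨q, hq, hq1, hq2⟩ := hcase
    have hqP : 2 * 4 ^ n ≤ q := by
      rcases hcov q hq with h1 | h1 | h1
      · exact absurd h1 hq2
      · exact absurd hq1 (ha q h1)
      · exact hP.trans h1
    have hgn : ∀ j, ‖g j‖ ≤ (1 / 2) ^ n := by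
      intro j
      rw [hg]
      have h1 := Gq_norm (((M ^ j : ℕ) : ℚ) ^ 2 * x1)
      have h2 := ll_den q M j x1 hq hq1 hq2 hM
      have h3 : 2 * 4 ^ n ≤ (((M ^ j : ℕ) : ℚ) ^ 2 * x1).den :=
        hqP.trans (Nat.le_of_dvd (Rat.den_pos _) h2)
      have h4 : (2 * 4 ^ n : ℝ) ≤ ((((M ^ j : ℕ) : ℚ) ^ 2 * x1).den : ℝ) := by exact_mod_cast h3
      have h5 : √2 * 2 ^ n ≤ √((((M ^ j : ℕ) : ℚ) ^ 2 * x1).den : ℝ) := by
        have e1 : √2 * 2 ^ n = √(2 * 4 ^ n) := by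
          have e2 : (4 : ℝ) ^ n = (2 ^ n) ^ 2 := by
            rw [← pow_mul, mul_comm n 2, pow_mul]
            norm_num
          rw [e2, Real.sqrt_mul (by norm_num), Real.sqrt_sq (by positivity)]
        rw [e1]
        exact Real.sqrt_le_sqrt h4
      have h6 : √2 / √((((M ^ j : ℕ) : ℚ) ^ 2 * x1).den : ℝ) ≤ √2 / (√2 * 2 ^ n) := by
        apply div_le_div_of_nonneg_left (by positivity) (by positivity) h5
      have h7 : √2 / (√2 * 2 ^ n) = (1 / 2) ^ n := by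
        have : √2 ≠ 0 := by positivity
        rw [one_div, inv_pow]
        field_simp
      rw [h7] at h6
      exact h1.trans h6
    have hSn := ll_norm g J0 _ hgn
    rw [← hS] at hSn
    refine ⟨0, le_refl _, by norm_num, ?_⟩
    rw [Complex.ofReal_zero, sub_zero, norm_mul]
    have h1 : ‖S‖ * ‖E n‖ ≤ (1 / 2) ^ n * 1 := mul_le_mul hSn hE1 (norm_nonneg _) hpow0.le
    linarith
  · push Not at hcase
    obtain ⟨hs, hs1, hs2⟩ := decay M 2 hM (le_refl _) (fun q hq _ => hq.two_le) x1 hcase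
      Gq_norm Gq_int
    have hSn : ‖S‖ ≤ 1 := by
      rw [hS]
      exact ll_norm g J0 1 (fun j => by rw [hg]; exact Gq_le_one _)
    obtain ⟨ρs, hr0, hr1, hr2⟩ := small_part g hs J0 (fun j hj => by rw [hg]; exact hs1 j hj)
      (fun j hj => by
        rw [hg]
        refine (hs2 j hj).trans (le_of_eq ?_)
        obtain ⟨l, hl⟩ : ∃ l, hs - j = l + 1 := ⟨hs - j - 1, by omega⟩
        rw [hl]
        have e1 : 2 * (l + 1) - 1 = 2 * l + 1 := by omega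
        have e2 : ((2 : ℕ) : ℝ) = 2 := by norm_num
        rw [e1, e2, pow_succ, pow_mul]
        have e3 : (1 / √2 : ℝ) ^ 2 = 1 / 2 := by
          rw [div_pow, Real.sq_sqrt (by norm_num), one_pow]
        rw [e3, pow_succ (1 / 2 : ℝ) l]
        have e4 : √2 * (1 / √2) = 1 := by
          rw [mul_one_div_cancel (by positivity)]
        calc √2 * ((1 / 2) ^ l * (1 / √2)) = (√2 * (1 / √2)) * (1 / 2) ^ l := by ring
          _ = 2 * ((1 / 2) ^ l * (1 / 2)) := by rw [e4]; ring)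
    rw [← hS] at hr2
    rcases Nat.lt_or_ge n h with hnh | hnh
    · refine ⟨0, le_refl _, by norm_num, ?_⟩
      rw [Complex.ofReal_zero, sub_zero, norm_mul]
      have h1 : ‖E n‖ ≤ (1 / 2) ^ n :=
        (hf n).trans (pow_le_pow_of_le_one (by norm_num) (by norm_num) hnh.le)
      have h2 : ‖S‖ * ‖E n‖ ≤ 1 * (1 / 2) ^ n := mul_le_mul hSn h1 (norm_nonneg _) zero_le_one
      linarith
    · have hEA : E n = A := hd n hnh
      rw [hEA]
      obtain ⟨π0, hπ0⟩ : ∃ π0 : ℝ, π0 = (999 / 1000 : ℝ) ^ J0 := ⟨_, rfl⟩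
      have hπ1 : π0 ≤ (1 / 2) ^ (n + 1) := by
        rw [hπ0, hJ0]
        exact ll_pow1000 n
      have hπ2 : 0 ≤ π0 := by
        rw [hπ0]
        positivity
      rw [← hπ0] at hr2
      have hδ := ll_exp n h hn hnh
      obtain ⟨δ, hδ0⟩ : ∃ δ : ℝ, δ = (1 + 4 / (1000 * (n : ℝ))) ^ h - 1 := ⟨_, rfl⟩
      rw [← hδ0] at hδ he
      have hAρ : ‖A - (ρb : ℂ)‖ ≤ ρb * (1 / 200) :=
        he.trans (mul_le_mul_of_nonneg_left hδ hρ0.le)
      refine ⟨ρs * ρb, mul_nonneg hr0 hρ0.le, mul_le_one₀ hr1 hρ0.le hρ1, ?_⟩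
      have e1 : S * A - ((ρs * ρb : ℝ) : ℂ) = (S - (ρs : ℂ)) * (ρb : ℂ) + S * (A - (ρb : ℂ)) := by
        push_cast
        ring
      have hS2 : ‖S‖ ≤ (1 / 400) * ρs + 2 * π0 + ρs := by
        have h1 : S = (S - (ρs : ℂ)) + (ρs : ℂ) := by ring
        calc ‖S‖ = ‖(S - (ρs : ℂ)) + (ρs : ℂ)‖ := by rw [← h1]
          _ ≤ ‖S - (ρs : ℂ)‖ + ‖(ρs : ℂ)‖ := norm_add_le _ _
          _ ≤ (1 / 400) * ρs + 2 * π0 + ρs := by
              rw [Complex.norm_real, Real.norm_eq_abs, abs_of_nonneg hr0]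
              linarith
      have h2 : ‖(S - (ρs : ℂ)) * (ρb : ℂ)‖ ≤ ((1 / 400) * ρs + 2 * π0) * ρb := by
        rw [norm_mul, Complex.norm_real, Real.norm_eq_abs, abs_of_nonneg hρ0.le]
        exact mul_le_mul_of_nonneg_right hr2 hρ0.le
      have h3 : ‖S * (A - (ρb : ℂ))‖ ≤ ((1 / 400) * ρs + 2 * π0 + ρs) * (ρb * (1 / 200)) := by
        rw [norm_mul]
        exact mul_le_mul hS2 hAρ (norm_nonneg _) (by positivity)
      rw [e1]
      refine (norm_add_le _ _).trans ?_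
      have h4 : π0 * ρb ≤ π0 := by
        calc π0 * ρb ≤ π0 * 1 := mul_le_mul_of_nonneg_left hρ1 hπ2
          _ = π0 := mul_one _
      have h5 : 0 ≤ ρs * ρb := mul_nonneg hr0 hρ0.le
      rw [pow_succ] at hπ1
      nlinarith

theorem minorA_fin (D K B : ℝ) (hD : 1000 ≤ D) (hK : D ^ 39 ≤ K)
    (hB : B ≤ 6 * K / D ^ 8 + 5 * D ^ 27) :
    K + 2 * K * B + 2 * K / (D ^ 7 / K) ≤ (K / D ^ 3) ^ 2 := by
  have hD0 : 0 < D := by linarith
  have hD1 : 1 ≤ D := by linarith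
  have hK0 : 0 < K := lt_of_lt_of_le (by positivity) hK
  have h8 : D ^ 8 ≤ K := le_trans (pow_le_pow_right₀ hD1 (by norm_num)) hK
  have h35 : 10 * D ^ 35 ≤ K := by
    refine le_trans ?_ hK
    have h4 : (10:ℝ) ≤ D ^ 4 := by
      calc (10:ℝ) ≤ D := by linarith
        _ = D ^ 1 := (pow_one D).symm
        _ ≤ D ^ 4 := pow_le_pow_right₀ hD1 (by norm_num)
    calc 10 * D ^ 35 ≤ D ^ 4 * D ^ 35 := mul_le_mul_of_nonneg_right h4 (by positivity)
      _ = D ^ 39 := by ring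
  have h1 : 2 * K * B ≤ 2 * K * (6 * K / D ^ 8 + 5 * D ^ 27) :=
    mul_le_mul_of_nonneg_left hB (by positivity)
  have h2 : K + 2 * K * (6 * K / D ^ 8 + 5 * D ^ 27) + 2 * K / (D ^ 7 / K) =
      (K / D ^ 8) * (D ^ 8 + 12 * K + 10 * D ^ 35 + 2 * K * D) := by
    field_simp
    ring
  have h3 : (K / D ^ 3) ^ 2 = (K / D ^ 8) * (K * D ^ 2) := by
    field_simp
  have h4 : D ^ 8 + 12 * K + 10 * D ^ 35 + 2 * K * D ≤ K * D ^ 2 := by
    have h5 : K * (14 + 2 * D) ≤ K * D ^ 2 := mul_le_mul_of_nonneg_left (by nlinarith) hK0.le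
    nlinarith
  calc K + 2 * K * B + 2 * K / (D ^ 7 / K)
      ≤ K + 2 * K * (6 * K / D ^ 8 + 5 * D ^ 27) + 2 * K / (D ^ 7 / K) := by linarith
    _ = (K / D ^ 8) * (D ^ 8 + 12 * K + 10 * D ^ 35 + 2 * K * D) := h2
    _ ≤ (K / D ^ 8) * (K * D ^ 2) := mul_le_mul_of_nonneg_left h4 (by positivity)
    _ = _ := h3.symm

theorem minorA_case (D K X0 rd r R : ℝ) (hD : 1000 ≤ D) (hK : D ^ 39 ≤ K) (hX0 : X0 ≤ D ^ 41)
    (hX0p : 0 < X0) (hK2 : K ≤ 2 * X0) (hrd : D ^ 8 ≤ rd) (hrdr : rd ≤ r) (hr : r ≤ D ^ 18 * X0)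
    (hR : (R = rd ∧ rd ≤ D ^ 16 * X0) ∨ R = D ^ 16 * X0) :
    (2 * K / R + 1) * (2 * rd * (D ^ 7 / K) + 3) ≤ 6 * K / D ^ 8 + 5 * D ^ 27 := by
  have hD0 : 0 < D := by linarith
  have hD1 : 1 ≤ D := by linarith
  have hK0 : 0 < K := lt_of_lt_of_le (by positivity) hK
  have hrd0 : 0 < rd := lt_of_lt_of_le (by positivity) hrd
  have hXK : X0 ≤ D ^ 2 * K := by
    calc X0 ≤ D ^ 41 := hX0
      _ = D ^ 2 * D ^ 39 := by ring
      _ ≤ D ^ 2 * K := mul_le_mul_of_nonneg_left hK (by positivity)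
  have hp27 : (1000:ℝ) ≤ D ^ 27 := by
    calc (1000:ℝ) ≤ D := hD
      _ = D ^ 1 := (pow_one D).symm
      _ ≤ D ^ 27 := pow_le_pow_right₀ hD1 (by norm_num)
  rcases hR with ⟨hR, hrd2⟩ | hR
  · have e1 : (2 * K / R + 1) * (2 * rd * (D ^ 7 / K) + 3) =
        4 * D ^ 7 + 6 * K / rd + 2 * (rd * D ^ 7 / K) + 3 := by
      rw [hR]
      field_simp
      ring
    rw [e1]
    have h1 : 6 * K / rd ≤ 6 * K / D ^ 8 :=
      div_le_div_of_nonneg_left (by positivity) (by positivity) hrd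
    have h2 : rd * D ^ 7 / K ≤ D ^ 25 := by
      rw [div_le_iff₀ hK0]
      calc rd * D ^ 7 ≤ (D ^ 16 * X0) * D ^ 7 := mul_le_mul_of_nonneg_right hrd2 (by positivity)
        _ = D ^ 23 * X0 := by ring
        _ ≤ D ^ 23 * (D ^ 2 * K) := mul_le_mul_of_nonneg_left hXK (by positivity)
        _ = D ^ 25 * K := by ring
    have h3 : D ^ 25 ≤ D ^ 27 := pow_le_pow_right₀ hD1 (by norm_num)
    have h4 : D ^ 7 ≤ D ^ 27 / 1000 := by
      rw [le_div_iff₀ (by norm_num)]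
      calc D ^ 7 * 1000 ≤ D ^ 7 * D := mul_le_mul_of_nonneg_left hD (by positivity)
        _ = D ^ 8 := by ring
        _ ≤ D ^ 27 := pow_le_pow_right₀ hD1 (by norm_num)
    linarith
  · have h1 : 2 * K / R ≤ 1 := by
      rw [hR, div_le_one (by positivity)]
      have h4 : (4:ℝ) ≤ D ^ 16 := by
        calc (4:ℝ) ≤ D := by linarith
          _ = D ^ 1 := (pow_one D).symm
          _ ≤ D ^ 16 := pow_le_pow_right₀ hD1 (by norm_num)
      nlinarith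
    have h2 : rd * (D ^ 7 / K) ≤ D ^ 27 := by
      rw [← mul_div_assoc, div_le_iff₀ hK0]
      calc rd * D ^ 7 ≤ (D ^ 18 * X0) * D ^ 7 :=
            mul_le_mul_of_nonneg_right (hrdr.trans hr) (by positivity)
        _ = D ^ 25 * X0 := by ring
        _ ≤ D ^ 25 * (D ^ 2 * K) := mul_le_mul_of_nonneg_left hXK (by positivity)
        _ = D ^ 27 * K := by ring
    have h3 : 0 ≤ rd * (D ^ 7 / K) := by positivity
    have h5 : (2 * K / R + 1) * (2 * rd * (D ^ 7 / K) + 3) ≤ 2 * (2 * rd * (D ^ 7 / K) + 3) := by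
      apply mul_le_mul_of_nonneg_right (by linarith)
      nlinarith
    have h6 : 0 ≤ 6 * K / D ^ 8 := by positivity
    nlinarith

theorem minorA (D X0 Y X d r : ℕ) (a : ℤ) (x : ℝ) (hD : 1000 ≤ D) (hY : Y = D ^ 40)
    (hX1 : Y ≤ X) (hX2 : X ≤ X0) (hX0 : X0 ≤ D * Y) (hd1 : 1 ≤ d) (hd2 : d ≤ D)
    (hr1 : D ^ 10 < r) (hr2 : r ≤ D ^ 18 * X0) (hcop : IsCoprime a (r : ℤ))
    (hx : |x - a / r| ≤ 1 / ((D : ℝ) ^ 18 * X0 * r))
    (weyl : ∀ (y δ : ℝ) (b : ℤ) (r R K M : ℕ), 0 < δ → 1 ≤ r → 1 ≤ R → R ≤ r →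
      IsCoprime b (r : ℤ) → M ≤ K →
      ‖∑ k ∈ range M, e ((k : ℝ) ^ 2 * y)‖ ^ 2 ≤
        K + 2 * K * ((2 * K / R + 1) * (2 * r * (δ + R * |y - b / r|) + 1)) + 2 * K / δ)
    (M : ℕ) (hM : M ≤ X / d + 1) :
    ‖∑ k ∈ range M, e ((k : ℝ) ^ 2 * ((d : ℝ) ^ 2 * x))‖ ≤ ((X / d + 1 : ℕ) : ℝ) / (D : ℝ) ^ 3 := by
  have hDr : (1000:ℝ) ≤ D := by exact_mod_cast hD
  have hD0 : (0:ℝ) < D := by linarith
  have hd0 : (0:ℝ) < d := by exact_mod_cast hd1
  have hdD : (d:ℝ) ≤ D := by exact_mod_cast hd2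
  have hXr : (D:ℝ) ^ 40 ≤ X := by
    rw [hY] at hX1
    exact_mod_cast hX1
  have hX0r : (X0:ℝ) ≤ (D:ℝ) ^ 41 := by
    rw [hY] at hX0
    have : (X0:ℝ) ≤ (D:ℝ) * (D:ℝ) ^ 40 := by exact_mod_cast hX0
    calc (X0:ℝ) ≤ (D:ℝ) * (D:ℝ) ^ 40 := this
      _ = (D:ℝ) ^ 41 := by ring
  have hXX0 : (X:ℝ) ≤ X0 := by exact_mod_cast hX2
  have hX0p : (0:ℝ) < X0 := lt_of_lt_of_le (by positivity) (hXr.trans hXX0)
  have hX01 : (1:ℝ) ≤ X0 := by
    have : 0 < X0 := by exact_mod_cast hX0p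
    exact_mod_cast this
  set K : ℕ := X / d + 1 with hKdef
  have hK1 : (D:ℝ) ^ 39 ≤ K := by
    have h1 : X < d * (X / d + 1) := Nat.lt_mul_div_succ X hd1
    have h2 : (X:ℝ) ≤ d * K := by exact_mod_cast h1.le
    have h3 : (D:ℝ) ^ 40 ≤ D * K := by
      calc (D:ℝ) ^ 40 ≤ X := hXr
        _ ≤ d * K := h2
        _ ≤ D * K := mul_le_mul_of_nonneg_right hdD (Nat.cast_nonneg _)
    have h4 : (D:ℝ) * (D:ℝ) ^ 39 ≤ D * K := by
      calc (D:ℝ) * (D:ℝ) ^ 39 = (D:ℝ) ^ 40 := by ring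
        _ ≤ _ := h3
    exact le_of_mul_le_mul_left h4 hD0
  have hK2 : (K:ℝ) ≤ 2 * X0 := by
    have h1 : K ≤ X + 1 := by
      rw [hKdef]
      exact Nat.add_le_add_right (Nat.div_le_self X d) 1
    have h2 : (K:ℝ) ≤ X + 1 := by exact_mod_cast h1
    linarith
  have hr0 : 0 < r := lt_of_le_of_lt (Nat.zero_le _) hr1
  have hgpos : 0 < Nat.gcd r (d ^ 2) := Nat.gcd_pos_of_pos_left _ hr0
  obtain ⟨rd, hrd⟩ := Nat.gcd_dvd_left r (d ^ 2)
  obtain ⟨dd, hdd⟩ := Nat.gcd_dvd_right r (d ^ 2)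
  have hcop2 : Nat.Coprime rd dd := by
    have h1 := Nat.coprime_div_gcd_div_gcd hgpos
    have e1 : r / Nat.gcd r (d ^ 2) = rd := Nat.div_eq_of_eq_mul_right hgpos hrd
    have e2 : d ^ 2 / Nat.gcd r (d ^ 2) = dd := Nat.div_eq_of_eq_mul_right hgpos hdd
    rwa [e1, e2] at h1
  have hgle : Nat.gcd r (d ^ 2) ≤ d ^ 2 :=
    Nat.le_of_dvd (by positivity) (Nat.gcd_dvd_right r (d ^ 2))
  generalize Nat.gcd r (d ^ 2) = g at hgpos hrd hdd hgle
  have hrd0 : 0 < rd := Nat.pos_of_ne_zero (by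
    rintro rfl
    rw [mul_zero] at hrd
    omega)
  have hgr : (0:ℝ) < g := by exact_mod_cast hgpos
  have hrdr0 : (0:ℝ) < rd := by exact_mod_cast hrd0
  have hrr0 : (0:ℝ) < r := by exact_mod_cast hr0
  have hrdR : (r:ℝ) = g * rd := by
    have := congrArg (fun n : ℕ => (n:ℝ)) hrd
    push_cast at this
    exact this
  have hddR : (d:ℝ) ^ 2 = g * dd := by
    have := congrArg (fun n : ℕ => (n:ℝ)) hdd
    push_cast at this
    exact this
  have hgD : (g:ℝ) ≤ (D:ℝ) ^ 2 := by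
    calc (g:ℝ) ≤ (d:ℝ) ^ 2 := by exact_mod_cast hgle
      _ ≤ (D:ℝ) ^ 2 := pow_le_pow_left₀ hd0.le hdD 2
  have hrd8 : (D:ℝ) ^ 8 ≤ rd := by
    have h1 : (D:ℝ) ^ 10 ≤ r := by exact_mod_cast hr1.le
    have h2 : (D:ℝ) ^ 2 * (D:ℝ) ^ 8 ≤ (D:ℝ) ^ 2 * rd := by
      calc (D:ℝ) ^ 2 * (D:ℝ) ^ 8 = (D:ℝ) ^ 10 := by ring
        _ ≤ (r:ℝ) := h1
        _ = (g:ℝ) * (rd:ℝ) := hrdR
        _ ≤ (D:ℝ) ^ 2 * (rd:ℝ) := mul_le_mul_of_nonneg_right hgD hrdr0.le
    exact le_of_mul_le_mul_left h2 (by positivity)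
  have hrdler : (rd:ℝ) ≤ r := by
    have : rd ≤ r := by
      rw [hrd]
      exact Nat.le_mul_of_pos_left rd hgpos
    exact_mod_cast this
  have hrle : (r:ℝ) ≤ (D:ℝ) ^ 18 * X0 := by exact_mod_cast hr2
  have hb : IsCoprime (a * (dd : ℤ)) (rd : ℤ) := by
    refine IsCoprime.mul_left ?_ ?_
    · refine IsCoprime.of_isCoprime_of_dvd_right hcop ?_
      exact ⟨(g : ℤ), by rw [hrd]; push_cast; ring⟩
    · exact Nat.isCoprime_iff_coprime.2 hcop2.symm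
  have hγ : (d : ℝ) ^ 2 * x - ((a * (dd : ℤ) : ℤ) : ℝ) / (rd : ℝ) = (d : ℝ) ^ 2 * (x - a / r) := by
    push_cast
    have h1 : (a:ℝ) * dd / rd = (d : ℝ) ^ 2 * (a / r) := by
      rw [hddR, hrdR]
      field_simp
    rw [h1]
    ring
  have hγ2 : |(d : ℝ) ^ 2 * x - ((a * (dd : ℤ) : ℤ) : ℝ) / (rd : ℝ)| ≤
      1 / ((D:ℝ) ^ 16 * X0 * r) := by
    rw [hγ, abs_mul, abs_of_nonneg (by positivity : (0:ℝ) ≤ (d:ℝ) ^ 2)]
    calc (d:ℝ) ^ 2 * |x - a / r| ≤ (D:ℝ) ^ 2 * (1 / ((D : ℝ) ^ 18 * X0 * r)) :=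
          mul_le_mul (pow_le_pow_left₀ hd0.le hdD 2) hx (abs_nonneg _) (by positivity)
      _ = 1 / ((D:ℝ) ^ 16 * X0 * r) := by
          field_simp
  have hX0n : 0 < X0 := by exact_mod_cast hX0p
  have hR1 : 1 ≤ min rd (D ^ 16 * X0) := by
    refine le_min hrd0 ?_
    have : 0 < D ^ 16 * X0 := Nat.mul_pos (pow_pos (by omega) _) hX0n
    exact this
  have hw := weyl ((d : ℝ) ^ 2 * x) ((D:ℝ) ^ 7 / K) (a * (dd : ℤ)) rd (min rd (D ^ 16 * X0)) K M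
    (by positivity) hrd0 hR1 (min_le_left _ _) hb hM
  have hRr : ((min rd (D ^ 16 * X0) : ℕ) : ℝ) ≤ (D:ℝ) ^ 16 * X0 := by
    exact_mod_cast min_le_right rd (D ^ 16 * X0)
  have hR0 : (0:ℝ) < ((min rd (D ^ 16 * X0) : ℕ) : ℝ) := by exact_mod_cast hR1
  have hRcase : ((((min rd (D ^ 16 * X0) : ℕ) : ℝ)) = rd ∧ (rd:ℝ) ≤ (D:ℝ) ^ 16 * X0) ∨
      (((min rd (D ^ 16 * X0) : ℕ) : ℝ)) = (D:ℝ) ^ 16 * X0 := by
    rcases le_total rd (D ^ 16 * X0) with h | h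
    · left
      rw [min_eq_left h]
      exact ⟨rfl, by exact_mod_cast h⟩
    · right
      rw [min_eq_right h]
      push_cast
      ring
  generalize min rd (D ^ 16 * X0) = R at hw hRr hR0 hRcase
  have hcase := minorA_case D K X0 rd r R hDr hK1 hX0r hX0p hK2 hrd8 hrdler hrle hRcase
  have hKpos : (0:ℝ) < K := lt_of_lt_of_le (by positivity) hK1
  have hRγ : (R:ℝ) * rd * |(d : ℝ) ^ 2 * x - ((a * (dd : ℤ) : ℤ) : ℝ) / (rd : ℝ)| ≤ 1 := by
    calc (R:ℝ) * rd * |(d : ℝ) ^ 2 * x - ((a * (dd : ℤ) : ℤ) : ℝ) / (rd : ℝ)|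
        ≤ ((D:ℝ) ^ 16 * X0) * r * (1 / ((D:ℝ) ^ 16 * X0 * r)) := by
          apply mul_le_mul _ hγ2 (abs_nonneg _) (by positivity)
          exact mul_le_mul hRr hrdler hrdr0.le (by positivity)
      _ = 1 := by
          field_simp
  have hB : (2 * (K:ℝ) / R + 1) * (2 * rd * ((D:ℝ) ^ 7 / K +
      R * |(d : ℝ) ^ 2 * x - ((a * (dd : ℤ) : ℤ) : ℝ) / (rd : ℝ)|) + 1) ≤
      6 * K / (D:ℝ) ^ 8 + 5 * (D:ℝ) ^ 27 := by
    refine le_trans ?_ hcase
    apply mul_le_mul_of_nonneg_left _ (by positivity)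
    nlinarith
  have hfin := minorA_fin D K _ hDr hK1 hB
  have hsq := hw.trans hfin
  exact (abs_le_of_sq_le_sq' hsq (by positivity)).2

theorem minorB_step (X : ℕ) (hlip : ∀ k : ℕ, |wt X (k + 1) - wt X k| ≤ 4) (k j : ℕ) :
    |wt X (k + j) - wt X k| ≤ 4 * (j : ℝ) := by
  induction j with
  | zero => simp
  | succ j ih =>
    have h1 := hlip (k + j)
    have h2 : wt X (k + (j + 1)) - wt X k =
        (wt X (k + j + 1) - wt X (k + j)) + (wt X (k + j) - wt X k) := by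
      rw [← add_assoc]; ring
    rw [h2]
    refine (abs_add_le _ _).trans ?_
    push_cast
    linarith

theorem minorB_abel (w : ℕ → ℝ) (z : ℕ → ℂ) (n : ℕ) :
    ∑ m ∈ range n, (w m : ℂ) * z m = (w n : ℂ) * (∑ k ∈ range n, z k) -
      ∑ m ∈ range n, ((w (m + 1) - w m : ℝ) : ℂ) * ∑ k ∈ range (m + 1), z k := by
  induction n with
  | zero => simp
  | succ n ih =>
    rw [Finset.sum_range_succ, ih, Finset.sum_range_succ (fun m =>
      ((w (m + 1) - w m : ℝ) : ℂ) * ∑ k ∈ range (m + 1), z k), Finset.sum_range_succ z n]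
    push_cast
    ring

theorem minorB (X d : ℕ) (hX : 1 ≤ X) (hd1 : 1 ≤ d) (hdX : d ≤ X) (x B : ℝ)
    (hlip : ∀ k : ℕ, |wt X (k + 1) - wt X k| ≤ 4)
    (hB : ∀ M ≤ X / d + 1, ‖∑ k ∈ range M, e ((k : ℝ) ^ 2 * ((d : ℝ) ^ 2 * x))‖ ≤ B) :
    ‖SS X d x‖ ≤ 4 * (d : ℝ) ^ 2 * ((X / d + 1 : ℕ) : ℝ) * B := by
  set K := X / d + 1 with hK
  have hdK : X < d * K := Nat.lt_mul_div_succ X hd1
  let z : ℕ → ℂ := fun m => e ((m : ℝ) ^ 2 * ((d : ℝ) ^ 2 * x))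
  let w : ℕ → ℝ := fun m => wt X (d * m)
  have hw0 : ∀ m, X ≤ d * m → w m = 0 := by
    intro m hm
    simp only [w, wt]
    rw [if_neg (not_lt.2 hm)]
  have e0 : ∀ m : ℕ, e (((d * m : ℕ) : ℝ) ^ 2 * x) = z m := by
    intro m
    simp only [z]
    congr 1
    push_cast
    ring
  have e1 : ∑ m ∈ range X, (wt X (d * m) : ℂ) * e (((d * m : ℕ) : ℝ) ^ 2 * x) =
      ∑ m ∈ range K, (w m : ℂ) * z m := by
    have h1 : ∑ m ∈ range X, (w m : ℂ) * z m = ∑ m ∈ range (X + K), (w m : ℂ) * z m := by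
      refine Finset.sum_subset (Finset.range_subset_range.2 (Nat.le_add_right X K)) fun m _ hm => ?_
      rw [Finset.mem_range, not_lt] at hm
      rw [hw0 m (hm.trans (Nat.le_mul_of_pos_left m hd1))]
      simp
    have h2 : ∑ m ∈ range K, (w m : ℂ) * z m = ∑ m ∈ range (X + K), (w m : ℂ) * z m := by
      refine Finset.sum_subset (Finset.range_subset_range.2 (Nat.le_add_left K X)) fun m _ hm => ?_
      rw [Finset.mem_range, not_lt] at hm
      have h3 : d * K ≤ d * m := Nat.mul_le_mul_left d hm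
      rw [hw0 m (hdK.le.trans h3)]
      simp
    rw [h2, ← h1]
    exact Finset.sum_congr rfl fun m _ => by rw [e0]
  have e2 : ∑ m ∈ range K, (w m : ℂ) * z m =
      - ∑ m ∈ range K, ((w (m + 1) - w m : ℝ) : ℂ) * ∑ k ∈ range (m + 1), z k := by
    rw [minorB_abel w z K, hw0 K hdK.le]
    simp
  have hd0 : (0 : ℝ) ≤ d := Nat.cast_nonneg d
  have e3 : ‖∑ m ∈ range K, (w m : ℂ) * z m‖ ≤ (K : ℝ) * (4 * (d : ℝ) * B) := by
    rw [e2, norm_neg]
    refine (norm_sum_le _ _).trans ?_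
    have h1 : ∀ m ∈ range K, ‖((w (m + 1) - w m : ℝ) : ℂ) * ∑ k ∈ range (m + 1), z k‖ ≤
        4 * (d : ℝ) * B := by
      intro m hm
      rw [Finset.mem_range] at hm
      rw [norm_mul, Complex.norm_real, Real.norm_eq_abs]
      have h2 : |w (m + 1) - w m| ≤ 4 * (d : ℝ) := by
        have := minorB_step X hlip (d * m) d
        have h3 : d * (m + 1) = d * m + d := by ring
        simp only [w]
        rw [h3]
        exact this
      exact mul_le_mul h2 (hB (m + 1) hm) (norm_nonneg _) (by positivity)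
    refine (Finset.sum_le_sum h1).trans ?_
    rw [Finset.sum_const, Finset.card_range, nsmul_eq_mul]
  unfold SS
  rw [e1, norm_mul, Complex.norm_natCast]
  calc (d : ℝ) * ‖∑ m ∈ range K, (w m : ℂ) * z m‖ ≤ (d : ℝ) * ((K : ℝ) * (4 * (d : ℝ) * B)) :=
        mul_le_mul_of_nonneg_left e3 hd0
    _ = 4 * (d : ℝ) ^ 2 * (K : ℝ) * B := by ring

theorem Omega_sub (w : ℕ → ℝ) (ps : List ℕ) (n M J0 : ℕ) (ψ ψ' : ℕ → ℂ) :
    Omega w ps n M J0 (fun d => ψ d - ψ' d) = Omega w ps n M J0 ψ - Omega w ps n M J0 ψ' := by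
  have h : ∀ j : ℕ, Om w ps n (fun d => ψ (M ^ j * d) - ψ' (M ^ j * d)) =
      Om w ps n (fun d => ψ (M ^ j * d)) - Om w ps n (fun d => ψ' (M ^ j * d)) :=
    fun j => Om_sub w ps n (fun d => ψ (M ^ j * d)) (fun d => ψ' (M ^ j * d))
  unfold Omega
  simp only [h, mul_sub, Finset.sum_sub_distrib]
  ring

theorem Omega_mul (w : ℕ → ℝ) (ps : List ℕ) (n M J0 : ℕ) (c : ℂ) (ψ : ℕ → ℂ) :
    Omega w ps n M J0 (fun d => c * ψ d) = c * Omega w ps n M J0 ψ := by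
  have h : ∀ j : ℕ, Om w ps n (fun d => c * ψ (M ^ j * d)) =
      c * Om w ps n (fun d => ψ (M ^ j * d)) :=
    fun j => Om_mul w ps n c (fun d => ψ (M ^ j * d))
  unfold Omega
  simp only [h]
  have h2 : ∑ j ∈ range J0, (((999 / 1000 : ℝ) ^ j : ℝ) : ℂ) *
      (c * Om w ps n (fun d => ψ (M ^ j * d))) =
      c * ∑ j ∈ range J0, (((999 / 1000 : ℝ) ^ j : ℝ) : ℂ) *
        Om w ps n (fun d => ψ (M ^ j * d)) := by
    rw [Finset.mul_sum]
    apply Finset.sum_congr rfl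
    intro j _
    ring
  rw [h2]
  ring

theorem weight_sum (J0 : ℕ) : (1 / 1000 : ℝ) * ∑ j ∈ range J0, (999 / 1000 : ℝ) ^ j +
    (999 / 1000 : ℝ) ^ J0 = 1 := by
  induction J0 with
  | zero => simp
  | succ J ih =>
    rw [Finset.sum_range_succ, pow_succ]
    linarith

theorem Omega_const (w : ℕ → ℝ) (ps : List ℕ) (n M J0 : ℕ) (c : ℂ) :
    Omega w ps n M J0 (fun _ => c) = c := by
  unfold Omega
  simp only [Om_const]
  rw [← Finset.sum_mul, ← mul_assoc, ← add_mul]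
  have h : (1 / 1000 : ℂ) * ∑ j ∈ range J0, (((999 / 1000 : ℝ) ^ j : ℝ) : ℂ) +
    (((999 / 1000 : ℝ) ^ J0 : ℝ) : ℂ) = 1 := by
    have h1 := congrArg Complex.ofReal (weight_sum J0)
    push_cast at h1
    push_cast
    linear_combination h1
  rw [h, one_mul]

theorem Omega_norm (w : ℕ → ℝ) (ps : List ℕ) (n M J0 P D : ℕ) (ψ : ℕ → ℂ) (B : ℝ) (hB : 0 ≤ B)
    (hw : ∀ p ∈ ps, 0 ≤ w p ∧ w p ≤ 1 / 4) (hP : ∀ p ∈ ps, 1 ≤ p ∧ p ≤ P) (hP1 : 1 ≤ P)
    (hM : 1 ≤ M) (hD : M ^ J0 * P ^ n ≤ D)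
    (h : ∀ d : ℕ, 1 ≤ d → d ≤ D → ‖ψ d‖ ≤ B) :
    ‖Omega w ps n M J0 ψ‖ ≤ ((ps.length : ℝ) + 1) ^ n * B := by
  have hj : ∀ j : ℕ, j ≤ J0 → ‖Om w ps n (fun d => ψ (M ^ j * d))‖ ≤
      ((ps.length : ℝ) + 1) ^ n * B := by
    intro j hj
    apply Om_norm w ps n P _ B hB hw hP hP1
    intro d hd1 hd2
    apply h
    · exact Nat.mul_pos (Nat.pow_pos hM) hd1
    · exact (Nat.mul_le_mul (Nat.pow_le_pow_right hM hj) hd2).trans hD
  set C := ((ps.length : ℝ) + 1) ^ n * B with hC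
  have hC0 : 0 ≤ C := by positivity
  unfold Omega
  have h1 : ‖(1 / 1000 : ℂ) * ∑ j ∈ range J0, (((999 / 1000 : ℝ) ^ j : ℝ) : ℂ) *
      Om w ps n (fun d => ψ (M ^ j * d))‖ ≤
      (1 / 1000 : ℝ) * ∑ j ∈ range J0, (999 / 1000 : ℝ) ^ j * C := by
    rw [norm_mul]
    have e1 : ‖(1 / 1000 : ℂ)‖ = 1 / 1000 := by
      rw [norm_div]; simp
    rw [e1]
    apply mul_le_mul_of_nonneg_left _ (by norm_num)
    refine (norm_sum_le _ _).trans (Finset.sum_le_sum fun j hjr => ?_)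
    rw [norm_mul, Complex.norm_real, Real.norm_eq_abs, abs_of_pos (by positivity)]
    exact mul_le_mul_of_nonneg_left (hj j (Finset.mem_range.mp hjr).le) (by positivity)
  have h2 : ‖(((999 / 1000 : ℝ) ^ J0 : ℝ) : ℂ) * Om w ps n (fun d => ψ (M ^ J0 * d))‖ ≤
      (999 / 1000 : ℝ) ^ J0 * C := by
    rw [norm_mul, Complex.norm_real, Real.norm_eq_abs, abs_of_pos (by positivity)]
    exact mul_le_mul_of_nonneg_left (hj J0 le_rfl) (by positivity)
  refine (norm_add_le _ _).trans ((add_le_add h1 h2).trans ?_)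
  rw [← Finset.sum_mul, ← mul_assoc, ← add_mul, weight_sum, one_mul]

/-- square-frequency polynomials without constant term -/
def IsSq0 (H : ℕ) (f : ℝ → ℝ) : Prop :=
  ∃ c : ℕ → ℝ, ∀ x, f x = ∑ k ∈ Finset.Icc 1 H, c k * cos (2 * π * (k : ℝ) ^ 2 * x)

theorem IsSq0_zero (H : ℕ) : IsSq0 H (fun _ => 0) :=
  ⟨fun _ => 0, fun x => by simp⟩

theorem IsSq0_add (H : ℕ) (f g : ℝ → ℝ) (hf : IsSq0 H f) (hg : IsSq0 H g) :
    IsSq0 H (fun x => f x + g x) := by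
  obtain ⟨c, hc⟩ := hf
  obtain ⟨c', hc'⟩ := hg
  refine ⟨fun k => c k + c' k, fun x => ?_⟩
  simp only [hc x, hc' x]
  rw [← Finset.sum_add_distrib]
  exact Finset.sum_congr rfl fun k _ => by ring

theorem IsSq0_smul (H : ℕ) (t : ℝ) (f : ℝ → ℝ) (hf : IsSq0 H f) :
    IsSq0 H (fun x => t * f x) := by
  obtain ⟨c, hc⟩ := hf
  refine ⟨fun k => t * c k, fun x => ?_⟩
  simp only [hc x]
  rw [Finset.mul_sum]
  exact Finset.sum_congr rfl fun k _ => by ring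

theorem IsSq0_sum (H : ℕ) (S : Finset ℕ) (f : ℕ → ℝ → ℝ) (hf : ∀ j ∈ S, IsSq0 H (f j)) :
    IsSq0 H (fun x => ∑ j ∈ S, f j x) := by
  classical
  induction S using Finset.induction_on with
  | empty => simpa using IsSq0_zero H
  | insert a S ha ih =>
    have h1 : (fun x => ∑ j ∈ insert a S, f j x) = fun x => f a x + ∑ j ∈ S, f j x := by
      funext x
      exact Finset.sum_insert ha
    rw [h1]
    exact IsSq0_add H _ _ (hf a (Finset.mem_insert_self a S))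
      (ih fun j hj => hf j (Finset.mem_insert_of_mem hj))

theorem IsSq0_sub (H : ℕ) (f g : ℝ → ℝ) (hf : IsSq0 H f) (hg : IsSq0 H g) :
    IsSq0 H (fun x => f x - g x) := by
  have h1 := IsSq0_add H f (fun x => (-1) * g x) hf (IsSq0_smul H (-1) g hg)
  have h2 : (fun x => f x - g x) = fun x => f x + (-1) * g x := by
    funext x; ring
  rw [h2]
  exact h1

theorem IsSq0_cos (H k : ℕ) (h1 : 1 ≤ k) (h2 : k ≤ H) :
    IsSq0 H (fun x => cos (2 * π * (k : ℝ) ^ 2 * x)) := by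
  classical
  refine ⟨fun j => if j = k then 1 else 0, fun x => ?_⟩
  rw [Finset.sum_eq_single k]
  · simp
  · intro b _ hb
    simp [hb]
  · intro hk
    exact absurd (Finset.mem_Icc.2 ⟨h1, h2⟩) hk

theorem e_re (θ : ℝ) : (e θ).re = cos (2 * π * θ) := by
  unfold e
  exact Complex.exp_ofReal_mul_I_re _

theorem IsSq0_SS (H X d : ℕ) (hX : X ≤ H) : IsSq0 H (fun x => (SS X d x).re) := by
  have h1 : (fun x => (SS X d x).re) = fun x => (d : ℝ) * ∑ m ∈ range X,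
      (wt X (d * m)) * cos (2 * π * ((d * m : ℕ) : ℝ) ^ 2 * x) := by
    funext x
    unfold SS
    have hd : (d : ℂ) = ((d : ℝ) : ℂ) := by push_cast; rfl
    rw [hd, Complex.re_ofReal_mul, Complex.re_sum]
    congr 1
    refine Finset.sum_congr rfl fun m _ => ?_
    rw [Complex.re_ofReal_mul, e_re]
    congr 2
    ring
  rw [h1]
  refine IsSq0_smul H _ _ (IsSq0_sum H _ _ fun m _ => ?_)
  by_cases hw : wt X (d * m) = 0
  · simp only [hw, zero_mul]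
    exact IsSq0_zero H
  · have hlt : d * m < X := by
      by_contra hcon
      exact hw (by unfold wt; rw [if_neg hcon])
    have hpos : 1 ≤ d * m := by
      by_contra hcon
      have h0 : d * m = 0 := by omega
      apply hw
      rw [h0]
      unfold wt
      simp
    exact IsSq0_smul H _ _ (IsSq0_cos H (d * m) hpos (by omega))

theorem IsSq0_Om (H : ℕ) (w : ℕ → ℝ) (ps : List ℕ) (k : ℕ) (ψ : ℝ → ℕ → ℂ)
    (h : ∀ d, IsSq0 H (fun x => (ψ x d).re)) : IsSq0 H (fun x => (Om w ps k (ψ x)).re) := by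
  induction ps generalizing k ψ with
  | nil =>
    simpa only [Om] using h 1
  | cons p ps ih =>
    have h1 : (fun x => (Om w (p :: ps) k (ψ x)).re) = fun x => ∑ j ∈ range (k + 1),
        (w p ^ j) * ((Om w ps (k - j) (fun d => ψ x (p ^ j * d))).re -
          (if j = 0 then 0 else Om w ps (k - j) (fun d => ψ x (p ^ (j - 1) * d))).re) := by
      funext x
      rw [Om, Complex.re_sum]
      refine Finset.sum_congr rfl fun j _ => ?_
      rw [Complex.re_ofReal_mul, Complex.sub_re]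
    rw [h1]
    refine IsSq0_sum H _ _ fun j _ => IsSq0_smul H _ _ (IsSq0_sub H _ _ ?_ ?_)
    · exact ih (k - j) (fun x d => ψ x (p ^ j * d)) fun d => h (p ^ j * d)
    · by_cases hj : j = 0
      · simp only [hj, if_true, Complex.zero_re]
        exact IsSq0_zero H
      · simp only [hj, if_false]
        exact ih (k - j) (fun x d => ψ x (p ^ (j - 1) * d)) fun d => h (p ^ (j - 1) * d)

theorem IsSq0_Omega (H : ℕ) (w : ℕ → ℝ) (ps : List ℕ) (n M J0 : ℕ) (ψ : ℝ → ℕ → ℂ)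
    (h : ∀ d, IsSq0 H (fun x => (ψ x d).re)) : IsSq0 H (fun x => (Omega w ps n M J0 (ψ x)).re) := by
  have h1 : (fun x => (Omega w ps n M J0 (ψ x)).re) = fun x =>
      (1 / 1000 : ℝ) * (∑ j ∈ range J0, ((999 / 1000 : ℝ) ^ j) *
        (Om w ps n (fun d => ψ x (M ^ j * d))).re) +
      ((999 / 1000 : ℝ) ^ J0) * (Om w ps n (fun d => ψ x (M ^ J0 * d))).re := by
    funext x
    unfold Omega
    have hd : (1 / 1000 : ℂ) = ((1 / 1000 : ℝ) : ℂ) := by push_cast; rfl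
    rw [hd, Complex.add_re, Complex.re_ofReal_mul, Complex.re_ofReal_mul, Complex.re_sum]
    congr 2
    refine Finset.sum_congr rfl fun j _ => ?_
    rw [Complex.re_ofReal_mul]
  rw [h1]
  refine IsSq0_add H _ _ (IsSq0_smul H _ _ (IsSq0_sum H _ _ fun j _ => IsSq0_smul H _ _ ?_))
    (IsSq0_smul H _ _ ?_)
  · exact IsSq0_Om H w ps n (fun x d => ψ x (M ^ j * d)) fun d => h (M ^ j * d)
  · exact IsSq0_Om H w ps n (fun x d => ψ x (M ^ J0 * d)) fun d => h (M ^ J0 * d)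

theorem final_ineq_n (B : ℕ) (hB : B ≤ 41 * 10 ^ 11) (H : ℕ) (hH : 2 ≤ H) :
    ∃ n : ℕ, 2 ^ (B * n ^ 3) ≤ H ∧ Real.log H ≤ (17000 * ((n : ℝ) + 1)) ^ 3 := by
  rcases Nat.eq_zero_or_pos B with hB0 | hBpos
  · obtain ⟨n, hn⟩ := exists_nat_ge (Real.log H)
    refine ⟨n, ?_, ?_⟩
    · rw [hB0, zero_mul, pow_zero]; omega
    · have h0 : (0 : ℝ) ≤ n := Nat.cast_nonneg n
      have h1 : (1 : ℝ) ≤ 17000 * ((n : ℝ) + 1) := by linarith
      calc Real.log H ≤ n := hn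
        _ ≤ 17000 * ((n : ℝ) + 1) := by linarith
        _ ≤ (17000 * ((n : ℝ) + 1)) ^ 3 := le_self_pow₀ h1 (by norm_num)
  · have hex : ∃ m : ℕ, H < 2 ^ (B * m ^ 3) := by
      refine ⟨H, ?_⟩
      calc H < 2 ^ H := Nat.lt_two_pow_self
        _ ≤ 2 ^ (B * H ^ 3) := by
          apply Nat.pow_le_pow_right (by norm_num)
          calc H = 1 * H ^ 1 := by ring
            _ ≤ B * H ^ 3 := Nat.mul_le_mul hBpos (Nat.pow_le_pow_right (by omega) (by norm_num))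
    classical
    have hm := Nat.find_spec hex
    have hmin := fun k => Nat.find_min hex (m := k)
    generalize Nat.find hex = m at hm hmin
    have hm0 : m ≠ 0 := by
      rintro rfl
      have e : B * 0 ^ 3 = 0 := by ring
      rw [e, pow_zero] at hm
      omega
    obtain ⟨n, rfl⟩ := Nat.exists_eq_succ_of_ne_zero hm0
    refine ⟨n, not_lt.1 (hmin n (Nat.lt_succ_self n)), ?_⟩
    have hHpos : (0 : ℝ) < (H : ℝ) := by
      have : 0 < H := by omega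
      exact_mod_cast this
    have h1 : (H : ℝ) ≤ (2 : ℝ) ^ (B * (n + 1) ^ 3) := by
      exact_mod_cast hm.le
    have h2 := Real.log_le_log hHpos h1
    rw [Real.log_pow] at h2
    have h3 : Real.log 2 ≤ 7 / 10 := by
      have := Real.log_two_lt_d9
      linarith
    have h4 : (B : ℝ) ≤ 41 * 10 ^ 11 := by exact_mod_cast hB
    have h5 : ((B * (n + 1) ^ 3 : ℕ) : ℝ) = (B : ℝ) * ((n : ℝ) + 1) ^ 3 := by push_cast; ring
    rw [h5] at h2
    have h6 : (0 : ℝ) ≤ ((n : ℝ) + 1) ^ 3 := by positivity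
    have h7 : 0 ≤ Real.log 2 := Real.log_nonneg (by norm_num)
    calc Real.log H ≤ (B : ℝ) * ((n : ℝ) + 1) ^ 3 * Real.log 2 := h2
      _ ≤ (41 * 10 ^ 11) * ((n : ℝ) + 1) ^ 3 * (7 / 10) := by
          apply mul_le_mul _ h3 h7 (by positivity)
          exact mul_le_mul_of_nonneg_right h4 h6
      _ ≤ (17000 * ((n : ℝ) + 1)) ^ 3 := by
          rw [mul_pow]
          have e : (41 * 10 ^ 11 : ℝ) * ((n : ℝ) + 1) ^ 3 * (7 / 10) =
              (41 * 10 ^ 11 * (7 / 10)) * ((n : ℝ) + 1) ^ 3 := by ring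
          rw [e]
          apply mul_le_mul_of_nonneg_right _ h6
          norm_num

theorem final_ineq (δ : ℕ → ℝ) (B : ℕ) (hB : B ≤ 41 * 10 ^ 11) (h1 : ∀ H, δ H ≤ 1)
    (h2 : ∀ n H : ℕ, 1 ≤ n → 2 ^ (B * n ^ 3) ≤ H → δ H ≤ 64 * (1 / 2) ^ n)
    (H : ℕ) (hH : 2 ≤ H) :
    δ H ≤ 128 * Real.exp (-(Real.log H) ^ (1 / 3 : ℝ) / 25000) := by
  obtain ⟨n, hn1, hn2⟩ := final_ineq_n B hB H hH
  have hδ : δ H ≤ 64 * (1 / 2) ^ n := by
    rcases Nat.eq_zero_or_pos n with h0 | hpos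
    · rw [h0, pow_zero]
      linarith [h1 H]
    · exact h2 n H hpos hn1
  have hL0 : 0 ≤ Real.log H := Real.log_nonneg (by
    have : 1 ≤ H := by omega
    exact_mod_cast this)
  have hn0 : (0 : ℝ) ≤ (n : ℝ) + 1 := by positivity
  have h3 : (Real.log H) ^ (1 / 3 : ℝ) ≤ 17000 * ((n : ℝ) + 1) := by
    have h4 := Real.rpow_le_rpow hL0 hn2 (by norm_num : (0 : ℝ) ≤ 1 / 3)
    have h5 : ((17000 * ((n : ℝ) + 1)) ^ 3) ^ (1 / 3 : ℝ) = 17000 * ((n : ℝ) + 1) := by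
      rw [← Real.rpow_natCast, ← Real.rpow_mul (by positivity)]
      norm_num
    rwa [h5] at h4
  have hlog2 : (68 : ℝ) / 100 ≤ Real.log 2 := by
    have := Real.log_two_gt_d9
    linarith
  have h6 : ((n + 1 : ℕ) : ℝ) * (-Real.log 2) ≤ -(Real.log H) ^ (1 / 3 : ℝ) / 25000 := by
    push_cast
    have h7 : (Real.log H) ^ (1 / 3 : ℝ) / 25000 ≤ ((n : ℝ) + 1) * Real.log 2 := by
      rw [div_le_iff₀ (by norm_num)]
      nlinarith [mul_le_mul_of_nonneg_left hlog2 hn0]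
    have h8 : -(Real.log H) ^ (1 / 3 : ℝ) / 25000 = -((Real.log H) ^ (1 / 3 : ℝ) / 25000) := by
      ring
    rw [h8]
    linarith
  have h9 : (1 / 2 : ℝ) ^ (n + 1) = Real.exp (((n + 1 : ℕ) : ℝ) * (-Real.log 2)) := by
    rw [Real.exp_nat_mul, Real.exp_neg, Real.exp_log (by norm_num)]
    norm_num
  calc δ H ≤ 64 * (1 / 2) ^ n := hδ
    _ = 128 * (1 / 2) ^ (n + 1) := by rw [pow_succ]; ring
    _ ≤ 128 * Real.exp (-(Real.log H) ^ (1 / 3 : ℝ) / 25000) := by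
        rw [h9]
        apply mul_le_mul_of_nonneg_left (Real.exp_le_exp.2 h6) (by norm_num)

theorem params (n A D M : ℕ) (hn : 1 ≤ n) (hA : A = 10 ^ 11) (hD : D = 2 ^ (A * n ^ 3))
    (hM : M ≤ 4 ^ ((4000 * n) ^ 2)) :
    1000 ≤ D ∧ M ^ (1000 * (n + 1)) * (2 * 4 ^ n) ^ n ≤ D ∧ (2 * 4 ^ n + 1) ^ n * 2 ^ n ≤ D ∧
      2 ^ (n + 6) ≤ D := by
  have hA' : 100000000000 ≤ A := by rw [hA]; norm_num
  clear hA
  have hb : n ≤ n ^ 2 := by nlinarith
  have hc : n ^ 2 ≤ n ^ 3 := by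
    have : n ^ 3 = n ^ 2 * n := by ring
    rw [this]
    exact Nat.le_mul_of_pos_right _ hn
  have hAc : 100000000000 * n ^ 3 ≤ A * n ^ 3 := Nat.mul_le_mul_right _ hA'
  have hmono : ∀ k : ℕ, k ≤ 100000000000 * n ^ 3 → 2 ^ k ≤ D := by
    intro k hk
    rw [hD]
    exact Nat.pow_le_pow_right (by norm_num) (hk.trans hAc)
  refine ⟨?_, ?_, ?_, ?_⟩
  · refine le_trans ?_ (hmono 10 (by omega))
    norm_num
  · have h1 : M ^ (1000 * (n + 1)) ≤ (4 ^ ((4000 * n) ^ 2)) ^ (1000 * (n + 1)) :=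
      Nat.pow_le_pow_left hM _
    have h2 : (4 ^ ((4000 * n) ^ 2)) ^ (1000 * (n + 1)) * (2 * 4 ^ n) ^ n
        = 2 ^ (2 * ((4000 * n) ^ 2) * (1000 * (n + 1)) + (2 * n + 1) * n) := by
      have e4 : (4 : ℕ) = 2 ^ 2 := by norm_num
      rw [e4, ← pow_mul, ← pow_mul, ← pow_mul, ← pow_succ', ← pow_mul, ← pow_add,
        ← Nat.mul_assoc 2]
    refine (Nat.mul_le_mul_right _ h1).trans ?_
    rw [h2]
    apply hmono
    have e5 : 2 * ((4000 * n) ^ 2) * (1000 * (n + 1)) + (2 * n + 1) * n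
        = 32000000000 * n ^ 3 + 32000000002 * n ^ 2 + n := by ring
    rw [e5]
    omega
  · have h1 : 2 * 4 ^ n + 1 ≤ 2 ^ (2 * n + 2) := by
      have e6 : 2 ^ (2 * n + 2) = 4 * 4 ^ n := by
        rw [pow_add, pow_mul]; norm_num; ring
      have e7 : 1 ≤ 4 ^ n := Nat.one_le_pow _ _ (by norm_num)
      rw [e6]
      omega
    have h2 : (2 * 4 ^ n + 1) ^ n * 2 ^ n ≤ (2 ^ (2 * n + 2)) ^ n * 2 ^ n :=
      Nat.mul_le_mul_right _ (Nat.pow_le_pow_left h1 _)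
    refine h2.trans ?_
    rw [← pow_mul, ← pow_add]
    apply hmono
    have e8 : (2 * n + 2) * n + n = 2 * n ^ 2 + 3 * n := by ring
    rw [e8]
    omega
  · apply hmono
    omega

theorem term_gamma {D X0 X : ℕ} {γ : ℝ} (hD : 1000 ≤ D) (hX1 : D ^ 40 ≤ X) (hX2 : X ≤ X0)
    (hγ : |γ| ≤ 1 / ((D : ℝ) ^ 18 * X0)) : |γ| * (X : ℝ) ≤ 1 / (D : ℝ) ^ 18 := by
  have hD' : (1000 : ℝ) ≤ D := by exact_mod_cast hD
  have hDpos : (0 : ℝ) < D := by linarith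
  have hX1' : (D : ℝ) ^ 40 ≤ X := by exact_mod_cast hX1
  have hXpos : (0 : ℝ) < X := lt_of_lt_of_le (by positivity) hX1'
  have hX2' : (X : ℝ) ≤ X0 := by exact_mod_cast hX2
  have hX0pos : (0 : ℝ) < X0 := lt_of_lt_of_le hXpos hX2'
  have h1 : |γ| * (X : ℝ) ≤ 1 / ((D : ℝ) ^ 18 * X0) * X :=
    mul_le_mul_of_nonneg_right hγ hXpos.le
  refine h1.trans ?_
  rw [div_mul_eq_mul_div, one_mul, div_le_div_iff₀ (by positivity) (by positivity), one_mul]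
  have : 0 < (D : ℝ) ^ 18 := by positivity
  nlinarith

theorem term_major (D X0 X d r : ℕ) (γ : ℝ) (hD : 1000 ≤ D) (hX1 : D ^ 40 ≤ X) (hX2 : X ≤ X0)
    (hd : d ≤ D) (hr : r ≤ D ^ 10) (hγ : |γ| ≤ 1 / ((D : ℝ) ^ 18 * X0)) :
    2 / (X : ℝ) ^ 2 * (((X : ℝ) + d * r) * (d * r) * (4 + 26 * |γ| * (X : ℝ) ^ 2)) ≤
      1 / (2 * (D : ℝ) ^ 3) := by
  have hD' : (1000 : ℝ) ≤ D := by exact_mod_cast hD
  have hDpos : (0 : ℝ) < D := by linarith
  have hX1' : (D : ℝ) ^ 40 ≤ X := by exact_mod_cast hX1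
  have hXpos : (0 : ℝ) < X := lt_of_lt_of_le (by positivity) hX1'
  have hg := term_gamma hD hX1 hX2 hγ
  have hd' : (d : ℝ) ≤ D := by exact_mod_cast hd
  have hr' : (r : ℝ) ≤ (D : ℝ) ^ 10 := by exact_mod_cast hr
  have hm : (d : ℝ) * r ≤ (D : ℝ) ^ 11 := by
    calc (d : ℝ) * r ≤ D * (D : ℝ) ^ 10 := mul_le_mul hd' hr' (Nat.cast_nonneg _) hDpos.le
      _ = (D : ℝ) ^ 11 := by ring
  have hm0 : 0 ≤ (d : ℝ) * r := by positivity
  generalize (d : ℝ) * r = m at hm hm0 ⊢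
  have hDX : (D : ℝ) ^ 11 ≤ X := by
    refine le_trans ?_ hX1'
    exact pow_le_pow_right₀ (by linarith) (by norm_num)
  have h1 : ((X : ℝ) + m) * m ≤ (2 * X) * (D : ℝ) ^ 11 :=
    mul_le_mul (by linarith) hm hm0 (by positivity)
  have h2 : 4 + 26 * |γ| * (X : ℝ) ^ 2 ≤ 4 + 26 * (1 / (D : ℝ) ^ 18) * X := by
    have : |γ| * (X : ℝ) * X ≤ 1 / (D : ℝ) ^ 18 * X := mul_le_mul_of_nonneg_right hg hXpos.le
    nlinarith
  have h3 : ((X : ℝ) + m) * m * (4 + 26 * |γ| * (X : ℝ) ^ 2) ≤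
      (2 * X) * (D : ℝ) ^ 11 * (4 + 26 * (1 / (D : ℝ) ^ 18) * X) :=
    mul_le_mul h1 h2 (by positivity) (by positivity)
  have h4 : 2 / (X : ℝ) ^ 2 * (((X : ℝ) + m) * m * (4 + 26 * |γ| * (X : ℝ) ^ 2)) ≤
      2 / (X : ℝ) ^ 2 * ((2 * X) * (D : ℝ) ^ 11 * (4 + 26 * (1 / (D : ℝ) ^ 18) * X)) :=
    mul_le_mul_of_nonneg_left h3 (by positivity)
  refine h4.trans ?_
  have h5 : 2 / (X : ℝ) ^ 2 * ((2 * X) * (D : ℝ) ^ 11 * (4 + 26 * (1 / (D : ℝ) ^ 18) * X)) =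
      16 * ((D : ℝ) ^ 11 / X) + 104 / (D : ℝ) ^ 7 := by
    field_simp
    ring
  rw [h5]
  have h6 : (D : ℝ) ^ 11 / X ≤ 1 / (D : ℝ) ^ 29 := by
    rw [div_le_div_iff₀ hXpos (by positivity), one_mul, ← pow_add]
    exact hX1'
  have h7 : 1 / (D : ℝ) ^ 29 ≤ 1 / (D : ℝ) ^ 7 := by
    apply one_div_le_one_div_of_le (by positivity)
    exact pow_le_pow_right₀ (by linarith) (by norm_num)
  have h8 : 16 * ((D : ℝ) ^ 11 / X) + 104 / (D : ℝ) ^ 7 ≤ 120 / (D : ℝ) ^ 7 := by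
    have e : 120 / (D : ℝ) ^ 7 = 16 * (1 / (D : ℝ) ^ 7) + 104 / (D : ℝ) ^ 7 := by ring
    rw [e]
    linarith
  refine h8.trans ?_
  rw [div_le_div_iff₀ (by positivity) (by positivity)]
  have h9 : (1000 : ℝ) ^ 4 ≤ (D : ℝ) ^ 4 := pow_le_pow_left₀ (by norm_num) hD' 4
  have h10 : (D : ℝ) ^ 7 = (D : ℝ) ^ 4 * (D : ℝ) ^ 3 := by ring
  rw [h10]
  have h11 : 0 < (D : ℝ) ^ 3 := by positivity
  nlinarith

theorem term_arch (D X0 X : ℕ) (γ : ℝ) (hD : 1000 ≤ D) (hX1 : D ^ 40 ≤ X) (hX2 : X ≤ X0)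
    (hγ : |γ| ≤ 1 / ((D : ℝ) ^ 18 * X0)) :
    2 / (X : ℝ) ^ 2 * (5 * X + 4 * (X : ℝ) ^ 3 * (2 * π * |γ|)) ≤ 1 / (2 * (D : ℝ) ^ 3) := by
  have hD' : (1000 : ℝ) ≤ D := by exact_mod_cast hD
  have hDpos : (0 : ℝ) < D := by linarith
  have hX1' : (D : ℝ) ^ 40 ≤ X := by exact_mod_cast hX1
  have hXpos : (0 : ℝ) < X := lt_of_lt_of_le (by positivity) hX1'
  have hg := term_gamma hD hX1 hX2 hγ
  have h5 : 2 / (X : ℝ) ^ 2 * (5 * X + 4 * (X : ℝ) ^ 3 * (2 * π * |γ|)) =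
      10 / X + 16 * π * (|γ| * X) := by
    field_simp
    ring
  rw [h5]
  have hpi : π ≤ 4 := Real.pi_le_four
  have hpi0 : 0 < π := Real.pi_pos
  have h1 : 16 * π * (|γ| * X) ≤ 64 * (1 / (D : ℝ) ^ 18) := by
    apply mul_le_mul _ hg (by positivity) (by norm_num)
    linarith
  have h2 : 10 / (X : ℝ) ≤ 10 * (1 / (D : ℝ) ^ 18) := by
    rw [mul_one_div, div_le_div_iff₀ hXpos (by positivity)]
    have : (D : ℝ) ^ 18 ≤ X := by
      refine le_trans ?_ hX1'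
      exact pow_le_pow_right₀ (by linarith) (by norm_num)
    linarith
  have h3 : 10 / (X : ℝ) + 16 * π * (|γ| * X) ≤ 74 / (D : ℝ) ^ 18 := by
    have e : 74 / (D : ℝ) ^ 18 = 10 * (1 / (D : ℝ) ^ 18) + 64 * (1 / (D : ℝ) ^ 18) := by ring
    rw [e]
    linarith
  refine h3.trans ?_
  rw [div_le_div_iff₀ (by positivity) (by positivity)]
  have h9 : (1000 : ℝ) ≤ (D : ℝ) ^ 15 := by
    calc (1000 : ℝ) ≤ D := hD'
      _ = (D : ℝ) ^ 1 := (pow_one _).symm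
      _ ≤ (D : ℝ) ^ 15 := pow_le_pow_right₀ (by linarith) (by norm_num)
  have h10 : (D : ℝ) ^ 18 = (D : ℝ) ^ 15 * (D : ℝ) ^ 3 := by ring
  rw [h10]
  have h11 : 0 < (D : ℝ) ^ 3 := by positivity
  nlinarith

theorem term_minor (D X d : ℕ) (hD : 1000 ≤ D) (hX1 : D ^ 40 ≤ X) (hd1 : 1 ≤ d) (hd : d ≤ D) :
    2 / (X : ℝ) ^ 2 * (4 * (d : ℝ) ^ 2 * ((X / d + 1 : ℕ) : ℝ) *
      (((X / d + 1 : ℕ) : ℝ) / (D : ℝ) ^ 3)) ≤ 1 / (2 * (D : ℝ) ^ 2) := by
  have hD' : (1000 : ℝ) ≤ D := by exact_mod_cast hD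
  have hDpos : (0 : ℝ) < D := by linarith
  have hX1' : (D : ℝ) ^ 40 ≤ X := by exact_mod_cast hX1
  have hXpos : (0 : ℝ) < X := lt_of_lt_of_le (by positivity) hX1'
  have hd' : (d : ℝ) ≤ D := by exact_mod_cast hd
  have hd0 : (0 : ℝ) < d := by exact_mod_cast hd1
  have hdX : (d : ℝ) ≤ X := by
    refine hd'.trans (le_trans ?_ hX1')
    calc (D : ℝ) = (D : ℝ) ^ 1 := (pow_one _).symm
      _ ≤ (D : ℝ) ^ 40 := pow_le_pow_right₀ (by linarith) (by norm_num)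
  have hK : ((X / d + 1 : ℕ) : ℝ) ≤ X / d + 1 := by
    push_cast
    have := Nat.cast_div_le (α := ℝ) (m := X) (n := d)
    linarith
  have hK0 : (0 : ℝ) ≤ ((X / d + 1 : ℕ) : ℝ) := Nat.cast_nonneg _
  generalize ((X / d + 1 : ℕ) : ℝ) = K at hK hK0 ⊢
  have hdK : (d : ℝ) * K ≤ 2 * X := by
    have h1 : (d : ℝ) * K ≤ d * (X / d + 1) := mul_le_mul_of_nonneg_left hK hd0.le
    have h2 : (d : ℝ) * (X / d + 1) = X + d := by
      field_simp
    linarith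
  have hdK0 : 0 ≤ (d : ℝ) * K := by positivity
  have h5 : 2 / (X : ℝ) ^ 2 * (4 * (d : ℝ) ^ 2 * K * (K / (D : ℝ) ^ 3)) =
      8 * ((d : ℝ) * K) ^ 2 / ((X : ℝ) ^ 2 * (D : ℝ) ^ 3) := by
    field_simp
    ring
  rw [h5, div_le_div_iff₀ (by positivity) (by positivity)]
  have h6 : ((d : ℝ) * K) ^ 2 ≤ (2 * X) ^ 2 := pow_le_pow_left₀ hdK0 hdK 2
  have h7 : (D : ℝ) ^ 3 = D * (D : ℝ) ^ 2 := by ring
  have h8 : 0 < (D : ℝ) ^ 2 := by positivity
  rw [h7]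
  have h9 : 8 * ((d : ℝ) * K) ^ 2 * (2 * (D : ℝ) ^ 2) ≤ 64 * ((X : ℝ) ^ 2 * (D : ℝ) ^ 2) := by
    nlinarith
  have h10 : 64 * ((X : ℝ) ^ 2 * (D : ℝ) ^ 2) ≤ D * ((X : ℝ) ^ 2 * (D : ℝ) ^ 2) := by
    apply mul_le_mul_of_nonneg_right _ (by positivity)
    linarith
  calc 8 * ((d : ℝ) * K) ^ 2 * (2 * (D : ℝ) ^ 2) ≤ 64 * ((X : ℝ) ^ 2 * (D : ℝ) ^ 2) := h9
    _ ≤ D * ((X : ℝ) ^ 2 * (D : ℝ) ^ 2) := h10
    _ = 1 * ((X : ℝ) ^ 2 * (D * (D : ℝ) ^ 2)) := by ring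


theorem weyl_gen (y δ : ℝ) (b : ℤ) (r R K M : ℕ) (hδ : 0 < δ) (hr : 1 ≤ r) (hR1 : 1 ≤ R)
    (hR : R ≤ r) (hb : IsCoprime b (r : ℤ)) (hM : M ≤ K) :
    ‖∑ k ∈ range M, e ((k : ℝ) ^ 2 * y)‖ ^ 2 ≤
      K + 2 * K * ((2 * K / R + 1) * (2 * r * (δ + R * |y - b / r|) + 1)) + 2 * K / δ := by
  classical
  have h1 := S_sq_le y δ hδ K M hM
    (fun θ hθ M' => geom_bound θ δ hδ hθ M') (weyl_diff y M)
  have h2 := count_le y δ b r R (2 * K) hr hR1 hR hb hδ.le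
    (fun z => block_count y z δ b r R hr hR hb hδ.le)
  refine h1.trans ?_
  have h3 : (2 * (K : ℝ)) * (((range (2 * K)).filter
      (fun h : ℕ => ∃ m : ℤ, |(h : ℝ) * y - m| ≤ δ)).card : ℝ) ≤
      2 * K * ((2 * K / R + 1) * (2 * r * (δ + R * |y - b / r|) + 1)) := by
    apply mul_le_mul_of_nonneg_left _ (by positivity)
    refine h2.trans (le_of_eq ?_)
    push_cast
    ring
  linarith

/-- scales -/
def XX (m Y i : ℕ) : ℕ := 2 ^ (m - i) * Y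

/-- coefficients -/
noncomputable def cf (m Y i : ℕ) : ℝ := (1 / 2 : ℝ) ^ i * (2 / ((XX m Y i : ℕ) : ℝ) ^ 2)

noncomputable def psi (m Y : ℕ) (x : ℝ) (d : ℕ) : ℂ :=
  ∑ i ∈ range m, ((cf m Y i : ℝ) : ℂ) * SS (XX m Y i) d x

noncomputable def Itot (m Y : ℕ) (γ : ℝ) : ℂ :=
  ∑ i ∈ range m, ((cf m Y i : ℝ) : ℂ) * IX (XX m Y i) γ

noncomputable def Ideal (m : ℕ) (θ : ℝ) : ℂ :=
  ∑ i ∈ range m, (((1 / 2 : ℝ) ^ i : ℝ) : ℂ) * Ph (θ / 4 ^ i)

theorem cf_nonneg (m Y i : ℕ) : 0 ≤ cf m Y i := by unfold cf; positivity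

theorem XX_le (m Y i : ℕ) : XX m Y i ≤ 2 ^ m * Y := by
  unfold XX
  exact Nat.mul_le_mul_right _ (Nat.pow_le_pow_right (by norm_num) (Nat.sub_le _ _))

theorem le_XX (m Y i : ℕ) : Y ≤ XX m Y i := by
  unfold XX
  exact Nat.le_mul_of_pos_left _ (by positivity)

theorem geo_sum (m : ℕ) : ∑ i ∈ range m, (1 / 2 : ℝ) ^ i ≤ 2 := by
  have := sum_geometric_two_le m
  simpa using this

/-- combination of termwise bounds -/
theorem comb (m Y : ℕ) (u : ℕ → ℂ) (B : ℝ)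
    (h : ∀ i < m, 2 / ((XX m Y i : ℕ) : ℝ) ^ 2 * ‖u i‖ ≤ B) (hB : 0 ≤ B) :
    ‖∑ i ∈ range m, ((cf m Y i : ℝ) : ℂ) * u i‖ ≤ 2 * B := by
  calc ‖∑ i ∈ range m, ((cf m Y i : ℝ) : ℂ) * u i‖
      ≤ ∑ i ∈ range m, ‖((cf m Y i : ℝ) : ℂ) * u i‖ := norm_sum_le _ _
    _ ≤ ∑ i ∈ range m, (1 / 2 : ℝ) ^ i * B := by
        apply Finset.sum_le_sum
        intro i hi
        rw [mem_range] at hi
        rw [norm_mul, Complex.norm_real, Real.norm_eq_abs, abs_of_nonneg (cf_nonneg m Y i)]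
        unfold cf
        rw [mul_assoc]
        exact mul_le_mul_of_nonneg_left (h i hi) (by positivity)
    _ = (∑ i ∈ range m, (1 / 2 : ℝ) ^ i) * B := by rw [Finset.sum_mul]
    _ ≤ 2 * B := mul_le_mul_of_nonneg_right (geo_sum m) hB

theorem psi_major (D m Y d r : ℕ) (x0 γ : ℝ) (a : ℤ) (hD : 1000 ≤ D) (hY : Y = D ^ 40)
    (hd1 : 1 ≤ d) (hd : d ≤ D) (hr1 : 1 ≤ r) (hr : r ≤ D ^ 10)
    (hx0 : (r : ℝ) * x0 = a) (hγ : |γ| ≤ 1 / ((D : ℝ) ^ 18 * ((2 ^ m * Y : ℕ) : ℝ))) :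
    ‖psi m Y (x0 + γ) d - Gr r ((d : ℝ) ^ 2 * x0) * Itot m Y γ‖ ≤ 1 / (D : ℝ) ^ 3 := by
  have hDr : (1000 : ℝ) ≤ D := by exact_mod_cast hD
  have hYpos : 1 ≤ Y := by rw [hY]; exact Nat.one_le_pow _ _ (by omega)
  have e1 : psi m Y (x0 + γ) d - Gr r ((d : ℝ) ^ 2 * x0) * Itot m Y γ =
      ∑ i ∈ range m, ((cf m Y i : ℝ) : ℂ) *
        (SS (XX m Y i) d (x0 + γ) - Gr r ((d : ℝ) ^ 2 * x0) * IX (XX m Y i) γ) := by
    unfold psi Itot
    rw [Finset.mul_sum, ← Finset.sum_sub_distrib]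
    apply Finset.sum_congr rfl
    intro i _
    ring
  rw [e1]
  have h2 : (1 : ℝ) / (D : ℝ) ^ 3 = 2 * (1 / (2 * (D : ℝ) ^ 3)) := by field_simp
  rw [h2]
  apply comb _ _ _ _ _ (by positivity)
  intro i _
  have hX1 : 1 ≤ XX m Y i := hYpos.trans (le_XX m Y i)
  have h3 := major (XX m Y i) d r hX1 hd1 hr1 x0 γ (4 + 26 * |γ| * ((XX m Y i : ℕ) : ℝ) ^ 2) a hx0
    (fun k => phi_lip (XX m Y i) k γ) (fun φ hφ X q s => ap_sum φ _ hφ X q s)
  refine le_trans (mul_le_mul_of_nonneg_left h3 (by positivity)) ?_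
  exact term_major D (2 ^ m * Y) (XX m Y i) d r γ hD (hY ▸ le_XX m Y i) (XX_le m Y i) hd hr hγ

theorem Itot_ideal (D m Y : ℕ) (γ : ℝ) (hD : 1000 ≤ D) (hY : Y = D ^ 40)
    (hγ : |γ| ≤ 1 / ((D : ℝ) ^ 18 * ((2 ^ m * Y : ℕ) : ℝ))) :
    ‖Itot m Y γ - Ideal m (2 * π * γ * ((2 ^ m * Y : ℕ) : ℝ) ^ 2)‖ ≤ 1 / (D : ℝ) ^ 3 := by
  have hYpos : 1 ≤ Y := by rw [hY]; exact Nat.one_le_pow _ _ (by omega)
  have e1 : Itot m Y γ - Ideal m (2 * π * γ * ((2 ^ m * Y : ℕ) : ℝ) ^ 2) =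
      ∑ i ∈ range m, ((cf m Y i : ℝ) : ℂ) *
        (IX (XX m Y i) γ - (((((XX m Y i : ℕ) : ℝ) ^ 2 / 2 : ℝ)) : ℂ) *
          Ph (2 * π * γ * ((XX m Y i : ℕ) : ℝ) ^ 2)) := by
    unfold Itot Ideal
    rw [← Finset.sum_sub_distrib]
    apply Finset.sum_congr rfl
    intro i hi
    rw [mem_range] at hi
    have hX1 : 1 ≤ XX m Y i := hYpos.trans (le_XX m Y i)
    have hXr : (0 : ℝ) < ((XX m Y i : ℕ) : ℝ) := by exact_mod_cast hX1
    have e2 : 2 * π * γ * ((2 ^ m * Y : ℕ) : ℝ) ^ 2 / 4 ^ i =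
        2 * π * γ * ((XX m Y i : ℕ) : ℝ) ^ 2 := by
      have e3 : ((2 ^ m * Y : ℕ) : ℝ) = 2 ^ i * ((XX m Y i : ℕ) : ℝ) := by
        unfold XX
        push_cast
        rw [← mul_assoc, ← pow_add]
        congr 2
        omega
      rw [e3]
      have e4 : (4 : ℝ) ^ i = (2 ^ i) ^ 2 := by rw [← pow_mul, mul_comm, pow_mul]; norm_num
      rw [e4]
      have : ((2 : ℝ) ^ i) ≠ 0 := by positivity
      field_simp
    rw [e2, mul_sub]
    congr 1
    rw [← mul_assoc]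
    congr 1
    rw [← Complex.ofReal_mul]
    congr 1
    unfold cf
    field_simp
  rw [e1]
  have h2 : (1 : ℝ) / (D : ℝ) ^ 3 = 2 * (1 / (2 * (D : ℝ) ^ 3)) := by
    have : (0 : ℝ) < D := by exact_mod_cast (by omega : 0 < D)
    field_simp
  rw [h2]
  apply comb _ _ _ _ _ (by positivity)
  intro i _
  have hX1 : 1 ≤ XX m Y i := hYpos.trans (le_XX m Y i)
  have h3 := IX_approx (XX m Y i) hX1 γ
  refine le_trans (mul_le_mul_of_nonneg_left h3 (by positivity)) ?_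
  exact term_arch D (2 ^ m * Y) (XX m Y i) γ hD (hY ▸ le_XX m Y i) (XX_le m Y i) hγ

theorem psi_minor (D m Y d r : ℕ) (x : ℝ) (a : ℤ) (hD : 1000 ≤ D) (hY : Y = D ^ 40)
    (hm : 2 ^ m ≤ D) (hd1 : 1 ≤ d) (hd : d ≤ D) (hr1 : D ^ 10 < r)
    (hr2 : r ≤ D ^ 18 * (2 ^ m * Y)) (hcop : IsCoprime a (r : ℤ))
    (hx : |x - a / r| ≤ 1 / ((D : ℝ) ^ 18 * ((2 ^ m * Y : ℕ) : ℝ) * r)) :
    ‖psi m Y x d‖ ≤ 1 / (D : ℝ) ^ 2 := by
  have hDr : (1000 : ℝ) ≤ D := by exact_mod_cast hD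
  have hYpos : 1 ≤ Y := by rw [hY]; exact Nat.one_le_pow _ _ (by omega)
  have h2 : (1 : ℝ) / (D : ℝ) ^ 2 = 2 * (1 / (2 * (D : ℝ) ^ 2)) := by field_simp
  rw [h2]
  unfold psi
  apply comb _ _ _ _ _ (by positivity)
  intro i _
  have hX1 : 1 ≤ XX m Y i := hYpos.trans (le_XX m Y i)
  have hDX : D ≤ XX m Y i := by
    refine le_trans ?_ (le_XX m Y i)
    rw [hY]
    exact Nat.le_self_pow (by norm_num) D
  have h3 := minorB (XX m Y i) d hX1 hd1 (hd.trans hDX) x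
    (((XX m Y i / d + 1 : ℕ) : ℝ) / (D : ℝ) ^ 3) (wt_lip (XX m Y i))
    (fun M hM => minorA D (2 ^ m * Y) Y (XX m Y i) d r a x hD hY (le_XX m Y i) (XX_le m Y i)
      (Nat.mul_le_mul_right _ hm) hd1 hd hr1 hr2 hcop hx
      (fun y δ b r R K M h1 h2 h3 h4 h5 h6 => weyl_gen y δ b r R K M h1 h2 h3 h4 h5 h6) M hM)
  refine le_trans (mul_le_mul_of_nonneg_left h3 (by positivity)) ?_
  exact term_minor D (XX m Y i) d hD (hY ▸ le_XX m Y i) hd1 hd


theorem Ideal_norm (m : ℕ) (θ : ℝ) : ‖Ideal m θ‖ ≤ 12 := by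
  unfold Ideal
  calc ‖∑ i ∈ range m, (((1 / 2 : ℝ) ^ i : ℝ) : ℂ) * Ph (θ / 4 ^ i)‖
      ≤ ∑ i ∈ range m, ‖(((1 / 2 : ℝ) ^ i : ℝ) : ℂ) * Ph (θ / 4 ^ i)‖ := norm_sum_le _ _
    _ ≤ ∑ i ∈ range m, (1 / 2 : ℝ) ^ i * 6 := by
        apply Finset.sum_le_sum
        intro i _
        rw [norm_mul, Complex.norm_real, Real.norm_eq_abs, abs_of_nonneg (by positivity)]
        exact mul_le_mul_of_nonneg_left (Ph_norm _) (by positivity)
    _ = (∑ i ∈ range m, (1 / 2 : ℝ) ^ i) * 6 := by rw [Finset.sum_mul]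
    _ ≤ 12 := by have := geo_sum m; linarith

theorem Ideal_zero (m : ℕ) (hm : 1 ≤ m) : 1 ≤ (Ideal m 0).re := by
  unfold Ideal
  rw [Complex.re_sum]
  have : ∀ i ∈ range m, ((((1 / 2 : ℝ) ^ i : ℝ) : ℂ) * Ph (0 / 4 ^ i)).re = (1 / 2 : ℝ) ^ i := by
    intro i _
    rw [zero_div]
    unfold Ph
    simp only [if_true, mul_one, Complex.ofReal_re]
  rw [Finset.sum_congr rfl this]
  calc (1 : ℝ) = (1 / 2 : ℝ) ^ 0 := by norm_num
    _ ≤ ∑ i ∈ range m, (1 / 2 : ℝ) ^ i :=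
        Finset.single_le_sum (f := fun i => (1 / 2 : ℝ) ^ i) (fun i _ => by positivity)
          (Finset.mem_range.mpr hm)

/-- all data of level `n` -/
structure Data (n : ℕ) where
  w : ℕ → ℝ
  ps : List ℕ
  M : ℕ
  D : ℕ
  hD : 1000 ≤ D
  hm : 2 ^ (n + 6) ≤ D
  norm : ∀ (ψ : ℕ → ℂ) (B : ℝ), 0 ≤ B → (∀ d : ℕ, 1 ≤ d → d ≤ D → ‖ψ d‖ ≤ B) →
    ‖Omega w ps n M (1000 * (n + 1)) ψ‖ ≤ (D : ℝ) * (1 / 2) ^ n * B
  loc : ∀ x : ℚ, ∃ ρ : ℝ, 0 ≤ ρ ∧ ρ ≤ 1 ∧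
      ‖Omega w ps n M (1000 * (n + 1)) (fun d => Gq ((d : ℚ) ^ 2 * x)) - (ρ : ℂ)‖ ≤
        (1 / 100) * ρ + 2 * (1 / 2) ^ n

/-- `Z(x)` -/
noncomputable def ZZ {n : ℕ} (S : Data n) (x : ℝ) : ℂ :=
  Omega S.w S.ps n S.M (1000 * (n + 1)) (psi (n + 6) (S.D ^ 40) x)

theorem half_pow_small {n : ℕ} (hn : 1 ≤ n) (D : ℕ) (hm : 2 ^ (n + 6) ≤ D) :
    (64 : ℝ) / D ≤ (1 / 2) ^ n := by
  have h1 : ((2 ^ (n + 6) : ℕ) : ℝ) ≤ D := by exact_mod_cast hm
  push_cast at h1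
  have h2 : (0 : ℝ) < 2 ^ n := by positivity
  rw [pow_add] at h1
  rw [div_le_iff₀ (by nlinarith), one_div, inv_pow]
  rw [inv_mul_eq_div, le_div_iff₀ h2]
  nlinarith

theorem ZZ_major {n : ℕ} (hn : 1 ≤ n) (S : Data n) (x : ℝ) (q : ℚ)
    (hq : q.den ≤ S.D ^ 10)
    (hx : |x - q| ≤ 1 / ((S.D : ℝ) ^ 18 * ((2 ^ (n + 6) * S.D ^ 40 : ℕ) : ℝ))) :
    ‖ZZ S x - Omega S.w S.ps n S.M (1000 * (n + 1)) (fun d => Gq ((d : ℚ) ^ 2 * q)) *
      Ideal (n + 6) (2 * π * (x - q) * ((2 ^ (n + 6) * S.D ^ 40 : ℕ) : ℝ) ^ 2)‖ ≤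
        (1 / 2) ^ n := by
  have hD := S.hD
  have hDr : (1000 : ℝ) ≤ S.D := by exact_mod_cast hD
  set L := Omega S.w S.ps n S.M (1000 * (n + 1)) (fun d => Gq ((d : ℚ) ^ 2 * q)) with hL
  set It := Itot (n + 6) (S.D ^ 40) (x - q) with hIt
  set Id := Ideal (n + 6) (2 * π * (x - q) * ((2 ^ (n + 6) * S.D ^ 40 : ℕ) : ℝ) ^ 2) with hId
  have h1 : ‖ZZ S x - L * It‖ ≤ (S.D : ℝ) * (1 / 2) ^ n * (1 / (S.D : ℝ) ^ 3) := by
    have e1 : ZZ S x - L * It = Omega S.w S.ps n S.M (1000 * (n + 1))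
        (fun d => psi (n + 6) (S.D ^ 40) x d - It * Gq ((d : ℚ) ^ 2 * q)) := by
      rw [Omega_sub, Omega_mul, mul_comm It]
      rfl
    rw [e1]
    apply S.norm _ _ (by positivity)
    intro d hd1 hd2
    have hx0 : (q.den : ℝ) * (q : ℝ) = (q.num : ℝ) := by
      have : ((q.den : ℚ) * q : ℚ) = q.num := by rw [mul_comm]; exact Rat.mul_den_eq_num q
      exact_mod_cast this
    have h2 := psi_major S.D (n + 6) (S.D ^ 40) d q.den q (x - q) q.num hD rfl hd1 hd2 q.pos hq hx0 hx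
    rw [add_sub_cancel] at h2
    have h3 : Gr q.den ((d : ℝ) ^ 2 * q) = Gq ((d : ℚ) ^ 2 * q) := by
      rw [← Gr_eq_Gq ((d : ℚ) ^ 2 * q) q.den q.pos]
      · push_cast; rfl
      · have hq' : (d : ℚ) ^ 2 * q = Rat.divInt ((d : ℤ) ^ 2 * q.num) (q.den : ℤ) := by
          rw [Rat.divInt_eq_div]
          push_cast
          rw [mul_div_assoc]
          congr 1
          exact (Rat.num_div_den q).symm
        rw [hq']
        exact Int.natCast_dvd_natCast.mp (Rat.den_dvd ((d : ℤ) ^ 2 * q.num) (q.den : ℤ))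
    rw [h3] at h2
    rw [mul_comm It]
    exact h2
  have h4 : ‖It - Id‖ ≤ 1 / (S.D : ℝ) ^ 3 :=
    Itot_ideal S.D (n + 6) (S.D ^ 40) (x - q) hD rfl hx
  have hLn : ‖L‖ ≤ 4 := by
    obtain ⟨ρ, h0, h1', h2'⟩ := S.loc q
    have h5 : ‖L‖ ≤ ‖L - (ρ : ℂ)‖ + ‖(ρ : ℂ)‖ := by
      have := norm_add_le (L - (ρ : ℂ)) (ρ : ℂ)
      rwa [sub_add_cancel] at this
    rw [Complex.norm_real, Real.norm_eq_abs, abs_of_nonneg h0] at h5
    have h6 : (1 / 2 : ℝ) ^ n ≤ 1 / 2 := by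
      calc (1 / 2 : ℝ) ^ n ≤ (1 / 2) ^ 1 := pow_le_pow_of_le_one (by norm_num) (by norm_num) hn
        _ = 1 / 2 := by norm_num
    rw [← hL] at h2'
    linarith
  have h7 : ZZ S x - L * Id = (ZZ S x - L * It) + L * (It - Id) := by ring
  rw [h7]
  refine (norm_add_le _ _).trans ?_
  rw [norm_mul]
  have h8 : ‖L‖ * ‖It - Id‖ ≤ 4 * (1 / (S.D : ℝ) ^ 3) :=
    mul_le_mul hLn h4 (norm_nonneg _) (by norm_num)
  have h9 := half_pow_small hn S.D S.hm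
  have hDpos : (0 : ℝ) < S.D := by linarith
  have h10 : (S.D : ℝ) * (1 / 2) ^ n * (1 / (S.D : ℝ) ^ 3) ≤ (1 / 2) ^ n * (1 / 1000) := by
    have : (S.D : ℝ) * (1 / 2) ^ n * (1 / (S.D : ℝ) ^ 3) = (1 / 2) ^ n * (1 / (S.D : ℝ) ^ 2) := by
      field_simp
    rw [this]
    apply mul_le_mul_of_nonneg_left _ (by positivity)
    apply one_div_le_one_div_of_le (by norm_num)
    nlinarith
  have h11 : 4 * (1 / (S.D : ℝ) ^ 3) ≤ (1 / 16) * (1 / 2) ^ n := by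
    have h12 : 4 * (1 / (S.D : ℝ) ^ 3) ≤ 4 / S.D := by
      rw [mul_one_div]
      apply div_le_div_of_nonneg_left (by norm_num) hDpos
      nlinarith [sq_nonneg ((S.D : ℝ) - 1), sq_nonneg (S.D : ℝ), mul_pos hDpos hDpos]
    have h13 : (4 : ℝ) / S.D = (1 / 16) * (64 / S.D) := by ring
    rw [h13] at h12
    linarith
  have h14 : (0 : ℝ) < (1 / 2) ^ n := by positivity
  linarith

theorem ZZ_ge {n : ℕ} (hn : 1 ≤ n) (S : Data n) (x : ℝ) :
    -(30 * (1 / 2 : ℝ) ^ n) ≤ (ZZ S x).re := by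
  have hD := S.hD
  have hDr : (1000 : ℝ) ≤ S.D := by exact_mod_cast hD
  have hDpos : (0 : ℝ) < S.D := by linarith
  set X0 : ℕ := 2 ^ (n + 6) * S.D ^ 40 with hX0
  have hX0pos : 0 < X0 := by
    rw [hX0]
    have : 0 < S.D := by omega
    positivity
  have hXr : (0 : ℝ) < X0 := by exact_mod_cast hX0pos
  have hN : 0 < S.D ^ 18 * X0 := by
    have : 0 < S.D := by omega
    positivity
  obtain ⟨q, hq1, hq2⟩ := Real.exists_rat_abs_sub_le_and_den_le x hN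
  have hden : (1 : ℝ) ≤ q.den := by exact_mod_cast q.pos
  have hNr : (0 : ℝ) < (S.D : ℝ) ^ 18 * X0 := by positivity
  have hhalf : (0 : ℝ) < (1 / 2) ^ n := by positivity
  rcases le_or_gt q.den (S.D ^ 10) with hc | hc
  · -- major
    have hx : |x - q| ≤ 1 / ((S.D : ℝ) ^ 18 * (X0 : ℝ)) := by
      refine hq1.trans ?_
      apply one_div_le_one_div_of_le hNr
      push_cast
      nlinarith
    have h1 := ZZ_major hn S x q hc hx
    obtain ⟨ρ, h0, h1', h2'⟩ := S.loc q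
    set L := Omega S.w S.ps n S.M (1000 * (n + 1)) (fun d => Gq ((d : ℚ) ^ 2 * q)) with hL
    set θ := 2 * π * (x - q) * (X0 : ℝ) ^ 2 with hθ
    have h3 := sector (n + 6) θ
    have h4 := Ideal_norm (n + 6) θ
    change (1 / 80) * ‖Ideal (n + 6) θ‖ - (1 / 2) ^ (n + 6) ≤ (Ideal (n + 6) θ).re at h3
    set Id := Ideal (n + 6) θ with hId
    have h5 : (L * Id).re = ρ * Id.re + ((L - (ρ : ℂ)) * Id).re := by
      have : L * Id = (ρ : ℂ) * Id + (L - (ρ : ℂ)) * Id := by ring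
      rw [this, Complex.add_re, Complex.re_ofReal_mul]
    have h6 : -(((1 / 100) * ρ + 2 * (1 / 2) ^ n) * ‖Id‖) ≤ ((L - (ρ : ℂ)) * Id).re := by
      have h7 := Complex.abs_re_le_norm ((L - (ρ : ℂ)) * Id)
      rw [norm_mul] at h7
      have h8 := neg_le_of_abs_le h7
      have h9 : ‖L - (ρ : ℂ)‖ * ‖Id‖ ≤ ((1 / 100) * ρ + 2 * (1 / 2) ^ n) * ‖Id‖ :=
        mul_le_mul_of_nonneg_right h2' (norm_nonneg _)
      linarith
    have h10 : ρ * ((1 / 80) * ‖Id‖ - (1 / 2) ^ (n + 6)) ≤ ρ * Id.re :=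
      mul_le_mul_of_nonneg_left h3 h0
    have h11 : (1 / 2 : ℝ) ^ (n + 6) = (1 / 64) * (1 / 2) ^ n := by rw [pow_add]; norm_num; ring
    have h12 : -((1 / 64 + 24) * (1 / 2) ^ n) ≤ (L * Id).re := by
      rw [h5]
      rw [h11] at h10
      have a1 : 0 ≤ ρ * ‖Id‖ := mul_nonneg h0 (norm_nonneg _)
      have a2 : ρ * ((1 / 64) * (1 / 2) ^ n) ≤ 1 * ((1 / 64) * (1 / 2) ^ n) :=
        mul_le_mul_of_nonneg_right h1' (by positivity)
      have a3 : (1 / 2 : ℝ) ^ n * ‖Id‖ ≤ (1 / 2 : ℝ) ^ n * 12 :=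
        mul_le_mul_of_nonneg_left h4 hhalf.le
      nlinarith
    have h13 := Complex.abs_re_le_norm (ZZ S x - L * Id)
    rw [Complex.sub_re] at h13
    have h14 := neg_le_of_abs_le h13
    have h15 : ‖ZZ S x - L * Id‖ ≤ (1 / 2) ^ n := h1
    linarith
  · -- minor
    have h1 : ‖ZZ S x‖ ≤ (S.D : ℝ) * (1 / 2) ^ n * (1 / (S.D : ℝ) ^ 2) := by
      apply S.norm _ _ (by positivity)
      intro d hd1 hd2
      apply psi_minor S.D (n + 6) (S.D ^ 40) d q.den x q.num hD rfl S.hm hd1 hd2 hc hq2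
      · exact Int.isCoprime_iff_gcd_eq_one.mpr (by simpa [Int.gcd] using q.reduced)
      · have e1 : (q.num : ℝ) / (q.den : ℝ) = (q : ℝ) := by
          exact_mod_cast Rat.num_div_den q
        rw [e1]
        refine hq1.trans ?_
        have hX0r : ((2 ^ (n + 6) * S.D ^ 40 : ℕ) : ℝ) = (X0 : ℝ) := by rw [hX0]
        rw [hX0r]
        apply one_div_le_one_div_of_le (by positivity)
        push_cast
        have : (0 : ℝ) ≤ q.den := by linarith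
        nlinarith
    have h2 : (S.D : ℝ) * (1 / 2) ^ n * (1 / (S.D : ℝ) ^ 2) ≤ (1 / 2) ^ n := by
      have : (S.D : ℝ) * (1 / 2) ^ n * (1 / (S.D : ℝ) ^ 2) = (1 / 2) ^ n / S.D := by
        field_simp
      rw [this]
      apply div_le_self hhalf.le
      linarith
    have h3 := neg_le_of_abs_le (Complex.abs_re_le_norm (ZZ S x))
    linarith

theorem ZZ_zero {n : ℕ} (hn : 1 ≤ n) (S : Data n) : 1 / 2 ≤ (ZZ S 0).re := by
  have hD := S.hD
  have hDr : (1000 : ℝ) ≤ S.D := by exact_mod_cast hD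
  have h1 := ZZ_major hn S 0 0 (by simp; exact Nat.one_le_pow _ _ (by omega)) (by simp; positivity)
  have h2 : (fun d : ℕ => Gq ((d : ℚ) ^ 2 * 0)) = fun _ => (1 : ℂ) := by
    funext d
    rw [mul_zero]
    exact Gq_int 0 rfl
  rw [h2, Omega_const, one_mul] at h1
  have h3 : (2 * π * ((0 : ℝ) - ((0 : ℚ) : ℝ)) * ((2 ^ (n + 6) * S.D ^ 40 : ℕ) : ℝ) ^ 2) = 0 := by
    simp
  rw [h3] at h1
  have h4 := Ideal_zero (n + 6) (by omega)
  have h5 := neg_le_of_abs_le ((Complex.abs_re_le_norm (ZZ S 0 - Ideal (n + 6) 0)).trans h1)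
  rw [Complex.sub_re] at h5
  have h6 : (1 / 2 : ℝ) ^ n ≤ 1 / 2 := by
    calc (1 / 2 : ℝ) ^ n ≤ (1 / 2) ^ 1 := pow_le_pow_of_le_one (by norm_num) (by norm_num) hn
      _ = 1 / 2 := by norm_num
  linarith

theorem level {n : ℕ} (hn : 1 ≤ n) (S : Data n) (H : ℕ) (hH : S.D ^ 41 ≤ H) :
    δ H ≤ 64 * (1 / 2) ^ n := by
  set c' : ℝ := 64 * (1 / 2) ^ n with hc'
  have hc0 : 0 ≤ c' := by positivity
  by_cases hc1 : 1 ≤ c'
  · exact (δ_le_one H).trans hc1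
  rw [not_le] at hc1
  have hZ0 := ZZ_zero hn S
  set z := (ZZ S 0).re with hz
  have hX : 2 ^ (n + 6) * S.D ^ 40 ≤ H := by
    refine le_trans ?_ hH
    calc 2 ^ (n + 6) * S.D ^ 40 ≤ S.D * S.D ^ 40 := Nat.mul_le_mul_right _ S.hm
      _ = S.D ^ 41 := by ring
  -- `Re Z` is a square-frequency polynomial
  have hpsi : ∀ d, IsSq0 H (fun x => (psi (n + 6) (S.D ^ 40) x d).re) := by
    intro d
    have hsum : ∀ s : Finset ℕ, IsSq0 H (fun x => ∑ i ∈ s, cf (n + 6) (S.D ^ 40) i *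
        (SS (XX (n + 6) (S.D ^ 40) i) d x).re) := by
      intro s
      induction s using Finset.induction_on with
      | empty => simpa using IsSq0_zero H
      | insert i s hi ih =>
        simp only [Finset.sum_insert hi]
        apply IsSq0_add _ _ _ _ ih
        apply IsSq0_smul
        exact IsSq0_SS H _ d ((XX_le _ _ _).trans hX)
    have e1 : (fun x => (psi (n + 6) (S.D ^ 40) x d).re) =
        (fun x => ∑ i ∈ range (n + 6), cf (n + 6) (S.D ^ 40) i *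
        (SS (XX (n + 6) (S.D ^ 40) i) d x).re) := by
      funext x
      unfold psi
      rw [Complex.re_sum]
      apply Finset.sum_congr rfl
      intro i _
      rw [Complex.re_ofReal_mul]
    rw [e1]
    exact hsum _
  have hZ : IsSq0 H (fun x => (ZZ S x).re) :=
    IsSq0_Omega H S.w S.ps n S.M (1000 * (n + 1)) (fun x d => psi (n + 6) (S.D ^ 40) x d) hpsi
  obtain ⟨c, hc⟩ := IsSq0_smul H ((1 - c') / z) _ hZ
  have hadm : Admissible H c' c := by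
    have hT : ∀ x, T H c' c x = c' + (1 - c') / z * (ZZ S x).re := by
      intro x
      unfold T
      rw [← hc x]
    constructor
    · intro x
      rw [hT x]
      have h1 := ZZ_ge hn S x
      have hz0 : 0 < z := by linarith
      have h2 : (1 - c') / z ≤ 2 := by
        rw [div_le_iff₀ hz0]
        linarith
      have h3 : 0 ≤ (1 - c') / z := div_nonneg (by linarith) hz0.le
      have h4 : (1 - c') / z * (-(30 * (1 / 2 : ℝ) ^ n)) ≤ (1 - c') / z * (ZZ S x).re :=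
        mul_le_mul_of_nonneg_left h1 h3
      have h5 : (1 - c') / z * (30 * (1 / 2 : ℝ) ^ n) ≤ 2 * (30 * (1 / 2 : ℝ) ^ n) :=
        mul_le_mul_of_nonneg_right h2 (by positivity)
      have h6 : c' = 64 * (1 / 2 : ℝ) ^ n := hc'
      have h7 : (0 : ℝ) < (1 / 2) ^ n := by positivity
      nlinarith
    · rw [hT 0, ← hz]
      have hz0 : z ≠ 0 := by linarith
      field_simp
      ring
  exact δ_le_of H c' c hadm

/-- the data exist -/
theorem exists_data (n : ℕ) (hn : 1 ≤ n) (A : ℕ) (hA : A = 10 ^ 11) :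
    ∃ S : Data n, S.D = 2 ^ (A * n ^ 3) := by
  set ps : List ℕ := (List.range (2 * 4 ^ n)).filter
    (fun p => decide (p.Prime ∧ (4000 * n) ^ 2 < p)) with hps
  set M : ℕ := primorial ((4000 * n) ^ 2) with hM
  have hmem : ∀ p ∈ ps, p.Prime ∧ (4000 * n) ^ 2 < p ∧ p < 2 * 4 ^ n := by
    intro p hp
    rw [hps, List.mem_filter] at hp
    simp only [List.mem_range, decide_eq_true_eq] at hp
    exact ⟨hp.2.1, hp.2.2, hp.1⟩
  have hnd : ps.Nodup := List.Nodup.filter _ List.nodup_range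
  have hn0 : (1 : ℝ) ≤ n := by exact_mod_cast hn
  set w : ℕ → ℝ := fun p => (1000 * (n : ℝ)) * (1 / √(p : ℝ)) with hw
  have hsq : ∀ p ∈ ps, 4000 * (n : ℝ) ≤ √(p : ℝ) := by
    intro p hp
    have h1 := (hmem p hp).2.1
    apply Real.le_sqrt_of_sq_le
    have : (((4000 * n) ^ 2 : ℕ) : ℝ) ≤ p := by exact_mod_cast h1.le
    push_cast at this
    exact this
  have hpC : ∀ p ∈ ps, (1 / √(p : ℝ)) * (4 * (1000 * (n : ℝ))) ≤ 1 := by
    intro p hp
    have h1 := hsq p hp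
    have h2 : 0 < √(p : ℝ) := by linarith
    rw [one_div_mul_eq_div, div_le_one h2]
    linarith
  have hw1 : ∀ p ∈ ps, 0 ≤ w p ∧ w p ≤ 1 / 4 := by
    intro p hp
    have := hpC p hp
    rw [hw]
    constructor
    · positivity
    · show 1000 * (n : ℝ) * (1 / √(p : ℝ)) ≤ 1 / 4
      linarith
  have hM2 : 2 ≤ M := by
    rw [hM]
    have h1 : 2 ∣ primorial ((4000 * n) ^ 2) := by
      unfold primorial
      apply Finset.dvd_prod_of_mem (fun p => p)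
      rw [Finset.mem_filter, Finset.mem_range]
      refine ⟨?_, Nat.prime_two⟩
      nlinarith
    exact Nat.le_of_dvd (primorial_pos _) h1
  have hMle : M ≤ 4 ^ ((4000 * n) ^ 2) := primorial_le_four_pow _
  obtain ⟨p1, p2, p3, p4⟩ := params n A (2 ^ (A * n ^ 3)) M hn hA rfl hMle
  have hMdvd : ∀ q : ℕ, q.Prime → q ≤ (4000 * n) ^ 2 → q ∣ M := by
    intro q hq hle
    rw [hM]
    unfold primorial
    apply Finset.dvd_prod_of_mem (fun p => p)
    rw [Finset.mem_filter, Finset.mem_range]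
    exact ⟨by omega, hq⟩
  have hMps : ∀ p ∈ ps, ¬ p ∣ M := by
    intro p hp hdv
    obtain ⟨hp1, hp2, _⟩ := hmem p hp
    rw [hM] at hdv
    unfold primorial at hdv
    rw [Prime.dvd_finsetProd_iff hp1.prime] at hdv
    obtain ⟨q, hq, hpq⟩ := hdv
    rw [Finset.mem_filter, Finset.mem_range] at hq
    have := (Nat.prime_dvd_prime_iff_eq hp1 hq.2).mp hpq
    omega
  have hlen : ps.length ≤ 2 * 4 ^ n := by
    rw [hps]
    refine (List.length_filter_le _ _).trans ?_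
    rw [List.length_range]
  refine ⟨⟨w, ps, M, 2 ^ (A * n ^ 3), p1, p4, ?_, ?_⟩, rfl⟩
  · intro ψ B hB h
    have h1 := Omega_norm w ps n M (1000 * (n + 1)) (2 * 4 ^ n) (2 ^ (A * n ^ 3)) ψ B hB hw1
      (fun p hp => ⟨(hmem p hp).1.one_lt.le, (hmem p hp).2.2.le⟩)
      (Nat.one_le_iff_ne_zero.mpr (by positivity)) (by omega) p2 h
    refine h1.trans ?_
    apply mul_le_mul_of_nonneg_right _ hB
    have h2 : ((ps.length : ℝ) + 1) ^ n ≤ ((2 * 4 ^ n + 1 : ℕ) : ℝ) ^ n := by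
      apply pow_le_pow_left₀ (by positivity)
      push_cast
      have : (ps.length : ℝ) ≤ ((2 * 4 ^ n : ℕ) : ℝ) := by exact_mod_cast hlen
      push_cast at this
      linarith
    refine h2.trans ?_
    have h3 : (((2 * 4 ^ n + 1 : ℕ) : ℝ)) ^ n * 2 ^ n ≤ ((2 ^ (A * n ^ 3) : ℕ) : ℝ) := by
      exact_mod_cast p3
    rw [one_div, inv_pow, ← div_eq_mul_inv, le_div_iff₀ (by positivity)]
    exact h3
  · intro x
    apply local_lemma n hn w ps M (1000 * (n + 1)) (2 * 4 ^ n) hM2 rfl hMps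
      (fun p hp => (hmem p hp).1) le_rfl
    · intro q hq
      by_cases h1 : q ≤ (4000 * n) ^ 2
      · exact Or.inl (hMdvd q hq h1)
      · by_cases h2 : q < 2 * 4 ^ n
        · right; left
          rw [hps, List.mem_filter]
          simp only [List.mem_range, decide_eq_true_eq]
          exact ⟨h2, hq, by omega⟩
        · right; right; omega
    · exact big (1000 * (n : ℝ)) (by linarith) w ps hnd (fun p hp => (hmem p hp).1)
        (fun p hp => rfl) hpC x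

theorem δ_quasi (H : ℕ) (hH : 2 ≤ H) :
    δ H ≤ 128 * Real.exp (-(Real.log H) ^ (1 / 3 : ℝ) / 25000) := by
  obtain ⟨A, hA⟩ : ∃ A : ℕ, A = 10 ^ 11 := ⟨_, rfl⟩
  apply final_ineq δ (41 * A) (by omega) δ_le_one _ H hH
  intro n H' hn hH'
  obtain ⟨S, hS⟩ := exists_data n hn A hA
  apply level hn S H'
  rw [hS, ← pow_mul]
  refine le_trans (le_of_eq ?_) hH'
  congr 1
  ring

end Pool.Agent.VdCSquares.Q
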