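import Pool.Agent.VdCSquares.Quasi

set_option linter.unusedVariables false

namespace Pool.Agent.VdCSquares.Q

open Real Finset

theorem split_den (t : ℕ) (ht : 1 ≤ t) : ∀ N : ℕ, 1 ≤ N → ∃ D1 D2 : ℕ, N = D1 * D2 ∧
    (∀ q : ℕ, q.Prime → q ∣ D1 → q ∣ t) ∧ Nat.Coprime t D2 := by
  intro N
  induction N using Nat.strong_induction_on with
  | _ N ih =>
    intro hN
    by_cases hc : Nat.Coprime t N
    · refine ⟨1, N, (one_mul N).symm, ?_, hc⟩
      intro q hq hq1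
      exact absurd (Nat.dvd_one.mp hq1) hq.one_lt.ne'
    · have hg0 : 0 < Nat.gcd t N := Nat.gcd_pos_of_pos_left _ ht
      have hg1 : 1 < Nat.gcd t N := by
        rcases Nat.lt_or_ge 1 (Nat.gcd t N) with h | h
        · exact h
        · exact absurd (le_antisymm h hg0) hc
      obtain ⟨N', hN'⟩ := Nat.gcd_dvd_right t N
      have hN'0 : 1 ≤ N' := by
        rcases Nat.eq_zero_or_pos N' with h | h
        · rw [h, mul_zero] at hN'
          omega
        · exact h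
      have hlt : N' < N := by
        calc N' = 1 * N' := (one_mul _).symm
          _ < Nat.gcd t N * N' := Nat.mul_lt_mul_of_pos_right hg1 hN'0
          _ = N := hN'.symm
      obtain ⟨D1, D2, h1, h2, h3⟩ := ih N' hlt hN'0
      refine ⟨Nat.gcd t N * D1, D2, ?_, ?_, h3⟩
      · rw [mul_assoc, ← h1]
        exact hN'
      · intro q hq hqd
        rcases (Nat.Prime.dvd_mul hq).mp hqd with h | h
        · exact h.trans (Nat.gcd_dvd_left _ _)
        · exact h2 q hq h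

/-- partial fractions at the primes dividing `t` -/
theorem partial_frac2 (x : ℚ) (t : ℕ) (ht : 1 ≤ t) :
    ∃ xt x' : ℚ, x = xt + x' ∧ (∀ q : ℕ, q.Prime → q ∣ xt.den → q ∣ t) ∧
      Nat.Coprime t x'.den ∧ x'.den ∣ x.den := by
  obtain ⟨D1, D2, hN, h1, h2⟩ := split_den t ht x.den x.pos
  have hN0 : D1 * D2 ≠ 0 := by rw [← hN]; exact x.den_nz
  have hD1 : D1 ≠ 0 := fun h => hN0 (by rw [h, zero_mul])
  have hD2 : D2 ≠ 0 := fun h => hN0 (by rw [h, mul_zero])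
  have hcop : Nat.Coprime D1 D2 := by
    rw [Nat.coprime_iff_gcd_eq_one]
    by_contra hne
    obtain ⟨q, hq, hqd⟩ := Nat.exists_prime_and_dvd hne
    have ha := h1 q hq (hqd.trans (Nat.gcd_dvd_left _ _))
    have hb : q ∣ D2 := hqd.trans (Nat.gcd_dvd_right _ _)
    have hc := Nat.dvd_gcd ha hb
    rw [Nat.coprime_iff_gcd_eq_one.mp h2] at hc
    exact hq.one_lt.ne' (Nat.dvd_one.mp hc)
  obtain ⟨u, v, huv⟩ := Nat.isCoprime_iff_coprime.mpr hcop
  have hD1q : (D1 : ℚ) ≠ 0 := by exact_mod_cast hD1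
  have hD2q : (D2 : ℚ) ≠ 0 := by exact_mod_cast hD2
  refine ⟨((x.num * v : ℤ) : ℚ) / ((D1 : ℤ) : ℚ), ((x.num * u : ℤ) : ℚ) / ((D2 : ℤ) : ℚ), ?_, ?_,
    ?_, ?_⟩
  · have huvq : (u : ℚ) * (D1 : ℚ) + v * D2 = 1 := by exact_mod_cast huv
    have hx : x = (x.num : ℚ) / ((D1 : ℚ) * D2) := by
      conv_lhs => rw [← Rat.num_div_den x]
      rw [hN]
      push_cast
      rfl
    conv_lhs => rw [hx]
    push_cast
    field_simp
    linear_combination (-(x.num : ℚ)) * huvq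
  · intro q hq hqd
    apply h1 q hq
    have hd := Rat.den_dvd (x.num * v) (D1 : ℤ)
    rw [Rat.divInt_eq_div] at hd
    exact hqd.trans (Int.natCast_dvd_natCast.mp hd)
  · have hd := Rat.den_dvd (x.num * u) (D2 : ℤ)
    rw [Rat.divInt_eq_div] at hd
    exact Nat.Coprime.coprime_dvd_right (Int.natCast_dvd_natCast.mp hd) h2
  · have hd := Rat.den_dvd (x.num * u) (D2 : ℤ)
    rw [Rat.divInt_eq_div] at hd
    have hd' := Int.natCast_dvd_natCast.mp hd
    refine hd'.trans ?_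
    conv_rhs => rw [hN]
    exact Dvd.intro_left D1 rfl

/-- one-group analysis -/
theorem one_prime2 (g : ℕ → ℂ) (h : ℕ) (b C κ σ : ℝ) (hb : 0 < b) (hC : 16 ≤ C)
    (hbC : b * (4 * C) ≤ 1) (hκ : 0 ≤ κ) (hσ : 0 ≤ σ) (hCσ : 4 / C ≤ σ + κ)
    (g1 : ∀ j, h ≤ j → g j = 1)
    (g2 : ∀ j < h, ‖g j‖ ≤ √2 * b ^ (2 * (h - j) - 1)) :
    ‖∑ j ∈ range (h + 1), (((C * b) ^ j : ℝ) : ℂ) * (g j - if j = 0 then 0 else g (j - 1)) -
        (((C * b) ^ h : ℝ) : ℂ)‖ ≤ (C * b) ^ h * (Real.exp (σ + κ * h) - 1) ∧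
    ∑ j ∈ range (h + 1), (C * b) ^ j * ‖g j - if j = 0 then 0 else g (j - 1)‖ ≤ (1 / 2) ^ h ∧
    ∀ j, h < j → (g j - if j = 0 then 0 else g (j - 1)) = 0 := by
  have hC0 : 0 < C := by linarith
  have hb64 : b ≤ 1 / 64 := by nlinarith
  have hthird : ∀ j, h < j → (g j - if j = 0 then 0 else g (j - 1)) = 0 := by
    intro j hj
    rw [if_neg (by omega), g1 j hj.le, g1 (j - 1) (by omega), sub_self]
  rcases Nat.eq_zero_or_pos h with h0 | hpos
  · subst h0
    have hg0 : g 0 = 1 := g1 0 (le_refl _)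
    refine ⟨?_, ?_, hthird⟩
    · have h1 : (1:ℝ) ≤ Real.exp σ := Real.one_le_exp hσ
      simp [hg0]
      exact hσ
    · simp [hg0]
  · set w := C * b with hw
    have hw0 : 0 < w := by positivity
    have hw4 : w ≤ 1 / 4 := by rw [hw]; linarith
    have hs2 : √2 ≤ 1.415 := by
      rw [Real.sqrt_le_left (by norm_num)]
      norm_num
    have hs0 : 0 ≤ √2 := Real.sqrt_nonneg 2
    have hb2 : b ^ 2 ≤ 1 / 4096 := by nlinarith
    -- bound for the differences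
    have hD : ∀ j < h, ‖g j - if j = 0 then 0 else g (j - 1)‖ ≤ √2 * (1 + b ^ 2) * b ^ (2 * (h - j) - 1) := by
      intro j hj
      have hgj := g2 j hj
      have hbp : 0 ≤ √2 * (b ^ 2 * b ^ (2 * (h - j) - 1)) := by positivity
      by_cases hj0 : j = 0
      · rw [if_pos hj0, sub_zero]
        nlinarith
      · rw [if_neg hj0]
        have hgj1 := g2 (j - 1) (by omega)
        rw [show 2 * (h - (j - 1)) - 1 = (2 * (h - j) - 1) + 2 by omega, pow_add] at hgj1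
        calc ‖g j - g (j - 1)‖ ≤ ‖g j‖ + ‖g (j - 1)‖ := norm_sub_le _ _
          _ ≤ √2 * b ^ (2 * (h - j) - 1) + √2 * (b ^ (2 * (h - j) - 1) * b ^ 2) := add_le_add hgj hgj1
          _ = √2 * (1 + b ^ 2) * b ^ (2 * (h - j) - 1) := by ring
    have hS := one_prime_geo h b C hb hC hb64
    rw [← hw] at hS
    have hSum : C * ∑ j ∈ range h, w ^ j * ‖g j - if j = 0 then 0 else g (j - 1)‖ ≤ 1.5 * w ^ h := by
      have h1 : ∑ j ∈ range h, w ^ j * ‖g j - if j = 0 then 0 else g (j - 1)‖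
          ≤ √2 * (1 + b ^ 2) * ∑ j ∈ range h, w ^ j * b ^ (2 * (h - j) - 1) := by
        rw [Finset.mul_sum]
        apply Finset.sum_le_sum
        intro j hj
        have := mul_le_mul_of_nonneg_left (hD j (Finset.mem_range.mp hj)) (by positivity : (0:ℝ) ≤ w ^ j)
        calc _ ≤ w ^ j * (√2 * (1 + b ^ 2) * b ^ (2 * (h - j) - 1)) := this
          _ = _ := by ring
      have h2 := mul_le_mul_of_nonneg_left h1 hC0.le
      have h3 : √2 * (1 + b ^ 2) ≤ 1.43 := by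
        calc √2 * (1 + b ^ 2) ≤ 1.415 * (1 + 1 / 4096) :=
              mul_le_mul hs2 (by linarith) (by positivity) (by norm_num)
          _ ≤ 1.43 := by norm_num
      have hwh : 0 < w ^ h := by positivity
      have h4 : √2 * (1 + b ^ 2) * (C * ∑ j ∈ range h, w ^ j * b ^ (2 * (h - j) - 1))
          ≤ 1.43 * (1.01 * w ^ h) := by
        apply mul_le_mul h3 hS (by positivity) (by norm_num)
      have h5 : (1.43 : ℝ) * (1.01 * w ^ h) ≤ 1.5 * w ^ h := by
        have : (1.43 : ℝ) * 1.01 ≤ 1.5 := by norm_num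
        nlinarith
      calc _ ≤ _ := h2
        _ = √2 * (1 + b ^ 2) * (C * ∑ j ∈ range h, w ^ j * b ^ (2 * (h - j) - 1)) := by ring
        _ ≤ _ := h4
        _ ≤ _ := h5
    have hgh1 : ‖g (h - 1)‖ ≤ √2 * b := by
      have := g2 (h - 1) (by omega)
      rwa [show 2 * (h - (h - 1)) - 1 = 1 by omega, pow_one] at this
    have hCb : C * (√2 * b) ≤ 0.36 := by
      have h1 : C * b ≤ 1 / 4 := by linarith
      calc C * (√2 * b) = √2 * (C * b) := by ring
        _ ≤ 1.415 * (1 / 4) := mul_le_mul hs2 h1 (by positivity) (by norm_num)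
        _ ≤ 0.36 := by norm_num
    have hwh : 0 < w ^ h := by positivity
    set S := ∑ j ∈ range h, w ^ j * ‖g j - if j = 0 then 0 else g (j - 1)‖ with hSdef
    -- total error
    have hT : S + w ^ h * ‖g (h - 1)‖ ≤ w ^ h * (2 / C) := by
      have h1 : C * (S + w ^ h * ‖g (h - 1)‖) ≤ w ^ h * 2 := by
        have h2 : w ^ h * (C * ‖g (h - 1)‖) ≤ w ^ h * 0.36 :=
          mul_le_mul_of_nonneg_left (le_trans (mul_le_mul_of_nonneg_left hgh1 hC0.le) hCb) hwh.le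
        nlinarith
      rw [mul_div_assoc', le_div_iff₀ hC0]
      linarith
    refine ⟨?_, ?_, hthird⟩
    · rw [Finset.sum_range_succ, if_neg (by omega : ¬ h = 0), g1 h (le_refl _)]
      have e1 : ∑ j ∈ range h, ((w ^ j : ℝ) : ℂ) * (g j - if j = 0 then 0 else g (j - 1))
          + ((w ^ h : ℝ) : ℂ) * (1 - g (h - 1)) - ((w ^ h : ℝ) : ℂ)
          = ∑ j ∈ range h, ((w ^ j : ℝ) : ℂ) * (g j - if j = 0 then 0 else g (j - 1))
          - ((w ^ h : ℝ) : ℂ) * g (h - 1) := by ring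
      rw [e1]
      have hn : ∀ j : ℕ, ‖((w ^ j : ℝ) : ℂ)‖ = w ^ j := by
        intro j
        rw [Complex.norm_real, Real.norm_eq_abs, abs_of_nonneg (by positivity)]
      have h1 : ‖∑ j ∈ range h, ((w ^ j : ℝ) : ℂ) * (g j - if j = 0 then 0 else g (j - 1))‖ ≤ S := by
        refine le_trans (norm_sum_le _ _) (le_of_eq ?_)
        apply Finset.sum_congr rfl
        intro j _
        rw [norm_mul, hn]
      have h2 : ‖((w ^ h : ℝ) : ℂ) * g (h - 1)‖ = w ^ h * ‖g (h - 1)‖ := by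
        rw [norm_mul, hn]
      have h5 : (2 : ℝ) / C ≤ Real.exp (σ + κ * h) - 1 := by
        have h6 : (1:ℝ) ≤ (h:ℝ) := by exact_mod_cast hpos
        have h8 : (2:ℝ) / C ≤ 4 / C := div_le_div_of_nonneg_right (by norm_num) hC0.le
        have h9 : κ * 1 ≤ κ * h := mul_le_mul_of_nonneg_left h6 hκ
        have h10 := Real.add_one_le_exp (σ + κ * h)
        linarith
      calc _ ≤ ‖∑ j ∈ range h, ((w ^ j : ℝ) : ℂ) * (g j - if j = 0 then 0 else g (j - 1))‖
            + ‖((w ^ h : ℝ) : ℂ) * g (h - 1)‖ := norm_sub_le _ _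
        _ ≤ S + w ^ h * ‖g (h - 1)‖ := by rw [h2]; linarith
        _ ≤ w ^ h * (2 / C) := hT
        _ ≤ w ^ h * (Real.exp (σ + κ * h) - 1) := mul_le_mul_of_nonneg_left h5 hwh.le
    · rw [Finset.sum_range_succ, if_neg (by omega : ¬ h = 0), g1 h (le_refl _)]
      have h1 : ‖(1:ℂ) - g (h - 1)‖ ≤ 1 + ‖g (h - 1)‖ := by
        refine le_trans (norm_sub_le _ _) ?_
        rw [norm_one]
      have h2 : w ^ h * ‖(1:ℂ) - g (h - 1)‖ ≤ w ^ h * (1 + ‖g (h - 1)‖) :=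
        mul_le_mul_of_nonneg_left h1 hwh.le
      have h3 : w ^ h * (2 / C) ≤ w ^ h * (1 / 8) := by
        apply mul_le_mul_of_nonneg_left _ hwh.le
        rw [div_le_div_iff₀ hC0 (by norm_num)]
        linarith
      have h4 : w ^ h ≤ (1/4 : ℝ) ^ h := pow_le_pow_left₀ hw0.le hw4 h
      have h5 : ((1:ℝ)/4) ^ h = (1/2) ^ h * (1/2) ^ h := by
        rw [← mul_pow]; norm_num
      have h6 : ((1:ℝ)/2) ^ h ≤ 1/2 := by
        calc ((1:ℝ)/2) ^ h ≤ (1/2) ^ 1 := pow_le_pow_of_le_one (by norm_num) (by norm_num) hpos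
          _ = 1/2 := by norm_num
      have h7 : (0:ℝ) < (1/2) ^ h := by positivity
      have h8 : ((1:ℝ)/2) ^ h * (1/2) ^ h ≤ (1/2) ^ h * (1/2) := mul_le_mul_of_nonneg_left h6 h7.le
      nlinarith

theorem Om_congr2 (w : ℕ → ℝ) (ts : List ℕ) (k : ℕ) (ψ ψ' : ℕ → ℂ) (hts : ∀ t ∈ ts, 1 ≤ t)
    (h : ∀ d : ℕ, 1 ≤ d → (∀ q : ℕ, q.Prime → q ∣ d → ∃ t ∈ ts, q ∣ t) → ψ d = ψ' d) :
    Om w ts k ψ = Om w ts k ψ' := by
  induction ts generalizing k ψ ψ' with
  | nil =>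
    show ψ 1 = ψ' 1
    apply h 1 le_rfl
    intro q hq hd
    exact absurd (Nat.dvd_one.1 hd) hq.one_lt.ne'
  | cons t ts ih =>
    have ht : 1 ≤ t := hts t (by simp)
    have key : ∀ (i m : ℕ), Om w ts m (fun d => ψ (t ^ i * d)) =
        Om w ts m (fun d => ψ' (t ^ i * d)) := by
      intro i m
      apply ih
      · intro t' ht'
        exact hts t' (by simp [ht'])
      · intro d hd hq
        apply h
        · exact Nat.mul_pos (Nat.pow_pos ht) hd
        · intro q hqp hqd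
          rcases (Nat.Prime.dvd_mul hqp).1 hqd with h1 | h1
          · exact ⟨t, by simp, hqp.dvd_of_dvd_pow h1⟩
          · obtain ⟨t', ht', hq'⟩ := hq q hqp h1
            exact ⟨t', by simp [ht'], hq'⟩
    simp only [Om]
    refine Finset.sum_congr rfl fun j _ => ?_
    rw [key j (k - j), key (j - 1) (k - j)]

theorem cop_of (a b : ℕ) (h : ∀ q : ℕ, q.Prime → q ∣ a → q ∣ b → False) : Nat.Coprime a b := by
  by_contra hc
  obtain ⟨q, hq, h1, h2⟩ := Nat.Prime.not_coprime_iff_dvd.1 hc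
  exact h q hq h1 h2

theorem cop_no {a b q : ℕ} (h : Nat.Coprime a b) (hq : q.Prime) (h1 : q ∣ a) (h2 : q ∣ b) :
    False :=
  Nat.Prime.not_coprime_iff_dvd.2 ⟨q, hq, h1, h2⟩ h

theorem step_eval2 (w : ℕ → ℝ) (t : ℕ) (qs : List ℕ) (hpq : ∀ s ∈ qs, Nat.Coprime t s)
    (hqs : ∀ q ∈ qs, 1 ≤ q) (x xp x' x1 : ℚ) (hx : x = xp + x')
    (hxp : ∀ q : ℕ, q.Prime → q ∣ xp.den → q ∣ t)
    (hx' : Nat.Coprime t x'.den) (hx1 : x1.den ∣ x'.den) (E' : ℕ → ℂ)
    (IH : ∀ (k c : ℕ), (∀ q ∈ qs, Nat.Coprime q c) →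
      Om w qs k (fun d => Gq (((c * d : ℕ) : ℚ) ^ 2 * x')) = Gq ((c : ℚ) ^ 2 * x1) * E' k)
    (c : ℕ) (hcp : Nat.Coprime t c) (hc : ∀ q ∈ qs, Nat.Coprime q c) (i m : ℕ) :
    Om w qs m (fun d => Gq (((c * (t ^ i * d) : ℕ) : ℚ) ^ 2 * x)) =
      Gq (((t ^ i : ℕ) : ℚ) ^ 2 * xp) * (Gq ((c : ℚ) ^ 2 * x1) * E' m) := by
  have h1 : Om w qs m (fun d => Gq (((c * (t ^ i * d) : ℕ) : ℚ) ^ 2 * x)) =
      Om w qs m (fun d => Gq (((t ^ i : ℕ) : ℚ) ^ 2 * xp) *
        Gq ((((c * t ^ i) * d : ℕ) : ℚ) ^ 2 * x')) := by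
    apply Om_congr2 w qs m _ _ hqs
    intro d hd hdq
    have hpd : ∀ q : ℕ, q.Prime → q ∣ t → q ∣ d → False := by
      intro q hq hqt hqd
      obtain ⟨s, hs, hqs⟩ := hdq q hq hqd
      exact cop_no (hpq s hs) hq hqt hqs
    rw [hx, mul_add, Gq_mul]
    · have e1 : Gq (((c * (t ^ i * d) : ℕ) : ℚ) ^ 2 * xp) = Gq (((t ^ i : ℕ) : ℚ) ^ 2 * xp) := by
        have e : ((c * (t ^ i * d) : ℕ) : ℚ) ^ 2 * xp =
            ((c * d : ℕ) : ℚ) ^ 2 * (((t ^ i : ℕ) : ℚ) ^ 2 * xp) := by push_cast; ring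
        rw [e]
        apply Gq_unit
        refine Nat.Coprime.coprime_dvd_right (den_dvd _ _) ?_
        apply cop_of
        intro q hq h1 h2
        have h3 := hxp q hq h2
        rcases (hq.dvd_mul).1 h1 with h | h
        · exact cop_no hcp hq h3 h
        · exact hpd q hq h3 h
      have e2 : c * (t ^ i * d) = c * t ^ i * d := by ring
      rw [e1, e2]
    · refine Nat.Coprime.coprime_dvd_left (den_dvd _ _)
        (Nat.Coprime.coprime_dvd_right (den_dvd _ _) ?_)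
      apply cop_of
      intro q hq h1 h2
      exact cop_no hx' hq (hxp q hq h1) h2
  rw [h1, Om_mul, IH m (c * t ^ i) ?_]
  · congr 2
    have e : ((c * t ^ i : ℕ) : ℚ) ^ 2 * x1 = ((t ^ i : ℕ) : ℚ) ^ 2 * ((c : ℚ) ^ 2 * x1) := by
      push_cast; ring
    rw [e]
    apply Gq_unit
    refine Nat.Coprime.coprime_dvd_right ((den_dvd _ _).trans hx1) ?_
    exact Nat.Coprime.pow_left i hx'
  · intro q hq
    exact (hc q hq).mul_right ((hpq q hq).symm.pow_right i)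

theorem big_norm2 (S A' : ℂ) (u ρ' a b : ℝ) (hu : 0 ≤ u) (hρ : 0 ≤ ρ') (ha : 0 ≤ a)
    (h1 : ‖S - (u : ℂ)‖ ≤ u * (Real.exp a - 1)) (h2 : ‖A' - (ρ' : ℂ)‖ ≤ ρ' * (Real.exp b - 1)) :
    ‖S * A' - ((u * ρ' : ℝ) : ℂ)‖ ≤ u * ρ' * (Real.exp (a + b) - 1) := by
  have hA : ‖A'‖ ≤ ρ' * Real.exp b := by
    have e : A' = (A' - (ρ' : ℂ)) + (ρ' : ℂ) := by ring
    rw [e]
    refine (norm_add_le _ _).trans ?_
    rw [Complex.norm_real, Real.norm_of_nonneg hρ]
    linarith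
  have e : S * A' - ((u * ρ' : ℝ) : ℂ) = (S - (u : ℂ)) * A' + (u : ℂ) * (A' - (ρ' : ℂ)) := by
    push_cast; ring
  rw [e]
  refine (norm_add_le _ _).trans ?_
  rw [norm_mul, norm_mul, Complex.norm_real, Real.norm_of_nonneg hu]
  have hp1 : 1 ≤ Real.exp a := Real.one_le_exp ha
  have h3 : ‖S - (u : ℂ)‖ * ‖A'‖ ≤ (u * (Real.exp a - 1)) * (ρ' * Real.exp b) :=
    mul_le_mul h1 hA (norm_nonneg _) (mul_nonneg hu (by linarith))
  have h4 : u * ‖A' - (ρ' : ℂ)‖ ≤ u * (ρ' * (Real.exp b - 1)) := mul_le_mul_of_nonneg_left h2 hu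
  refine (add_le_add h3 h4).trans (le_of_eq ?_)
  rw [Real.exp_add]
  ring

theorem big2 (κ : ℝ) (hκ : 0 ≤ κ) (w b C σ : ℕ → ℝ) (ts : List ℕ)
    (hcop : ts.Pairwise Nat.Coprime) (ht : ∀ t ∈ ts, 2 ≤ t)
    (hw : ∀ t ∈ ts, w t = C t * b t)
    (hb : ∀ t ∈ ts, ∃ τ : ℕ, 2 ≤ τ ∧ b t = 1 / √(τ : ℝ) ∧ ∀ q : ℕ, q.Prime → q ∣ t → τ ≤ q)
    (hC : ∀ t ∈ ts, 16 ≤ C t) (hbC : ∀ t ∈ ts, b t * (4 * C t) ≤ 1)
    (hσ : ∀ t ∈ ts, 0 ≤ σ t ∧ 4 / C t ≤ σ t + κ) (x : ℚ) :
    ∃ (x1 : ℚ) (h : ℕ) (E : ℕ → ℂ) (A : ℂ) (ρ : ℝ),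
      (∀ t ∈ ts, Nat.Coprime t x1.den) ∧ x1.den ∣ x.den ∧ 0 < ρ ∧ ρ ≤ 1 ∧
      (∀ (k c : ℕ), (∀ t ∈ ts, Nat.Coprime t c) →
        Om w ts k (fun d => Gq (((c * d : ℕ) : ℚ) ^ 2 * x)) = Gq ((c : ℚ) ^ 2 * x1) * E k) ∧
      (∀ k, h ≤ k → E k = A) ∧
      ‖A - (ρ : ℂ)‖ ≤ ρ * (Real.exp ((ts.map σ).sum + κ * h) - 1) ∧
      (∀ k, ‖E k‖ ≤ (1 / 2) ^ h) := by
  induction ts generalizing x with
  | nil =>
    refine ⟨x, 0, fun _ => 1, 1, 1, by simp, dvd_rfl, one_pos, le_rfl, ?_, fun _ _ => rfl,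
      by simp, by simp⟩
    intro k c _
    show Gq (((c * 1 : ℕ) : ℚ) ^ 2 * x) = Gq ((c : ℚ) ^ 2 * x) * 1
    rw [mul_one, mul_one]
  | cons t qs ih =>
    have ht2 : 2 ≤ t := ht t (by simp)
    have hpq : ∀ s ∈ qs, Nat.Coprime t s := (List.pairwise_cons.1 hcop).1
    have hqs : ∀ q ∈ qs, 1 ≤ q := fun q hq => by
      have := ht q (by simp [hq])
      omega
    obtain ⟨xp, x', hx, hxp, hx', hx'd⟩ := partial_frac2 x t (by omega)
    obtain ⟨x1, h', E', A', ρ', i1, i2, i3, i4, i5, i6, i7, i8⟩ :=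
      ih (List.pairwise_cons.1 hcop).2 (fun q hq => ht q (by simp [hq]))
        (fun q hq => hw q (by simp [hq])) (fun q hq => hb q (by simp [hq]))
        (fun q hq => hC q (by simp [hq])) (fun q hq => hbC q (by simp [hq]))
        (fun q hq => hσ q (by simp [hq])) x'
    obtain ⟨τ, hτ2, hbτ, hτq⟩ := hb t (by simp)
    obtain ⟨hh, d1, d2⟩ := decay t τ ht2 hτ2 hτq xp hxp Gq_norm Gq_int
    set g : ℕ → ℂ := fun j => Gq (((t ^ j : ℕ) : ℚ) ^ 2 * xp) with hg
    have hτ0 : (0:ℝ) < τ := by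
      have : 0 < τ := by omega
      exact_mod_cast this
    have hb0 : 0 < b t := by
      rw [hbτ]
      positivity
    rw [← hbτ] at d2
    have hCt : 16 ≤ C t := hC t (by simp)
    have hσt := hσ t (by simp)
    obtain ⟨o1, o2, o3⟩ := one_prime2 g hh (b t) (C t) κ (σ t) hb0 hCt (hbC t (by simp)) hκ
      hσt.1 hσt.2 d1 d2
    have hwp : w t = C t * b t := hw t (by simp)
    rw [← hwp] at o1 o2
    have hwpos : 0 < w t := by
      rw [hwp]
      have : 0 < C t := by linarith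
      positivity
    have hw1 : w t ≤ 1 := by
      rw [hwp]
      have h1 := hbC t (by simp)
      have h2 : 0 ≤ C t * b t := by
        rw [← hwp]
        exact hwpos.le
      linarith
    set D : ℕ → ℂ := fun j => g j - if j = 0 then 0 else g (j - 1) with hD
    have ho1 : ‖∑ j ∈ range (hh + 1), ((w t ^ j : ℝ) : ℂ) * D j - ((w t ^ hh : ℝ) : ℂ)‖ ≤
        w t ^ hh * (Real.exp (σ t + κ * hh) - 1) := o1
    have ho2 : ∑ j ∈ range (hh + 1), w t ^ j * ‖D j‖ ≤ (1 / 2) ^ hh := o2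
    have ho3 : ∀ j, hh < j → D j = 0 := o3
    refine ⟨x1, hh + h', fun k => ∑ j ∈ range (k + 1), ((w t ^ j : ℝ) : ℂ) * D j * E' (k - j),
      (∑ j ∈ range (hh + 1), ((w t ^ j : ℝ) : ℂ) * D j) * A', w t ^ hh * ρ', ?_, ?_, ?_, ?_, ?_,
      ?_, ?_, ?_⟩
    · intro q hq
      rcases List.mem_cons.1 hq with rfl | hq
      · exact Nat.Coprime.coprime_dvd_right i2 hx'
      · exact i1 q hq
    · exact i2.trans hx'd
    · positivity
    · calc w t ^ hh * ρ' ≤ 1 * 1 := mul_le_mul (pow_le_one₀ hwpos.le hw1) i4 i3.le zero_le_one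
        _ = 1 := one_mul 1
    · intro k c hc
      have hcp : Nat.Coprime t c := hc t (by simp)
      have hcq : ∀ q ∈ qs, Nat.Coprime q c := fun q hq => hc q (by simp [hq])
      have hev := fun i m => step_eval2 w t qs hpq hqs x xp x' x1 hx hxp hx' i2 E' i5 c hcp
        hcq i m
      show ∑ j ∈ range (k + 1), ((w t ^ j : ℝ) : ℂ) *
        (Om w qs (k - j) (fun d => Gq (((c * (t ^ j * d) : ℕ) : ℚ) ^ 2 * x)) -
          if j = 0 then 0 else
            Om w qs (k - j) (fun d => Gq (((c * (t ^ (j - 1) * d) : ℕ) : ℚ) ^ 2 * x))) = _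
      rw [Finset.mul_sum]
      refine Finset.sum_congr rfl fun j _ => ?_
      rw [hev, hev]
      simp only [hD, hg]
      split_ifs <;> ring
    · intro k hk
      have hs : range (hh + 1) ⊆ range (k + 1) := by
        intro j hj
        rw [Finset.mem_range] at *
        omega
      rw [Finset.sum_mul]
      show ∑ j ∈ range (k + 1), ((w t ^ j : ℝ) : ℂ) * D j * E' (k - j) = _
      rw [← Finset.sum_subset hs]
      · refine Finset.sum_congr rfl fun j hj => ?_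
        rw [Finset.mem_range] at hj
        rw [i6 (k - j) (by omega)]
      · intro j _ hj
        rw [Finset.mem_range] at hj
        rw [ho3 j (by omega), mul_zero, zero_mul]
    · have hbn := big_norm2 _ _ _ _ _ _ (pow_nonneg hwpos.le _) i3.le
        (add_nonneg hσt.1 (mul_nonneg hκ (Nat.cast_nonneg hh))) ho1 i7
      refine hbn.trans (le_of_eq ?_)
      have he : σ t + κ * (hh : ℝ) + ((List.map σ qs).sum + κ * (h' : ℝ)) =
          (List.map σ (t :: qs)).sum + κ * ((hh + h' : ℕ) : ℝ) := by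
        rw [List.map_cons, List.sum_cons]
        push_cast
        ring
      rw [he]
    · intro k
      have h1 : ∀ j ∈ range (k + 1), ‖((w t ^ j : ℝ) : ℂ) * D j * E' (k - j)‖ ≤
          w t ^ j * ‖D j‖ * (1 / 2) ^ h' := by
        intro j _
        rw [norm_mul, norm_mul, Complex.norm_real, Real.norm_of_nonneg (pow_nonneg hwpos.le _)]
        exact mul_le_mul_of_nonneg_left (i8 _) (mul_nonneg (pow_nonneg hwpos.le _) (norm_nonneg _))
      refine (norm_sum_le _ _).trans ((Finset.sum_le_sum h1).trans ?_)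
      rw [← Finset.sum_mul, pow_add]
      refine mul_le_mul_of_nonneg_right (le_trans ?_ ho2) (by positivity)
      have h2 : range (k + 1) ⊆ range (max k hh + 1) := by
        intro j hj
        rw [Finset.mem_range] at *
        omega
      have h3 : range (hh + 1) ⊆ range (max k hh + 1) := by
        intro j hj
        rw [Finset.mem_range] at *
        omega
      rw [Finset.sum_subset h3 (by
        intro j _ hj
        rw [Finset.mem_range] at hj
        rw [ho3 j (by omega), norm_zero, mul_zero])]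
      exact Finset.sum_le_sum_of_subset_of_nonneg h2 fun j _ _ =>
        mul_nonneg (pow_nonneg hwpos.le _) (norm_nonneg _)

theorem ll_exp2 (n h : ℕ) (hn : 1 ≤ n) (hh : h ≤ n) (s : ℝ) (hs : s ≤ 1 / 1000) :
    Real.exp (s + 4 / (1000 * (n : ℝ)) * h) - 1 ≤ 51 / 10000 := by
  have hn0 : (0 : ℝ) < n := by exact_mod_cast hn
  have hh' : (h : ℝ) ≤ n := by exact_mod_cast hh
  have h1 : 4 / (1000 * (n : ℝ)) * h ≤ 4 / 1000 := by
    have h2 : 4 / (1000 * (n : ℝ)) * h ≤ 4 / (1000 * (n : ℝ)) * n :=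
      mul_le_mul_of_nonneg_left hh' (by positivity)
    have h3 : 4 / (1000 * (n : ℝ)) * n = 4 / 1000 := by
      field_simp
    linarith
  have h2 : Real.exp (s + 4 / (1000 * (n : ℝ)) * h) ≤ Real.exp (5 / 1000) :=
    Real.exp_le_exp.mpr (by linarith)
  have h5 := Real.add_one_le_exp (-(5 / 1000) : ℝ)
  have h6 : Real.exp (5 / 1000) * Real.exp (-(5 / 1000)) = 1 := by
    rw [← Real.exp_add, add_neg_cancel, Real.exp_zero]
  have h7 := Real.exp_pos (5 / 1000)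
  have h8 : Real.exp (5 / 1000) ≤ 1 + 51 / 10000 := by nlinarith
  linarith

theorem local_lemma2 (n : ℕ) (hn : 1 ≤ n) (w : ℕ → ℝ) (ts : List ℕ) (M J0 P : ℕ) (hM : 2 ≤ M)
    (hJ0 : J0 = 1000 * (n + 1)) (hMts : ∀ t ∈ ts, Nat.Coprime t M)
    (hP : 2 * 4 ^ n ≤ P)
    (hcov : ∀ q : ℕ, q.Prime → q ∣ M ∨ (∃ t ∈ ts, q ∣ t) ∨ P ≤ q) (s : ℝ) (hs : s ≤ 1 / 1000)
    (x : ℚ)
    (hbig : ∃ (x1 : ℚ) (h : ℕ) (E : ℕ → ℂ) (A : ℂ) (ρ : ℝ),
      (∀ t ∈ ts, Nat.Coprime t x1.den) ∧ x1.den ∣ x.den ∧ 0 < ρ ∧ ρ ≤ 1 ∧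
      (∀ (k c : ℕ), (∀ t ∈ ts, Nat.Coprime t c) →
        Om w ts k (fun d => Gq (((c * d : ℕ) : ℚ) ^ 2 * x)) = Gq ((c : ℚ) ^ 2 * x1) * E k) ∧
      (∀ k, h ≤ k → E k = A) ∧
      ‖A - (ρ : ℂ)‖ ≤ ρ * (Real.exp (s + 4 / (1000 * (n : ℝ)) * h) - 1) ∧
      (∀ k, ‖E k‖ ≤ (1 / 2) ^ h)) :
    ∃ ρ : ℝ, 0 ≤ ρ ∧ ρ ≤ 1 ∧
      ‖Omega w ts n M J0 (fun d => Gq ((d : ℚ) ^ 2 * x)) - (ρ : ℂ)‖ ≤
        (1 / 100) * ρ + 2 * (1 / 2) ^ n := by
  obtain ⟨x1, h, E, A, ρb, ha, hb, hρ0, hρ1, hc, hd, he, hf⟩ := hbig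
  obtain ⟨g, hg⟩ : ∃ g : ℕ → ℂ, ∀ j, g j = Gq (((M ^ j : ℕ) : ℚ) ^ 2 * x1) := ⟨_, fun j => rfl⟩
  obtain ⟨S, hS⟩ : ∃ S : ℂ, S = (1 / 1000 : ℂ) * ∑ j ∈ range J0,
      (((999 / 1000 : ℝ) ^ j : ℝ) : ℂ) * g j + (((999 / 1000 : ℝ) ^ J0 : ℝ) : ℂ) * g J0 :=
    ⟨_, rfl⟩
  have hOm : ∀ j, Om w ts n (fun d => Gq (((M ^ j * d : ℕ) : ℚ) ^ 2 * x)) = g j * E n := by
    intro j
    rw [hg]
    exact hc n (M ^ j) (fun t ht => (hMts t ht).pow_right j)
  have hOmega : Omega w ts n M J0 (fun d => Gq ((d : ℚ) ^ 2 * x)) = S * E n := by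
    unfold Omega
    simp only [hOm]
    rw [hS, add_mul, mul_assoc (1 / 1000 : ℂ), Finset.sum_mul]
    simp only [mul_assoc]
  have hE1 : ‖E n‖ ≤ 1 := (hf n).trans (pow_le_one₀ (by norm_num) (by norm_num))
  have hpow0 : (0 : ℝ) < (1 / 2) ^ n := by positivity
  rw [hOmega]
  by_cases hcase : ∃ q : ℕ, q.Prime ∧ q ∣ x1.den ∧ ¬ q ∣ M
  · obtain ⟨q, hq, hq1, hq2⟩ := hcase
    have hqP : 2 * 4 ^ n ≤ q := by
      rcases hcov q hq with h1 | h1 | h1
      · exact absurd h1 hq2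
      · exfalso
        obtain ⟨t, ht, hqt⟩ := h1
        have hcop := ha t ht
        have h2 : q ∣ Nat.gcd t x1.den := Nat.dvd_gcd hqt hq1
        rw [hcop] at h2
        exact hq.one_lt.ne' (Nat.dvd_one.mp h2)
      · exact hP.trans h1
    have hgn : ∀ j, ‖g j‖ ≤ (1 / 2) ^ n := by
      intro j
      rw [hg]
      have h1 := Gq_norm (((M ^ j : ℕ) : ℚ) ^ 2 * x1)
      have h2 := ll_den q M j x1 hq hq1 hq2 hM
      have h3 : 2 * 4 ^ n ≤ (((M ^ j : ℕ) : ℚ) ^ 2 * x1).den :=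
        hqP.trans (Nat.le_of_dvd (Rat.den_pos _) h2)
      have h4 : (2 * 4 ^ n : ℝ) ≤ ((((M ^ j : ℕ) : ℚ) ^ 2 * x1).den : ℝ) := by exact_mod_cast h3
      have h5 : √2 * 2 ^ n ≤ √((((M ^ j : ℕ) : ℚ) ^ 2 * x1).den : ℝ) := by
        have e1 : √2 * 2 ^ n = √(2 * 4 ^ n) := by
          have e2 : (4 : ℝ) ^ n = (2 ^ n) ^ 2 := by
            rw [← pow_mul, mul_comm n 2, pow_mul]
            norm_num
          rw [e2, Real.sqrt_mul (by norm_num), Real.sqrt_sq (by positivity)]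
        rw [e1]
        exact Real.sqrt_le_sqrt h4
      have h6 : √2 / √((((M ^ j : ℕ) : ℚ) ^ 2 * x1).den : ℝ) ≤ √2 / (√2 * 2 ^ n) := by
        apply div_le_div_of_nonneg_left (by positivity) (by positivity) h5
      have h7 : √2 / (√2 * 2 ^ n) = (1 / 2) ^ n := by
        have : √2 ≠ 0 := by positivity
        rw [one_div, inv_pow]
        field_simp
      rw [h7] at h6
      exact h1.trans h6
    have hSn := ll_norm g J0 _ hgn
    rw [← hS] at hSn
    refine ⟨0, le_refl _, by norm_num, ?_⟩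
    rw [Complex.ofReal_zero, sub_zero, norm_mul]
    have h1 : ‖S‖ * ‖E n‖ ≤ (1 / 2) ^ n * 1 := mul_le_mul hSn hE1 (norm_nonneg _) hpow0.le
    linarith
  · push Not at hcase
    obtain ⟨hh0, hs1, hs2⟩ := decay M 2 hM (le_refl _) (fun q hq _ => hq.two_le) x1 hcase
      Gq_norm Gq_int
    have hSn : ‖S‖ ≤ 1 := by
      rw [hS]
      exact ll_norm g J0 1 (fun j => by rw [hg]; exact Gq_le_one _)
    obtain ⟨ρs, hr0, hr1, hr2⟩ := small_part g hh0 J0 (fun j hj => by rw [hg]; exact hs1 j hj)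
      (fun j hj => by
        rw [hg]
        refine (hs2 j hj).trans (le_of_eq ?_)
        obtain ⟨l, hl⟩ : ∃ l, hh0 - j = l + 1 := ⟨hh0 - j - 1, by omega⟩
        rw [hl]
        have e1 : 2 * (l + 1) - 1 = 2 * l + 1 := by omega
        have e2 : ((2 : ℕ) : ℝ) = 2 := by norm_num
        rw [e1, e2, pow_succ, pow_mul]
        have e3 : (1 / √2 : ℝ) ^ 2 = 1 / 2 := by
          rw [div_pow, Real.sq_sqrt (by norm_num), one_pow]
        rw [e3, pow_succ (1 / 2 : ℝ) l]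
        have e4 : √2 * (1 / √2) = 1 := by
          rw [mul_one_div_cancel (by positivity)]
        calc √2 * ((1 / 2) ^ l * (1 / √2)) = (√2 * (1 / √2)) * (1 / 2) ^ l := by ring
          _ = 2 * ((1 / 2) ^ l * (1 / 2)) := by rw [e4]; ring)
    rw [← hS] at hr2
    rcases Nat.lt_or_ge n h with hnh | hnh
    · refine ⟨0, le_refl _, by norm_num, ?_⟩
      rw [Complex.ofReal_zero, sub_zero, norm_mul]
      have h1 : ‖E n‖ ≤ (1 / 2) ^ n :=
        (hf n).trans (pow_le_pow_of_le_one (by norm_num) (by norm_num) hnh.le)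
      have h2 : ‖S‖ * ‖E n‖ ≤ 1 * (1 / 2) ^ n := mul_le_mul hSn h1 (norm_nonneg _) zero_le_one
      linarith
    · have hEA : E n = A := hd n hnh
      rw [hEA]
      obtain ⟨π0, hπ0⟩ : ∃ π0 : ℝ, π0 = (999 / 1000 : ℝ) ^ J0 := ⟨_, rfl⟩
      have hπ1 : π0 ≤ (1 / 2) ^ (n + 1) := by
        rw [hπ0, hJ0]
        exact ll_pow1000 n
      have hπ2 : 0 ≤ π0 := by
        rw [hπ0]
        positivity
      rw [← hπ0] at hr2
      have hδ := ll_exp2 n h hn hnh s hs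
      obtain ⟨δ, hδ0⟩ : ∃ δ : ℝ, δ = Real.exp (s + 4 / (1000 * (n : ℝ)) * h) - 1 := ⟨_, rfl⟩
      rw [← hδ0] at hδ he
      have hAρ : ‖A - (ρb : ℂ)‖ ≤ ρb * (51 / 10000) :=
        he.trans (mul_le_mul_of_nonneg_left hδ hρ0.le)
      refine ⟨ρs * ρb, mul_nonneg hr0 hρ0.le, mul_le_one₀ hr1 hρ0.le hρ1, ?_⟩
      have e1 : S * A - ((ρs * ρb : ℝ) : ℂ) = (S - (ρs : ℂ)) * (ρb : ℂ) + S * (A - (ρb : ℂ)) := by
        push_cast
        ring
      have hS2 : ‖S‖ ≤ (1 / 400) * ρs + 2 * π0 + ρs := by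
        have h1 : S = (S - (ρs : ℂ)) + (ρs : ℂ) := by ring
        calc ‖S‖ = ‖(S - (ρs : ℂ)) + (ρs : ℂ)‖ := by rw [← h1]
          _ ≤ ‖S - (ρs : ℂ)‖ + ‖(ρs : ℂ)‖ := norm_add_le _ _
          _ ≤ (1 / 400) * ρs + 2 * π0 + ρs := by
              rw [Complex.norm_real, Real.norm_eq_abs, abs_of_nonneg hr0]
              linarith
      have h2 : ‖(S - (ρs : ℂ)) * (ρb : ℂ)‖ ≤ ((1 / 400) * ρs + 2 * π0) * ρb := by
        rw [norm_mul, Complex.norm_real, Real.norm_eq_abs, abs_of_nonneg hρ0.le]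
        exact mul_le_mul_of_nonneg_right hr2 hρ0.le
      have h3 : ‖S * (A - (ρb : ℂ))‖ ≤ ((1 / 400) * ρs + 2 * π0 + ρs) * (ρb * (51 / 10000)) := by
        rw [norm_mul]
        exact mul_le_mul hS2 hAρ (norm_nonneg _) (by positivity)
      rw [e1]
      refine (norm_add_le _ _).trans ?_
      have h4 : π0 * ρb ≤ π0 := by
        calc π0 * ρb ≤ π0 * 1 := mul_le_mul_of_nonneg_left hρ1 hπ2
          _ = π0 := mul_one _
      have h5 : 0 ≤ ρs * ρb := mul_nonneg hr0 hρ0.le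
      rw [pow_succ] at hπ1
      nlinarith

theorem inv_sqrt_sum' (L : ℕ) : ∑ l ∈ range L, 1 / √((l:ℝ) + 1) ≤ 2 * √(L:ℝ) := by
  induction L with
  | zero => simp
  | succ L ih =>
    rw [sum_range_succ]
    have h1 : 1 / √((L:ℝ)+1) ≤ 2 * √((L:ℝ)+1) - 2 * √(L:ℝ) := by
      have hp : 0 < √((L:ℝ)+1) := Real.sqrt_pos.mpr (by positivity)
      rw [div_le_iff₀ hp]
      have h2 : √((L:ℝ)+1) * √((L:ℝ)+1) = L + 1 := Real.mul_self_sqrt (by positivity)
      have h3 : √(L:ℝ) * √(L:ℝ) = L := Real.mul_self_sqrt (by positivity)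
      nlinarith [sq_nonneg (√((L:ℝ)+1) - √(L:ℝ))]
    push_cast
    linarith

theorem primorial_prime' (b : ℕ) (hb : b.Prime) : primorial b = b * primorial (b - 1) := by
  have h1 : b - 1 + 1 = b := Nat.sub_add_cancel hb.one_le
  unfold primorial
  rw [h1, Finset.range_add_one, Finset.filter_insert, if_pos hb, Finset.prod_insert (by simp)]

/-- set of primes of level `l` -/
noncomputable def sl (K P0 P1 l : ℕ) : Finset ℕ :=
  (range (P1 + 1)).filter (fun p => p.Prime ∧ P0 < p ∧ Nat.log 2 (primorial (p - 1)) / K = l)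

theorem sl_mem (K P0 P1 l p : ℕ) : p ∈ sl K P0 P1 l ↔
    p ≤ P1 ∧ p.Prime ∧ P0 < p ∧ Nat.log 2 (primorial (p - 1)) / K = l := by
  unfold sl
  rw [Finset.mem_filter, Finset.mem_range, Nat.lt_succ_iff]

theorem lev_low (K p : ℕ) : 2 ^ ((Nat.log 2 (primorial (p - 1)) / K) * K) ≤ primorial (p - 1) := by
  have h1 := Nat.pow_log_le_self 2 (primorial_pos (p - 1)).ne'
  exact (Nat.pow_le_pow_right (by norm_num) (Nat.div_mul_le_self _ _)).trans h1

theorem lev_up (K p : ℕ) (hK : 0 < K) :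
    primorial (p - 1) ≤ 2 ^ (((Nat.log 2 (primorial (p - 1)) / K) + 1) * K) := by
  have h1 := Nat.lt_pow_succ_log_self (b := 2) (by norm_num) (primorial (p - 1))
  have h2 : Nat.log 2 (primorial (p - 1)) < K * (Nat.log 2 (primorial (p - 1)) / K + 1) :=
    Nat.lt_mul_div_succ _ hK
  have h3 : (Nat.log 2 (primorial (p - 1))) + 1 ≤ (Nat.log 2 (primorial (p - 1)) / K + 1) * K := by
    rw [mul_comm]; exact h2
  exact h1.le.trans (Nat.pow_le_pow_right (by norm_num) h3)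

theorem sl_size (K P0 P1 l : ℕ) (hK : 0 < K) (hP : P1 ≤ 2 ^ K) :
    ∏ p ∈ sl K P0 P1 l, p ≤ 2 ^ (2 * K) := by
  by_cases hne : (sl K P0 P1 l).Nonempty
  · obtain ⟨a, ha⟩ : ∃ a, a = (sl K P0 P1 l).min' hne := ⟨_, rfl⟩
    obtain ⟨b, hb⟩ : ∃ b, b = (sl K P0 P1 l).max' hne := ⟨_, rfl⟩
    have ham : a ∈ sl K P0 P1 l := by rw [ha]; exact Finset.min'_mem _ _
    have hbm : b ∈ sl K P0 P1 l := by rw [hb]; exact Finset.max'_mem _ _
    have ham' := (sl_mem _ _ _ _ _).1 ham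
    have hbm' := (sl_mem _ _ _ _ _).1 hbm
    have h1 : (∏ p ∈ sl K P0 P1 l, p) * primorial (a - 1) ≤ primorial b := by
      have hdisj : Disjoint (sl K P0 P1 l) ((range (a - 1 + 1)).filter Nat.Prime) := by
        rw [Finset.disjoint_left]
        intro p hp hp'
        have h2 : a ≤ p := by rw [ha]; exact Finset.min'_le _ _ hp
        have h3 := Finset.mem_range.mp (Finset.mem_filter.mp hp').1
        have h4 := ham'.2.1.one_le
        omega
      have h5 : (∏ p ∈ sl K P0 P1 l, p) * primorial (a - 1) =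
          ∏ p ∈ sl K P0 P1 l ∪ (range (a - 1 + 1)).filter Nat.Prime, p := by
        rw [Finset.prod_union hdisj]
        rfl
      rw [h5]
      unfold primorial
      apply Finset.prod_le_prod_of_subset_of_one_le'
      · intro p hp
        rcases Finset.mem_union.mp hp with hp | hp
        · have h6 := (sl_mem _ _ _ _ _).1 hp
          have h7 : p ≤ b := by rw [hb]; exact Finset.le_max' _ _ hp
          exact Finset.mem_filter.mpr ⟨Finset.mem_range.mpr (by omega), h6.2.1⟩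
        · have h6 := Finset.mem_filter.mp hp
          have h7 := Finset.mem_range.mp h6.1
          have h8 : a ≤ b := by rw [hb]; exact Finset.le_max' _ _ ham
          have h9 := ham'.2.1.one_le
          exact Finset.mem_filter.mpr ⟨Finset.mem_range.mpr (by omega), h6.2⟩
      · intro p hp _
        exact (Finset.mem_filter.mp hp).2.one_le
    rw [primorial_prime' b hbm'.2.1] at h1
    have hlow := lev_low K a
    rw [ham'.2.2.2] at hlow
    have hup := lev_up K b hK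
    rw [hbm'.2.2.2] at hup
    have h2 : (∏ p ∈ sl K P0 P1 l, p) * 2 ^ (l * K) ≤ 2 ^ K * 2 ^ ((l + 1) * K) :=
      (Nat.mul_le_mul_left _ hlow).trans (h1.trans (Nat.mul_le_mul (hbm'.1.trans hP) hup))
    have h3 : 2 ^ K * 2 ^ ((l + 1) * K) = 2 ^ (2 * K) * 2 ^ (l * K) := by
      rw [← pow_add, ← pow_add]
      congr 1
      ring
    rw [h3] at h2
    exact Nat.le_of_mul_le_mul_right h2 (by positivity)
  · rw [Finset.not_nonempty_iff_eq_empty] at hne
    rw [hne, Finset.prod_empty]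
    exact Nat.one_le_two_pow

theorem sl_prime_dvd (K P0 P1 l q : ℕ) (hq : q.Prime) (h : q ∣ ∏ p ∈ sl K P0 P1 l, p) :
    q ∈ sl K P0 P1 l := by
  obtain ⟨p, hp, hqp⟩ := (Prime.dvd_finsetProd_iff hq.prime _).1 h
  have h1 := (sl_mem _ _ _ _ _).1 hp
  rw [(Nat.prime_dvd_prime_iff_eq hq h1.2.1).1 hqp]
  exact hp

theorem sl_lower (K P0 P1 l q : ℕ) (h : q ∈ sl K P0 P1 l) : l * K ≤ 2 * (q - 1) := by
  have h1 := (sl_mem _ _ _ _ _).1 h
  have h2 := lev_low K q
  rw [h1.2.2.2] at h2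
  have h3 := h2.trans (primorial_le_four_pow (q - 1))
  have h4 : (4 : ℕ) ^ (q - 1) = 2 ^ (2 * (q - 1)) := by
    rw [pow_mul]; norm_num
  rw [h4] at h3
  exact (Nat.pow_le_pow_iff_right (by norm_num)).1 h3

/-- the small primes in groups of product `≤ 2^(2K)` -/
theorem groups (n : ℕ) (hn : 1 ≤ n) (K P0 P1 : ℕ) (hK : K = 10 ^ 9 * n) (hP0 : P0 = 2 ^ 34)
    (hP1 : P1 = (4000 * n) ^ 2) :
    ∃ ts : List ℕ, ts.Pairwise Nat.Coprime ∧ (∀ t ∈ ts, 2 ≤ t ∧ t ≤ 2 ^ (2 * K)) ∧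
      (∀ t ∈ ts, ∀ q : ℕ, q.Prime → q ∣ t → P0 < q ∧ q ≤ P1) ∧
      (∀ q : ℕ, q.Prime → P0 < q → q ≤ P1 → ∃ t ∈ ts, q ∣ t) ∧
      ts.length ≤ n + 1 ∧
      (ts.map (fun t => 16 / √((Nat.minFac t : ℕ) : ℝ))).sum ≤ 1 / 1000 := by
  have hK0 : 0 < K := by omega
  have hP1K : P1 ≤ 2 ^ K := by
    have h1 : n ≤ 2 ^ n := Nat.lt_two_pow_self.le
    have h2 : P1 ≤ 2 ^ (24 + 2 * n) := by
      calc P1 = 16000000 * (n * n) := by rw [hP1]; ring
        _ ≤ 2 ^ 24 * (2 ^ n * 2 ^ n) := Nat.mul_le_mul (by norm_num) (Nat.mul_le_mul h1 h1)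
        _ = 2 ^ (24 + 2 * n) := by rw [pow_add, two_mul, pow_add]
    exact h2.trans (Nat.pow_le_pow_right (by norm_num) (by omega))
  obtain ⟨L, hL⟩ : ∃ L, L = 2 * P1 / K := ⟨_, rfl⟩
  have hLn : L ≤ n := by
    rw [hL]
    apply Nat.div_le_of_le_mul
    rw [hP1, hK]
    nlinarith
  obtain ⟨t, ht⟩ : ∃ t : ℕ → ℕ, ∀ l, t l = ∏ p ∈ sl K P0 P1 l, p := ⟨_, fun _ => rfl⟩
  let I : Finset ℕ := (range (L + 1)).filter (fun l => 2 ≤ t l)
  refine ⟨I.toList.map t, ?_, ?_, ?_, ?_, ?_, ?_⟩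
  · rw [List.pairwise_map]
    apply List.Nodup.pairwise_of_forall_ne I.nodup_toList
    intro l _ m _ hlm
    rw [ht, ht]
    apply Nat.Coprime.prod_left
    intro p hp
    apply Nat.Coprime.prod_right
    intro q hq
    have h1 := (sl_mem _ _ _ _ _).1 hp
    have h2 := (sl_mem _ _ _ _ _).1 hq
    apply (Nat.coprime_primes h1.2.1 h2.2.1).2
    rintro rfl
    exact hlm (h1.2.2.2.symm.trans h2.2.2.2)
  · intro s hs
    obtain ⟨l, hl, rfl⟩ := List.mem_map.mp hs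
    rw [Finset.mem_toList] at hl
    refine ⟨(Finset.mem_filter.mp hl).2, ?_⟩
    rw [ht]
    exact sl_size K P0 P1 l hK0 hP1K
  · intro s hs q hq hqs
    obtain ⟨l, hl, rfl⟩ := List.mem_map.mp hs
    rw [ht] at hqs
    have h1 := (sl_mem _ _ _ _ _).1 (sl_prime_dvd K P0 P1 l q hq hqs)
    exact ⟨h1.2.2.1, h1.1⟩
  · intro q hq hq0 hq1
    obtain ⟨l, hl⟩ : ∃ l, l = Nat.log 2 (primorial (q - 1)) / K := ⟨_, rfl⟩
    have hmem : q ∈ sl K P0 P1 l := (sl_mem _ _ _ _ _).2 ⟨hq1, hq, hq0, hl.symm⟩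
    have hdvd : q ∣ t l := by rw [ht]; exact Finset.dvd_prod_of_mem (fun p => p) hmem
    have hpos : 0 < t l := by
      rw [ht]
      exact Finset.prod_pos (fun p hp => ((sl_mem _ _ _ _ _).1 hp).2.1.pos)
    have h2 : 2 ≤ t l := hq.two_le.trans (Nat.le_of_dvd hpos hdvd)
    have hlL : l ≤ L := by
      have h3 := sl_lower K P0 P1 l q hmem
      rw [hL, Nat.le_div_iff_mul_le hK0]
      omega
    refine ⟨t l, List.mem_map_of_mem (Finset.mem_toList.mpr (Finset.mem_filter.mpr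
      ⟨Finset.mem_range.mpr (by omega), h2⟩)), hdvd⟩
  · rw [List.length_map, Finset.length_toList]
    exact (Finset.card_filter_le _ _).trans (by rw [Finset.card_range]; omega)
  · rw [List.map_map]
    have e1 : (List.map ((fun t : ℕ => 16 / √((Nat.minFac t : ℕ) : ℝ)) ∘ t) I.toList).sum =
        ∑ l ∈ I, 16 / √((Nat.minFac (t l) : ℕ) : ℝ) := by
      rw [Finset.sum_map_toList]
      rfl
    rw [e1]
    have hKr : (0:ℝ) < K := by exact_mod_cast hK0
    let g : ℕ → ℝ := fun l => if l = 0 then 16 / 131072 else 16 / √((l:ℝ) * K / 2)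
    have hg0 : ∀ l, 0 ≤ g l := by
      intro l
      simp only [g]
      split_ifs <;> positivity
    have hle : ∀ l ∈ I, 16 / √((Nat.minFac (t l) : ℕ) : ℝ) ≤ g l := by
      intro l hl
      have h2 := (Finset.mem_filter.mp hl).2
      have hq : (Nat.minFac (t l)).Prime := Nat.minFac_prime (by omega)
      have hqd : Nat.minFac (t l) ∣ ∏ p ∈ sl K P0 P1 l, p := by rw [← ht]; exact Nat.minFac_dvd _
      have hmem := sl_prime_dvd K P0 P1 l _ hq hqd
      obtain ⟨q, hqq⟩ : ∃ q, q = Nat.minFac (t l) := ⟨_, rfl⟩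
      rw [← hqq] at hmem hq ⊢
      have h3 := (sl_mem _ _ _ _ _).1 hmem
      have h4 := sl_lower K P0 P1 l q hmem
      simp only [g]
      split_ifs with h0
      · apply div_le_div_of_nonneg_left (by norm_num) (by norm_num)
        apply Real.le_sqrt_of_sq_le
        have h5 : P0 < q := h3.2.2.1
        rw [hP0] at h5
        have h6 : ((2:ℝ) ^ 34) ≤ q := by exact_mod_cast h5.le
        have h7 : (131072 : ℝ) ^ 2 = 2 ^ 34 := by norm_num
        rw [h7]; exact h6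
      · have hl0 : (0:ℝ) < l := by exact_mod_cast Nat.pos_of_ne_zero h0
        apply div_le_div_of_nonneg_left (by norm_num) (by positivity)
        apply Real.sqrt_le_sqrt
        have h5 : l * K ≤ 2 * q := h4.trans (by omega)
        have h6 : (l:ℝ) * K ≤ 2 * q := by exact_mod_cast h5
        linarith
    have hsum1 : ∑ l ∈ I, 16 / √((Nat.minFac (t l) : ℕ) : ℝ) ≤ ∑ l ∈ range (L + 1), g l :=
      (Finset.sum_le_sum hle).trans
        (Finset.sum_le_sum_of_subset_of_nonneg (Finset.filter_subset _ _) (fun l _ _ => hg0 l))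
    refine hsum1.trans ?_
    rw [Finset.sum_range_succ']
    have hg1 : ∀ l, g (l + 1) = 16 / √((K:ℝ) / 2) * (1 / √((l:ℝ) + 1)) := by
      intro l
      simp only [g]
      rw [if_neg (Nat.succ_ne_zero l)]
      push_cast
      rw [show ((l:ℝ) + 1) * K / 2 = (K / 2) * ((l:ℝ) + 1) by ring,
        Real.sqrt_mul (by positivity), div_mul_div_comm, mul_one]
    rw [Finset.sum_congr rfl (fun l _ => hg1 l), ← Finset.mul_sum]
    have hgz : g 0 = 16 / 131072 := by simp [g]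
    rw [hgz]
    have hs := inv_sqrt_sum' L
    have hLr : (L:ℝ) ≤ 2 * P1 / K := by
      rw [hL]
      have := Nat.cast_div_le (α := ℝ) (m := 2 * P1) (n := K)
      push_cast at this
      exact this
    have hsq : 0 < √((K:ℝ) / 2) := Real.sqrt_pos.mpr (by positivity)
    have h8 : √(L:ℝ) ≤ 4 / 1000000 * √((K:ℝ) / 2) * 2 := by
      apply Real.sqrt_le_iff.mpr
      refine ⟨by positivity, ?_⟩
      have h9 : (4 / 1000000 * √((K:ℝ) / 2) * 2)^2 = 64 / 1000000000000 * (K / 2) := by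
        rw [mul_pow, mul_pow, Real.sq_sqrt (by positivity)]; norm_num; ring
      rw [h9]
      refine hLr.trans ?_
      rw [div_le_iff₀ hKr]
      have hn0 : (0:ℝ) ≤ n := by positivity
      have hKn : (K:ℝ) = 10 ^ 9 * n := by rw [hK]; push_cast; ring
      have hPn : (P1:ℝ) = 16000000 * (n * n) := by rw [hP1]; push_cast; ring
      rw [hKn, hPn]
      nlinarith [mul_nonneg hn0 hn0]
    have h10 : 16 / √((K:ℝ) / 2) * ∑ l ∈ range L, 1 / √((l:ℝ) + 1) ≤ 16 / √((K:ℝ) / 2) * (2 * (4 / 1000000 * √((K:ℝ) / 2) * 2)) := by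
      apply mul_le_mul_of_nonneg_left _ (by positivity)
      linarith
    have h11 : 16 / √((K:ℝ) / 2) * (2 * (4 / 1000000 * √((K:ℝ) / 2) * 2)) = 256 / 1000000 := by
      field_simp
      norm_num
    rw [h11] at h10
    linarith

theorem params2 (n A K P0 D M : ℕ) (hn : 1 ≤ n) (hA : A = 10 ^ 14) (hK : K = 10 ^ 9 * n)
    (hP0 : P0 = 2 ^ 34) (hD : D = 2 ^ (A * n ^ 2)) (hM : M ≤ 4 ^ P0) :
    1000 ≤ D ∧ M ^ (1000 * (n + 1)) * (2 ^ (2 * K)) ^ n ≤ D ∧
      (2 * 4 ^ n + n + 2) ^ n * 2 ^ n ≤ D ∧ 2 ^ (n + 6) ≤ D := by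
  have hA' : A = 100000000000000 := by rw [hA]; norm_num
  have hK' : K = 1000000000 * n := by rw [hK]; norm_num
  have hP0' : P0 = 17179869184 := by rw [hP0]; norm_num
  clear hA hK hP0
  have hn2 : n ≤ n ^ 2 := by nlinarith
  have hn1 : 1 ≤ n ^ 2 := hn.trans hn2
  have hmono : ∀ a : ℕ, a ≤ A * n ^ 2 → 2 ^ a ≤ D := by
    intro a ha
    rw [hD]
    exact Nat.pow_le_pow_right (by norm_num) ha
  refine ⟨?_, ?_, ?_, ?_⟩
  · refine le_trans (by norm_num : 1000 ≤ 2 ^ 10) (hmono 10 ?_)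
    rw [hA']
    nlinarith
  · have h1 : M ^ (1000 * (n + 1)) ≤ 2 ^ (2 * P0 * (1000 * (n + 1))) := by
      have h2 : M ≤ 2 ^ (2 * P0) := by
        rw [pow_mul]
        exact hM
      rw [pow_mul 2 (2 * P0)]
      exact Nat.pow_le_pow_left h2 _
    have h3 : (2 ^ (2 * K)) ^ n = 2 ^ (2 * K * n) := by rw [← pow_mul]
    rw [h3]
    refine (Nat.mul_le_mul_right _ h1).trans ?_
    rw [← pow_add]
    apply hmono
    rw [hA', hK', hP0']
    nlinarith
  · have h1 : n + 2 ≤ 3 * 4 ^ n := by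
      have : n < 4 ^ n := Nat.lt_pow_self (by norm_num)
      omega
    have h2 : 2 * 4 ^ n + n + 2 ≤ 2 ^ (2 * n + 3) := by
      have e : 2 ^ (2 * n + 3) = 8 * 4 ^ n := by
        rw [pow_add, pow_mul]
        norm_num
        ring
      rw [e]
      omega
    refine (Nat.mul_le_mul_right _ (Nat.pow_le_pow_left h2 n)).trans ?_
    rw [← pow_mul, ← pow_add]
    apply hmono
    rw [hA']
    nlinarith
  · apply hmono
    rw [hA']
    nlinarith

theorem final_ineq2 (δ : ℕ → ℝ) (B : ℕ) (hB : B ≤ 41 * 10 ^ 14) (h1 : ∀ H, δ H ≤ 1)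
    (h2 : ∀ n H : ℕ, 1 ≤ n → 2 ^ (B * n ^ 2) ≤ H → δ H ≤ 64 * (1 / 2) ^ n)
    (H : ℕ) (hH : 2 ≤ H) :
    δ H ≤ 128 * Real.exp (-√(Real.log H) / 10 ^ 8) := by
  by_cases hB0 : B = 0
  · obtain ⟨n, hn⟩ := exists_pow_lt_of_lt_one
      (Real.exp_pos (-√(Real.log H) / 10 ^ 8)) (by norm_num : (1 / 2 : ℝ) < 1)
    have h3 := h2 (n + 1) H (by omega) (by rw [hB0, zero_mul, pow_zero]; omega)
    have h4 : (1 / 2 : ℝ) ^ (n + 1) ≤ (1 / 2 : ℝ) ^ n :=
      pow_le_pow_of_le_one (by norm_num) (by norm_num) (Nat.le_succ n)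
    have h5 := Real.exp_pos (-√(Real.log H) / 10 ^ 8)
    linarith
  · have hB1 : 1 ≤ B := Nat.one_le_iff_ne_zero.mpr hB0
    have hex : ∃ m : ℕ, H < 2 ^ (B * (m + 1) ^ 2) := by
      refine ⟨H, ?_⟩
      have h3 : H < 2 ^ H := Nat.lt_two_pow_self
      have h4 : H ≤ B * (H + 1) ^ 2 := by
        have : 1 * H ≤ B * (H + 1) ^ 2 := Nat.mul_le_mul hB1 (by nlinarith)
        omega
      exact h3.trans_le (Nat.pow_le_pow_right (by norm_num) h4)
    obtain ⟨n, hn, hmin⟩ : ∃ n, H < 2 ^ (B * (n + 1) ^ 2) ∧ ∀ m < n, ¬ H < 2 ^ (B * (m + 1) ^ 2) := by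
      classical
      exact ⟨Nat.find hex, Nat.find_spec hex, fun m hm => Nat.find_min hex hm⟩
    have hlog2 := Real.log_two_lt_d9
    have hlog2' := Real.log_two_gt_d9
    have hHpos : (0 : ℝ) < (H : ℝ) := by
      have : 0 < H := by omega
      exact_mod_cast this
    have hHle : (H : ℝ) ≤ (2 : ℝ) ^ (B * (n + 1) ^ 2) := by exact_mod_cast hn.le
    have hL : Real.log H ≤ ((B * (n + 1) ^ 2 : ℕ) : ℝ) * Real.log 2 := by
      rw [← Real.log_pow]
      exact Real.log_le_log hHpos hHle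
    have hBr : (B : ℝ) ≤ 41 * 10 ^ 14 := by exact_mod_cast hB
    have hL2 : Real.log H ≤ (54000000 * ((n : ℝ) + 1)) ^ 2 := by
      refine hL.trans ?_
      push_cast
      have h3 : (B : ℝ) * Real.log 2 ≤ (54000000 : ℝ) ^ 2 := by
        have h4 : (B : ℝ) * Real.log 2 ≤ (41 * 10 ^ 14) * 0.6931471808 :=
          mul_le_mul hBr hlog2.le (by linarith) (by norm_num)
        refine h4.trans ?_
        norm_num
      calc (B : ℝ) * ((n : ℝ) + 1) ^ 2 * Real.log 2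
          = ((B : ℝ) * Real.log 2) * ((n : ℝ) + 1) ^ 2 := by ring
        _ ≤ (54000000 : ℝ) ^ 2 * ((n : ℝ) + 1) ^ 2 :=
            mul_le_mul_of_nonneg_right h3 (sq_nonneg _)
        _ = (54000000 * ((n : ℝ) + 1)) ^ 2 := by ring
    have hsq : √(Real.log H) ≤ 54000000 * ((n : ℝ) + 1) := by
      have h3 : (0 : ℝ) ≤ 54000000 * ((n : ℝ) + 1) := by positivity
      rw [Real.sqrt_le_left h3]
      exact hL2
    have hexp : (1 / 2 : ℝ) ^ (n + 1) ≤ Real.exp (-√(Real.log H) / 10 ^ 8) := by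
      have h3 : (1 / 2 : ℝ) ^ (n + 1) = Real.exp (-(((n : ℝ) + 1) * Real.log 2)) := by
        rw [Real.exp_neg, ← Real.log_rpow (by norm_num : (0 : ℝ) < 2),
          Real.exp_log (by positivity)]
        have h4 : ((2 : ℝ) ^ ((n : ℝ) + 1)) = (2 : ℝ) ^ (n + 1) := by
          rw [← Real.rpow_natCast]
          push_cast
          rfl
        rw [h4, one_div, inv_pow]
      rw [h3]
      apply Real.exp_le_exp.2
      rw [le_div_iff₀ (by norm_num : (0 : ℝ) < 10 ^ 8)]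
      have h5 : (0 : ℝ) ≤ (n : ℝ) + 1 := by positivity
      nlinarith
    rcases Nat.eq_zero_or_pos n with h0 | h0
    · subst h0
      have h3 := h1 H
      norm_num at hexp
      linarith
    · have h3 := hmin (n - 1) (by omega)
      rw [Nat.sub_add_cancel h0] at h3
      have h4 := h2 n H h0 (not_lt.1 h3)
      rw [pow_succ] at hexp
      linarith


theorem prime_dvd_primorial {q N : ℕ} (hq : q.Prime) (h : q ∣ primorial N) : q ≤ N := by
  unfold primorial at h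
  rw [Prime.dvd_finsetProd_iff hq.prime] at h
  obtain ⟨p, hp, hqp⟩ := h
  rw [Finset.mem_filter, Finset.mem_range] at hp
  have := (Nat.prime_dvd_prime_iff_eq hq hp.2).mp hqp
  omega

theorem dvd_primorial_of_le {q N : ℕ} (hq : q.Prime) (h : q ≤ N) : q ∣ primorial N := by
  unfold primorial
  apply Finset.dvd_prod_of_mem (fun p => p)
  rw [Finset.mem_filter, Finset.mem_range]
  exact ⟨by omega, hq⟩

/-- the data exist, with `log D` of order `n²` -/
theorem exists_data2 (n : ℕ) (hn : 1 ≤ n) (A K P0 : ℕ) (hA : A = 10 ^ 14) (hK : K = 10 ^ 9 * n)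
    (hP0 : P0 = 2 ^ 34) : ∃ S : Data n, S.D = 2 ^ (A * n ^ 2) := by
  obtain ⟨P1, hP1⟩ : ∃ P1 : ℕ, P1 = (4000 * n) ^ 2 := ⟨_, rfl⟩
  obtain ⟨gs, g1, g2, g3, g4, g5, g6⟩ := groups n hn K P0 P1 hK hP0 hP1
  obtain ⟨M, hM⟩ : ∃ M : ℕ, M = primorial P0 := ⟨_, rfl⟩
  set ps : List ℕ := (List.range (2 * 4 ^ n)).filter
    (fun p => decide (p.Prime ∧ P1 < p ∧ P0 < p)) with hps
  have hmem : ∀ p ∈ ps, p.Prime ∧ P1 < p ∧ P0 < p ∧ p < 2 * 4 ^ n := by
    intro p hp
    rw [hps, List.mem_filter] at hp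
    simp only [List.mem_range, decide_eq_true_eq] at hp
    exact ⟨hp.2.1, hp.2.2.1, hp.2.2.2, hp.1⟩
  have hnd : ps.Nodup := List.Nodup.filter _ List.nodup_range
  have hn0 : (1 : ℝ) ≤ n := by exact_mod_cast hn
  have hP0pos : 4096 < P0 := by rw [hP0]; norm_num
  set mf : ℕ → ℝ := fun t => ((Nat.minFac t : ℕ) : ℝ) with hmf
  set w : ℕ → ℝ := fun t => if Nat.minFac t ≤ P1 then 1 / 4 else
    (1000 * (n : ℝ)) * (1 / √(mf t)) with hw
  set b : ℕ → ℝ := fun t => 1 / √(mf t) with hb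
  set C : ℕ → ℝ := fun t => if Nat.minFac t ≤ P1 then √(mf t) / 4 else 1000 * (n : ℝ) with hC
  set σ : ℕ → ℝ := fun t => if Nat.minFac t ≤ P1 then 16 / √(mf t) else 0 with hσ
  set ts : List ℕ := gs ++ ps with hts
  have hgmf : ∀ t ∈ gs, (Nat.minFac t).Prime ∧ P0 < Nat.minFac t ∧ Nat.minFac t ≤ P1 := by
    intro t ht
    have h2 := (g2 t ht).1
    have hp : (Nat.minFac t).Prime := Nat.minFac_prime (by omega)
    have := g3 t ht _ hp (Nat.minFac_dvd t)
    exact ⟨hp, this.1, this.2⟩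
  have hpmf : ∀ p ∈ ps, Nat.minFac p = p := fun p hp => (hmem p hp).1.minFac_eq
  have hts2 : ∀ t ∈ ts, 2 ≤ t := by
    intro t ht
    rw [hts, List.mem_append] at ht
    rcases ht with ht | ht
    · exact (g2 t ht).1
    · exact (hmem t ht).1.two_le
  have hbig : ∀ t ∈ ts, P0 < Nat.minFac t := by
    intro t ht
    rw [hts, List.mem_append] at ht
    rcases ht with ht | ht
    · exact (hgmf t ht).2.1
    · rw [hpmf t ht]; exact (hmem t ht).2.2.1
  have hsq64 : ∀ t ∈ ts, 64 ≤ √(mf t) := by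
    intro t ht
    apply Real.le_sqrt_of_sq_le
    have h1 : 4096 ≤ Nat.minFac t := by have := hbig t ht; omega
    have h2 : (4096 : ℝ) ≤ ((Nat.minFac t : ℕ) : ℝ) := by exact_mod_cast h1
    norm_num
    exact h2
  have hps_sq : ∀ p ∈ ps, 4000 * (n : ℝ) ≤ √(mf p) := by
    intro p hp
    apply Real.le_sqrt_of_sq_le
    show _ ≤ ((Nat.minFac p : ℕ) : ℝ)
    rw [hpmf p hp]
    have h1 := (hmem p hp).2.1
    rw [hP1] at h1
    have : (((4000 * n) ^ 2 : ℕ) : ℝ) ≤ p := by exact_mod_cast h1.le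
    push_cast at this
    exact this
  -- hypotheses of `big2`
  have hcop : ts.Pairwise Nat.Coprime := by
    rw [hts, List.pairwise_append]
    refine ⟨g1, ?_, ?_⟩
    · refine List.Pairwise.imp_of_mem ?_ hnd
      intro p q hp hq hne
      exact (Nat.coprime_primes (hmem p hp).1 (hmem q hq).1).mpr hne
    · intro g hg p hp
      rw [Nat.coprime_comm]
      rw [(hmem p hp).1.coprime_iff_not_dvd]
      intro hdv
      have h1 := (g3 g hg p (hmem p hp).1 hdv).2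
      have h2 := (hmem p hp).2.1
      omega
  have hwCb : ∀ t ∈ ts, w t = C t * b t := by
    intro t ht
    have h64 := hsq64 t ht
    have h0 : √(mf t) ≠ 0 := by linarith
    simp only [hw, hC, hb]
    split_ifs
    · field_simp
    · rfl
  have hbτ : ∀ t ∈ ts, ∃ τ : ℕ, 2 ≤ τ ∧ b t = 1 / √(τ : ℝ) ∧
      ∀ q : ℕ, q.Prime → q ∣ t → τ ≤ q := by
    intro t ht
    refine ⟨Nat.minFac t, ?_, rfl, fun q hq hqt => Nat.minFac_le_of_dvd hq.two_le hqt⟩
    have := hbig t ht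
    omega
  have hC16 : ∀ t ∈ ts, 16 ≤ C t := by
    intro t ht
    have h64 := hsq64 t ht
    simp only [hC]
    split_ifs
    · linarith
    · linarith
  have hbC : ∀ t ∈ ts, b t * (4 * C t) ≤ 1 := by
    intro t ht
    have h64 := hsq64 t ht
    have h0 : √(mf t) ≠ 0 := by linarith
    simp only [hC, hb]
    split_ifs with hc
    · apply le_of_eq; field_simp
    · rw [hts, List.mem_append] at ht
      rcases ht with ht | ht
      · exact absurd (hgmf t ht).2.2 hc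
      · have h1 := hps_sq t ht
        rw [one_div_mul_eq_div, div_le_one (by linarith)]
        linarith
  have hσ' : ∀ t ∈ ts, 0 ≤ σ t ∧ 4 / C t ≤ σ t + 4 / (1000 * (n : ℝ)) := by
    intro t ht
    have h64 := hsq64 t ht
    have h0 : √(mf t) ≠ 0 := by linarith
    have hκ : 0 ≤ 4 / (1000 * (n : ℝ)) := by positivity
    simp only [hC, hσ]
    split_ifs with hc
    · refine ⟨by positivity, ?_⟩
      have : 4 / (√(mf t) / 4) = 16 / √(mf t) := by field_simp; norm_num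
      rw [this]; linarith
    · exact ⟨le_rfl, by linarith⟩
  have hsum : (ts.map σ).sum ≤ 1 / 1000 := by
    rw [hts, List.map_append, List.sum_append]
    have e1 : gs.map σ = gs.map (fun t => 16 / √((Nat.minFac t : ℕ) : ℝ)) := by
      apply List.map_congr_left
      intro t ht
      simp only [hσ]
      rw [if_pos (hgmf t ht).2.2]
    have e2 : (ps.map σ).sum = 0 := by
      apply List.sum_eq_zero
      intro y hy
      rw [List.mem_map] at hy
      obtain ⟨p, hp, rfl⟩ := hy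
      simp only [hσ]
      rw [if_neg]
      rw [hpmf p hp]
      have := (hmem p hp).2.1
      omega
    rw [e1, e2, add_zero]
    exact g6
  have hw1 : ∀ t ∈ ts, 0 ≤ w t ∧ w t ≤ 1 / 4 := by
    intro t ht
    have h64 := hsq64 t ht
    constructor
    · simp only [hw]
      split_ifs
      · norm_num
      · positivity
    · rw [hwCb t ht]
      have := hbC t ht
      linarith
  have hM2 : 2 ≤ M := by
    have h1 : 2 ∣ M := by
      rw [hM]; exact dvd_primorial_of_le Nat.prime_two (by omega)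
    have h2 : 0 < M := by rw [hM]; exact primorial_pos _
    exact Nat.le_of_dvd h2 h1
  have hMle : M ≤ 4 ^ P0 := by rw [hM]; exact primorial_le_four_pow _
  obtain ⟨D, hD⟩ : ∃ D : ℕ, D = 2 ^ (A * n ^ 2) := ⟨_, rfl⟩
  obtain ⟨p1, p2, p3, p4⟩ := params2 n A K P0 D M hn hA hK hP0 hD hMle
  have hMts : ∀ t ∈ ts, Nat.Coprime t M := by
    intro t ht
    by_contra hne
    rw [Nat.Prime.not_coprime_iff_dvd] at hne
    obtain ⟨q, hq, hqt, hqM⟩ := hne
    rw [hM] at hqM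
    have h1 := prime_dvd_primorial hq hqM
    have h2 := hbig t ht
    have h3 := Nat.minFac_le_of_dvd hq.two_le hqt
    omega
  have h4n : 2 * 4 ^ n ≤ 2 ^ (2 * K) := by
    have : 2 * 4 ^ n = 2 ^ (2 * n + 1) := by
      rw [pow_succ, pow_mul]; norm_num; ring
    rw [this]
    apply Nat.pow_le_pow_right (by norm_num)
    omega
  have hlen : ps.length ≤ 2 * 4 ^ n := by
    rw [hps]
    refine (List.length_filter_le _ _).trans ?_
    rw [List.length_range]
  refine ⟨⟨w, ts, M, D, p1, p4, ?_, ?_⟩, hD⟩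
  · intro ψ B hB h
    have h1 := Omega_norm w ts n M (1000 * (n + 1)) (2 ^ (2 * K)) D ψ B hB hw1
      (fun t ht => ⟨by have := hts2 t ht; omega, by
        rw [hts, List.mem_append] at ht
        rcases ht with ht | ht
        · exact (g2 t ht).2
        · exact (hmem t ht).2.2.2.le.trans h4n⟩)
      (Nat.one_le_two_pow) (by omega) p2 h
    refine h1.trans ?_
    apply mul_le_mul_of_nonneg_right _ hB
    have h2 : ((ts.length : ℝ) + 1) ^ n ≤ ((2 * 4 ^ n + n + 2 : ℕ) : ℝ) ^ n := by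
      apply pow_le_pow_left₀ (by positivity)
      have h3 : ts.length + 1 ≤ 2 * 4 ^ n + n + 2 := by
        rw [hts, List.length_append]; omega
      exact_mod_cast h3
    refine h2.trans ?_
    have h3 : (((2 * 4 ^ n + n + 2 : ℕ) : ℝ)) ^ n * 2 ^ n ≤ (D : ℝ) := by
      exact_mod_cast p3
    rw [one_div, inv_pow, ← div_eq_mul_inv, le_div_iff₀ (by positivity)]
    exact h3
  · intro x
    apply local_lemma2 n hn w ts M (1000 * (n + 1)) (2 * 4 ^ n) hM2 rfl hMts le_rfl ?_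
      ((ts.map σ).sum) hsum x
    · exact big2 (4 / (1000 * (n : ℝ))) (by positivity) w b C σ ts hcop hts2 hwCb hbτ hC16 hbC hσ' x
    · intro q hq
      by_cases h0 : q ≤ P0
      · left; rw [hM]; exact dvd_primorial_of_le hq h0
      · right
        by_cases h1 : q ≤ P1
        · left
          obtain ⟨t, ht, hqt⟩ := g4 q hq (by omega) h1
          exact ⟨t, by rw [hts]; exact List.mem_append_left _ ht, hqt⟩
        · by_cases h2 : q < 2 * 4 ^ n
          · left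
            refine ⟨q, ?_, dvd_rfl⟩
            rw [hts]
            apply List.mem_append_right
            rw [hps, List.mem_filter]
            simp only [List.mem_range, decide_eq_true_eq]
            exact ⟨h2, hq, by omega, by omega⟩
          · right; omega

theorem δ_sqrt (H : ℕ) (hH : 2 ≤ H) :
    δ H ≤ 128 * Real.exp (-√(Real.log H) / 10 ^ 8) := by
  obtain ⟨A, hA⟩ : ∃ A : ℕ, A = 10 ^ 14 := ⟨_, rfl⟩
  obtain ⟨P0, hP0⟩ : ∃ P0 : ℕ, P0 = 2 ^ 34 := ⟨_, rfl⟩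
  apply final_ineq2 δ (41 * A) (by omega) δ_le_one _ H hH
  intro n H' hn hH'
  obtain ⟨S, hS⟩ := exists_data2 n hn A (10 ^ 9 * n) P0 hA rfl hP0
  apply level hn S H'
  rw [hS, ← pow_mul]
  refine le_trans (le_of_eq ?_) hH'
  congr 1
  ring

end Pool.Agent.VdCSquares.Q
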